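import Pool.Agent.Lib.MP_44acff_gt.EK.Core

open Set Metric Topology Filter

namespace Pool.Agent.Lib.MP_44acff_gt.EK

variable {E : Type} [NormedAddCommGroup E] [InnerProductSpace ℝ E]

theorem a1_self (w : ℝ × E) : lor w w = ‖w.2‖ ^ 2 - w.1 ^ 2 := by
  rw [lor, real_inner_self_eq_norm_sq, sq w.1]

theorem a1_tl {w : ℝ × E} : TL w ↔ ‖w.2‖ < w.1 := by
  rw [TL, a1_self, sub_neg]
  exact ⟨fun h => lt_of_pow_lt_pow_left₀ 2 h.2.le h.1, fun h =>
    ⟨pow_lt_pow_left₀ h (norm_nonneg _) two_ne_zero, (norm_nonneg _).trans_lt h⟩⟩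

theorem a1_caus {w : ℝ × E} (h : Caus w) : ‖w.2‖ ≤ w.1 := by
  have h1 := h.1
  rw [a1_self, sub_nonpos] at h1
  exact le_of_pow_le_pow_left₀ two_ne_zero h.2.le h1

theorem continuous_lor : Continuous fun p : (ℝ × E) × (ℝ × E) => lor p.1 p.2 := by
  unfold lor
  fun_prop

theorem a1_cont (y : Hyp E) : Tendsto (Hyp.v : Hyp E → ℝ × E) (𝓝 y) (𝓝 y.v) := by
  obtain ⟨c, hc⟩ : ∃ c : Hyp E → ℝ, c = fun x => Real.cosh (dist x y) - 1 := ⟨_, rfl⟩
  have h0 : Tendsto c (𝓝 y) (𝓝 0) := by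
    have : Continuous c := by rw [hc]; fun_prop
    simpa [hc] using this.tendsto y
  have h1 : ∀ x : Hyp E, lor x.v y.v = -(c x + 1) := fun x => by
    rw [hc]
    simp only [cosh_dist]
    ring
  have h2 : ∀ x : Hyp E, (x.v.1 - (c x + 1) * y.v.1) ^ 2 ≤
      ((c x + 1) ^ 2 - 1) * (y.v.1 ^ 2 - 1) := fun x => by
    have e1 : ∀ z : Hyp E, lor z.v (Hyp.o : Hyp E).v = -z.v.1 := fun z => by simp [lor, Hyp.o]
    have := lor_sq_le y (u := x.v + lor x.v y.v • y.v) (w := (Hyp.o : Hyp E).v - y.v.1 • y.v)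
      (by rw [lor_add_left, lor_smul_left, y.unit]; ring)
      (by rw [lor_sub_left, lor_smul_left, y.unit, lor_comm, e1]; ring)
    simp only [lor_add_left, lor_add_right, lor_sub_left, lor_sub_right, lor_smul_left,
      lor_smul_right, x.unit, y.unit, Hyp.o.unit, lor_comm y.v x.v, lor_comm Hyp.o.v y.v, e1 x,
      e1 y, h1] at this
    nlinarith
  have h3 : Tendsto (fun x : Hyp E => x.v.1 - (c x + 1) * y.v.1) (𝓝 y) (𝓝 0) := by
    have h4 : Tendsto (fun x => √(((c x + 1) ^ 2 - 1) * (y.v.1 ^ 2 - 1))) (𝓝 y) (𝓝 0) := by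
      simpa using ((((h0.add_const 1).pow 2).sub_const 1).mul_const (y.v.1 ^ 2 - 1)).sqrt
    exact squeeze_zero_norm (fun x => Real.abs_le_sqrt (h2 x)) h4
  have h4 : Tendsto (fun x : Hyp E => x.v.1) (𝓝 y) (𝓝 y.v.1) := by
    simpa using h3.add ((h0.add_const 1).mul_const y.v.1)
  have h5 : ∀ x : Hyp E, ‖x.v.2 - y.v.2‖ = √(2 * c x + (x.v.1 - y.v.1) ^ 2) := fun x => by
    have := a1_self (x.v - y.v)
    simp only [lor_sub_left, lor_sub_right, x.unit, y.unit, lor_comm y.v x.v, h1, Prod.fst_sub,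
      Prod.snd_sub] at this
    rw [← Real.sqrt_sq (norm_nonneg (x.v.2 - y.v.2))]
    congr 1
    linarith
  have h6 : Tendsto (fun x : Hyp E => x.v.2) (𝓝 y) (𝓝 y.v.2) := by
    rw [tendsto_iff_norm_sub_tendsto_zero]
    simp only [h5]
    simpa using ((h0.const_mul 2).add ((h4.sub_const y.v.1).pow 2)).sqrt
  exact h4.prodMk_nhds h6

theorem Hyp.isClosedEmbedding_v : IsClosedEmbedding (Hyp.v : Hyp E → ℝ × E) := by
  refine ⟨⟨isInducing_iff_nhds.2 fun y => le_antisymm (a1_cont y).le_comap ?_,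
    fun _ _ h => Hyp.ext h⟩, ?_⟩
  · refine tendsto_id'.1 (tendsto_iff_dist_tendsto_zero.2 ?_)
    have h1 : Tendsto (fun x : Hyp E => -lor x.v y.v) (comap Hyp.v (𝓝 y.v)) (𝓝[Ici 1] 1) := by
      refine tendsto_nhdsWithin_iff.2 ⟨?_, .of_forall fun x => one_le_neg_lor x y⟩
      have h2 : Continuous fun w : ℝ × E => -lor w y.v :=
        (continuous_lor.comp (continuous_id.prodMk continuous_const)).neg
      have h3 := (h2.tendsto y.v).comp (tendsto_comap (f := Hyp.v))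
      rwa [y.unit, neg_neg] at h3
    have h4 := (Real.continuousOn_arcosh 1 self_mem_Ici).tendsto.comp h1
    rwa [Real.arcosh_zero] at h4
  · have : range (Hyp.v : Hyp E → ℝ × E) = {w | lor w w = -1} ∩ {w | 0 ≤ w.1} := by
      refine Subset.antisymm ?_ fun w ⟨h1, h2⟩ => ⟨⟨w, h1, lt_of_le_of_ne h2 fun h => ?_⟩, rfl⟩
      · rintro _ ⟨x, rfl⟩
        exact ⟨x.unit, x.pos.le⟩
      · have h3 : lor w w = -1 := h1
        rw [a1_self, ← h] at h3
        nlinarith [sq_nonneg ‖w.2‖]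
    rw [this]
    exact (isClosed_eq (continuous_lor.comp (continuous_id.prodMk continuous_id))
      continuous_const).inter (isClosed_le continuous_const continuous_fst)

theorem Hyp.continuous_v : Continuous (Hyp.v : Hyp E → ℝ × E) :=
  Hyp.isClosedEmbedding_v.continuous

theorem Hyp.tendsto_iff {α : Type} {l : Filter α} {f : α → Hyp E} {x : Hyp E} :
    Tendsto f l (𝓝 x) ↔ Tendsto (fun a => (f a).v) l (𝓝 x.v) :=
  Hyp.isClosedEmbedding_v.isEmbedding.tendsto_nhds_iff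

theorem Hyp.fst_eq (x : Hyp E) : x.v.1 = Real.cosh (dist x Hyp.o) := by
  rw [cosh_dist]
  simp [lor, Hyp.o]

theorem Hyp.norm_snd_lt (x : Hyp E) : ‖x.v.2‖ < x.v.1 :=
  a1_tl.1 ⟨by rw [x.unit]; norm_num, x.pos⟩

instance Hyp.properSpace [FiniteDimensional ℝ E] : ProperSpace (Hyp E) := by
  have := FiniteDimensional.proper_real E
  refine ⟨fun x r => (Hyp.isClosedEmbedding_v.isCompact_preimage (isCompact_closedBall 0
    (Real.cosh (r + dist x Hyp.o)))).of_isClosed_subset isClosed_closedBall fun z hz => ?_⟩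
  have h1 : z.v.1 ≤ Real.cosh (r + dist x Hyp.o) := by
    have h2 := dist_triangle z x Hyp.o
    have h3 := mem_closedBall.1 hz
    rw [z.fst_eq, Real.cosh_le_cosh, abs_of_nonneg dist_nonneg]
    exact le_trans (by linarith) (le_abs_self _)
  rw [mem_preimage, mem_closedBall_zero_iff, Prod.norm_def, Real.norm_of_nonneg z.pos.le]
  exact max_le h1 (z.norm_snd_lt.le.trans h1)

theorem sq_half_le_cosh (d : ℝ) : d ^ 2 / 2 ≤ Real.cosh d - 1 := by
  have h1 := Real.cosh_two_mul (d / 2)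
  rw [Real.cosh_sq, mul_div_cancel₀ d two_ne_zero] at h1
  have h2 : |d / 2| ≤ |Real.sinh (d / 2)| := by
    rw [Real.abs_sinh]
    exact Real.self_le_sinh_iff.2 (abs_nonneg _)
  have h3 := sq_le_sq.2 h2
  linarith

theorem Hyp.tl (x : Hyp E) : TL x.v := a1_tl.2 x.norm_snd_lt

theorem TL.caus {w : ℝ × E} (h : TL w) : Caus w := ⟨h.1.le, h.2⟩

theorem nrm_self (x : Hyp E) : nrm x.v = x := by
  refine Hyp.ext ?_
  rw [nrm_v x.tl, x.unit, neg_neg, Real.sqrt_one, inv_one, one_smul]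

theorem TL.smul {w : ℝ × E} (h : TL w) {c : ℝ} (hc : 0 < c) : TL (c • w) :=
  ⟨by
    rw [lor_smul_left, lor_smul_right]
    exact mul_neg_of_pos_of_neg hc (mul_neg_of_pos_of_neg hc h.1), mul_pos hc h.2⟩

theorem nrm_smul {w : ℝ × E} (h : TL w) {c : ℝ} (hc : 0 < c) : nrm (c • w) = nrm w := by
  refine Hyp.ext ?_
  rw [nrm_v h, nrm_v (h.smul hc), lor_smul_left, lor_smul_right,
    show -(c * (c * lor w w)) = c ^ 2 * -lor w w by ring, Real.sqrt_mul (sq_nonneg c),
    Real.sqrt_sq hc.le, smul_smul, mul_inv, mul_right_comm, inv_mul_cancel₀ hc.ne', one_mul]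

theorem isOpen_TL : IsOpen {w : ℝ × E | TL w} := by
  simp only [a1_tl]
  exact isOpen_lt continuous_snd.norm continuous_fst

theorem continuousOn_nrm : ContinuousOn (nrm : ℝ × E → Hyp E) {w | TL w} := by
  rw [Hyp.isClosedEmbedding_v.isInducing.continuousOn_iff]
  have h1 : Continuous fun w : ℝ × E => √(-lor w w) :=
    (continuous_lor.comp (continuous_id.prodMk continuous_id)).neg.sqrt
  exact ((h1.continuousOn.inv₀ fun w hw => (Real.sqrt_pos.2 (neg_pos.2 hw.1)).ne').smul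
    continuousOn_id).congr fun w hw => nrm_v hw

theorem neg_lor_pos (x : Hyp E) {ν : ℝ × E} (h : Caus ν) : 0 < -lor x.v ν := by
  have h1 := real_inner_le_norm x.v.2 ν.2
  have h2 := mul_le_mul_of_nonneg_left (a1_caus h) (norm_nonneg x.v.2)
  have h3 := mul_lt_mul_of_pos_right x.norm_snd_lt h.2
  unfold lor
  linarith

theorem Caus.lor_nonpos {ν μ : ℝ × E} (h : Caus ν) (h' : Caus μ) : lor ν μ ≤ 0 := by
  have h1 := real_inner_le_norm ν.2 μ.2
  have h2 := mul_le_mul (a1_caus h) (a1_caus h') (norm_nonneg _) h.2.le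
  unfold lor
  linarith

theorem TL.add_caus {w ν : ℝ × E} (h : TL w) (h' : Caus ν) {t : ℝ} (ht : 0 ≤ t) :
    TL (w + t • ν) := by
  have h1 := a1_tl.1 h
  have h2 := mul_le_mul_of_nonneg_left (a1_caus h') ht
  have h3 := norm_add_le w.2 (t • ν.2)
  rw [norm_smul, Real.norm_of_nonneg ht] at h3
  refine a1_tl.2 ?_
  simp only [Prod.fst_add, Prod.snd_add, Prod.smul_fst, Prod.smul_snd, smul_eq_mul]
  linarith

theorem tl_comb (x y : Hyp E) {a b : ℝ} (ha : 0 ≤ a) (hb : 0 ≤ b) (hab : 0 < a + b) :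
    TL (a • x.v + b • y.v) := by
  rcases ha.eq_or_lt with rfl | h
  · rw [zero_smul, zero_add]
    exact y.tl.smul (by linarith)
  · exact (x.tl.smul h).add_caus y.tl.caus hb

/-- A timelike vector with negative product against a point is future directed. -/
theorem tl_of_lor_neg (x : Hyp E) {w : ℝ × E} (h : lor w w < 0) (h' : lor x.v w < 0) : TL w := by
  refine ⟨h, not_le.1 fun h1 => ?_⟩
  have h2 : w.1 ≠ 0 := fun h3 => by
    rw [a1_self, h3] at h
    nlinarith [sq_nonneg ‖w.2‖]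
  have h3 := neg_lor_pos x (ν := -w) ⟨by rw [lor_neg_left, lor_neg_right, neg_neg]; exact h.le,
    neg_pos.2 (lt_of_le_of_ne h1 h2)⟩
  rw [lor_neg_right] at h3
  linarith

/-- A nonzero vector orthogonal to a point is spacelike. -/
theorem lor_self_pos (y : Hyp E) {u : ℝ × E} (h : lor u y.v = 0) (hu : u ≠ 0) : 0 < lor u u := by
  refine not_le.1 fun h1 => ?_
  rcases lt_trichotomy u.1 0 with h2 | h2 | h2
  · have h3 := neg_lor_pos y (ν := -u) ⟨by rwa [lor_neg_left, lor_neg_right, neg_neg], neg_pos.2 h2⟩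
    rw [lor_neg_right, lor_comm, h] at h3
    simp at h3
  · rw [a1_self, h2] at h1
    exact hu (Prod.ext h2 (norm_eq_zero.1 (by nlinarith [norm_nonneg u.2])))
  · have h3 := neg_lor_pos y (ν := u) ⟨h1, h2⟩
    rw [lor_comm, h] at h3
    simp at h3

theorem norm_klein_lt (x : Hyp E) : ‖klein x‖ < 1 := by
  rw [klein, norm_smul, norm_inv, Real.norm_of_nonneg x.pos.le, inv_mul_lt_one₀ x.pos]
  exact x.norm_snd_lt

theorem tl_one {u : E} (h : ‖u‖ < 1) : TL ((1 : ℝ), u) := a1_tl.2 h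

theorem nrm_klein (x : Hyp E) : nrm ((1 : ℝ), klein x) = x := by
  have : ((1 : ℝ), klein x) = (x.v.1)⁻¹ • x.v :=
    Prod.ext (inv_mul_cancel₀ x.pos.ne').symm rfl
  rw [this, nrm_smul x.tl (inv_pos.2 x.pos), nrm_self]

theorem klein_nrm {w : ℝ × E} (h : TL w) : klein (nrm w) = (w.1)⁻¹ • w.2 := by
  have h1 := (Real.sqrt_pos.2 (neg_pos.2 h.1)).ne'
  rw [klein, nrm_v h, Prod.smul_fst, Prod.smul_snd, smul_smul, smul_eq_mul, mul_inv,
    mul_right_comm, inv_mul_cancel₀ (inv_ne_zero h1), one_mul]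

theorem continuous_klein : Continuous (klein : Hyp E → E) :=
  (Hyp.continuous_v.fst.inv₀ fun x => x.pos.ne').smul Hyp.continuous_v.snd

theorem mem_of_klein_mem_closure {C : Set (Hyp E)} (hC : IsClosed C) {x : Hyp E}
    (h : klein x ∈ closure (klein '' C)) : x ∈ C := by
  have h1 : ContinuousAt (fun u : E => nrm ((1 : ℝ), u)) (klein x) :=
    (continuousOn_nrm.continuousAt (isOpen_TL.mem_nhds (tl_one (norm_klein_lt x)))).comp_of_eq
      (by fun_prop) rfl
  have h2 := mem_closure_image h1 h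
  rwa [image_image, funext nrm_klein, image_id', nrm_klein, hC.closure_eq] at h2

end Pool.Agent.Lib.MP_44acff_gt.EK
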