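import Pool.Agent.Lib.MP_44acff_gt.EK.A1

open Set Metric Topology Filter

namespace Pool.Agent.Lib.MP_44acff_gt.EK

variable {E : Type} [NormedAddCommGroup E] [InnerProductSpace ℝ E]

theorem a2_lor (x y : Hyp E) : lor x.v y.v = -Real.cosh (dist x y) := by
  rw [cosh_dist, neg_neg]

theorem a2_dist {x y : Hyp E} {s : ℝ} (h : -lor x.v y.v = Real.cosh s) : dist x y = |s| := by
  rw [← cosh_dist] at h
  have h1 := Real.cosh_le_cosh.1 h.le
  have h2 := Real.cosh_le_cosh.1 h.ge
  rw [abs_of_nonneg dist_nonneg] at h1 h2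
  exact le_antisymm h1 h2

theorem a2_unit {x y z : Hyp E} {a b : ℝ} (h : z.v = a • x.v + b • y.v) :
    a ^ 2 + b ^ 2 + 2 * a * b * Real.cosh (dist x y) = 1 := by
  have h1 := z.unit
  rw [h] at h1
  simp only [lor_add_left, lor_add_right, lor_smul_left, lor_smul_right, x.unit, y.unit,
    lor_comm y.v x.v, a2_lor x y] at h1
  linarith

theorem a2_sinh {x y z : Hyp E} {a b : ℝ} (hb : 0 ≤ b) (h : z.v = a • x.v + b • y.v) :
    Real.cosh (dist x z) = a + b * Real.cosh (dist x y) ∧
      Real.sinh (dist x z) = b * Real.sinh (dist x y) := by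
  have h1 : Real.cosh (dist x z) = a + b * Real.cosh (dist x y) := by
    rw [cosh_dist x z, h, lor_add_right, lor_smul_right, lor_smul_right, x.unit, a2_lor]
    ring
  refine ⟨h1, ?_⟩
  have h2 := a2_unit h
  refine (sq_eq_sq₀ (Real.sinh_nonneg_iff.2 dist_nonneg)
    (mul_nonneg hb (Real.sinh_nonneg_iff.2 dist_nonneg))).1 ?_
  rw [mul_pow, Real.sinh_sq, Real.sinh_sq, h1]
  linear_combination h2

theorem between_iff (x y z : Hyp E) : dist x z + dist z y = dist x y ↔
    ∃ a b : ℝ, 0 ≤ a ∧ 0 ≤ b ∧ z.v = a • x.v + b • y.v := by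
  constructor
  · intro h
    by_cases hxy : x = y
    · subst hxy
      have h1 : dist x z = 0 := by
        rw [dist_self, dist_comm z x] at h
        linarith
      exact ⟨1, 0, zero_le_one, le_rfl, by rw [dist_eq_zero.1 h1]; simp⟩
    have hD : 0 < Real.sinh (dist x y) := Real.sinh_pos_iff.2 (dist_pos.2 hxy)
    set s := dist x z with hs
    set r := dist z y with hr
    have e1 : lor x.v z.v = -Real.cosh s := a2_lor x z
    have e2 : lor z.v y.v = -Real.cosh r := a2_lor z y
    have e3 : lor x.v y.v = -(Real.cosh s * Real.cosh r + Real.sinh s * Real.sinh r) := by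
      rw [a2_lor, ← h, Real.cosh_add]
    have e4 : Real.sinh (dist x y) = Real.sinh s * Real.cosh r + Real.cosh s * Real.sinh r := by
      rw [← h, Real.sinh_add]
    have c1 := Real.cosh_sq s
    have c2 := Real.cosh_sq r
    have hu : Real.sinh (dist x y) • z.v - (Real.sinh r • x.v + Real.sinh s • y.v) = 0 := by
      by_contra hu
      have h1 := lor_self_pos z (u := Real.sinh (dist x y) • z.v -
        (Real.sinh r • x.v + Real.sinh s • y.v)) (by
          simp only [lor_sub_left, lor_add_left, lor_smul_left, z.unit, lor_comm y.v z.v, e1, e2,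
            e4]
          ring) hu
      simp only [lor_sub_left, lor_sub_right, lor_add_left, lor_add_right, lor_smul_left,
        lor_smul_right, x.unit, y.unit, z.unit, lor_comm y.v z.v, lor_comm y.v x.v,
        lor_comm z.v x.v, e1, e2, e3, e4] at h1
      refine h1.ne' ?_
      linear_combination (Real.sinh r ^ 2) * c1 + (Real.sinh s ^ 2) * c2
    refine ⟨Real.sinh r / Real.sinh (dist x y), Real.sinh s / Real.sinh (dist x y),
      div_nonneg (Real.sinh_nonneg_iff.2 dist_nonneg) hD.le,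
      div_nonneg (Real.sinh_nonneg_iff.2 dist_nonneg) hD.le, ?_⟩
    refine smul_right_injective _ hD.ne' ?_
    simp only [smul_add, smul_smul, mul_div_cancel₀ _ hD.ne']
    exact sub_eq_zero.1 hu
  · rintro ⟨a, b, ha, hb, h⟩
    obtain ⟨h1, h2⟩ := a2_sinh hb h
    obtain ⟨h3, h4⟩ := a2_sinh ha (h.trans (add_comm _ _))
    rw [dist_comm y z, dist_comm y x] at h3 h4
    have h5 := a2_unit h
    have h6 : -lor x.v y.v = Real.cosh (dist x z + dist z y) := by
      rw [← cosh_dist, Real.cosh_add, h1, h2, h3, h4]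
      linear_combination (-Real.cosh (dist x y)) * h5 - a * b * Real.sinh_sq (dist x y)
    rw [a2_dist h6, abs_of_nonneg (add_nonneg dist_nonneg dist_nonneg)]

theorem gconvex_iff {C : Set (Hyp E)} : GConvex C ↔
    ∀ x ∈ C, ∀ y ∈ C, ∀ a b : ℝ, 0 ≤ a → 0 ≤ b → 0 < a + b → nrm (a • x.v + b • y.v) ∈ C := by
  constructor
  · intro h x hx y hy a b ha hb hab
    refine h x hx y hy _ ((between_iff _ _ _).2 ⟨_ * a, _ * b, ?_, ?_,
      by rw [nrm_v (tl_comb x y ha hb hab), smul_add, smul_smul, smul_smul]⟩) <;> positivity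
  · intro h x hx y hy z hz
    obtain ⟨a, b, ha, hb, e⟩ := (between_iff _ _ _).1 hz
    have hab : 0 < a + b := by
      by_contra h0
      have h1 : a = 0 := by linarith
      have h2 : b = 0 := by linarith
      have h3 := a2_unit e
      rw [h1, h2] at h3
      norm_num at h3
    rw [← nrm_self z, e]
    exact h x hx y hy a b ha hb hab

theorem exists_geodesic (x y : Hyp E) : ∃ γ : ℝ → Hyp E, γ 0 = x ∧ γ 1 = y ∧
    ∀ s t, dist (γ s) (γ t) = |s - t| * dist x y := by
  by_cases hxy : x = y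
  · subst hxy
    exact ⟨fun _ => x, rfl, rfl, fun s t => by simp⟩
  have hD : 0 < Real.sinh (dist x y) := Real.sinh_pos_iff.2 (dist_pos.2 hxy)
  obtain ⟨w, h0, h1, h2⟩ : ∃ w : ℝ × E, lor x.v w = 0 ∧ lor w w = 1 ∧
      y.v = Real.cosh (dist x y) • x.v + Real.sinh (dist x y) • w := by
    refine ⟨(Real.sinh (dist x y))⁻¹ • (y.v - Real.cosh (dist x y) • x.v), ?_, ?_, ?_⟩
    · rw [lor_smul_right, lor_sub_right, lor_smul_right, x.unit, a2_lor]
      ring
    · simp only [lor_sub_left, lor_sub_right, lor_smul_left, lor_smul_right, x.unit, y.unit,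
        lor_comm y.v x.v, a2_lor x y]
      field_simp
      linear_combination Real.cosh_sq (dist x y)
    · rw [smul_smul, mul_inv_cancel₀ hD.ne', one_smul, add_sub_cancel]
  have h3 : ∀ s t : ℝ, -lor (Real.cosh s • x.v + Real.sinh s • w)
      (Real.cosh t • x.v + Real.sinh t • w) = Real.cosh (s - t) := by
    intro s t
    simp only [lor_add_left, lor_add_right, lor_smul_left, lor_smul_right, x.unit,
      lor_comm w x.v, h0, h1, Real.cosh_sub]
    ring
  have h4 : ∀ s : ℝ, lor (Real.cosh s • x.v + Real.sinh s • w)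
      (Real.cosh s • x.v + Real.sinh s • w) = -1 := by
    intro s
    have := h3 s s
    rw [sub_self, Real.cosh_zero] at this
    linarith
  have h5 : ∀ s : ℝ, 0 < (Real.cosh s • x.v + Real.sinh s • w).1 := by
    intro s
    refine (tl_of_lor_neg x (by rw [h4]; norm_num) ?_).2
    rw [lor_add_right, lor_smul_right, lor_smul_right, x.unit, h0]
    linarith [Real.cosh_pos s]
  refine ⟨fun t => ⟨_, h4 (t * dist x y), h5 _⟩, Hyp.ext (by simp),
    Hyp.ext (by simp only [one_mul]; exact h2.symm), fun s t => ?_⟩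
  rw [a2_dist (h3 _ _), ← sub_mul, abs_mul, abs_of_nonneg dist_nonneg]

theorem GConvex.isPreconnected {C : Set (Hyp E)} (h : GConvex C) : IsPreconnected C := by
  refine isPreconnected_of_forall_pair fun x hx y hy => ?_
  obtain ⟨γ, h0, h1, hd⟩ := exists_geodesic x y
  have hc : Continuous γ := (LipschitzWith.of_dist_le_mul (K := ⟨dist x y, dist_nonneg⟩)
    fun s t => by rw [hd, Real.dist_eq, mul_comm]; rfl).continuous
  refine ⟨γ '' Icc 0 1, ?_, ⟨0, by simp, h0⟩, ⟨1, by simp, h1⟩,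
    isPreconnected_Icc.image _ hc.continuousOn⟩
  rintro _ ⟨t, ht, rfl⟩
  refine h x hx y hy _ ?_
  have e1 := hd 0 t
  have e2 := hd t 1
  rw [h0, zero_sub, abs_neg, abs_of_nonneg ht.1] at e1
  rw [h1, abs_sub_comm, abs_of_nonneg (sub_nonneg.2 ht.2)] at e2
  rw [e1, e2]
  ring

theorem GConvex.inter {C D : Set (Hyp E)} (h : GConvex C) (h' : GConvex D) :
    GConvex (C ∩ D) :=
  fun x hx y hy z hz => ⟨h x hx.1 y hy.1 z hz, h' x hx.2 y hy.2 z hz⟩

theorem GConvex.image {C : Set (Hyp E)} (h : GConvex C) (g : Hyp E ≃ᵢ Hyp E) :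
    GConvex (g '' C) := by
  rintro _ ⟨x, hx, rfl⟩ _ ⟨y, hy, rfl⟩ z hz
  obtain ⟨z, rfl⟩ := g.surjective z
  simp only [g.dist_eq] at hz
  exact ⟨z, h x hx y hy z hz, rfl⟩

theorem GConvex.closure {C : Set (Hyp E)} (h : GConvex C) : GConvex (closure C) := by
  refine gconvex_iff.2 fun x hx y hy a b ha hb hab => ?_
  have hc : Continuous fun p : Hyp E × Hyp E => nrm (a • p.1.v + b • p.2.v) :=
    continuousOn_nrm.comp_continuous
      (((Hyp.continuous_v.comp continuous_fst).const_smul a).add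
        ((Hyp.continuous_v.comp continuous_snd).const_smul b))
      fun p => tl_comb p.1 p.2 ha hb hab
  exact map_mem_closure₂ (f := fun x y : Hyp E => nrm (a • x.v + b • y.v)) hc hx hy
    fun x hx y hy => gconvex_iff.1 h x hx y hy a b ha hb hab

/-- Half spaces are convex. -/
theorem gconvex_half (n : ℝ × E) : GConvex {x : Hyp E | lor x.v n ≤ 0} := by
  intro x hx y hy z hz
  obtain ⟨a, b, ha, hb, e⟩ := (between_iff _ _ _).1 hz
  rw [mem_ofPred_eq, e, lor_add_left, lor_smul_left, lor_smul_left]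
  exact add_nonpos (mul_nonpos_of_nonneg_of_nonpos ha hx) (mul_nonpos_of_nonneg_of_nonpos hb hy)

/-- Balls and horoballs are convex. -/
theorem gconvex_sublevel (n : ℝ × E) {t : ℝ} (ht : 0 ≤ t) :
    GConvex {x : Hyp E | -lor x.v n ≤ t} := by
  intro x hx y hy z hz
  obtain ⟨a, b, ha, hb, e⟩ := (between_iff _ _ _).1 hz
  have h1 := a2_unit e
  have h2 := mul_le_mul_of_nonneg_left (Real.one_le_cosh (dist x y)) (mul_nonneg ha hb)
  have h3 : a + b ≤ 1 := by nlinarith
  have h4 := mul_le_mul_of_nonneg_left hx ha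
  have h5 := mul_le_mul_of_nonneg_left hy hb
  have h6 := mul_le_mul_of_nonneg_right h3 ht
  rw [mem_ofPred_eq, e, lor_add_left, lor_smul_left, lor_smul_left]
  linarith

theorem gconvex_closedBall (p : Hyp E) (r : ℝ) : GConvex (closedBall p r) := by
  intro x hx y hy z hz
  have hr : 0 ≤ r := dist_nonneg.trans (mem_closedBall.1 hx)
  have key : ∀ u : Hyp E, u ∈ closedBall p r ↔ -lor u.v p.v ≤ Real.cosh r := fun u => by
    rw [mem_closedBall, ← cosh_dist, Real.cosh_le_cosh, abs_of_nonneg dist_nonneg,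
      abs_of_nonneg hr]
  exact (key z).2 (gconvex_sublevel p.v (Real.cosh_pos r).le x ((key x).1 hx) y ((key y).1 hy) z hz)

theorem gconvex_ball (p : Hyp E) (r : ℝ) : GConvex (ball p r) := fun x hx y hy z hz =>
  (mem_closedBall.1 (gconvex_closedBall p (max (dist x p) (dist y p)) x
    (mem_closedBall.2 (le_max_left _ _)) y (mem_closedBall.2 (le_max_right _ _)) z hz)).trans_lt
    (max_lt (mem_ball.1 hx) (mem_ball.1 hy))

theorem GConvex.convex_klein {C : Set (Hyp E)} (h : GConvex C) : Convex ℝ (klein '' C) := by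
  rintro _ ⟨x, hx, rfl⟩ _ ⟨y, hy, rfl⟩ a b ha hb hab
  have p1 := x.pos
  have p2 := y.pos
  have h1 : 0 ≤ a * (x.v.1)⁻¹ := by positivity
  have h2 : 0 ≤ b * (y.v.1)⁻¹ := by positivity
  have h3 : 0 < a * (x.v.1)⁻¹ + b * (y.v.1)⁻¹ := by
    rcases ha.eq_or_lt with h0 | h0
    · have : 0 < b := by linarith
      positivity
    · positivity
  refine ⟨_, gconvex_iff.1 h x hx y hy _ _ h1 h2 h3, ?_⟩
  have h4 : ((a * (x.v.1)⁻¹) • x.v + (b * (y.v.1)⁻¹) • y.v).1 = 1 := by
    simp only [Prod.fst_add, Prod.smul_fst, smul_eq_mul]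
    field_simp
    exact hab
  rw [klein_nrm (tl_comb x y h1 h2 h3), h4]
  simp [klein, smul_smul]

theorem exists_refl {n : ℝ × E} (hn : lor n n = 1) :
    ∃ g : Hyp E ≃ᵢ Hyp E, ∀ x, (g x).v = x.v - (2 * lor x.v n) • n := by
  have h1 : ∀ v w : ℝ × E, lor (v - (2 * lor v n) • n) (w - (2 * lor w n) • n) = lor v w := by
    intro v w
    simp only [lor_sub_left, lor_sub_right, lor_smul_left, lor_smul_right, hn, lor_comm n w]
    ring
  have h2 : ∀ x : Hyp E, 0 < (x.v - (2 * lor x.v n) • n).1 := by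
    intro x
    refine (tl_of_lor_neg x (by rw [h1, x.unit]; norm_num) ?_).2
    rw [lor_sub_right, lor_smul_right, x.unit]
    nlinarith [sq_nonneg (lor x.v n)]
  let f : Hyp E → Hyp E := fun x => ⟨_, (h1 _ _).trans x.unit, h2 x⟩
  have h3 : Function.Involutive f := by
    intro x
    refine Hyp.ext ?_
    change x.v - (2 * lor x.v n) • n - (2 * lor (x.v - (2 * lor x.v n) • n) n) • n = x.v
    rw [lor_sub_left, lor_smul_left, hn, sub_sub, ← add_smul,
      show 2 * lor x.v n + 2 * (lor x.v n - 2 * lor x.v n * 1) = 0 by ring, zero_smul, sub_zero]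
  exact ⟨⟨h3.toPerm f, Isometry.of_dist_eq fun x y =>
    congrArg (fun t => Real.arcosh (-t)) (h1 x.v y.v)⟩, fun _ => rfl⟩

theorem exists_isom_to (p q : Hyp E) : ∃ g : Hyp E ≃ᵢ Hyp E, g p = q := by
  by_cases hpq : p = q
  · exact ⟨IsometryEquiv.refl _, hpq⟩
  have hc : 0 < 2 * (Real.cosh (dist p q) - 1) := by
    have := Real.one_lt_cosh.2 (dist_pos.2 hpq).ne'
    linarith
  have h1 := Real.sq_sqrt hc.le
  have h2 := (Real.sqrt_pos.2 hc).ne'
  set k := √(2 * (Real.cosh (dist p q) - 1)) with hk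
  obtain ⟨g, hg⟩ := exists_refl (n := k⁻¹ • (p.v - q.v)) (by
    simp only [lor_sub_left, lor_sub_right, lor_smul_left, lor_smul_right, p.unit, q.unit,
      lor_comm q.v p.v, a2_lor p q]
    field_simp
    linarith)
  refine ⟨g, Hyp.ext ?_⟩
  have h3 : 2 * lor p.v (k⁻¹ • (p.v - q.v)) * k⁻¹ = 1 := by
    rw [lor_smul_right, lor_sub_right, p.unit, a2_lor]
    field_simp
    linarith
  rw [hg, smul_smul, h3, one_smul, sub_sub_cancel]

/-- Busemann functions and `log cosh` of distance functions are 1-Lipschitz. -/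
theorem busemann (x y : Hyp E) {ν : ℝ × E} (h : Caus ν) :
    -lor x.v ν ≤ Real.exp (dist x y) * -lor y.v ν := by
  have hA := neg_lor_pos y h
  have hu : lor (x.v + lor x.v y.v • y.v) y.v = 0 := by
    rw [lor_add_left, lor_smul_left, y.unit]; ring
  have hw : lor (ν + lor y.v ν • y.v) y.v = 0 := by
    rw [lor_add_left, lor_smul_left, y.unit, lor_comm ν]; ring
  have h1 := lor_sq_le y hu hw
  simp only [lor_add_left, lor_add_right, lor_smul_left, lor_smul_right, x.unit, y.unit,
    lor_comm y.v x.v, lor_comm ν y.v, a2_lor x y] at h1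
  have hs : 0 ≤ Real.sinh (dist x y) := Real.sinh_nonneg_iff.2 dist_nonneg
  have c1 := Real.cosh_sq (dist x y)
  have h2 := mul_nonneg (sq_nonneg (Real.sinh (dist x y))) (neg_nonneg.2 h.1)
  have h3 : (lor x.v ν - Real.cosh (dist x y) * lor y.v ν) ^ 2 ≤
      (Real.sinh (dist x y) * -lor y.v ν) ^ 2 := by
    have e : Real.sinh (dist x y) ^ 2 = Real.cosh (dist x y) ^ 2 - 1 := by linarith
    rw [mul_pow, e]
    rw [e] at h2
    nlinarith
  have h4 := (abs_le_of_sq_le_sq' h3 (mul_nonneg hs hA.le)).1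
  rw [← Real.cosh_add_sinh]
  linarith

theorem a2_foot (x : Hyp E) {n : ℝ × E} (hn : lor n n = 1) : ∃ x' : Hyp E, lor x'.v n = 0 ∧
    x.v = Real.cosh (Real.arsinh (lor x.v n)) • x'.v + lor x.v n • n := by
  have hc := Real.cosh_pos (Real.arsinh (lor x.v n))
  have h1 := Real.cosh_sq (Real.arsinh (lor x.v n))
  rw [Real.sinh_arsinh] at h1
  set c := Real.cosh (Real.arsinh (lor x.v n)) with hcd
  have h2 : lor (c⁻¹ • (x.v - lor x.v n • n)) (c⁻¹ • (x.v - lor x.v n • n)) = -1 := by
    simp only [lor_sub_left, lor_sub_right, lor_smul_left, lor_smul_right, x.unit, hn,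
      lor_comm n x.v]
    field_simp
    linarith
  refine ⟨⟨_, h2, (tl_of_lor_neg x (by rw [h2]; norm_num) ?_).2⟩, ?_, ?_⟩
  · rw [lor_smul_right, lor_sub_right, lor_smul_right, x.unit]
    exact mul_neg_of_pos_of_neg (inv_pos.2 hc) (by nlinarith [sq_nonneg (lor x.v n)])
  · change lor (c⁻¹ • (x.v - lor x.v n • n)) n = 0
    rw [lor_smul_left, lor_sub_left, lor_smul_left, hn]
    ring
  · change x.v = c • c⁻¹ • (x.v - lor x.v n • n) + lor x.v n • n
    rw [smul_smul, mul_inv_cancel₀ hc.ne', one_smul, sub_add_cancel]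

/-- The signed distance to a hyperplane is 1-Lipschitz. -/
theorem arsinh_lor_lip (x y : Hyp E) {n : ℝ × E} (hn : lor n n = 1) :
    |Real.arsinh (lor x.v n) - Real.arsinh (lor y.v n)| ≤ dist x y := by
  obtain ⟨x', a1, a2⟩ := a2_foot x hn
  obtain ⟨y', b1, b2⟩ := a2_foot y hn
  have h1 := one_le_neg_lor x' y'
  have h2 := cosh_dist x y
  have h3 := mul_pos (Real.cosh_pos (Real.arsinh (lor x.v n)))
    (Real.cosh_pos (Real.arsinh (lor y.v n)))
  have h4 : Real.cosh (Real.arsinh (lor x.v n) - Real.arsinh (lor y.v n)) ≤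
      Real.cosh (dist x y) := by
    rw [Real.cosh_sub, Real.sinh_arsinh, Real.sinh_arsinh, h2]
    generalize Real.cosh (Real.arsinh (lor x.v n)) = c at *
    generalize Real.cosh (Real.arsinh (lor y.v n)) = d at *
    generalize lor x.v n = s at *
    generalize lor y.v n = t at *
    rw [a2, b2]
    simp only [lor_add_left, lor_add_right, lor_smul_left, lor_smul_right, hn, a1, b1,
      lor_comm n y'.v]
    nlinarith
  have h5 := Real.cosh_le_cosh.1 h4
  rwa [abs_of_nonneg (dist_nonneg (x := x) (y := y))] at h5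

end Pool.Agent.Lib.MP_44acff_gt.EK
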