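import Pool.Agent.Lib.MP_44acff_gt.EK.A2

open Set Metric Topology Filter

namespace Pool.Agent.Lib.MP_44acff_gt.EK

variable {E : Type} [NormedAddCommGroup E] [InnerProductSpace ℝ E]

/-- First variation at a minimiser of a linear function on a convex set. -/
theorem proj_ineq {C : Set (Hyp E)} (hC : GConvex C) {p : Hyp E} (hp : p ∈ C) {ν : ℝ × E}
    (h : ∀ c ∈ C, -lor p.v ν ≤ -lor c.v ν) :
    ∀ c ∈ C, -lor p.v c.v * -lor p.v ν ≤ -lor c.v ν := by
  intro c hc
  have hk := one_le_neg_lor p c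
  set k := -lor p.v c.v with hkd
  set A := -lor p.v ν with hA
  set B := -lor c.v ν with hB
  have key : ∀ t : ℝ, 0 < t → A * (2 * k + t) / (√(1 + 2 * t * k + t ^ 2) + 1) ≤ B := by
    intro t ht
    have h1 := h _ (gconvex_iff.1 hC p hp c hc 1 t zero_le_one ht.le (by linarith))
    have h2 : -lor ((1 : ℝ) • p.v + t • c.v) ((1 : ℝ) • p.v + t • c.v) = 1 + 2 * t * k + t ^ 2 := by
      simp only [lor_add_left, lor_add_right, lor_smul_left, lor_smul_right, p.unit, c.unit,
        lor_comm c.v p.v, hkd]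
      ring
    rw [nrm_v (tl_comb p c zero_le_one ht.le (by linarith)), h2, lor_smul_left, lor_add_left,
      lor_smul_left, lor_smul_left] at h1
    have h3 : 0 < 1 + 2 * t * k + t ^ 2 := by positivity
    have h4 := Real.sq_sqrt h3.le
    have h5 := Real.sqrt_pos.2 h3
    set s := √(1 + 2 * t * k + t ^ 2) with hs
    have h6 : A * s ≤ A + t * B := by
      have h7 : -(s⁻¹ * (1 * lor p.v ν + t * lor c.v ν)) = (A + t * B) / s := by
        rw [hA, hB]; field_simp; ring
      rwa [h7, le_div_iff₀ h5] at h1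
    rw [div_le_iff₀ (by linarith)]
    refine le_of_mul_le_mul_left ?_ ht
    have h8 : t * (A * (2 * k + t)) = (A * s - A) * (s + 1) := by
      linear_combination (-A) * h4
    rw [h8]
    nlinarith
  have hc' : ContinuousAt (fun t : ℝ => A * (2 * k + t) / (√(1 + 2 * t * k + t ^ 2) + 1)) 0 :=
    ContinuousAt.div (by fun_prop) (by fun_prop) (by positivity)
  have h9 := le_of_tendsto (hc'.tendsto.mono_left (nhdsWithin_le_nhds (s := Ioi 0)))
    (eventually_mem_nhdsWithin.mono key)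
  norm_num at h9
  linarith

theorem lor_le_sqrt (p p' : Hyp E) {e e' : ℝ × E} (h1 : lor e p.v = 0) (h2 : lor e' p'.v = 0)
    (h3 : lor e p'.v ≤ 0) (h4 : lor e' p.v ≤ 0) : lor e e' ≤ √(lor e e) * √(lor e' e') := by
  have hk := one_le_neg_lor p p'
  obtain ⟨τ, hτ0, hτ⟩ : ∃ τ : ℝ, 0 ≤ τ ∧ τ * (1 - lor p.v p'.v) = -lor e' p.v :=
    ⟨-lor e' p.v / (1 - lor p.v p'.v), div_nonneg (by linarith) (by linarith),
      div_mul_cancel₀ _ (by linarith)⟩
  have g1 : lor (e' - τ • (p.v + p'.v)) p.v = 0 := by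
    simp only [lor_sub_left, lor_smul_left, lor_add_left, p.unit, lor_comm p'.v p.v]
    linarith
  have g2 : lor (e' - τ • (p.v + p'.v)) (e' - τ • (p.v + p'.v)) = lor e' e' := by
    simp only [lor_sub_left, lor_sub_right, lor_smul_left, lor_smul_right, lor_add_left,
      lor_add_right, p.unit, p'.unit, lor_comm p'.v p.v, lor_comm p.v e', lor_comm p'.v e', h2]
    linear_combination (-2 * τ) * hτ
  have g3 : lor e e' ≤ lor e (e' - τ • (p.v + p'.v)) := by
    simp only [lor_sub_right, lor_smul_right, lor_add_right, h1]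
    nlinarith
  have g4 := lor_sq_le p h1 g1
  rw [g2] at g4
  rw [← Real.sqrt_mul (lor_self_nonneg p h1)]
  exact g3.trans (Real.le_sqrt_of_sq_le g4)

theorem a3_key (p p' : Hyp E) (ν ν' : ℝ × E) (hA : 0 ≤ -lor p.v ν) (hA' : 0 ≤ -lor p'.v ν')
    (h : -lor p.v p'.v * -lor p.v ν ≤ -lor p'.v ν)
    (h' : -lor p'.v p.v * -lor p'.v ν' ≤ -lor p.v ν') :
    -lor p.v p'.v * (-lor p.v ν * -lor p'.v ν')
      - √(lor p.v ν ^ 2 + lor ν ν) * √(lor p'.v ν' ^ 2 + lor ν' ν') ≤ -lor ν ν' := by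
  have e1 : lor (ν + lor p.v ν • p.v) p.v = 0 := by
    rw [lor_add_left, lor_smul_left, p.unit, lor_comm ν]; ring
  have e2 : lor (ν' + lor p'.v ν' • p'.v) p'.v = 0 := by
    rw [lor_add_left, lor_smul_left, p'.unit, lor_comm ν']; ring
  have e3 : lor (ν + lor p.v ν • p.v) p'.v ≤ 0 := by
    rw [lor_add_left, lor_smul_left, lor_comm ν]; linarith
  have e4 : lor (ν' + lor p'.v ν' • p'.v) p.v ≤ 0 := by
    rw [lor_add_left, lor_smul_left, lor_comm ν']; linarith
  have e5 := lor_le_sqrt p p' e1 e2 e3 e4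
  have e6 : ∀ (q : Hyp E) (μ : ℝ × E),
      lor (μ + lor q.v μ • q.v) (μ + lor q.v μ • q.v) = lor q.v μ ^ 2 + lor μ μ := by
    intro q μ
    simp only [lor_add_left, lor_add_right, lor_smul_left, lor_smul_right, q.unit, lor_comm μ q.v]
    ring
  rw [e6, e6] at e5
  simp only [lor_add_left, lor_add_right, lor_smul_left, lor_smul_right, lor_comm ν p'.v] at e5
  rw [lor_comm p'.v p.v] at h'
  nlinarith [mul_le_mul_of_nonneg_left h hA', mul_le_mul_of_nonneg_left h' hA]

theorem key_null {p p' : Hyp E} {ν ν' : ℝ × E} (h1 : Caus ν) (h2 : lor ν ν = 0) (h3 : Caus ν')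
    (h4 : lor ν' ν' = 0) (h : -lor p.v p'.v * -lor p.v ν ≤ -lor p'.v ν)
    (h' : -lor p'.v p.v * -lor p'.v ν' ≤ -lor p.v ν') :
    (Real.cosh (dist p p') - 1) * (-lor p.v ν * -lor p'.v ν') ≤ -lor ν ν' := by
  have hA := neg_lor_pos p h1
  have hA' := neg_lor_pos p' h3
  have k := a3_key p p' ν ν' hA.le hA'.le h h'
  rw [h2, h4, add_zero, add_zero, ← neg_sq, Real.sqrt_sq hA.le, ← neg_sq, Real.sqrt_sq hA'.le] at k
  rw [cosh_dist]
  linarith

/-- The nearest point projection. -/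
theorem exists_proj [FiniteDimensional ℝ E] {C : Set (Hyp E)} (hc : IsClosed C) (hC : GConvex C)
    (hne : C.Nonempty) : ∃ π : Hyp E → Hyp E, LipschitzWith 1 π ∧ (∀ x, π x ∈ C) ∧
      (∀ x ∈ C, π x = x) ∧ ∀ x, x ∉ interior C → π x ∈ frontier C := by
  choose π hπ hd using fun x => hc.exists_infDist_eq_dist hne x
  have hmin : ∀ x, ∀ c ∈ C, dist x (π x) ≤ dist x c := fun x c hc =>
    hd x ▸ infDist_le_dist_of_mem hc
  have hvar : ∀ x, ∀ c ∈ C, -lor (π x).v c.v * -lor (π x).v x.v ≤ -lor c.v x.v := by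
    intro x
    refine proj_ineq hC (hπ x) fun c hc => ?_
    rw [← cosh_dist, ← cosh_dist, Real.cosh_le_cosh, abs_of_nonneg dist_nonneg,
      abs_of_nonneg dist_nonneg, dist_comm _ x, dist_comm _ x]
    exact hmin x c hc
  refine ⟨π, LipschitzWith.mk_one fun x y => ?_, hπ, fun x hx => ?_, fun x hx => ?_⟩
  · have hA := one_le_neg_lor (π x) x
    have hA' := one_le_neg_lor (π y) y
    have hk := one_le_neg_lor (π x) (π y)
    have k := a3_key (π x) (π y) x.v y.v (by linarith) (by linarith) (hvar x _ (hπ y))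
      (hvar y _ (hπ x))
    rw [x.unit, y.unit] at k
    have h1 : 0 ≤ lor (π x).v x.v ^ 2 + -1 := by nlinarith
    have h2 : √(lor (π x).v x.v ^ 2 + -1) * √(lor (π y).v y.v ^ 2 + -1)
        ≤ -lor (π x).v x.v * -lor (π y).v y.v - 1 := by
      rw [← Real.sqrt_mul h1]
      refine Real.sqrt_le_iff.2 ⟨by nlinarith, ?_⟩
      nlinarith [sq_nonneg (lor (π x).v x.v - lor (π y).v y.v)]
    have h3 : -lor (π x).v (π y).v ≤ -lor x.v y.v := by
      have h4 : 0 ≤ -lor (π x).v x.v * -lor (π y).v y.v - 1 := by nlinarith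
      nlinarith [mul_nonneg (sub_nonneg.2 hk) h4]
    rwa [← cosh_dist, ← cosh_dist, Real.cosh_le_cosh, abs_of_nonneg dist_nonneg,
      abs_of_nonneg dist_nonneg] at h3
  · have h := hmin x x hx
    rw [dist_self] at h
    exact (dist_le_zero.1 h).symm
  · refine ⟨subset_closure (hπ x), fun hi => ?_⟩
    have hne' : π x ≠ x := fun h => hx (h ▸ hi)
    have hpos : 0 < dist (π x) x := dist_pos.2 hne'
    obtain ⟨ε, hε, hb⟩ := Metric.mem_nhds_iff.1 (mem_interior_iff_mem_nhds.1 hi)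
    obtain ⟨γ, h0, h1, hγ⟩ := exists_geodesic (π x) x
    set t := min 1 (ε / (2 * dist (π x) x)) with ht
    have ht0 : 0 < t := lt_min one_pos (by positivity)
    have ht1 : t ≤ 1 := min_le_left _ _
    have ht2 : t * (2 * dist (π x) x) ≤ ε := (le_div_iff₀ (by positivity)).1 (min_le_right _ _)
    have hm : γ t ∈ C := hb (by
      rw [mem_ball, ← h0, hγ, sub_zero, abs_of_pos ht0]
      linarith)
    have h2 := hmin x _ hm
    have h3 := hγ 1 t
    rw [h1, abs_of_nonneg (by linarith)] at h3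
    rw [h3, dist_comm] at h2
    nlinarith

theorem a3_interior {C : Set (Hyp E)} {b : Hyp E} (h : klein b ∈ interior (klein '' C)) :
    b ∈ interior C := by
  refine mem_interior.2 ⟨klein ⁻¹' interior (klein '' C), fun x hx => ?_,
    isOpen_interior.preimage continuous_klein, h⟩
  obtain ⟨c, hc, he⟩ := interior_subset hx
  rwa [← nrm_klein x, ← he, nrm_klein]

theorem a3_lor (c : Hyp E) (s : ℝ) (u : E) :
    lor c.v (s, u) = c.v.1 * (inner ℝ (klein c) u - s) := by
  have := c.pos.ne'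
  simp only [lor, klein, real_inner_smul_left]
  field_simp

theorem a3_abs_lt (c : Hyp E) {u : E} (hu : u ≠ 0) : |inner ℝ (klein c) u| < ‖u‖ :=
  (abs_real_inner_le_norm _ _).trans_lt
    (mul_lt_of_lt_one_left (norm_pos_iff.2 hu) (norm_klein_lt c))

theorem a3_unit {s : ℝ} {u : E} (h : |s| < ‖u‖) :
    ∃ r : ℝ, 0 < r ∧ lor (r • ((s, u) : ℝ × E)) (r • ((s, u) : ℝ × E)) = 1 := by
  have h1 : 0 < lor ((s, u) : ℝ × E) (s, u) := by
    simp only [lor, real_inner_self_eq_norm_sq]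
    nlinarith [abs_nonneg s, sq_abs s]
  have h2 := Real.sqrt_pos.2 h1
  refine ⟨(√(lor ((s, u) : ℝ × E) (s, u)))⁻¹, inv_pos.2 h2, ?_⟩
  rw [lor_smul_left, lor_smul_right]
  field_simp
  rw [Real.sq_sqrt h1.le]

theorem a3_flat [FiniteDimensional ℝ E] {K : Set E} (hK : Convex ℝ K) (hne : K.Nonempty)
    (h : ¬ (interior K).Nonempty) : ∃ (u : E) (s : ℝ), u ≠ 0 ∧ ∀ y ∈ K, inner ℝ y u = s := by
  rw [hK.interior_nonempty_iff_affineSpan_eq_top,
    AffineSubspace.affineSpan_eq_top_iff_vectorSpan_eq_top_of_nonempty ℝ E E hne,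
    ← Submodule.orthogonal_eq_bot_iff] at h
  obtain ⟨u, hu, hu0⟩ := Submodule.exists_mem_ne_zero_of_ne_bot h
  obtain ⟨y₀, hy₀⟩ := hne
  refine ⟨u, inner ℝ y₀ u, hu0, fun y hy => ?_⟩
  have h1 := (Submodule.mem_orthogonal _ _).1 hu _ (vsub_mem_vectorSpan ℝ hy hy₀)
  rw [vsub_eq_sub, inner_sub_left] at h1
  linarith

theorem a3_sep [FiniteDimensional ℝ E] {K : Set E} (hK : Convex ℝ K) (hne : K.Nonempty) {b : E}
    (hb : b ∉ interior K) :
    ∃ (u : E) (s : ℝ), u ≠ 0 ∧ (∀ y ∈ K, inner ℝ y u ≤ s) ∧ s ≤ inner ℝ b u := by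
  by_cases h : (interior K).Nonempty
  · obtain ⟨f, hf⟩ := geometric_hahn_banach_open_point hK.interior isOpen_interior hb
    have hcl : ∀ y ∈ K, f y ≤ f b := fun y hy => by
      have h1 : y ∈ closure (interior K) := by
        rw [hK.closure_interior_eq_closure_of_nonempty_interior h]; exact subset_closure hy
      exact closure_minimal (fun a ha => (hf a ha).le)
        (isClosed_le f.continuous continuous_const) h1
    have : CompleteSpace E := FiniteDimensional.complete ℝ E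
    have hu : ∀ y, inner ℝ y ((InnerProductSpace.toDual ℝ E).symm f) = f y := fun y => by
      rw [real_inner_comm, InnerProductSpace.toDual_symm_apply]
    refine ⟨(InnerProductSpace.toDual ℝ E).symm f, f b, fun h0 => ?_,
      fun y hy => (hu y).trans_le (hcl y hy), (hu b).ge⟩
    obtain ⟨a, ha⟩ := h
    have h2 := hf a ha
    rw [← hu a, ← hu b, h0, inner_zero_right, inner_zero_right] at h2
    exact lt_irrefl _ h2
  · obtain ⟨u, s, hu, hs⟩ := a3_flat hK hne h
    rcases le_total s (inner ℝ b u) with h1 | h1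
    · exact ⟨u, s, hu, fun y hy => (hs y hy).le, h1⟩
    · refine ⟨-u, -s, neg_ne_zero.2 hu, fun y hy => ?_, ?_⟩
      · rw [inner_neg_right, hs y hy]
      · rw [inner_neg_right]; linarith

/-- Support planes exist. -/
theorem exists_support [FiniteDimensional ℝ E] {C : Set (Hyp E)} (hC : GConvex C)
    (hne : C.Nonempty) {b : Hyp E} (hb : b ∉ interior C) :
    ∃ n : ℝ × E, lor n n = 1 ∧ (∀ c ∈ C, lor c.v n ≤ 0) ∧ 0 ≤ lor b.v n := by
  obtain ⟨u, s, hu, h1, h2⟩ := a3_sep hC.convex_klein (hne.image _) fun h => hb (a3_interior h)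
  obtain ⟨c₀, hc₀⟩ := hne
  have h3 := abs_lt.1 (a3_abs_lt c₀ hu)
  have h4 := abs_lt.1 (a3_abs_lt b hu)
  have h5 := h1 _ (mem_image_of_mem _ hc₀)
  obtain ⟨r, hr, hn⟩ := a3_unit (s := s) (u := u) (abs_lt.2 ⟨by linarith, by linarith⟩)
  refine ⟨_, hn, fun c hc => ?_, ?_⟩
  · rw [lor_smul_right, a3_lor]
    exact mul_nonpos_of_nonneg_of_nonpos hr.le (mul_nonpos_of_nonneg_of_nonpos c.pos.le
      (sub_nonpos.2 (h1 _ (mem_image_of_mem _ hc))))
  · rw [lor_smul_right, a3_lor]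
    exact mul_nonneg hr.le (mul_nonneg b.pos.le (sub_nonneg.2 h2))

theorem not_mem_interior {C : Set (Hyp E)} {n : ℝ × E} (hn : lor n n = 1)
    (h : ∀ c ∈ C, lor c.v n ≤ 0) {b : Hyp E} (hb : 0 ≤ lor b.v n) : b ∉ interior C := by
  intro hi
  have h1 : Tendsto (fun t : ℝ => b.v + t • n) (𝓝 0) (𝓝 b.v) := by
    have : Continuous fun t : ℝ => b.v + t • n := by fun_prop
    simpa using this.tendsto 0
  have h2 : Tendsto (fun t : ℝ => nrm (b.v + t • n)) (𝓝 0) (𝓝 b) := by
    have := (continuousOn_nrm.continuousAt (isOpen_TL.mem_nhds b.tl)).tendsto.comp h1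
    rwa [nrm_self] at this
  have h3 : ∀ᶠ t : ℝ in 𝓝[>] 0, TL (b.v + t • n) ∧ nrm (b.v + t • n) ∈ C :=
    ((h1.eventually (isOpen_TL.mem_nhds b.tl)).and
      (h2.eventually (mem_interior_iff_mem_nhds.1 hi))).filter_mono nhdsWithin_le_nhds
  obtain ⟨t, ⟨ht, hm⟩, ht0⟩ := (h3.and eventually_mem_nhdsWithin).exists
  have h4 := h _ hm
  have h5 : 0 < √(-lor (b.v + t • n) (b.v + t • n)) := Real.sqrt_pos.2 (by linarith [ht.1])
  rw [nrm_v ht, lor_smul_left, lor_add_left b.v (t • n) n, lor_smul_left, hn] at h4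
  have h6 : (0 : ℝ) < t := ht0
  exact absurd h4 (not_le.2 (mul_pos (inv_pos.2 h5) (by linarith)))

theorem exists_flat [FiniteDimensional ℝ E] {C : Set (Hyp E)} (hC : GConvex C)
    (hne : C.Nonempty) (h : interior C = ∅) :
    ∃ n : ℝ × E, lor n n = 1 ∧ ∀ c ∈ C, lor c.v n = 0 := by
  obtain ⟨u, s, hu, h1⟩ := a3_flat hC.convex_klein (hne.image _) (by
    rintro ⟨y, hy⟩
    obtain ⟨c, -, rfl⟩ := interior_subset hy
    have := a3_interior hy
    rw [h] at this
    exact this)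
  obtain ⟨c₀, hc₀⟩ := hne
  obtain ⟨r, -, hn⟩ := a3_unit (s := s) (u := u)
    (h1 _ (mem_image_of_mem _ hc₀) ▸ a3_abs_lt c₀ hu)
  refine ⟨_, hn, fun c hc => ?_⟩
  rw [lor_smul_right, a3_lor, h1 _ (mem_image_of_mem _ hc), sub_self, mul_zero, mul_zero]

theorem frontier_closure_eq [FiniteDimensional ℝ E] {C : Set (Hyp E)} (hC : GConvex C) :
    frontier (closure C) = frontier C := by
  have h : interior (closure C) = interior C := by
    refine Subset.antisymm (fun b hb => ?_) (interior_mono subset_closure)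
    by_contra hb'
    obtain ⟨n, hn, h1, h2⟩ := exists_support hC (closure_nonempty_iff.1 ⟨b, interior_subset hb⟩) hb'
    have hcl : IsClosed {c : Hyp E | lor c.v n ≤ 0} :=
      isClosed_le (continuous_lor.comp (Hyp.continuous_v.prodMk continuous_const)) continuous_const
    exact not_mem_interior hn (fun c hc => closure_minimal h1 hcl hc) h2 hb
  rw [frontier, frontier, closure_closure, h]

end Pool.Agent.Lib.MP_44acff_gt.EK
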