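import Pool.Agent.Lib.MP_44acff_gt.EK.A3

open Set Metric Topology Filter

namespace Pool.Agent.Lib.MP_44acff_gt.EK

section
variable {X Y : Type} [PseudoEMetricSpace X] [PseudoEMetricSpace Y]

theorem b_le {A : Set X} {x y : X} (γ : Path x y) (h : range γ ⊆ A) :
    pathDist A x y ≤ eVariationOn γ univ := iInf₂_le γ h

theorem b_comm (A : Set X) (x y : X) : pathDist A y x ≤ pathDist A x y :=
  le_iInf₂ fun γ h => (b_le γ.symm (by rwa [Path.symm_range])).trans
    (eVariationOn.comp_le_of_antitoneOn γ unitInterval.symm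
      (unitInterval.strictAnti_symm.antitone.antitoneOn _) (mapsTo_univ _ _))

theorem b_ext {x y : X} (γ : Path x y) {f : ℝ → X} {φ : ℝ → ℝ} (hφ : Monotone φ) {s : Set ℝ}
    (h : ∀ t ∈ s, f t = γ.extend (φ t)) : eVariationOn f s ≤ eVariationOn γ univ := by
  rw [eVariationOn.congr (g := γ ∘ fun t => projIcc 0 1 zero_le_one (φ t)) h]
  exact eVariationOn.comp_le_of_monotoneOn γ _
    (((monotone_projIcc zero_le_one).comp hφ).monotoneOn _) (mapsTo_univ _ _)

theorem pathDist_self {A : Set X} {x : X} (hx : x ∈ A) : pathDist A x x = 0 :=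
  le_antisymm ((b_le (Path.refl x) (by simp [hx])).trans_eq (eVariationOn.constant_on (by
    rw [image_univ, Path.refl_range]; exact subsingleton_singleton))) zero_le

theorem pathDist_comm (A : Set X) (x y : X) : pathDist A x y = pathDist A y x :=
  le_antisymm (b_comm A y x) (b_comm A x y)

theorem pathDist_triangle (A : Set X) (x y z : X) :
    pathDist A x z ≤ pathDist A x y + pathDist A y z := by
  refine ENNReal.le_iInf₂_add_iInf₂ fun γ h γ' h' => ?_
  refine (b_le (γ.trans γ') (by rw [Path.trans_range]; exact union_subset h h')).trans ?_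
  have h1 : eVariationOn (γ.trans γ') univ ≤ eVariationOn (γ.trans γ').extend (Icc 0 1) := by
    rw [eVariationOn.congr (g := (γ.trans γ').extend ∘ Subtype.val)
      fun t _ => ((γ.trans γ').extend_extends' t).symm]
    exact eVariationOn.comp_le_of_monotoneOn _ _ (fun _ _ _ _ k => k) fun t _ => t.2
  have h2 := eVariationOn.Icc_add_Icc (γ.trans γ').extend (s := univ) (a := 0) (b := 1 / 2) (c := 1)
    (by norm_num) (by norm_num) (mem_univ _)
  simp only [univ_inter] at h2
  refine h1.trans (h2.symm.trans_le (add_le_add ?_ ?_))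
  · exact b_ext γ (φ := fun t => 2 * t) (fun _ _ k => by linarith)
      fun t ht => Path.extend_trans_of_le_half γ γ' ht.2
  · exact b_ext γ' (φ := fun t => 2 * t - 1) (fun _ _ k => by linarith)
      fun t ht => Path.extend_trans_of_half_le γ γ' ht.1

theorem edist_le_pathDist (A : Set X) (x y : X) : edist x y ≤ pathDist A x y :=
  le_iInf₂ fun γ _ => by simpa using eVariationOn.edist_le γ (mem_univ 0) (mem_univ 1)

theorem pathDist_le_var {A : Set X} {γ : ℝ → X} {a b : ℝ} (hab : a ≤ b)
    (hc : ContinuousOn γ (Icc a b)) (hA : MapsTo γ (Icc a b) A) :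
    pathDist A (γ a) (γ b) ≤ eVariationOn γ (Icc a b) := by
  have h1 : ∀ t : unitInterval, a + t * (b - a) ∈ Icc a b := fun t =>
    ⟨by nlinarith [t.2.1], by nlinarith [t.2.2]⟩
  refine (b_le ⟨⟨fun t => γ (a + t * (b - a)), hc.comp_continuous (by fun_prop) h1⟩, by simp,
    by simp⟩ (range_subset_iff.2 fun t => hA (h1 t))).trans ?_
  exact eVariationOn.comp_le_of_monotoneOn γ (fun t : unitInterval => a + t * (b - a))
    (fun s _ t _ k => by
      have : (s : ℝ) ≤ t := k
      nlinarith) fun t _ => h1 t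

theorem pathDist_le_of_path {B : Set Y} {x y : X} (γ : Path x y) {f : X → Y} {L : NNReal}
    (hf : LipschitzOnWith L f (range γ)) (hB : MapsTo f (range γ) B) :
    pathDist B (f x) (f y) ≤ L * eVariationOn γ univ :=
  (b_le ⟨⟨fun t => f (γ t), hf.continuousOn.comp_continuous γ.continuous mem_range_self⟩, by simp,
    by simp⟩ (range_subset_iff.2 fun t => hB (mem_range_self t))).trans
      (hf.comp_eVariationOn_le fun t _ => mem_range_self t)

theorem pathDist_map {A : Set X} {B : Set Y} {f : X → Y} {L : NNReal} (hL : L ≠ 0)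
    (hf : LipschitzOnWith L f A) (hB : MapsTo f A B) (x y : X) :
    pathDist B (f x) (f y) ≤ L * pathDist A x y := by
  have h0 : (L : ENNReal) ≠ 0 := by exact_mod_cast hL
  rw [pathDist.eq_1 A, ENNReal.mul_iInf_of_ne h0 ENNReal.coe_ne_top]
  refine le_iInf fun γ => ?_
  rw [ENNReal.mul_iInf_of_ne h0 ENNReal.coe_ne_top]
  exact le_iInf fun h => pathDist_le_of_path γ (hf.mono h) (hB.mono_left h)

theorem pathDist_isom (g : X ≃ᵢ Y) (A : Set X) (x y : X) :
    pathDist (g '' A) (g x) (g y) = pathDist A x y := by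
  refine le_antisymm ?_ ?_
  · simpa using pathDist_map one_ne_zero (g.isometry.lipschitz.lipschitzOnWith (s := A))
      (mapsTo_image g A) x y
  · simpa using pathDist_map (B := A) one_ne_zero
      (g.symm.isometry.lipschitz.lipschitzOnWith (s := g '' A))
      (by rintro _ ⟨z, hz, rfl⟩; simpa using hz) (g x) (g y)

end

theorem pathDist_le_lip {X : Type} [PseudoMetricSpace X] {A : Set X} {γ : ℝ → X} {a b L : ℝ}
    (hab : a ≤ b) (hL : 0 ≤ L) (hA : MapsTo γ (Icc a b) A)
    (h : ∀ s ∈ Icc a b, ∀ t ∈ Icc a b, dist (γ s) (γ t) ≤ L * |s - t|) :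
    pathDist A (γ a) (γ b) ≤ ENNReal.ofReal (L * (b - a)) := by
  have h1 : LipschitzOnWith L.toNNReal γ (Icc a b) := LipschitzOnWith.of_dist_le_mul
    fun s hs t ht => by rw [Real.coe_toNNReal _ hL, Real.dist_eq]; exact h s hs t ht
  refine (pathDist_le_var hab h1.continuousOn hA).trans ?_
  have h2 := h1.comp_eVariationOn_le (g := id) (mapsTo_id _)
  rw [eVariationOn_id_Icc] at h2
  rw [ENNReal.ofReal_mul hL]
  exact h2

/-- A geodesic as a path whose length is the distance. -/
theorem exists_geodesic_path {E : Type} [NormedAddCommGroup E] [InnerProductSpace ℝ E]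
    (x y : Hyp E) : ∃ γ : Path x y, eVariationOn γ univ ≤ edist x y ∧
      ∀ t, dist x (γ t) + dist (γ t) y = dist x y := by
  obtain ⟨γ, h0, h1, h2⟩ := exists_geodesic x y
  have h3 : LipschitzWith (nndist x y) γ := LipschitzWith.of_dist_le_mul fun s t => by
    rw [h2, Real.dist_eq, mul_comm, coe_nndist]
  refine ⟨⟨⟨fun t => γ t, h3.continuous.comp continuous_subtype_val⟩, h0, h1⟩, ?_, fun t => ?_⟩
  · have h4 := (h3.lipschitzOnWith (s := Icc 0 1)).comp_eVariationOn_le (g := id) (mapsTo_id _)
    rw [eVariationOn_id_Icc, sub_zero, ENNReal.ofReal_one, mul_one, ← edist_nndist] at h4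
    exact (eVariationOn.comp_le_of_monotoneOn γ Subtype.val (fun _ _ _ _ k => k)
      fun t _ => t.2).trans h4
  · have h4 := h2 0 t
    have h5 := h2 t 1
    rw [h0, zero_sub, abs_neg, abs_of_nonneg t.2.1] at h4
    rw [h1, abs_of_nonpos (sub_nonpos.2 t.2.2)] at h5
    change dist x (γ t) + dist (γ t) y = _
    rw [h4, h5]
    ring

variable {S : Type} [MetricSpace S]

theorem Realis.φ_mem_frontier (R : Realis S) (y : S) : R.φ y ∈ frontier R.C :=
  R.range_φ ▸ mem_range_self y

theorem Realis.φ_mem (R : Realis S) (y : S) : R.φ y ∈ R.C :=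
  R.closed.frontier_subset (R.φ_mem_frontier y)

theorem Realis.φ_not_mem (R : Realis S) (y : S) : R.φ y ∉ interior R.C :=
  (R.φ_mem_frontier y).2

theorem Realis.dist_le (R : Realis S) (x y : S) : dist (R.φ x) (R.φ y) ≤ dist x y := by
  have h := edist_le_pathDist (frontier R.C) (R.φ x) (R.φ y)
  rwa [← R.isom, edist_dist, edist_dist, ENNReal.ofReal_le_ofReal_iff dist_nonneg] at h

theorem Realis.continuous_φ (R : Realis S) : Continuous R.φ :=
  (LipschitzWith.mk_one R.dist_le).continuous

theorem Realis.injective_φ (R : Realis S) : Function.Injective R.φ := fun x y h => by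
  have h1 := R.isom x y
  rw [← h, pathDist_self (R.φ_mem_frontier x)] at h1
  exact edist_eq_zero.1 h1

theorem Realis.exists_map (R : Realis S) (g : H3 ≃ᵢ H3) :
    ∃ R' : Realis S, R'.C = g '' R.C ∧ ∀ y, R'.φ y = g (R.φ y) := by
  have h1 : frontier (g '' R.C) = g '' frontier R.C := (g.toHomeomorph.image_frontier R.C).symm
  have h2 : interior (g '' R.C) = g '' interior R.C := (g.toHomeomorph.image_interior R.C).symm
  exact ⟨⟨g '' R.C, g.toHomeomorph.isClosedMap _ R.closed, R.convex.image g, h2 ▸ R.int.image g,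
    g ∘ R.φ, by rw [range_comp, R.range_φ, h1], fun x y => by
      rw [h1, R.isom]; exact (pathDist_isom g _ _ _).symm⟩, rfl, fun _ => rfl⟩

end Pool.Agent.Lib.MP_44acff_gt.EK
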