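import Pool.Agent.Lib.MP_44acff_gt.EK.Core

open Set Metric Topology Filter MeasureTheory

namespace Pool.Agent.Lib.MP_44acff_gt.EK

noncomputable section

/-- The length of the intervals of level `n`. -/
def el (γ : ℝ) (n : ℕ) : ℝ := (1 / 2) ^ n * (1 - γ + γ * (1 / 2) ^ n)

open Classical in
/-- The left end points of the intervals of level `n`. -/
def Lp (γ : ℝ) : ℕ → Finset ℝ
  | 0 => {0}
  | n + 1 => Lp γ n ∪ (Lp γ n).image fun p => p + (el γ n - el γ (n + 1))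

/-- An interval of level `n`. -/
def Iv (γ : ℝ) (n : ℕ) (p : ℝ) : Set ℝ := Icc p (p + el γ n)

/-- The union of the intervals of level `n`. -/
def Xs (γ : ℝ) (n : ℕ) : Set ℝ := {x | ∃ p ∈ Lp γ n, x ∈ Iv γ n p}

/-- Admissible parameters. -/
def Gam (γ : ℝ) : Prop := 0 < γ ∧ γ ≤ 1 / 100

end

variable {γ : ℝ}

theorem el_pos (h : Gam γ) (n : ℕ) : 0 < el γ n := by
  obtain ⟨h1, h2⟩ := h
  have h3 : 0 < γ * (1 / 2 : ℝ) ^ n := by positivity
  unfold el
  exact mul_pos (by positivity) (by linarith)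

theorem can_half (n : ℕ) : (1 / 2 : ℝ) ^ n ≤ 1 := pow_le_one₀ (by norm_num) (by norm_num)

theorem el_le (h : Gam γ) (n : ℕ) : el γ n ≤ (1 / 2) ^ n := by
  have h1 := can_half n
  have h2 := mul_le_mul_of_nonneg_left h1 h.1.le
  unfold el
  exact mul_le_of_le_one_right (by positivity) (by linarith)

theorem can_le_el (h : Gam γ) (n : ℕ) : (1 - γ) * (1 / 2) ^ n ≤ el γ n := by
  have h3 : 0 < γ * (1 / 2 : ℝ) ^ n := mul_pos h.1 (by positivity)
  have h2 : 0 < (1 / 2 : ℝ) ^ n := by positivity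
  unfold el
  nlinarith

theorem le_el (h : Gam γ) (n : ℕ) : 99 / 100 * (1 / 2) ^ n ≤ el γ n := by
  have h1 := can_le_el h n
  have h2 : 0 < (1 / 2 : ℝ) ^ n := by positivity
  nlinarith [h.2]

theorem el_gap (γ : ℝ) (n : ℕ) : el γ n - 2 * el γ (n + 1) = γ / 2 * (1 / 4) ^ n := by
  have h1 : (1 / 4 : ℝ) ^ n = (1 / 2) ^ n * (1 / 2) ^ n := by
    rw [← mul_pow]; norm_num
  unfold el
  rw [h1, pow_succ]
  ring

theorem can_two (h : Gam γ) (n : ℕ) : 2 * el γ (n + 1) < el γ n := by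
  have h1 := el_gap γ n
  have h2 : 0 < γ / 2 * (1 / 4 : ℝ) ^ n := mul_pos (half_pos h.1) (by positivity)
  linarith

theorem el_anti (h : Gam γ) : Antitone (el γ) := by
  exact antitone_nat_of_succ_le fun n => by linarith [can_two h n, el_pos h (n + 1)]

theorem tendsto_el (h : Gam γ) : Tendsto (el γ) atTop (𝓝 0) := by
  exact squeeze_zero (fun n => (el_pos h n).le) (el_le h)
    (tendsto_pow_atTop_nhds_zero_of_lt_one (by norm_num) (by norm_num))

theorem can_zero {p : ℝ} : p ∈ Lp γ 0 ↔ p = 0 := by simp [Lp]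

theorem can_succ {n : ℕ} {p : ℝ} :
    p ∈ Lp γ (n + 1) ↔ ∃ a ∈ Lp γ n, p = a ∨ p = a + (el γ n - el γ (n + 1)) := by
  simp only [Lp, Finset.mem_union, Finset.mem_image]
  constructor
  · rintro (h | ⟨a, ha, rfl⟩)
    · exact ⟨p, h, Or.inl rfl⟩
    · exact ⟨a, ha, Or.inr rfl⟩
  · rintro ⟨a, ha, rfl | rfl⟩
    · exact Or.inl ha
    · exact Or.inr ⟨a, ha, rfl⟩

theorem can_el0 (γ : ℝ) : el γ 0 = 1 := by simp [el]

theorem can_el1 (γ : ℝ) : el γ 1 = 1 / 2 - γ / 4 := by unfold el; ring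

theorem can_el2 (γ : ℝ) : el γ 2 = 1 / 4 - 3 * γ / 16 := by unfold el; ring

theorem card_Lp (γ : ℝ) (n : ℕ) : (Lp γ n).card ≤ 2 ^ n := by
  classical
  induction n with
  | zero => simp [Lp]
  | succ n ih =>
    rw [Lp, pow_succ]
    refine (Finset.card_union_le _ _).trans ?_
    have := Finset.card_image_le (s := Lp γ n) (f := fun p => p + (el γ n - el γ (n + 1)))
    omega

theorem Lp_mono (γ : ℝ) : Monotone (Lp γ) := by
  exact monotone_nat_of_le_succ fun n p hp => can_succ.2 ⟨p, hp, Or.inl rfl⟩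

theorem Lp_range (h : Gam γ) {n : ℕ} {p : ℝ} (hp : p ∈ Lp γ n) : 0 ≤ p ∧ p + el γ n ≤ 1 := by
  induction n generalizing p with
  | zero => rw [can_zero.1 hp, can_el0]; norm_num
  | succ n ih =>
    obtain ⟨a, ha, h1⟩ := can_succ.1 hp
    obtain ⟨h2, h3⟩ := ih ha
    have h4 := can_two h n
    have h5 := el_pos h (n + 1)
    rcases h1 with rfl | rfl <;> constructor <;> linarith

theorem Lp_sep (h : Gam γ) {n : ℕ} {p p' : ℝ} (hp : p ∈ Lp γ n) (hp' : p' ∈ Lp γ n)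
    (hne : p < p') : p + el γ n + 2 * γ * (1 / 4) ^ n ≤ p' := by
  induction n generalizing p p' with
  | zero => rw [can_zero.1 hp, can_zero.1 hp'] at hne; exact absurd hne (lt_irrefl _)
  | succ n ih =>
    obtain ⟨a, ha, h1⟩ := can_succ.1 hp
    obtain ⟨a', ha', h1'⟩ := can_succ.1 hp'
    have h4 := can_two h n
    have h5 := el_pos h (n + 1)
    have h6 := el_gap γ n
    have h7 : 0 < γ * (1 / 4 : ℝ) ^ n := mul_pos h.1 (by positivity)
    rw [pow_succ]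
    rcases lt_trichotomy a a' with h8 | h8 | h8
    · have := ih ha ha' h8
      rcases h1 with rfl | rfl <;> rcases h1' with rfl | rfl <;> linarith
    · rcases h1 with rfl | rfl <;> rcases h1' with rfl | rfl <;> linarith
    · have := ih ha' ha h8
      rcases h1 with rfl | rfl <;> rcases h1' with rfl | rfl <;> linarith

theorem can_kid (h : Gam γ) {n : ℕ} {p a : ℝ} (h1 : p = a ∨ p = a + (el γ n - el γ (n + 1))) :
    Iv γ (n + 1) p ⊆ Iv γ n a := by
  have h4 := can_two h n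
  have h5 := el_pos h (n + 1)
  rcases h1 with rfl | rfl <;> refine Icc_subset_Icc ?_ ?_ <;> linarith

theorem can_eq (h : Gam γ) {n : ℕ} {p p' x : ℝ} (hp : p ∈ Lp γ n) (hp' : p' ∈ Lp γ n)
    (hx : x ∈ Iv γ n p) (hx' : x ∈ Iv γ n p') : p = p' := by
  have h7 : 0 < γ * (1 / 4 : ℝ) ^ n := mul_pos h.1 (by positivity)
  obtain ⟨h1, h2⟩ := hx
  obtain ⟨h3, h4⟩ := hx'
  rcases lt_trichotomy p p' with h8 | h8 | h8
  · have := Lp_sep h hp hp' h8
    linarith
  · exact h8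
  · have := Lp_sep h hp' hp h8
    linarith

theorem can_self (h : Gam γ) (n : ℕ) (p : ℝ) : p ∈ Iv γ n p :=
  ⟨le_rfl, by linarith [el_pos h n]⟩

theorem Lp_parent (h : Gam γ) {j n : ℕ} (hj : j ≤ n) {p : ℝ} (hp : p ∈ Lp γ n) :
    ∃ p' ∈ Lp γ j, Iv γ n p ⊆ Iv γ j p' := by
  induction n, hj using Nat.le_induction generalizing p with
  | base => exact ⟨p, hp, subset_rfl⟩
  | succ n _ ih =>
    obtain ⟨a, ha, h1⟩ := can_succ.1 hp
    obtain ⟨p', hp', h2⟩ := ih ha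
    exact ⟨p', hp', (can_kid h h1).trans h2⟩

theorem Iv_subset (h : Gam γ) {j n : ℕ} (hj : j ≤ n) {p p' : ℝ} (hp : p ∈ Lp γ n)
    (hp' : p' ∈ Lp γ j) (hm : (Iv γ n p ∩ Iv γ j p').Nonempty) : Iv γ n p ⊆ Iv γ j p' := by
  obtain ⟨q, hq, h1⟩ := Lp_parent h hj hp
  obtain ⟨x, hx, hx'⟩ := hm
  rwa [← can_eq h hq hp' (h1 hx) hx']

open Classical in
theorem card_children (h : Gam γ) (n m : ℕ) {p : ℝ} (hp : p ∈ Lp γ n) :
    ((Lp γ (n + m)).filter fun p' => p' ∈ Iv γ n p).card ≤ 2 ^ m := by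
  induction m with
  | zero =>
    refine Finset.card_le_one.2 fun a ha b hb => ?_
    rw [Finset.mem_filter] at ha hb
    rw [can_eq h ha.1 hp (can_self h n a) ha.2, can_eq h hb.1 hp (can_self h n b) hb.2]
  | succ m ih =>
    have h1 : ((Lp γ (n + (m + 1))).filter fun p' => p' ∈ Iv γ n p) ⊆
        ((Lp γ (n + m)).filter fun p' => p' ∈ Iv γ n p) ∪
          ((Lp γ (n + m)).filter fun p' => p' ∈ Iv γ n p).image
            fun a => a + (el γ (n + m) - el γ (n + m + 1)) := by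
      intro q hq
      obtain ⟨hq1, hq2⟩ := Finset.mem_filter.1 hq
      obtain ⟨a, ha, h2⟩ := can_succ.1 (show q ∈ Lp γ (n + m + 1) from hq1)
      have h3 : a ∈ Iv γ n p :=
        Iv_subset h (Nat.le_add_right n m) ha hp ⟨q, can_kid h h2 (can_self h _ q), hq2⟩
          (can_self h _ a)
      have h4 := Finset.mem_filter.2 (⟨ha, h3⟩ : a ∈ Lp γ (n + m) ∧ a ∈ Iv γ n p)
      rcases h2 with rfl | rfl
      · exact Finset.mem_union_left _ h4
      · exact Finset.mem_union_right _ (Finset.mem_image_of_mem _ h4)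
    refine (Finset.card_le_card h1).trans ((Finset.card_union_le _ _).trans ?_)
    have := Finset.card_image_le (s := (Lp γ (n + m)).filter fun p' => p' ∈ Iv γ n p)
      (f := fun a => a + (el γ (n + m) - el γ (n + m + 1)))
    rw [pow_succ]
    omega

theorem Lp_mirror (γ : ℝ) {n : ℕ} {p : ℝ} (hp : p ∈ Lp γ n) : 1 - el γ n - p ∈ Lp γ n := by
  induction n generalizing p with
  | zero => rw [can_zero.1 hp, can_el0, can_zero]; norm_num
  | succ n ih =>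
    obtain ⟨a, ha, h1⟩ := can_succ.1 hp
    refine can_succ.2 ⟨_, ih ha, ?_⟩
    rcases h1 with rfl | rfl
    · right; ring
    · left; ring

theorem Xs_anti (h : Gam γ) : Antitone (Xs γ) := by
  rintro j n hj x ⟨p, hp, hx⟩
  obtain ⟨q, hq, h1⟩ := Lp_parent h hj hp
  exact ⟨q, hq, h1 hx⟩

theorem isClosed_Xs (γ : ℝ) (n : ℕ) : IsClosed (Xs γ n) := by
  have h1 : Xs γ n = ⋃ p ∈ Lp γ n, Iv γ n p := by
    ext x; simp [Xs]
  rw [h1]
  exact isClosed_biUnion_finset fun p _ => isClosed_Icc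

theorem Xs_mid (h : Gam γ) {n : ℕ} (hn : 1 ≤ n) {x : ℝ} (hx : x ∈ Xs γ n) :
    γ / 4 ≤ |x - 1 / 2| := by
  obtain ⟨p, hp, h1, h2⟩ := Xs_anti h hn hx
  obtain ⟨a, ha, h3⟩ := can_succ.1 (show p ∈ Lp γ (0 + 1) from hp)
  rw [can_zero.1 ha, zero_add 1, can_el0, can_el1] at h3
  rw [can_el1] at h2
  rw [le_abs]
  rcases h3 with rfl | rfl
  · right; linarith
  · left; linarith

theorem Lp_central (h : Gam γ) {n : ℕ} (hn : 2 ≤ n) {p : ℝ} (hp : p ∈ Lp γ n) :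
    (∀ x ∈ Iv γ n p, |x - 1 / 2| ≤ 1 / 4 + γ / 16) ∨
      ∀ x ∈ Iv γ n p, 1 / 4 + γ / 16 + γ / 8 ≤ |x - 1 / 2| := by
  obtain ⟨q, hq, h0⟩ := Lp_parent h hn hp
  obtain ⟨a, ha, h3⟩ := can_succ.1 (show q ∈ Lp γ (1 + 1) from hq)
  obtain ⟨b, hb, h4⟩ := can_succ.1 (show a ∈ Lp γ (0 + 1) from ha)
  rw [can_zero.1 hb, zero_add 1, can_el0, can_el1] at h4
  rw [one_add_one_eq_two, can_el1, can_el2] at h3
  have h5 : ∀ x ∈ Iv γ n p, q ≤ x ∧ x ≤ q + (1 / 4 - 3 * γ / 16) := fun x hx => by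
    rw [← can_el2]; exact h0 hx
  have h6 := h.1
  rcases h4 with rfl | rfl <;> rcases h3 with rfl | rfl
  · right; intro x hx
    rw [le_abs]; right; linarith [(h5 x hx).2]
  · left; intro x hx
    rw [abs_le]; constructor <;> linarith [(h5 x hx).1, (h5 x hx).2]
  · left; intro x hx
    rw [abs_le]; constructor <;> linarith [(h5 x hx).1, (h5 x hx).2]
  · right; intro x hx
    rw [le_abs]; left; linarith [(h5 x hx).1]

theorem vol_Xs_Iv (h : Gam γ) {j n : ℕ} (hj : j ≤ n) {p : ℝ} (hp : p ∈ Lp γ j) :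
    ENNReal.ofReal ((1 - γ) * (1 / 2) ^ j) ≤ volume (Xs γ n ∩ Iv γ j p) := by
  obtain ⟨m, rfl⟩ := Nat.exists_eq_add_of_le hj
  induction m generalizing j p with
  | zero =>
    have h1 : Iv γ j p ⊆ Xs γ (j + 0) ∩ Iv γ j p := fun x hx => ⟨⟨p, hp, hx⟩, hx⟩
    refine le_trans ?_ (measure_mono h1)
    rw [Iv, Real.volume_Icc]
    exact ENNReal.ofReal_le_ofReal (by linarith [can_le_el h j])
  | succ m ih =>
    have e1 : j + (m + 1) = j + 1 + m := by omega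
    have k1 := ih (can_succ.2 ⟨p, hp, Or.inl rfl⟩) (Nat.le_add_right _ _)
    have k2 := ih (can_succ.2 ⟨p, hp, Or.inr rfl⟩) (Nat.le_add_right _ _)
    rw [e1]
    have hd : Disjoint (Xs γ (j + 1 + m) ∩ Iv γ (j + 1) p)
        (Xs γ (j + 1 + m) ∩ Iv γ (j + 1) (p + (el γ j - el γ (j + 1)))) := by
      refine Set.disjoint_left.2 fun x hx hx' => ?_
      linarith [hx.2.2, hx'.2.1, can_two h j]
    have hs : Xs γ (j + 1 + m) ∩ Iv γ (j + 1) p ∪
        Xs γ (j + 1 + m) ∩ Iv γ (j + 1) (p + (el γ j - el γ (j + 1))) ⊆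
          Xs γ (j + 1 + m) ∩ Iv γ j p :=
      union_subset (inter_subset_inter_right _ (can_kid h (Or.inl rfl)))
        (inter_subset_inter_right _ (can_kid h (Or.inr rfl)))
    refine le_trans ?_ (measure_mono hs)
    rw [measure_union hd ((isClosed_Xs γ _).measurableSet.inter measurableSet_Icc)]
    refine le_trans ?_ (add_le_add k1 k2)
    have h0 : 0 ≤ (1 - γ) * (1 / 2 : ℝ) ^ (j + 1) :=
      mul_nonneg (by linarith [h.2]) (by positivity)
    rw [← ENNReal.ofReal_add h0 h0]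
    exact ENNReal.ofReal_le_ofReal (le_of_eq (by ring))

theorem can_level (h : Gam γ) {j n : ℕ} (hj : j ≤ n) {r : ℝ} (h1 : r ≤ el γ j) (h2 : el γ n ≤ r) :
    ∃ i, j ≤ i ∧ i ≤ n ∧ el γ i ≤ r ∧ r ≤ 2 * (1 / 2) ^ i := by
  induction n, hj using Nat.le_induction with
  | base =>
    have h3 : 0 < (1 / 2 : ℝ) ^ j := by positivity
    exact ⟨j, le_rfl, le_rfl, h2, by linarith [el_le h j]⟩
  | succ n hn ih =>
    by_cases h3 : el γ n ≤ r
    · obtain ⟨i, k1, k2, k3⟩ := ih h3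
      exact ⟨i, k1, by omega, k3⟩
    · refine ⟨n + 1, by omega, le_rfl, h2, ?_⟩
      rw [pow_succ]
      linarith [el_le h n, not_le.1 h3]

theorem vol_Xs_loc (h : Gam γ) {j n : ℕ} (hj : j ≤ n) {p : ℝ} (hp : p ∈ Lp γ j) {x r : ℝ}
    (hx : x ∈ Xs γ n ∩ Iv γ j p) (hr : 0 < r) (hr' : r ≤ el γ j) :
    ENNReal.ofReal (r / 6) ≤ volume (Xs γ n ∩ Iv γ j p ∩ Icc (x - r) (x + r)) := by
  obtain ⟨⟨q, hq, hxq⟩, hxp⟩ := hx
  by_cases hc : el γ n ≤ r
  · obtain ⟨i, h1, h2, h3, h4⟩ := can_level h hj hr' hc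
    obtain ⟨a, ha, h5⟩ := Lp_parent h h2 hq
    have h6 := Iv_subset h h1 ha hp ⟨x, h5 hxq, hxp⟩
    obtain ⟨h7, h8⟩ := h5 hxq
    have hs : Xs γ n ∩ Iv γ i a ⊆ Xs γ n ∩ Iv γ j p ∩ Icc (x - r) (x + r) := fun y hy =>
      ⟨⟨hy.1, h6 hy.2⟩, by linarith [hy.2.1], by linarith [hy.2.2]⟩
    refine le_trans ?_ ((vol_Xs_Iv h h2 ha).trans (measure_mono hs))
    refine ENNReal.ofReal_le_ofReal ?_
    have h9 : 0 < (1 / 2 : ℝ) ^ i := by positivity
    nlinarith [h.2]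
  · have h6 := Iv_subset h hj hq hp ⟨x, hxq, hxp⟩
    obtain ⟨h7, h8⟩ := hxq
    rw [not_le] at hc
    have key : ∀ u : ℝ, q ≤ u → u + r / 6 ≤ q + el γ n → x - r ≤ u → u + r / 6 ≤ x + r →
        ENNReal.ofReal (r / 6) ≤ volume (Xs γ n ∩ Iv γ j p ∩ Icc (x - r) (x + r)) := by
      intro u k1 k2 k3 k4
      have hs : Icc u (u + r / 6) ⊆ Xs γ n ∩ Iv γ j p ∩ Icc (x - r) (x + r) := fun y hy =>
        have hy' : y ∈ Iv γ n q := ⟨k1.trans hy.1, hy.2.trans k2⟩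
        ⟨⟨⟨q, hq, hy'⟩, h6 hy'⟩, k3.trans hy.1, hy.2.trans k4⟩
      refine le_trans ?_ (measure_mono hs)
      rw [Real.volume_Icc]
      exact ENNReal.ofReal_le_ofReal (by linarith)
    by_cases hd : x + r / 6 ≤ q + el γ n
    · exact key x h7 hd (by linarith) (by linarith)
    · rw [not_le] at hd
      exact key (x - r / 6) (by linarith) (by linarith) (by linarith) (by linarith)

end Pool.Agent.Lib.MP_44acff_gt.EK
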