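import Pool.Agent.Lib.MP_44acff_gt.EK.Sp

open Set Metric Topology Filter MeasureTheory

namespace Pool.Agent.Lib.MP_44acff_gt.EK

theorem cap_base {O : Set ℝ} {u F : ℝ → ℝ} (hF : Monotone F)
    (hu : ∀ a b, a ≤ b → Icc a b ⊆ O → |u b - u a| ≤ F b - F a) {a b p q : ℝ} (hab : a < b)
    (hc : Ioo a b ⊆ O)
    (ha : ∀ ε : ℝ, 0 < ε → ∀ᶠ θ in 𝓝[>] a, θ ∈ O → p - ε ≤ u θ)
    (hb : ∀ ε : ℝ, 0 < ε → ∀ᶠ θ in 𝓝[<] b, θ ∈ O → u θ ≤ q + ε) : p - q ≤ F b - F a := by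
  refine le_of_forall_pos_le_add fun ε hε => ?_
  have h1 : a < (a + b) / 2 := by linarith
  have h2 : (a + b) / 2 < b := by linarith
  obtain ⟨x, hx, hx'⟩ := ((ha (ε / 2) (half_pos hε)).and (Ioo_mem_nhdsGT h1)).exists
  obtain ⟨y, hy, hy'⟩ := ((hb (ε / 2) (half_pos hε)).and (Ioo_mem_nhdsLT h2)).exists
  have hxy : x ≤ y := (hx'.2.trans hy'.1).le
  have hs : Icc x y ⊆ O := fun z hz => hc ⟨hx'.1.trans_le hz.1, hz.2.trans_lt hy'.2⟩
  have h3 := hx (hs ⟨le_rfl, hxy⟩)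
  have h4 := hy (hs ⟨hxy, le_rfl⟩)
  have h5 := (abs_le.1 (hu x y hxy hs)).1
  have h6 := hF hx'.1.le
  have h7 := hF hy'.2.le
  linarith

open Classical in
/-- Crossing finitely many closed sets costs their oscillations. -/
theorem arc {ι : Type} (J : Finset ι) (M : ι → Set ℝ) (hM : ∀ j ∈ J, IsClosed (M j))
    (hd : ∀ i ∈ J, ∀ j ∈ J, i ≠ j → Disjoint (M i) (M j)) (O : Set ℝ) (u F : ℝ → ℝ)
    (hF : Monotone F) (hu : ∀ a b, a ≤ b → Icc a b ⊆ O → |u b - u a| ≤ F b - F a)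
    (lo hi : ι → ℝ) (hle : ∀ j ∈ J, lo j ≤ hi j)
    (hn : ∀ j ∈ J, ∀ θ ∈ M j, ∀ ε : ℝ, 0 < ε → ∀ᶠ θ' in 𝓝 θ, θ' ∈ O →
      lo j - ε ≤ u θ' ∧ u θ' ≤ hi j + ε)
    {a b p q : ℝ} (hab : a < b) (hc : ∀ θ ∈ Ioo a b, θ ∈ O ∨ ∃ j ∈ J, θ ∈ M j)
    (ha : ∀ ε : ℝ, 0 < ε → ∀ᶠ θ in 𝓝[>] a, θ ∈ O → p - ε ≤ u θ)
    (ha' : ∀ j ∈ J, a ∈ M j → p ≤ hi j)
    (hb : ∀ ε : ℝ, 0 < ε → ∀ᶠ θ in 𝓝[<] b, θ ∈ O → u θ ≤ q + ε)
    (hb' : ∀ j ∈ J, b ∈ M j → lo j ≤ q) :
    p - q ≤ F b - F a + ∑ j ∈ J.filter fun j => (M j ∩ Icc a b).Nonempty, (hi j - lo j) := by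
  induction J using Finset.strongInduction generalizing a p with
  | H J ih =>
  have hcl : IsClosed (⋃ j ∈ J, M j) := isClosed_biUnion_finset hM
  rcases ((⋃ j ∈ J, M j) ∩ Icc a b).eq_empty_or_nonempty with he | hne
  · have h1 : Ioo a b ⊆ O := fun θ hθ => (hc θ hθ).resolve_right fun ⟨j, hj, h⟩ =>
      (Set.eq_empty_iff_forall_notMem.1 he θ) ⟨mem_biUnion hj h, Ioo_subset_Icc_self hθ⟩
    have h2 := cap_base hF hu hab h1 ha hb
    have h3 : 0 ≤ ∑ j ∈ J.filter fun j => (M j ∩ Icc a b).Nonempty, (hi j - lo j) :=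
      Finset.sum_nonneg fun j hj => sub_nonneg.2 (hle j (Finset.mem_filter.1 hj).1)
    linarith
  obtain ⟨x, ⟨hx, hxab⟩, hxl⟩ := (isCompact_Icc.inter_left hcl).exists_isLeast hne
  obtain ⟨j, hj, hxj⟩ := mem_iUnion₂.1 hx
  obtain ⟨y, ⟨hy, hyab⟩, hyl⟩ :=
    (isCompact_Icc.inter_left (hM j hj)).exists_isGreatest ⟨x, hxj, hxab⟩
  have hxy : x ≤ y := hyl ⟨hxj, hxab⟩
  have h1 : p - hi j ≤ F x - F a := by
    rcases hxab.1.eq_or_lt with h | h
    · subst h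
      have := ha' j hj hxj
      linarith
    · refine cap_base hF hu h (fun θ hθ => ?_) ha fun ε hε => ?_
      · have h2 : θ ∈ Ioo a b := ⟨hθ.1, hθ.2.trans_le hxab.2⟩
        refine (hc θ h2).resolve_right fun ⟨i, hi', h'⟩ => ?_
        exact absurd (hxl ⟨mem_biUnion hi' h', Ioo_subset_Icc_self h2⟩) (not_le.2 hθ.2)
      · exact ((hn j hj x hxj ε hε).filter_mono nhdsWithin_le_nhds).mono
          fun θ h' hθ => (h' hθ).2
  have hjm : j ∈ J.filter fun j => (M j ∩ Icc a b).Nonempty :=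
    Finset.mem_filter.2 ⟨hj, x, hxj, hxab⟩
  have h2 : lo j - q ≤ F b - F y +
      ∑ i ∈ (J.filter fun j => (M j ∩ Icc a b).Nonempty).erase j, (hi i - lo i) := by
    have hnn : ∀ i ∈ (J.filter fun j => (M j ∩ Icc a b).Nonempty).erase j, 0 ≤ hi i - lo i :=
      fun i h => sub_nonneg.2 (hle i (Finset.mem_filter.1 (Finset.mem_of_mem_erase h)).1)
    rcases hyab.2.eq_or_lt with h | h
    · subst h
      have h3 := hb' j hj hy
      have h4 := Finset.sum_nonneg hnn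
      linarith
    · have hs : J.erase j ⊆ J := Finset.erase_subset j J
      have h3 := ih (J.erase j) (Finset.erase_ssubset hj) (fun i h' => hM i (hs h'))
        (fun i h' i' h'' => hd i (hs h') i' (hs h'')) (fun i h' => hle i (hs h'))
        (fun i h' => hn i (hs h')) (a := y) (p := lo j) h (fun θ hθ => ?_) (fun ε hε => ?_)
        (fun i h' hi' => ?_) (fun i h' => hb' i (hs h'))
      · refine h3.trans (add_le_add le_rfl (Finset.sum_le_sum_of_subset_of_nonneg ?_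
          fun i h' _ => hnn i h'))
        intro i h'
        obtain ⟨h4, z, hz, hz'⟩ := Finset.mem_filter.1 h'
        exact Finset.mem_erase.2 ⟨(Finset.mem_erase.1 h4).1,
          Finset.mem_filter.2 ⟨hs h4, z, hz, hyab.1.trans hz'.1, hz'.2⟩⟩
      · have h4 : θ ∈ Ioo a b := ⟨hyab.1.trans_lt hθ.1, hθ.2⟩
        refine (hc θ h4).imp_right fun ⟨i, hi', h'⟩ => ⟨i, Finset.mem_erase.2 ⟨?_, hi'⟩, h'⟩
        rintro rfl
        exact absurd (hyl ⟨h', Ioo_subset_Icc_self h4⟩) (not_le.2 hθ.1)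
      · exact ((hn j hj y hy ε hε).filter_mono nhdsWithin_le_nhds).mono
          fun θ h' hθ => (h' hθ).1
      · exact absurd hy (Set.disjoint_left.1 (hd i (hs h') j hj (Finset.mem_erase.1 h').1) hi')
  rw [← Finset.add_sum_erase _ _ hjm]
  have h3 := hF hxy
  linarith

theorem cap_mid {A B C r₁ r r₂ δ : ℝ} (hB : 0 ≤ B) (h0 : 0 < r₁) (hδ : 0 < δ)
    (h1 : r₁ ≤ (1 - δ) * r) (h2 : r ≤ (1 - δ) * r₂) (hr : 0 < r) (hr₂ : 0 < r₂)
    (m1 : A * r₁ ^ 2 + C ≤ B * r₁) (m2 : A * r₂ ^ 2 + C ≤ B * r₂) :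
    A * r ^ 2 + C ≤ B * r * (1 - δ ^ 2 / 2) := by
  have a1 : r₁ < r := by nlinarith
  have a2 : r < r₂ := by nlinarith
  have b1 : 0 ≤ r₂ ^ 2 - r ^ 2 := by nlinarith
  have b2 : 0 ≤ r ^ 2 - r₁ ^ 2 := by nlinarith
  have c1 := mul_le_mul_of_nonneg_right m1 b1
  have c2 := mul_le_mul_of_nonneg_right m2 b2
  have d1 : (A * r ^ 2 + C) * (r₁ + r₂) * (r₂ - r₁) ≤ B * (r₁ * r₂ + r ^ 2) * (r₂ - r₁) := by
    nlinarith
  have d2 : (A * r ^ 2 + C) * (r₁ + r₂) ≤ B * (r₁ * r₂ + r ^ 2) :=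
    le_of_mul_le_mul_right d1 (by linarith)
  have e1 : δ * r * (δ * r₂) ≤ (r - r₁) * (r₂ - r) :=
    mul_le_mul (by linarith) (by linarith) (by positivity) (by linarith)
  have e2 : δ * r * (δ * r₁) ≤ δ * r * (δ * r₂) := by gcongr; linarith
  have e3 : r₁ * r₂ + r ^ 2 ≤ r * (1 - δ ^ 2 / 2) * (r₁ + r₂) := by nlinarith
  have e4 := mul_le_mul_of_nonneg_left e3 hB
  exact le_of_mul_le_mul_right (a := r₁ + r₂) (by linarith) (by linarith)

/-- Round discs are fat in logarithmic coordinates. -/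
theorem cap_angle {A B C θ₀ r₁ r r₂ l : ℝ} (hB : 0 ≤ B) (h0 : 0 < r₁) (hl : 0 ≤ l)
    (h1 : r₁ * Real.exp l ≤ r) (h2 : r * Real.exp l ≤ r₂) {θ₁ θ₂ : ℝ}
    (m1 : A * r₁ ^ 2 - B * r₁ * Real.cos (θ₁ - θ₀) + C ≤ 0)
    (m2 : A * r₂ ^ 2 - B * r₂ * Real.cos (θ₂ - θ₀) + C ≤ 0) :
    ENNReal.ofReal (min 1 l) ≤
      volume {θ ∈ Ioc 0 (2 * Real.pi) | A * r ^ 2 - B * r * Real.cos (θ - θ₀) + C ≤ 0} := by
  rcases hl.eq_or_lt with rfl | hl
  · simp
  have he : 1 + l ≤ Real.exp l := by linarith [Real.add_one_le_exp l]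
  have hr : 0 < r := lt_of_lt_of_le (by positivity) h1
  have hr₂ : 0 < r₂ := lt_of_lt_of_le (by positivity) h2
  obtain ⟨δ, hδ, hδ1, hδl, hδe⟩ : ∃ δ : ℝ, 0 < δ ∧ δ < 1 ∧ min 1 l ≤ 2 * δ ∧
      (1 - δ) * (1 + l) = 1 := by
    refine ⟨l / (1 + l), by positivity, (div_lt_one (by positivity)).2 (by linarith), ?_,
      by field_simp; ring⟩
    rw [← mul_div_assoc, le_div_iff₀ (by positivity)]
    rcases le_total 1 l with h | h
    · rw [min_eq_left h]; linarith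
    · rw [min_eq_right h]; nlinarith
  have k1 : r₁ ≤ (1 - δ) * r := by
    have : r₁ * (1 + l) ≤ r := (mul_le_mul_of_nonneg_left he h0.le).trans h1
    calc r₁ = (1 - δ) * (r₁ * (1 + l)) := by linear_combination (-r₁) * hδe
      _ ≤ _ := mul_le_mul_of_nonneg_left this (by linarith)
  have k2 : r ≤ (1 - δ) * r₂ := by
    have : r * (1 + l) ≤ r₂ := (mul_le_mul_of_nonneg_left he hr.le).trans h2
    calc r = (1 - δ) * (r * (1 + l)) := by linear_combination (-r) * hδe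
      _ ≤ _ := mul_le_mul_of_nonneg_left this (by linarith)
  have n1 := mul_le_mul_of_nonneg_left (Real.cos_le_one (θ₁ - θ₀)) (mul_nonneg hB h0.le)
  have n2 := mul_le_mul_of_nonneg_left (Real.cos_le_one (θ₂ - θ₀)) (mul_nonneg hB hr₂.le)
  have key := cap_mid (A := A) (C := C) hB h0 hδ k1 k2 hr hr₂ (by linarith) (by linarith)
  set S : Set ℝ := {θ | A * r ^ 2 - B * r * Real.cos (θ - θ₀) + C ≤ 0} with hS
  have hSm : MeasurableSet S := (isClosed_le (by fun_prop) continuous_const).measurableSet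
  have hper := (isAddFundamentalDomain_Ioc Real.two_pi_pos 0).measure_set_eq
    (isAddFundamentalDomain_Ioc Real.two_pi_pos (θ₀ - Real.pi)) hSm (by
      rintro ⟨_, k, rfl⟩
      ext θ
      have : Real.cos (k • (2 * Real.pi) + θ - θ₀) = Real.cos (θ - θ₀) := by
        rw [zsmul_eq_mul, ← Real.cos_add_int_mul_two_pi (θ - θ₀) k]
        congr 1
        ring
      change A * r ^ 2 - B * r * Real.cos (k • (2 * Real.pi) + θ - θ₀) + C ≤ 0 ↔ _
      rw [this]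
      rfl)
  rw [zero_add] at hper
  have e : {θ ∈ Ioc 0 (2 * Real.pi) | A * r ^ 2 - B * r * Real.cos (θ - θ₀) + C ≤ 0} =
      S ∩ Ioc 0 (2 * Real.pi) := inter_comm _ _
  rw [e, hper]
  have hpi := Real.pi_gt_three
  calc ENNReal.ofReal (min 1 l) ≤ volume (Icc (θ₀ - δ) (θ₀ + δ)) := by
        rw [Real.volume_Icc]
        exact ENNReal.ofReal_le_ofReal (by linarith)
    _ ≤ _ := by
        refine measure_mono fun θ hθ => ⟨?_, by linarith [hθ.1], by linarith [hθ.2]⟩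
        have c1 := Real.one_sub_sq_div_two_le_cos (x := θ - θ₀)
        have c2 : (θ - θ₀) ^ 2 ≤ δ ^ 2 := sq_le_sq' (by linarith [hθ.1]) (by linarith [hθ.2])
        have c3 : B * r * (1 - δ ^ 2 / 2) ≤ B * r * Real.cos (θ - θ₀) :=
          mul_le_mul_of_nonneg_left (by linarith) (mul_nonneg hB hr.le)
        change A * r ^ 2 - B * r * Real.cos (θ - θ₀) + C ≤ 0
        linarith

theorem cap_log {x y : ℝ} (hx : 0 < x) (hxy : x ≤ y) :
    ∫⁻ r in Icc x y, ENNReal.ofReal (1 / r) = ENNReal.ofReal (Real.log (y / x)) := by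
  have hc : ContinuousOn (fun r : ℝ => 1 / r) (Icc x y) :=
    continuousOn_const.div continuousOn_id fun r hr => (hx.trans_le hr.1).ne'
  rw [← ofReal_integral_eq_lintegral_ofReal hc.integrableOn_Icc
    ((ae_restrict_mem measurableSet_Icc).mono fun r hr => (one_div_pos.2 (hx.trans_le hr.1)).le),
    integral_Icc_eq_integral_Ioc, ← intervalIntegral.integral_of_le hxy,
    integral_one_div_of_pos hx (hx.trans_le hxy)]

theorem cap_one {P : S2} {ch : ℂ → S2} (hch : IsChart P ch) (v : S2) {t : ℝ} (ht : 0 ≤ t)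
    (c : ℂ) {a b : ℝ} (ha : 0 < a) :
    ∃ (B T : Set ℝ) (l : ℝ), 0 ≤ l ∧ MeasurableSet B ∧ MeasurableSet T ∧ T ⊆ Icc a b ∧
      (∀ r ∈ Ioo a b, (∃ θ, ch (circleMap c r θ) ∈ closedBall v t) → r ∈ B) ∧
      ∫⁻ r in B, ENNReal.ofReal (1 / r) = ENNReal.ofReal l ∧
      ∫⁻ r in T, ENNReal.ofReal (1 / r) = ENNReal.ofReal (l / 2) ∧
      ∀ r ∈ T, ENNReal.ofReal (min 1 (l / 4)) ≤
        volume {θ ∈ Ioc 0 (2 * Real.pi) | ch (circleMap c r θ) ∈ closedBall v t} := by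
  obtain ⟨A, B, C, θ₀, hB, h⟩ := hch.ball_circle v ht c
  have hK : IsCompact (Icc a b ∩ {r : ℝ | A * r ^ 2 - B * r + C ≤ 0}) :=
    isCompact_Icc.inter_right (isClosed_le (by fun_prop) continuous_const)
  have hmem : ∀ r ∈ Ioo a b, (∃ θ, ch (circleMap c r θ) ∈ closedBall v t) →
      r ∈ Icc a b ∩ {r : ℝ | A * r ^ 2 - B * r + C ≤ 0} := by
    rintro r hr ⟨θ, hθ⟩
    refine ⟨Ioo_subset_Icc_self hr, ?_⟩
    have h1 := (h r θ).1 hθ
    have h2 := mul_le_mul_of_nonneg_left (Real.cos_le_one (θ - θ₀))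
      (mul_nonneg hB (ha.trans hr.1).le)
    change A * r ^ 2 - B * r + C ≤ 0
    linarith
  rcases (Icc a b ∩ {r : ℝ | A * r ^ 2 - B * r + C ≤ 0}).eq_empty_or_nonempty with he | hne
  · refine ⟨∅, ∅, 0, le_rfl, MeasurableSet.empty, MeasurableSet.empty, empty_subset _,
      fun r hr h' => he ▸ hmem r hr h', by simp, by simp, fun r hr => hr.elim⟩
  obtain ⟨x, hx, hxl⟩ := hK.exists_isLeast hne
  obtain ⟨y, hy, hyl⟩ := hK.exists_isGreatest hne
  have hxy : x ≤ y := hxl hy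
  have hx0 : 0 < x := ha.trans_le hx.1.1
  obtain ⟨l, hl, hl0, hy'⟩ : ∃ l, Real.log (y / x) = l ∧ 0 ≤ l ∧ y = x * Real.exp l :=
    ⟨_, rfl, Real.log_nonneg ((one_le_div hx0).2 hxy), by
      rw [Real.exp_log (div_pos (hx0.trans_le hxy) hx0)]; field_simp⟩
  have e1 : x * Real.exp (l / 4) ≤ x * Real.exp (3 * l / 4) := by gcongr; linarith
  have e2 : x ≤ x * Real.exp (l / 4) :=
    le_mul_of_one_le_right hx0.le (Real.one_le_exp (by linarith))
  have e3 : x * Real.exp (3 * l / 4) * Real.exp (l / 4) = y := by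
    rw [hy', mul_assoc, ← Real.exp_add]; congr 2; ring
  have e4 : x * Real.exp (3 * l / 4) ≤ y :=
    e3 ▸ le_mul_of_one_le_right (by positivity) (Real.one_le_exp (by linarith))
  refine ⟨Icc x y, Icc (x * Real.exp (l / 4)) (x * Real.exp (3 * l / 4)), l, hl0,
    measurableSet_Icc, measurableSet_Icc, Icc_subset_Icc (hx.1.1.trans e2) (e4.trans hy.1.2),
    fun r hr h' => ⟨hxl (hmem r hr h'), hyl (hmem r hr h')⟩, by rw [cap_log hx0 hxy, hl], ?_,
    fun r hr => ?_⟩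
  · rw [cap_log (by positivity) e1, mul_div_mul_left _ _ hx0.ne', ← Real.exp_sub, Real.log_exp]
    congr 1
    ring
  · simp only [h]
    refine cap_angle (θ₁ := θ₀) (θ₂ := θ₀) (r₂ := y) hB hx0 (by linarith) hr.1 ?_ ?_ ?_
    · exact e3 ▸ mul_le_mul_of_nonneg_right hr.2 (Real.exp_pos _).le
    · rw [sub_self, Real.cos_zero, mul_one]; exact hx.2
    · rw [sub_self, Real.cos_zero, mul_one]; exact hy.2

theorem cap_arith {s l : ℝ} (h1 : s ≤ 1 / 100) (hl : 0 ≤ l) :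
    s * l ≤ min 1 (l / 4) * (l / 2) / 50 + 200 * s ^ 2 := by
  rcases le_total 1 (l / 4) with h | h
  · rw [min_eq_left h]; nlinarith
  · rw [min_eq_right h]; nlinarith [sq_nonneg (l / 20 - 10 * s)]

/-- The total cost of the discs. -/
theorem cap_sum {P : S2} {ch : ℂ → S2} (hch : IsChart P ch) {ι : Type} (J : Finset ι)
    (v : ι → S2) (t s : ι → ℝ) (ht : ∀ j ∈ J, 0 ≤ t j)
    (hd : ∀ i ∈ J, ∀ j ∈ J, i ≠ j → Disjoint (closedBall (v i) (t i)) (closedBall (v j) (t j)))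
    (hs : ∀ j ∈ J, 0 ≤ s j ∧ s j ≤ 1 / 100) (c : ℂ) {a b : ℝ} (ha : 0 < a) (hab : a ≤ b) :
    ∃ B : ι → Set ℝ, (∀ j, MeasurableSet (B j)) ∧
      (∀ j ∈ J, ∀ r ∈ Ioo a b, (∃ θ, ch (circleMap c r θ) ∈ closedBall (v j) (t j)) → r ∈ B j) ∧
      ∑ j ∈ J, ENNReal.ofReal (s j) * ∫⁻ r in B j, ENNReal.ofReal (1 / r) ≤
        ENNReal.ofReal (Real.log (b / a) / 5 + 200 * ∑ j ∈ J, s j ^ 2) := by
  choose B T l hl hB hT hTs hm hIB hIT hω using
    fun j => cap_one (b := b) hch (v j) (le_max_right (t j) 0) c ha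
  have hmx : ∀ j ∈ J, max (t j) 0 = t j := fun j hj => max_eq_left (ht j hj)
  refine ⟨B, hB, fun j hj r hr h => hm j r hr ((hmx j hj).symm ▸ h), ?_⟩
  have hm0 : ∀ j, 0 ≤ min 1 (l j / 4) := fun j => le_min zero_le_one (by linarith [hl j])
  have hf : Measurable fun r : ℝ => ENNReal.ofReal (1 / r) := by fun_prop
  have hlog : 0 ≤ Real.log (b / a) := Real.log_nonneg ((one_le_div ha).2 hab)
  have hpt : ∀ r : ℝ, ∑ j ∈ J, (T j).indicator
      (fun r => ENNReal.ofReal (min 1 (l j / 4)) * ENNReal.ofReal (1 / r)) r ≤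
      (Icc a b).indicator (fun r => ENNReal.ofReal (2 * Real.pi) * ENNReal.ofReal (1 / r)) r := by
    intro r
    by_cases hr : r ∈ Icc a b
    swap
    · rw [Finset.sum_eq_zero fun j _ => indicator_of_notMem (fun h => hr (hTs j h)) _]
      exact bot_le
    rw [indicator_of_mem hr]
    have hcm : ∀ j, MeasurableSet
        {θ ∈ Ioc 0 (2 * Real.pi) | ch (circleMap c r θ) ∈ closedBall (v j) (t j)} := fun j =>
      measurableSet_Ioc.inter (isClosed_closedBall.preimage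
        (hch.cont.comp (continuous_circleMap c r))).measurableSet
    have h1 : ∑ j ∈ J, volume
        {θ ∈ Ioc 0 (2 * Real.pi) | ch (circleMap c r θ) ∈ closedBall (v j) (t j)} ≤
        ENNReal.ofReal (2 * Real.pi) := by
      rw [← measure_biUnion_finset (fun i hi j hj hij => Set.disjoint_left.2 fun θ h h' =>
        Set.disjoint_left.1 (hd i hi j hj hij) h.2 h'.2) fun j _ => hcm j]
      refine (measure_mono (t := Ioc 0 (2 * Real.pi)) ?_).trans (by simp)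
      exact iUnion₂_subset fun j _ θ h => h.1
    refine le_trans ?_ (mul_le_mul_left h1 _)
    rw [Finset.sum_mul]
    refine Finset.sum_le_sum fun j hj => ?_
    by_cases hj' : r ∈ T j
    · rw [indicator_of_mem hj']
      exact mul_le_mul_left (hmx j hj ▸ hω j r hj') _
    · rw [indicator_of_notMem hj']
      exact bot_le
  have h2 := lintegral_mono (μ := volume) hpt
  rw [lintegral_finsetSum _ fun j _ => (hf.const_mul _).indicator (hT j),
    lintegral_indicator measurableSet_Icc, lintegral_const_mul _ hf, cap_log ha hab,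
    ← ENNReal.ofReal_mul Real.two_pi_pos.le] at h2
  simp only [lintegral_indicator (hT _), lintegral_const_mul _ hf, hIT] at h2
  simp only [← ENNReal.ofReal_mul (hm0 _)] at h2
  rw [← ENNReal.ofReal_sum_of_nonneg fun j _ => mul_nonneg (hm0 j) (by linarith [hl j]),
    ENNReal.ofReal_le_ofReal_iff (mul_nonneg Real.two_pi_pos.le hlog)] at h2
  rw [Finset.sum_congr rfl fun j hj => by rw [hIB j, ← ENNReal.ofReal_mul (hs j hj).1],
    ← ENNReal.ofReal_sum_of_nonneg fun j hj => mul_nonneg (hs j hj).1 (hl j)]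
  refine ENNReal.ofReal_le_ofReal ?_
  have h3 := Finset.sum_le_sum fun j (hj : j ∈ J) => cap_arith (hs j hj).2 (hl j)
  rw [Finset.sum_add_distrib, ← Finset.sum_div, ← Finset.mul_sum] at h3
  have h4 := mul_le_mul_of_nonneg_right Real.pi_le_four hlog
  linarith

end Pool.Agent.Lib.MP_44acff_gt.EK
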