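import Pool.Agent.Lib.MP_44acff_gt.EK.Defs

open Set Metric Topology Filter MeasureTheory

namespace Pool.Agent.Lib.MP_44acff_gt.EK

noncomputable section

section
variable {E : Type} [NormedAddCommGroup E] [InnerProductSpace ℝ E]

theorem cosh_dist (x y : Hyp E) : Real.cosh (dist x y) = -lor x.v y.v :=
  Real.cosh_arcosh (one_le_neg_lor x y)

/-- The base point of hyperbolic space. -/
def Hyp.o : Hyp E := ⟨(1, 0), by simp [lor], one_pos⟩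

/-- Future timelike vectors. -/
def TL (w : ℝ × E) : Prop := lor w w < 0 ∧ 0 < w.1

/-- Future causal (timelike or null, nonzero) vectors. -/
def Caus (w : ℝ × E) : Prop := lor w w ≤ 0 ∧ 0 < w.1

open Classical in
/-- Normalisation of a future timelike vector to a point of the hyperboloid. -/
def nrm (w : ℝ × E) : Hyp E :=
  if h : TL w then
    ⟨(√(-lor w w))⁻¹ • w, by
      have h1 : 0 < -lor w w := by linarith [h.1]
      have h2 := Real.sq_sqrt h1.le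
      have h3 := (Real.sqrt_pos.mpr h1).ne'
      rw [lor_smul_left, lor_smul_right]
      field_simp
      linarith, by
      have h1 : 0 < -lor w w := by linarith [h.1]
      have h3 := Real.sqrt_pos.mpr h1
      have := h.2
      simp only [Prod.smul_fst, smul_eq_mul]
      positivity⟩
  else Hyp.o

theorem nrm_v {w : ℝ × E} (h : TL w) : (nrm w).v = (√(-lor w w))⁻¹ • w := by
  simp [nrm, h]

end

/-- The round 2-sphere. -/
abbrev S2 : Type := sphere (0 : E3) 1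

/-- `Aa u p = - lor p (1,u)`; its logarithm is the Busemann function of the ideal point `u`. -/
def Aa (u : S2) (p : H3) : ℝ := -lor p.v (1, (u : E3))

/-- The ideal boundary as a subset of the unit sphere. -/
def idealS (C : Set H3) : Set S2 := {u | (u : E3) ∈ closure (klein '' C)}

/-- A realisation of `S` as the boundary of a closed convex domain. -/
structure Realis (S : Type) [MetricSpace S] where
  C : Set H3
  closed : IsClosed C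
  convex : GConvex C
  int : (interior C).Nonempty
  φ : S → H3
  range_φ : range φ = frontier C
  isom : ∀ x y, edist x y = pathDist (frontier C) (φ x) (φ y)

/-- The point `p` of `C` minimises the Busemann function of `u` on `C`. -/
def Ovs (C : Set H3) (u : S2) (p : H3) : Prop := p ∈ C ∧ ∀ c ∈ C, Aa u p ≤ Aa u c

/-- The ideal point `u` retracts to the point `y` of the surface. -/
def Ov {S : Type} [MetricSpace S] (R : Realis S) (u : S2) (y : S) : Prop := Ovs R.C u (R.φ y)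

/-- The shadow of a part of the surface on the sphere at infinity. -/
def Sh {S : Type} [MetricSpace S] (R : Realis S) (Y : Set S) : Set S2 :=
  {u | ∃ y ∈ Y, Ov R u y}

/-- The components of `Λ` are closed balls. -/
def Round (Λ : Set S2) : Prop :=
  ∀ u ∈ Λ, ∃ (v : S2) (t : ℝ), connectedComponentIn Λ u = closedBall v t

/-- The cross-ratio estimate. -/
def CRle (ε : ℝ) (ξ₀ ξ₁ η₁ η₂ : S2) : Prop :=
  dist ξ₀ ξ₁ * dist η₁ η₂ ≤ Real.exp ε * (dist ξ₀ η₁ * dist ξ₁ η₂) ∧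
    (ε ≤ 1 / 10 → dist ξ₀ ξ₁ * dist η₁ η₂ ≤ 10 * ε * (dist ξ₀ η₁ * dist ξ₁ η₂))

/-- The ultralimit of a sequence of sets. -/
def ULim {X : Type} [PseudoMetricSpace X] (𝒰 : Ultrafilter ℕ) (A : ℕ → Set X) : Set X :=
  {p | ∀ ε : ℝ, 0 < ε → ∀ᶠ n in (𝒰 : Filter ℕ), ∃ q ∈ A n, dist q p < ε}

/-- Pointed convergence of the spaces `S n` to `T` along `𝒰`. -/
structure GConv (S : ℕ → Type) [∀ n, MetricSpace (S n)] (T : Type) [MetricSpace T]
    (𝒰 : Ultrafilter ℕ) (ap : T → ∀ n, S n) (o : T) : Prop where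
  dist_tendsto : ∀ x y, Tendsto (fun n => dist (ap x n) (ap y n)) 𝒰 (𝓝 (dist x y))
  bdd : ∀ (y : ∀ n, S n) (r : ℝ), (∀ᶠ n in (𝒰 : Filter ℕ), dist (y n) (ap o n) ≤ r) →
    ∃ x, Tendsto (fun n => dist (y n) (ap x n)) 𝒰 (𝓝 0)

/-- A stereographic chart with pole `P`. -/
structure IsChart (P : S2) (ch : ℂ → S2) : Prop where
  cont : Continuous ch
  surj : ∀ u, u ≠ P → ∃ z, ch z = u
  dist_eq : ∀ z w, dist (ch z) (ch w) = 2 * ‖z - w‖ / (√(1 + ‖z‖ ^ 2) * √(1 + ‖w‖ ^ 2))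
  dist_pole : ∀ z, dist (ch z) P = 2 / √(1 + ‖z‖ ^ 2)
  poisson : ∀ p : H3, ∫⁻ z : ℂ, ENNReal.ofReal ((2 / ((1 + ‖z‖ ^ 2) * Aa (ch z) p)) ^ 2) ≤
    ENNReal.ofReal (4 * Real.pi)

/-- The circle of radius `r` about `c` has an arc from `Y₁` to `Y₀` that avoids `X`. -/
def Joins (ch : ℂ → S2) (X Y₁ Y₀ : Set S2) (c : ℂ) (r : ℝ) : Prop :=
  ∃ θ₁ θ₂ : ℝ, |θ₁ - θ₂| ≤ 2 * Real.pi ∧ ch (circleMap c r θ₁) ∈ Y₁ ∧ ch (circleMap c r θ₂) ∈ Y₀ ∧
    ∀ θ ∈ uIcc θ₁ θ₂, ch (circleMap c r θ) ∉ X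

/-- The length-area property. -/
def Lw (X Y₁ Y₀ : Set S2) (ε : ℝ) : Prop :=
  ∀ (P : S2) (ch : ℂ → S2), IsChart P ch → ∀ (c : ℂ) (a b : ℝ), 0 < a → a ≤ b →
    (∀ r ∈ Ioo a b, Joins ch X Y₁ Y₀ c r) → Real.log (b / a) ≤ ε

/-- The space `S` is the complement of `E` with a metric comparable to the quasi-hyperbolic
one. -/
structure Pl (S : Type) [MetricSpace S] (E : Set ℂ) (k : ℝ) (pr : S → ℂ) : Prop where
  closed : IsClosed E
  ne : E.Nonempty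
  bdd : Bornology.IsBounded Eᶜ
  one_le : 1 ≤ k
  inj : Function.Injective pr
  range_eq : range pr = Eᶜ
  up : ∀ x y, ‖pr y - pr x‖ ≤ infDist (pr x) E / 2 →
    dist x y ≤ k * ‖pr y - pr x‖ / infDist (pr x) E
  low : ∀ x y, ‖pr y - pr x‖ ≤ infDist (pr x) E * (Real.exp (k * dist x y) - 1)

/-- `E` is a finite disjoint union of closed sets with connected collars. -/
structure Stage {ι : Type} (E : Set ℂ) (Q : ι → Set ℂ) (I : Finset ι) : Prop where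
  closed : ∀ i ∈ I, IsClosed (Q i)
  ne : ∀ i ∈ I, (Q i).Nonempty
  disj : ∀ i ∈ I, ∀ j ∈ I, i ≠ j → Disjoint (Q i) (Q j)
  union : E = ⋃ i ∈ I, Q i
  bdd : Bornology.IsBounded Eᶜ
  collar : ∀ i ∈ I, ∀ η : ℝ, 0 < η → ∃ V : Set ℂ, IsOpen V ∧ Q i ⊆ V ∧
    V ⊆ thickening η (Q i) ∧ IsConnected (V \ E)

/-- The local Lipschitz bound of a test function. -/
def IsT (E : Set ℂ) (U Lt : ℂ → ℝ) : Prop :=
  ∀ y ∉ E, ∀ a ∈ ball y (infDist y E / 2), ∀ b ∈ ball y (infDist y E / 2),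
    |U a - U b| ≤ Lt y * ‖a - b‖

/-- A test function of energy at most `En` that separates `α` from `β`; the pieces with index in
`X` are not controlled. -/
def PT {ι : Type} (E : Set ℂ) (Q : ι → Set ℂ) (I : Finset ι) (X : Set ι) (α β : Set ℂ)
    (En : ℝ) : Prop :=
  ∃ (U Lt : ℂ → ℝ) (s : ι → ℝ) (L : NNReal), LipschitzWith L U ∧ (∀ z ∈ α, 1 ≤ U z) ∧
    (∀ z ∈ β, U z ≤ 0) ∧ Measurable Lt ∧ IsT E U Lt ∧
    ∫⁻ z in Eᶜ, ENNReal.ofReal (Lt z ^ 2) ≤ ENNReal.ofReal En ∧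
    (∀ i ∈ I, i ∉ X → 0 ≤ s i ∧ s i ≤ 1 / 100 ∧ ∀ a ∈ Q i, ∀ b ∈ Q i, U a - U b ≤ s i) ∧
    ∑ i ∈ I, s i ^ 2 ≤ En

/-- The discs at infinity that belong to the pieces of `E`. -/
structure Ends {S : Type} [MetricSpace S] (R : Realis S) (pr : S → ℂ) {ι : Type}
    (Q : ι → Set ℂ) (I : Finset ι) (v : ι → S2) (t : ι → ℝ) : Prop where
  nonneg : ∀ i ∈ I, 0 ≤ t i
  le_two : ∀ i ∈ I, t i ≤ 2
  disj : ∀ i ∈ I, ∀ j ∈ I, i ≠ j → Disjoint (closedBall (v i) (t i)) (closedBall (v j) (t j))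
  union : idealS R.C = ⋃ i ∈ I, closedBall (v i) (t i)
  near : ∀ i ∈ I, ∀ η : ℝ, 0 < η → ∀ u ∈ closedBall (v i) (t i), ∀ᶠ u' in 𝓝 u,
    ∀ y, Ov R u' y → pr y ∈ thickening η (Q i)
  acc : ∀ i ∈ I, ∀ Y : Set S, (closure (pr '' Y) ∩ Q i).Nonempty →
    (closure (Sh R Y) ∩ closedBall (v i) (t i)).Nonempty

/-- The shadow of a plane set together with the discs of the pieces inside it. -/
def hat {S : Type} [MetricSpace S] (R : Realis S) (pr : S → ℂ) {ι : Type} (Q : ι → Set ℂ)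
    (I : Finset ι) (v : ι → S2) (t : ι → ℝ) (W : Set ℂ) : Set S2 :=
  Sh R (pr ⁻¹' W) ∪ ⋃ i ∈ I, ⋃ _ : Q i ⊆ W, closedBall (v i) (t i)

/-- The constant of the length-area estimate. -/
def cst (k : ℝ) : ℝ := 10 ^ 6 * k ^ 2 * Real.exp k

/-- A connected set outside all the sets `E n`. -/
def Free (E : ℕ → Set ℂ) (α : Set ℂ) : Prop := IsPreconnected α ∧ ∀ n, Disjoint α (E n)

/-- The tree of pieces. -/
structure Tree {ι κ : Type} (E : ℕ → Set ℂ) (Ei : Set ℂ) (Q : ι → Set ℂ) (I : ℕ → Finset ι)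
    (q : Bool → ι) (o : ℂ) (A : ℕ → Finset κ) (W : ℕ → κ → Set ℂ) (f : Bool → κ)
    (O : ℕ → Set ℂ) (Z : Set ℂ) : Prop where
  fmem : ∀ j b, f b ∈ A j
  fne : f true ≠ f false
  fsub : ∀ j b, Q (q b) ⊆ W j (f b)
  isOpen : ∀ j a, IsOpen (W j a)
  conn : ∀ j, ∀ a ∈ A j, ∀ᶠ n in atTop, IsPreconnected (W j a \ E n)
  has : ∀ j, ∀ a ∈ A j, ∀ᶠ n in atTop, ∃ i ∈ I n, Q i ⊆ W j a
  anc : ∀ j, ∀ a ∈ A j, (W j a \ Ei).Nontrivial
  cov : ∀ j z, z ∈ O j ∨ ∃ a ∈ A j, z ∈ W j a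
  cov' : ∀ j, ∀ᶠ n in atTop, ∀ i ∈ I n, ∃ a ∈ A j, Q i ⊆ W j a
  oconn : ∀ j, IsPreconnected (O j)
  omem : ∀ j, o ∈ O j
  ofree : ∀ j, closure (O j) ⊆ Eiᶜ
  zfree : Free E Z
  znt : Z.Nontrivial
  sep : ∀ j, ∃ N : ℝ, ∀ a ∈ A j, ∀ a' ∈ A j, a ≠ a' →
    ∀ᶠ n in atTop, PT (E n) Q (I n) ∅ (W j a) (W j a') N
  small : ∀ ε : ℝ, 0 < ε → ∀ᶠ j in atTop, ∀ a ∈ A j, (∀ b, a ≠ f b) →
    ∀ᶠ n in atTop, PT (E n) Q (I n) ∅ (W j a) Z ε
  collar : ∀ ε : ℝ, 0 < ε → ∀ᶠ j in atTop, ∀ b, ∀ᶠ n in atTop,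
    (∀ i ∈ I n, Q i ⊆ W j (f b) → i = q b) ∧ ∀ y ∈ W j (f b) \ E n, ∃ α : Set ℂ, y ∈ α ∧
      IsPreconnected α ∧ Disjoint α (E n) ∧ (closure α ∩ Q (q b)).Nonempty ∧
      PT (E n) Q (I n) {q b} α Z ε

/-- The plane geometry of an approximating sequence. -/
structure Geo {ι : Type} (E : ℕ → Set ℂ) (Ei : Set ℂ) (Q : ι → Set ℂ) (I : ℕ → Finset ι)
    (q : Bool → ι) (o : ℂ) (e₁ e₂ : ℝ) : Prop where
  stage : ∀ n, Stage (E n) Q (I n)
  qmem : ∀ n b, q b ∈ I n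
  qne : q true ≠ q false
  sub : ∀ n, Ei ⊆ E n
  onot : ∀ n, o ∉ E n
  exh : ∀ K : Set ℂ, IsCompact K → K ⊆ Eiᶜ →
    ∃ η : ℝ, 0 < η ∧ ∀ᶠ n in atTop, ∀ z ∈ K, η ≤ infDist z (E n)
  nd : ∀ b, ∃ (N : ℝ) (α β : Set ℂ), Free E α ∧ Free E β ∧ (closure α ∩ Q (q b)).Nonempty ∧
    (closure β ∩ Q (q b)).Nonempty ∧ ∀ᶠ n in atTop, PT (E n) Q (I n) {q b} α β N
  dual : ∃ α β : Set ℂ, Free E α ∧ Free E β ∧ (∀ b, (closure α ∩ Q (q b)).Nonempty) ∧
    (∀ b, (closure β ∩ Q (q b)).Nonempty) ∧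
    ∀ᶠ n in atTop, PT (E n) Q (I n) {q true, q false} α β e₁
  rad : ∀ᶠ n in atTop, PT (E n) Q (I n) ∅ (Q (q true)) (Q (q false)) e₂
  tree : ∃ (κ : Type) (A : ℕ → Finset κ) (W : ℕ → κ → Set ℂ) (f : Bool → κ) (O : ℕ → Set ℂ)
    (Z : Set ℂ), Tree E Ei Q I q o A W f O Z

/-- A bounded plane domain with a density comparable to the quasi-hyperbolic one. -/
structure Dat (E : Set ℂ) (lam : ℂ → ℝ) (k : ℝ) : Prop where
  closed : IsClosed E
  ne : E.Nonempty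
  bdd : Bornology.IsBounded Eᶜ
  conn : IsConnected Eᶜ
  one_le : 1 ≤ k
  cont : ContinuousOn lam Eᶜ
  low : ∀ z ∉ E, 1 / (k * infDist z E) ≤ lam z
  up : ∀ z ∉ E, lam z ≤ k / (2 * infDist z E)

/-- The approximating surfaces and their limit. -/
structure Cx (S : ℕ → Type) [∀ n, MetricSpace (S n)] (T : Type) [MetricSpace T]
    (pr : ∀ n, S n → ℂ) (pT : T → ℂ) (ap : T → ∀ n, S n) (o : T) (𝒰 : Ultrafilter ℕ)
    (E : ℕ → Set ℂ) (Ei : Set ℂ) (k : ℝ) : Prop where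
  le : (𝒰 : Filter ℕ) ≤ atTop
  pl : ∀ n, Pl (S n) (E n) k (pr n)
  plT : Pl T Ei k pT
  gc : GConv S T 𝒰 ap o
  len : ∀ x y : T, pathDist univ x y ≤ edist x y
  compat : ∀ x n, pT x ∉ E n → pr n (ap x n) = pT x

/-- The ideal set has two marked discs, all other components are points. -/
structure Two (Λ : Set S2) (v : Bool → S2) (t : Bool → ℝ) : Prop where
  disj : Disjoint (closedBall (v true) (t true)) (closedBall (v false) (t false))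
  disc : ∀ b, ∀ u ∈ closedBall (v b) (t b), u ∈ Λ ∧ connectedComponentIn Λ u = closedBall (v b) (t b)
  point : ∀ u ∈ Λ, (∀ b, u ∉ closedBall (v b) (t b)) → connectedComponentIn Λ u = {u}

/-- The two discs are not far apart. -/
def Close (v : Bool → S2) (t : Bool → ℝ) (ε : ℝ) : Prop :=
  ∃ ξ₀ ∈ closedBall (v true) (t true), ∃ ξ₁ ∈ closedBall (v true) (t true),
    ∃ η₁ ∈ closedBall (v false) (t false), ∃ η₂ ∈ closedBall (v false) (t false),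
      dist ξ₀ η₁ * dist ξ₁ η₂ ≤ Real.exp ε * (dist ξ₀ ξ₁ * dist η₁ η₂)

/-- The two discs are far apart. -/
def Far (v : Bool → S2) (t : Bool → ℝ) (ε : ℝ) : Prop :=
  ∀ ξ₀ ∈ closedBall (v true) (t true), ∀ ξ₁ ∈ closedBall (v true) (t true),
    ∀ η₁ ∈ closedBall (v false) (t false), ∀ η₂ ∈ closedBall (v false) (t false),
      CRle ε ξ₀ ξ₁ η₁ η₂

end

end Pool.Agent.Lib.MP_44acff_gt.EK
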