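import Pool.Agent.Lib.MP_44acff_gt.EK.Sp

open Set Metric Topology Filter MeasureTheory

namespace Pool.Agent.Lib.MP_44acff_gt.EK

theorem cr_nonneg {X Y₁ Y₀ : Set S2} {ε : ℝ} (h : Lw X Y₁ Y₀ ε) {P : S2} {ch : ℂ → S2}
    (hch : IsChart P ch) : 0 ≤ ε := by
  simpa using h P ch hch 0 1 1 one_pos le_rfl fun r hr => absurd (hr.1.trans hr.2) (lt_irrefl _)

theorem cr_ann {X Y₁ Y₀ : Set S2} {ε : ℝ} (h : Lw X Y₁ Y₀ ε) {P : S2} {ch : ℂ → S2}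
    (hch : IsChart P ch) (c : ℂ) {a b : ℝ} (ha : 0 ≤ a)
    (hj : ∀ r ∈ Ioo a b, Joins ch X Y₁ Y₀ c r) : b ≤ Real.exp ε * a := by
  by_contra hc
  rw [not_le] at hc
  have h1 : 1 ≤ Real.exp ε := Real.one_le_exp (cr_nonneg h hch)
  have h0 : 0 < Real.exp ε := Real.exp_pos ε
  obtain ⟨x, hx1, hx2⟩ := exists_between ((lt_div_iff₀' h0).2 hc)
  rw [lt_div_iff₀' h0] at hx2
  have hx : 0 < x := ha.trans_lt hx1
  have hb : x ≤ b := by nlinarith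
  have h2 := h P ch hch c x b hx hb fun r hr => hj r ⟨hx1.trans hr.1, hr.2⟩
  rw [Real.log_le_iff_le_exp (div_pos (hx.trans_le hb) hx), div_le_iff₀ hx] at h2
  linarith

theorem cr_chart {P : S2} {ch : ℂ → S2} (hch : IsChart P ch) {z₀ z₁ w : ℂ} {Φ : ℝ}
    (h : ‖z₀ - z₁‖ ≤ Φ * ‖z₀ - w‖) :
    dist (ch z₀) (ch z₁) * dist (ch w) P ≤ Φ * (dist (ch z₀) (ch w) * dist (ch z₁) P) := by
  rw [hch.dist_eq, hch.dist_eq, hch.dist_pole, hch.dist_pole]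
  have h0 : 0 < √(1 + ‖z₀‖ ^ 2) := by positivity
  have h1 : 0 < √(1 + ‖z₁‖ ^ 2) := by positivity
  have h2 : 0 < √(1 + ‖w‖ ^ 2) := by positivity
  generalize √(1 + ‖z₀‖ ^ 2) = a at h0
  generalize √(1 + ‖z₁‖ ^ 2) = b at h1
  generalize √(1 + ‖w‖ ^ 2) = c at h2
  calc 2 * ‖z₀ - z₁‖ / (a * b) * (2 / c) = 4 / (a * b * c) * ‖z₀ - z₁‖ := by
        field_simp
        ring
    _ ≤ 4 / (a * b * c) * (Φ * ‖z₀ - w‖) := mul_le_mul_of_nonneg_left h (by positivity)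
    _ = Φ * (2 * ‖z₀ - w‖ / (a * c) * (2 / b)) := by
        field_simp
        ring

theorem cr_sq (z₀ z₁ w : ℂ) (l : ℝ) :
    ‖z₁ - (w - l * (z₁ - z₀))‖ ^ 2 - ‖z₀ - (w - l * (z₁ - z₀))‖ ^ 2 =
      ‖z₁ - w‖ ^ 2 - ‖z₀ - w‖ ^ 2 + 2 * l * ‖z₁ - z₀‖ ^ 2 := by
  simp only [Complex.sq_norm, Complex.normSq_apply, Complex.sub_re, Complex.sub_im,
    Complex.mul_re, Complex.mul_im, Complex.ofReal_re, Complex.ofReal_im]
  ring

theorem cr_small {z₀ z₁ w : ℂ} {ε : ℝ} (h0 : 0 ≤ ε) (h1 : ε ≤ 1 / 10)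
    (ha : ‖z₀ - w‖ ≤ Real.exp ε * ‖z₁ - w‖)
    (hb : ∀ c : ℂ, ‖z₁ - c‖ ≤ Real.exp ε * max ‖z₀ - c‖ ‖w - c‖) :
    ‖z₀ - z₁‖ ≤ 10 * ε * ‖z₀ - w‖ := by
  rw [norm_sub_rev z₀ z₁]
  rcases (norm_nonneg (z₁ - z₀)).eq_or_lt with hn | hn
  · rw [← hn]
    positivity
  obtain ⟨m, hm⟩ : ∃ m, m = ‖z₀ - w‖ := ⟨_, rfl⟩
  obtain ⟨n, hn'⟩ : ∃ n, n = ‖z₁ - z₀‖ := ⟨_, rfl⟩
  have hm0 : 0 ≤ m := hm ▸ norm_nonneg _
  have e := cr_sq z₀ z₁ w (m / 2 / n)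
  have hc := hb (w - (m / 2 / n : ℝ) * (z₁ - z₀))
  obtain ⟨c, hcd⟩ : ∃ c, c = w - (m / 2 / n : ℝ) * (z₁ - z₀) := ⟨_, rfl⟩
  rw [← hcd] at e hc
  rw [← hn'] at hn e ⊢
  rw [← hm] at e ha ⊢
  have h2 : ‖w - c‖ = m / 2 := by
    rw [hcd, sub_sub_cancel, norm_mul, Complex.norm_real, ← hn',
      Real.norm_of_nonneg (by positivity), div_mul_cancel₀ _ hn.ne']
  have h3 : ‖z₀ - c‖ ≤ m + m / 2 := by
    have := norm_sub_le_norm_sub_add_norm_sub z₀ w c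
    rwa [← hm, h2] at this
  have h4 : m ≤ ‖z₀ - c‖ + m / 2 := by
    have := norm_sub_le_norm_sub_add_norm_sub z₀ c w
    rwa [← hm, norm_sub_rev c w, h2] at this
  rw [max_eq_left (by linarith)] at hc
  have h5 : Real.exp ε ^ 2 ≤ 1 + 3 * ε := by
    have := (abs_le.1 (Real.abs_exp_sub_one_sub_id_le (x := 2 * ε)
      (by rw [abs_of_nonneg (by positivity)]; linarith))).2
    rw [← Real.exp_nat_mul]
    push_cast
    nlinarith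
  have h6 : ‖z₁ - c‖ ^ 2 ≤ (1 + 3 * ε) * ‖z₀ - c‖ ^ 2 :=
    (pow_le_pow_left₀ (norm_nonneg _) hc 2).trans (by
      rw [mul_pow]
      exact mul_le_mul_of_nonneg_right h5 (sq_nonneg _))
  have h7 : m ^ 2 ≤ (1 + 3 * ε) * ‖z₁ - w‖ ^ 2 :=
    (pow_le_pow_left₀ hm0 ha 2).trans (by
      rw [mul_pow]
      exact mul_le_mul_of_nonneg_right h5 (sq_nonneg _))
  have h8 : ‖z₀ - c‖ ^ 2 ≤ (m + m / 2) ^ 2 := pow_le_pow_left₀ (norm_nonneg _) h3 2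
  have h9 : m ^ 2 - ‖z₁ - w‖ ^ 2 ≤ 3 * ε * m ^ 2 := by
    rcases le_total (m ^ 2) (‖z₁ - w‖ ^ 2) with h | h
    · have : 0 ≤ 3 * ε * m ^ 2 := by positivity
      linarith
    · have := mul_le_mul_of_nonneg_left h (show 0 ≤ 3 * ε by positivity)
      linarith
  have h10 : 2 * (m / 2 / n) * n ^ 2 = m * n := by field_simp
  have h11 := mul_le_mul_of_nonneg_left h8 (show 0 ≤ 3 * ε by positivity)
  have h12 : m * n ≤ m * (10 * ε * m) := by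
    have : 0 ≤ ε * m ^ 2 := by positivity
    nlinarith
  rcases hm0.eq_or_lt with hm1 | hm1
  · have h13 := hb w
    rw [← hm, ← hm1, sub_self, norm_zero, max_self, mul_zero] at h13
    have h14 := norm_sub_le_norm_sub_add_norm_sub z₁ w z₀
    rw [← hn', norm_sub_rev w z₀, ← hm] at h14
    linarith
  · exact le_of_mul_le_mul_left h12 hm1

theorem cr_le {v : S2} {t ε : ℝ} {Y₁ Y₀ : Set S2} (h : Lw (closedBall v t) Y₁ Y₀ ε)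
    (c₁ : IsPreconnected Y₁) (c₀ : IsPreconnected Y₀) (d₁ : Disjoint Y₁ (closedBall v t))
    (d₀ : Disjoint Y₀ (closedBall v t)) (d : Disjoint Y₁ Y₀) {ξ₀ ξ₁ η₁ η₂ : S2} (h0 : ξ₀ ∈ Y₁)
    (h1 : ξ₁ ∈ Y₁) (h2 : η₁ ∈ Y₀) (h3 : η₂ ∈ Y₀) : CRle ε ξ₀ ξ₁ η₁ η₂ := by
  obtain ⟨ch, hch⟩ := exists_chart η₂
  have hε := cr_nonneg h hch
  by_cases he : η₁ = η₂
  · rw [CRle, he, dist_self, mul_zero]
    exact ⟨by positivity, fun _ => by positivity⟩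
  obtain ⟨z₀, rfl⟩ := hch.surj ξ₀ fun e => disjoint_left.1 d h0 (e ▸ h3)
  obtain ⟨z₁, rfl⟩ := hch.surj ξ₁ fun e => disjoint_left.1 d h1 (e ▸ h3)
  obtain ⟨w, rfl⟩ := hch.surj η₁ he
  have key : ∀ z z' : ℂ, ch z ∈ Y₁ → ch z' ∈ Y₁ → ∀ c : ℂ,
      ‖z' - c‖ ≤ Real.exp ε * max ‖z - c‖ ‖w - c‖ := fun z z' hz hz' c =>
    cr_ann h hch c (le_max_of_le_left (norm_nonneg _)) fun r hr => by
      have h4 := max_lt_iff.1 hr.1
      have h5 : 0 < r := (norm_nonneg _).trans_lt h4.1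
      exact hch.joins v t d₁ d₀ c h5
        (hch.meets c₁ c h5 (subset_closure hz) h4.1 (.inr ⟨z', subset_closure hz', hr.2⟩))
        (hch.meets c₀ c h5 (subset_closure h2) h4.2 (.inl (subset_closure h3)))
  refine ⟨cr_chart hch ?_, fun h4 => cr_chart hch (cr_small hε h4 ?_ (key _ _ h0 h1))⟩
  · have := key _ _ h0 h1 z₀
    rwa [sub_self, norm_zero, max_eq_right (norm_nonneg _), norm_sub_rev z₁, norm_sub_rev w] at this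
  · have := key _ _ h1 h0 w
    rwa [sub_self, norm_zero, max_eq_left (norm_nonneg _)] at this

theorem isClosed_CRle (ε : ℝ) :
    IsClosed {x : S2 × S2 × S2 × S2 | CRle ε x.1 x.2.1 x.2.2.1 x.2.2.2} := by
  have h1 : ∀ Φ : ℝ, IsClosed {x : S2 × S2 × S2 × S2 | dist x.1 x.2.1 * dist x.2.2.1 x.2.2.2 ≤
      Φ * (dist x.1 x.2.2.1 * dist x.2.1 x.2.2.2)} := fun Φ =>
    isClosed_le (by fun_prop) (by fun_prop)
  by_cases h : ε ≤ 1 / 10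
  · simp only [CRle, h, true_imp_iff]
    exact (h1 _).inter (h1 _)
  · simp only [CRle, h, false_imp_iff, and_true]
    exact h1 _

/-- Two closed sets that are joined by two separated connected sets are not far apart. -/
theorem cr_gap {A B Y₁ Y₀ : Set S2} {ε : ℝ} (h : Lw (A ∪ B) Y₁ Y₀ ε) (hε : 0 ≤ ε)
    (hA : IsClosed A) (hB : IsClosed B) (hd : Disjoint A B) {ξ₀ P : S2} (h0 : ξ₀ ∈ A) (hP : P ∈ B)
    (hn : ∃ η ∈ B, η ≠ P) (c₁ : IsPreconnected Y₁) (c₀ : IsPreconnected Y₀)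
    (a₁ : (closure Y₁ ∩ A).Nonempty) (b₁ : (closure Y₁ ∩ B).Nonempty)
    (a₀ : (closure Y₀ ∩ A).Nonempty) (b₀ : (closure Y₀ ∩ B).Nonempty) :
    ∃ ξ ∈ A, ∃ η ∈ B, η ≠ P ∧ dist ξ₀ η * dist ξ P ≤ Real.exp ε * (dist ξ₀ ξ * dist η P) := by
  have _ := hε
  obtain ⟨ch, hch⟩ := exists_chart P
  have hPA : ∀ u ∈ A, u ≠ P := fun u hu e => disjoint_left.1 hd hu (e ▸ hP)
  obtain ⟨c, rfl⟩ := hch.surj ξ₀ (hPA _ h0)
  obtain ⟨δ, hδ, hδ'⟩ := Metric.isOpen_iff.1 hA.isOpen_compl P fun e => hPA P e rfl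
  have hK : IsCompact (ch ⁻¹' A) := by
    refine isCompact_of_isClosed_isBounded (hA.preimage hch.cont)
      (isBounded_iff_forall_norm_le.2 ⟨2 / δ, fun z hz => ?_⟩)
    have h1 : δ ≤ dist (ch z) P := not_lt.1 fun h1 => hδ' h1 hz
    rw [hch.dist_pole, le_div_iff₀ (by positivity)] at h1
    rw [le_div_iff₀' hδ]
    exact (mul_le_mul_of_nonneg_left (Real.le_sqrt_of_sq_le (by linarith)) hδ.le).trans h1
  obtain ⟨z, hz, hz'⟩ := hK.exists_isMaxOn ⟨c, h0⟩ (f := fun z => ‖z - c‖) (by fun_prop)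
  obtain ⟨η, hη, hη'⟩ := hn
  obtain ⟨w₀, rfl⟩ := hch.surj η hη'
  obtain ⟨w, hw, hw'⟩ := (hB.preimage hch.cont).exists_infDist_eq_dist ⟨w₀, hη⟩ c
  have hmin : ∀ y, ch y ∈ B → ‖w - c‖ ≤ ‖y - c‖ := fun y hy => by
    rw [← dist_eq_norm', ← dist_eq_norm', ← hw']
    exact infDist_le_dist_of_mem hy
  refine ⟨ch z, hz, ch w, hw, hch.ne_pole w, cr_chart hch ?_⟩
  rw [norm_sub_rev c, norm_sub_rev c]
  refine cr_ann h hch c (norm_nonneg _) fun r hr => ?_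
  have h5 : 0 < r := (norm_nonneg _).trans_lt hr.1
  have key : ∀ Y : Set S2, IsPreconnected Y → (closure Y ∩ A).Nonempty →
      (closure Y ∩ B).Nonempty → ∃ θ ∈ Ico 0 (2 * Real.pi), ch (circleMap c r θ) ∈ Y := by
    rintro Y hY ⟨a, ha, ha'⟩ ⟨b, hb, hb'⟩
    obtain ⟨x, rfl⟩ := hch.surj a (hPA a ha')
    obtain ⟨θ, hθ⟩ := hch.meets hY c h5 ha (lt_of_le_of_lt (hz' ha') hr.1) (by
      by_cases e : b = P
      · exact .inl (e ▸ hb)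
      · obtain ⟨y, rfl⟩ := hch.surj b e
        exact .inr ⟨y, hb, hr.2.trans_le (hmin y hb')⟩)
    obtain ⟨θ', h6, h7⟩ := (periodic_circleMap c r).exists_mem_Ico₀ Real.two_pi_pos θ
    exact ⟨θ', h6, h7 ▸ hθ⟩
  obtain ⟨θ₁, k₁, m₁⟩ := key Y₁ c₁ a₁ b₁
  obtain ⟨θ₂, k₂, m₂⟩ := key Y₀ c₀ a₀ b₀
  refine ⟨θ₁, θ₂, abs_le.2 ⟨by linarith [k₁.1, k₂.2], by linarith [k₁.2, k₂.1]⟩, m₁, m₂,
    fun θ _ hθ => ?_⟩
  have h6 : ‖circleMap c r θ - c‖ = r := by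
    rw [circleMap_sub_center, norm_circleMap_zero, abs_of_pos h5]
  rcases hθ with hθ | hθ
  · exact absurd (h6 ▸ (hz' hθ : ‖circleMap c r θ - c‖ ≤ ‖z - c‖)) (not_le.2 hr.1)
  · exact absurd (h6 ▸ hmin _ hθ) (not_le.2 hr.2)

/-- The invariants of the two pictures are incompatible. -/
theorem not_equiv {Λ₁ Λ₂ : Set S2} {v₁ v₂ : Bool → S2} {t₁ t₂ : Bool → ℝ} (h₁ : Two Λ₁ v₁ t₁)
    (h₂ : Two Λ₂ v₂ t₂) {ε₁ ε₂ : ℝ} (hc : Close v₁ t₁ ε₁) (hf : Far v₂ t₂ ε₂)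
    (hε : ε₂ ≤ 1 / 10) (hε' : 10 * ε₂ * Real.exp ε₁ < 1) (G : S2 ≃ₜ S2) (hG : G '' Λ₁ = Λ₂)
    {μ : S2 → ℝ} (hμ : ∀ u, 0 < μ u) (hd : ∀ u u', dist (G u) (G u') = μ u * μ u' * dist u u') :
    False := by
  obtain ⟨ξ₀, x0, ξ₁, x1, η₁, y1, η₂, y2, hle⟩ := hc
  have hne : ∀ ξ ∈ closedBall (v₁ true) (t₁ true), ∀ η ∈ closedBall (v₁ false) (t₁ false),
      0 < dist ξ η := fun ξ hξ η hη => dist_pos.2 fun e => disjoint_left.1 h₁.disj hξ (e ▸ hη)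
  have hY := mul_pos (hne _ x0 _ y1) (hne _ x1 _ y2)
  have hX := (mul_pos_iff_of_pos_left (Real.exp_pos ε₁)).1 (hY.trans_le hle)
  have key : ∀ b, ∀ p ∈ closedBall (v₁ b) (t₁ b), ∀ q ∈ closedBall (v₁ b) (t₁ b), p ≠ q →
      ∃ b', G '' closedBall (v₁ b) (t₁ b) = closedBall (v₂ b') (t₂ b') := by
    intro b p hp q hq hpq
    obtain ⟨h1, h2⟩ := h₁.disc b p hp
    have h3 := G.image_connectedComponentIn h1
    rw [h2, hG] at h3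
    by_cases h4 : ∃ b', G p ∈ closedBall (v₂ b') (t₂ b')
    · obtain ⟨b', h4⟩ := h4
      exact ⟨b', h3.trans (h₂.disc b' _ h4).2⟩
    · rw [h₂.point _ (hG ▸ mem_image_of_mem G h1) (not_exists.1 h4)] at h3
      exact absurd (G.injective (mem_singleton_iff.1 (h3 ▸ mem_image_of_mem G hq))).symm hpq
  obtain ⟨b, hb⟩ := key true _ x0 _ x1 fun e => by simp [e] at hX
  obtain ⟨b', hb'⟩ := key false _ y1 _ y2 fun e => by simp [e] at hX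
  have hbb : b ≠ b' := by
    rintro rfl
    have h1 := G.injective.image_injective (hb.trans hb'.symm)
    exact disjoint_left.1 h₁.disj x0 (h1 ▸ x0)
  have g0 := hb ▸ mem_image_of_mem G x0
  have g1 := hb ▸ mem_image_of_mem G x1
  have g2 := hb' ▸ mem_image_of_mem G y1
  have g3 := hb' ▸ mem_image_of_mem G y2
  have h5 : dist (G ξ₀) (G ξ₁) * dist (G η₁) (G η₂) ≤
      10 * ε₂ * (dist (G ξ₀) (G η₁) * dist (G ξ₁) (G η₂)) := by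
    cases b <;> cases b'
    · exact absurd rfl hbb
    · have := (hf _ g2 _ g3 _ g0 _ g1).2 hε
      rwa [mul_comm, dist_comm (G η₁) (G ξ₀), dist_comm (G η₂) (G ξ₁)] at this
    · exact (hf _ g0 _ g1 _ g2 _ g3).2 hε
    · exact absurd rfl hbb
  have hM : 0 < μ ξ₀ * μ ξ₁ * μ η₁ * μ η₂ :=
    mul_pos (mul_pos (mul_pos (hμ _) (hμ _)) (hμ _)) (hμ _)
  have h6 : dist ξ₀ ξ₁ * dist η₁ η₂ ≤ 10 * ε₂ * (dist ξ₀ η₁ * dist ξ₁ η₂) := by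
    refine le_of_mul_le_mul_left ?_ hM
    rw [hd, hd, hd, hd] at h5
    linarith
  have h7 := mul_le_mul_of_nonneg_left h6 (Real.exp_pos ε₁).le
  have h8 := mul_lt_mul_of_pos_right hε' hY
  linarith

end Pool.Agent.Lib.MP_44acff_gt.EK
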