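import Pool.Agent.Lib.MP_44acff_gt.EK.D1

open Set Metric Topology Filter MeasureTheory

namespace Pool.Agent.Lib.MP_44acff_gt.EK

theorem e0_st_coe (z : ℂ) :
    st (z : OnePoint ℂ) = (‖z‖ ^ 2 + 1)⁻¹ • !₂[2 * z.re, 2 * z.im, ‖z‖ ^ 2 - 1] := rfl

theorem e0_st_infty : st OnePoint.infty = !₂[0, 0, 1] := rfl

theorem e0_sq (z : ℂ) : ‖z‖ ^ 2 = z.re ^ 2 + z.im ^ 2 := by
  rw [Complex.sq_norm, Complex.normSq_apply]; ring

theorem norm_st (ξ : OnePoint ℂ) : ‖st ξ‖ = 1 := by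
  rw [← sq_eq_sq₀ (norm_nonneg _) zero_le_one, EuclideanSpace.real_norm_sq_eq]
  induction ξ using OnePoint.rec with
  | infty => simp [e0_st_infty, Fin.sum_univ_three]
  | coe z =>
    have h : z.re ^ 2 + z.im ^ 2 + 1 ≠ 0 := by positivity
    simp only [e0_st_coe, Fin.sum_univ_three, e0_sq]
    simp
    field_simp
    ring

/-- The stereographic projection as a map to the sphere. -/
noncomputable def stS (ξ : OnePoint ℂ) : S2 := ⟨st ξ, by simpa using norm_st ξ⟩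

theorem e0_dist (z w : ℂ) : dist (st (z : OnePoint ℂ)) (st (w : OnePoint ℂ)) =
    2 * ‖z - w‖ / (√(1 + ‖z‖ ^ 2) * √(1 + ‖w‖ ^ 2)) := by
  rw [← sq_eq_sq₀ dist_nonneg (by positivity), EuclideanSpace.dist_sq_eq, div_pow, mul_pow,
    mul_pow, Real.sq_sqrt (by positivity), Real.sq_sqrt (by positivity)]
  have h1 : z.re ^ 2 + z.im ^ 2 + 1 ≠ 0 := by positivity
  have h2 : w.re ^ 2 + w.im ^ 2 + 1 ≠ 0 := by positivity
  have h3 : 1 + (z.re ^ 2 + z.im ^ 2) ≠ 0 := by positivity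
  have h4 : 1 + (w.re ^ 2 + w.im ^ 2) ≠ 0 := by positivity
  simp only [e0_st_coe, Fin.sum_univ_three, e0_sq, Real.dist_eq, sq_abs]
  simp
  field_simp
  ring

theorem e0_pole (z : ℂ) : dist (st (z : OnePoint ℂ)) (st OnePoint.infty) =
    2 / √(1 + ‖z‖ ^ 2) := by
  rw [← sq_eq_sq₀ dist_nonneg (by positivity), EuclideanSpace.dist_sq_eq, div_pow,
    Real.sq_sqrt (by positivity)]
  have h1 : z.re ^ 2 + z.im ^ 2 + 1 ≠ 0 := by positivity
  have h3 : 1 + (z.re ^ 2 + z.im ^ 2) ≠ 0 := by positivity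
  simp only [e0_st_coe, e0_st_infty, Fin.sum_univ_three, e0_sq, Real.dist_eq, sq_abs]
  simp
  field_simp
  ring

theorem e0_one_le (z : ℂ) : 1 ≤ √(1 + ‖z‖ ^ 2) :=
  Real.one_le_sqrt.2 (by nlinarith [sq_nonneg ‖z‖])

theorem e0_cont : Continuous fun z : ℂ => stS z := by
  refine (LipschitzWith.of_dist_le_mul (K := 2) fun z w => ?_).continuous
  rw [Subtype.dist_eq]
  show dist (st (z : OnePoint ℂ)) (st (w : OnePoint ℂ)) ≤ _
  rw [e0_dist, dist_eq_norm]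
  exact div_le_self (by positivity) (one_le_mul_of_one_le_of_one_le (e0_one_le z) (e0_one_le w))

theorem e0_surj (u : S2) (hu : u ≠ stS OnePoint.infty) : ∃ z : ℂ, stS z = u := by
  obtain ⟨u, h⟩ := u
  have h1 : u 0 ^ 2 + u 1 ^ 2 + u 2 ^ 2 = 1 := by
    have h2 : ‖u‖ = 1 := by simpa using h
    have h3 := EuclideanSpace.real_norm_sq_eq u
    rw [h2, Fin.sum_univ_three] at h3
    linarith
  have h2 : 1 - u 2 ≠ 0 := fun h2 => hu (Subtype.ext (by
    have h3 : u 2 = 1 := by linarith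
    have h4 : u 0 = 0 := by nlinarith [sq_nonneg (u 0), sq_nonneg (u 1)]
    have h5 : u 1 = 0 := by nlinarith [sq_nonneg (u 0), sq_nonneg (u 1)]
    show u = st OnePoint.infty
    rw [e0_st_infty]
    ext i
    fin_cases i <;> simp [h3, h4, h5]))
  refine ⟨⟨u 0 / (1 - u 2), u 1 / (1 - u 2)⟩, Subtype.ext ?_⟩
  show st ((⟨u 0 / (1 - u 2), u 1 / (1 - u 2)⟩ : ℂ) : OnePoint ℂ) = u
  have h3 : (u 0 / (1 - u 2)) ^ 2 + (u 1 / (1 - u 2)) ^ 2 = (1 + u 2) / (1 - u 2) := by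
    field_simp
    linarith
  have h4 : (1 + u 2) / (1 - u 2) + 1 = 2 / (1 - u 2) := by field_simp; ring
  rw [e0_st_coe, e0_sq]
  simp only [h3, h4]
  ext i
  fin_cases i <;> simp <;> field_simp
  ring

theorem e0_radial {h : ℝ} (hh : 0 < h) :
    ∫⁻ r in Ioi (0 : ℝ), ENNReal.ofReal (r * (2 / (h * r ^ 2 + h⁻¹)) ^ 2) = ENNReal.ofReal 2 := by
  have h1 : ∀ x ∈ Ici (0 : ℝ), HasDerivAt (fun r : ℝ => -2 / h * (h * r ^ 2 + h⁻¹)⁻¹)
      (x * (2 / (h * x ^ 2 + h⁻¹)) ^ 2) x := fun x _ => by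
    have h2 : h * x ^ 2 + h⁻¹ ≠ 0 := by positivity
    have h3 : HasDerivAt (fun r : ℝ => h * r ^ 2 + h⁻¹) (h * (2 * x)) x := by
      simpa using ((hasDerivAt_pow 2 x).const_mul h).add_const h⁻¹
    refine ((h3.fun_inv h2).const_mul (-2 / h)).congr_deriv ?_
    generalize h * x ^ 2 + h⁻¹ = D at h2
    field_simp
  have h2 : ∀ x ∈ Ioi (0 : ℝ), 0 ≤ x * (2 / (h * x ^ 2 + h⁻¹)) ^ 2 := fun x hx =>
    mul_nonneg (le_of_lt hx) (sq_nonneg _)
  have h3 : Tendsto (fun r : ℝ => -2 / h * (h * r ^ 2 + h⁻¹)⁻¹) atTop (𝓝 0) := by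
    have h4 : Tendsto (fun r : ℝ => h * r ^ 2 + h⁻¹) atTop atTop :=
      tendsto_atTop_add_const_right _ _ ((tendsto_pow_atTop two_ne_zero).const_mul_atTop hh)
    simpa using h4.inv_tendsto_atTop.const_mul (-2 / h)
  rw [← ofReal_integral_eq_lintegral_ofReal (integrableOn_Ioi_deriv_of_nonneg' h1 h2 h3)
    ((ae_restrict_iff' measurableSet_Ioi).2 (ae_of_all _ h2)),
    integral_Ioi_of_hasDerivAt_of_nonneg' h1 h2 h3]
  congr 1
  field_simp
  ring

theorem e0_plane {h : ℝ} (hh : 0 < h) (c : ℂ) :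
    ∫⁻ z : ℂ, ENNReal.ofReal ((2 / (h * ‖z - c‖ ^ 2 + h⁻¹)) ^ 2) =
      ENNReal.ofReal (4 * Real.pi) := by
  rw [lintegral_sub_right_eq_self
    (fun z : ℂ => ENNReal.ofReal ((2 / (h * ‖z‖ ^ 2 + h⁻¹)) ^ 2)) c,
    ← Complex.lintegral_comp_polarCoord_symm, polarCoord_target]
  have h1 : ∀ p ∈ Ioi (0 : ℝ) ×ˢ Ioo (-Real.pi) Real.pi, ENNReal.ofReal p.1 •
      ENNReal.ofReal ((2 / (h * ‖Complex.polarCoord.symm p‖ ^ 2 + h⁻¹)) ^ 2) =
      ENNReal.ofReal (p.1 * (2 / (h * p.1 ^ 2 + h⁻¹)) ^ 2) * 1 := fun p hp => by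
    rw [Complex.norm_polarCoord_symm, sq_abs, smul_eq_mul, mul_one,
      ENNReal.ofReal_mul (le_of_lt hp.1)]
  rw [setLIntegral_congr_fun (measurableSet_Ioi.prod measurableSet_Ioo) h1,
    Measure.volume_eq_prod, ← Measure.prod_restrict,
    lintegral_prod_mul (f := fun r : ℝ => ENNReal.ofReal (r * (2 / (h * r ^ 2 + h⁻¹)) ^ 2))
      (g := fun _ : ℝ => 1) (by fun_prop) (by fun_prop), e0_radial hh]
  simp only [lintegral_const, one_mul, MeasurableSet.univ, Measure.restrict_apply, univ_inter,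
    Real.volume_Ioo]
  rw [← ENNReal.ofReal_mul zero_le_two]
  congr 1
  ring

theorem e0_poisson (p : H3) :
    ∫⁻ z : ℂ, ENNReal.ofReal ((2 / ((1 + ‖z‖ ^ 2) * Aa (stS z) p)) ^ 2) ≤
      ENNReal.ofReal (4 * Real.pi) := by
  have h1 := p.sq_fst
  rw [EuclideanSpace.real_norm_sq_eq, Fin.sum_univ_three] at h1
  have h2 := p.pos
  have hh : 0 < p.v.1 - p.v.2 2 := by
    by_contra h3
    nlinarith [sq_nonneg (p.v.2 0), sq_nonneg (p.v.2 1)]
  refine le_of_eq ((lintegral_congr fun z => ?_).trans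
    (e0_plane hh ⟨p.v.2 0 / (p.v.1 - p.v.2 2), p.v.2 1 / (p.v.1 - p.v.2 2)⟩))
  congr 3
  have h3 : z.re ^ 2 + z.im ^ 2 + 1 ≠ 0 := by positivity
  have h4 := hh.ne'
  simp only [Aa, lor, stS, e0_st_coe, e0_sq, real_inner_smul_right]
  simp [EuclideanSpace.inner_eq_star_dotProduct, dotProduct, Fin.sum_univ_three]
  field_simp
  linear_combination (1 + z.re ^ 2 + z.im ^ 2) * h1

theorem isChart_st : IsChart (stS OnePoint.infty) fun z : ℂ => stS z :=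
  ⟨e0_cont, e0_surj, e0_dist, e0_pole, e0_poisson⟩

theorem exists_chart (P : S2) : ∃ ch, IsChart P ch := by
  have h1 : ‖st OnePoint.infty‖ = ‖(P : E3)‖ := by rw [norm_st]; simp
  obtain ⟨T, hT⟩ : ∃ T : E3 ≃ₗᵢ[ℝ] E3, T (st OnePoint.infty) = P :=
    ⟨_, Submodule.reflection_sub h1⟩
  refine ⟨fun z => ⟨T (st (z : OnePoint ℂ)), by simp [norm_st]⟩, ?_, fun u hu => ?_,
    fun z w => ?_, fun z => ?_, fun p => ?_⟩
  · exact (T.continuous.comp (continuous_subtype_val.comp e0_cont)).subtype_mk _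
  · obtain ⟨z, hz⟩ := e0_surj ⟨T.symm u, by simp⟩ fun h => hu (Subtype.ext (by
      have h2 : T.symm u = st OnePoint.infty := congrArg Subtype.val h
      rw [← hT, ← h2, T.apply_symm_apply]))
    have h2 : st (z : OnePoint ℂ) = T.symm u := congrArg Subtype.val hz
    exact ⟨z, Subtype.ext (by simp [h2])⟩
  · rw [Subtype.dist_eq]
    exact (T.dist_map _ _).trans (e0_dist z w)
  · rw [Subtype.dist_eq, ← hT]
    exact (T.dist_map _ _).trans (e0_pole z)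
  · refine le_of_eq_of_le (lintegral_congr fun z => ?_) (e0_poisson
      ⟨(p.v.1, T.symm p.v.2), by simpa only [lor, T.symm.inner_map_map] using p.unit, p.pos⟩)
    simp only [Aa, lor, stS]
    rw [← T.inner_map_map (T.symm p.v.2), T.apply_symm_apply]

theorem e0_bij : Function.Bijective stS := by
  refine ⟨fun ξ η h => ?_, fun u => ?_⟩
  · have h1 : dist (st ξ) (st η) = 0 := dist_eq_zero.2 (congrArg Subtype.val h)
    have h2 := fun z => (zero_lt_one.trans_le (e0_one_le z)).ne'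
    induction ξ using OnePoint.rec with
    | infty =>
      induction η using OnePoint.rec with
      | infty => rfl
      | coe w => rw [dist_comm, e0_pole] at h1; simp [h2] at h1
    | coe z =>
      induction η using OnePoint.rec with
      | infty => rw [e0_pole] at h1; simp [h2] at h1
      | coe w =>
        rw [e0_dist] at h1
        simp only [div_eq_zero_iff, mul_eq_zero, h2, or_false, norm_eq_zero, sub_eq_zero,
          OfNat.ofNat_ne_zero, false_or] at h1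
        rw [h1]
  · by_cases hu : u = stS OnePoint.infty
    · exact ⟨_, hu.symm⟩
    · obtain ⟨z, hz⟩ := e0_surj u hu
      exact ⟨z, hz⟩

theorem isHomeomorph_stS : IsHomeomorph stS := by
  refine isHomeomorph_iff_continuous_bijective.2 ⟨?_, e0_bij⟩
  refine (OnePoint.continuous_iff stS).2 ⟨?_, e0_cont⟩
  rw [coclosedCompact_eq_cocompact, tendsto_iff_dist_tendsto_zero]
  have h1 : Tendsto (fun z : ℂ => √(1 + ‖z‖ ^ 2)) (cocompact ℂ) atTop :=
    Real.tendsto_sqrt_atTop.comp (tendsto_atTop_add_const_left _ _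
      ((tendsto_pow_atTop two_ne_zero).comp tendsto_norm_cocompact_atTop))
  exact (h1.const_div_atTop 2).congr fun z => (e0_pole z).symm

open Classical in
/-- The point with homogeneous coordinates `a, b`. -/
noncomputable def e0pj (a b : ℂ) : OnePoint ℂ :=
  if b = 0 then OnePoint.infty else ((a / b : ℂ) : OnePoint ℂ)

/-- The length of the vector `(a, b)`. -/
noncomputable def e0N (a b : ℂ) : ℝ := √(‖a‖ ^ 2 + ‖b‖ ^ 2)

theorem e0N_pos {a b : ℂ} (h : a ≠ 0 ∨ b ≠ 0) : 0 < e0N a b := by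
  refine Real.sqrt_pos.2 ?_
  rcases h with h | h <;> positivity

theorem e0N_zero (a : ℂ) : e0N a 0 = ‖a‖ := by simp [e0N]

theorem e0N_div (a : ℂ) {b : ℂ} (h : b ≠ 0) : √(1 + ‖a / b‖ ^ 2) = e0N a b / ‖b‖ := by
  have h1 : 0 < ‖b‖ := norm_pos_iff.2 h
  rw [e0N, eq_div_iff h1.ne', ← Real.sqrt_sq h1.le, ← Real.sqrt_mul (by positivity),
    Real.sqrt_sq h1.le, norm_div]
  congr 1
  field_simp
  ring

theorem e0_dist_pj {a b c d : ℂ} (h : a ≠ 0 ∨ b ≠ 0) (h' : c ≠ 0 ∨ d ≠ 0) :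
    dist (st (e0pj a b)) (st (e0pj c d)) = 2 * ‖a * d - b * c‖ / (e0N a b * e0N c d) := by
  have h1 := (e0N_pos h).ne'
  have h2 := (e0N_pos h').ne'
  unfold e0pj
  by_cases hb : b = 0 <;> by_cases hd : d = 0
  · simp [hb, hd]
  · have h3 : ‖d‖ ≠ 0 := norm_ne_zero_iff.2 hd
    subst hb
    rw [e0N_zero] at h1
    rw [if_pos rfl, if_neg hd, dist_comm, e0_pole, e0N_div c hd, e0N_zero, zero_mul, sub_zero,
      norm_mul]
    field_simp
  · have h3 : ‖b‖ ≠ 0 := norm_ne_zero_iff.2 hb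
    subst hd
    rw [e0N_zero] at h2
    rw [if_pos rfl, if_neg hb, e0_pole, e0N_div a hb, e0N_zero, mul_zero, zero_sub, norm_neg,
      norm_mul]
    field_simp
  · have h3 : ‖b‖ ≠ 0 := norm_ne_zero_iff.2 hb
    have h4 : ‖d‖ ≠ 0 := norm_ne_zero_iff.2 hd
    rw [if_neg hb, if_neg hd, e0_dist, e0N_div a hb, e0N_div c hd, div_sub_div _ _ hb hd,
      norm_div, norm_mul]
    field_simp

theorem e0_lift (ξ : OnePoint ℂ) : ∃ v : ℂ × ℂ, (v.1 ≠ 0 ∨ v.2 ≠ 0) ∧ ξ = e0pj v.1 v.2 ∧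
    ∀ g : GL (Fin 2) ℂ, g • ξ = e0pj (g 0 0 * v.1 + g 0 1 * v.2) (g 1 0 * v.1 + g 1 1 * v.2) := by
  induction ξ using OnePoint.rec with
  | infty =>
    exact ⟨(1, 0), Or.inl one_ne_zero, by simp [e0pj], fun g => by
      simp [e0pj, OnePoint.smul_infty_eq_ite]⟩
  | coe z =>
    exact ⟨(z, 1), Or.inr one_ne_zero, by simp [e0pj], fun g => by
      simp [e0pj, OnePoint.smul_some_eq_ite]⟩

theorem e0_mob (g : GL (Fin 2) ℂ) : ∃ (μ : OnePoint ℂ → ℝ) (C : ℝ), (∀ ξ, 0 < μ ξ) ∧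
    (∀ ξ, μ ξ ≤ C) ∧ ∀ ξ η, dist (st (g • ξ)) (st (g • η)) = μ ξ * μ η * dist (st ξ) (st η) := by
  choose v h1 h2 h3 using e0_lift
  obtain ⟨D, hD⟩ : ∃ D, D = g 0 0 * g 1 1 - g 0 1 * g 1 0 := ⟨_, rfl⟩
  have hD0 : D ≠ 0 := by
    have := g.det_ne_zero
    rwa [Matrix.det_fin_two, ← hD] at this
  have hD1 : 0 < ‖D‖ := norm_pos_iff.2 hD0
  have h4 : ∀ ξ, g 0 0 * (v ξ).1 + g 0 1 * (v ξ).2 ≠ 0 ∨ g 1 0 * (v ξ).1 + g 1 1 * (v ξ).2 ≠ 0 :=
    fun ξ => by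
      by_contra h
      rw [not_or, not_not, not_not] at h
      rcases h1 ξ with h5 | h5
      · exact mul_ne_zero hD0 h5 (by rw [hD]; linear_combination g 1 1 * h.1 - g 0 1 * h.2)
      · exact mul_ne_zero hD0 h5 (by rw [hD]; linear_combination g 0 0 * h.2 - g 1 0 * h.1)
  refine ⟨fun ξ => √‖D‖ * e0N (v ξ).1 (v ξ).2 /
      e0N (g 0 0 * (v ξ).1 + g 0 1 * (v ξ).2) (g 1 0 * (v ξ).1 + g 1 1 * (v ξ).2),
    √‖D‖ * ((‖g 1 1‖ + ‖g 0 1‖ + (‖g 0 0‖ + ‖g 1 0‖)) / ‖D‖), fun ξ => ?_, fun ξ => ?_,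
    fun ξ η => ?_⟩
  · have h5 := e0N_pos (h1 ξ)
    have h6 := e0N_pos (h4 ξ)
    positivity
  · have h6 := e0N_pos (h4 ξ)
    beta_reduce
    generalize (v ξ).1 = x at h6 ⊢
    generalize (v ξ).2 = y at h6 ⊢
    have e1 : D * x = g 1 1 * (g 0 0 * x + g 0 1 * y) - g 0 1 * (g 1 0 * x + g 1 1 * y) := by
      rw [hD]; ring
    have e2 : D * y = g 0 0 * (g 1 0 * x + g 1 1 * y) - g 1 0 * (g 0 0 * x + g 0 1 * y) := by
      rw [hD]; ring
    generalize g 0 0 * x + g 0 1 * y = a at h6 e1 e2 ⊢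
    generalize g 1 0 * x + g 1 1 * y = b at h6 e1 e2 ⊢
    have ha : ‖a‖ ≤ e0N a b := Real.le_sqrt_of_sq_le (by nlinarith [sq_nonneg ‖b‖])
    have hb : ‖b‖ ≤ e0N a b := Real.le_sqrt_of_sq_le (by nlinarith [sq_nonneg ‖a‖])
    have h7 : e0N x y ≤ ‖x‖ + ‖y‖ := Real.sqrt_le_iff.2 ⟨by positivity, by
      nlinarith [mul_nonneg (norm_nonneg x) (norm_nonneg y)]⟩
    have h8 : ‖D‖ * ‖x‖ ≤ ‖g 1 1‖ * e0N a b + ‖g 0 1‖ * e0N a b := by
      rw [← norm_mul, e1]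
      refine (norm_sub_le _ _).trans ?_
      rw [norm_mul, norm_mul]
      gcongr
    have h9 : ‖D‖ * ‖y‖ ≤ ‖g 0 0‖ * e0N a b + ‖g 1 0‖ * e0N a b := by
      rw [← norm_mul, e2]
      refine (norm_sub_le _ _).trans ?_
      rw [norm_mul, norm_mul]
      gcongr
    rw [mul_div_assoc]
    refine mul_le_mul_of_nonneg_left ?_ (Real.sqrt_nonneg _)
    rw [div_le_div_iff₀ h6 hD1]
    nlinarith [mul_le_mul_of_nonneg_left h7 hD1.le]
  · have h5 := (e0N_pos (h1 ξ)).ne'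
    have h6 := (e0N_pos (h4 ξ)).ne'
    have h7 := (e0N_pos (h1 η)).ne'
    have h8 := (e0N_pos (h4 η)).ne'
    have h9 : dist (st ξ) (st η) = 2 * ‖(v ξ).1 * (v η).2 - (v ξ).2 * (v η).1‖ /
        (e0N (v ξ).1 (v ξ).2 * e0N (v η).1 (v η).2) := by
      rw [← e0_dist_pj (h1 ξ) (h1 η), ← h2, ← h2]
    have e : (g 0 0 * (v ξ).1 + g 0 1 * (v ξ).2) * (g 1 0 * (v η).1 + g 1 1 * (v η).2) -
        (g 1 0 * (v ξ).1 + g 1 1 * (v ξ).2) * (g 0 0 * (v η).1 + g 0 1 * (v η).2) =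
        D * ((v ξ).1 * (v η).2 - (v ξ).2 * (v η).1) := by rw [hD]; ring
    rw [h3 ξ g, h3 η g, e0_dist_pj (h4 ξ) (h4 η), h9, e, norm_mul]
    have h10 := Real.mul_self_sqrt hD1.le
    generalize √‖D‖ = s at h10
    rw [← h10]
    field_simp

theorem e0_conj (ξ η : OnePoint ℂ) : dist (st (OnePoint.map (starRingEnd ℂ) ξ))
    (st (OnePoint.map (starRingEnd ℂ) η)) = dist (st ξ) (st η) := by
  induction ξ using OnePoint.rec with
  | infty =>
    induction η using OnePoint.rec with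
    | infty => rfl
    | coe w =>
      rw [OnePoint.map_infty, OnePoint.map_some, dist_comm, e0_pole, dist_comm, e0_pole,
        Complex.norm_conj]
  | coe z =>
    induction η using OnePoint.rec with
    | infty => rw [OnePoint.map_infty, OnePoint.map_some, e0_pole, e0_pole, Complex.norm_conj]
    | coe w =>
      rw [OnePoint.map_some, OnePoint.map_some, e0_dist, e0_dist, ← map_sub, Complex.norm_conj,
        Complex.norm_conj, Complex.norm_conj]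

theorem e0_of_map {f : OnePoint ℂ → OnePoint ℂ} (hf : Function.Bijective f)
    {μ : OnePoint ℂ → ℝ} {C : ℝ} (h0 : ∀ ξ, 0 < μ ξ) (hC : ∀ ξ, μ ξ ≤ C)
    (hd : ∀ ξ η, dist (st (f ξ)) (st (f η)) = μ ξ * μ η * dist (st ξ) (st η))
    (Γ : Set (OnePoint ℂ)) :
    ∃ G : S2 ≃ₜ S2, G '' (stS '' Γ) = stS '' (f '' Γ) ∧ ∃ μ : S2 → ℝ, (∀ u, 0 < μ u) ∧
      ∀ u u', dist (G u) (G u') = μ u * μ u' * dist u u' := by
  obtain ⟨e, he⟩ : ∃ e : OnePoint ℂ ≃ S2, ∀ ξ, e ξ = stS ξ :=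
    ⟨Equiv.ofBijective stS e0_bij, fun _ => rfl⟩
  obtain ⟨G, hG⟩ : ∃ G : S2 ≃ S2, ∀ ξ, G (stS ξ) = stS (f ξ) :=
    ⟨e.symm.trans ((Equiv.ofBijective f hf).trans e), fun ξ => by
      simp only [Equiv.trans_apply, ← he, e.symm_apply_apply, Equiv.ofBijective_apply]⟩
  have h1 : ∀ u u', dist (G u) (G u') = μ (e.symm u) * μ (e.symm u') * dist u u' := fun u u' => by
    obtain ⟨ξ, rfl⟩ := e.surjective u
    obtain ⟨η, rfl⟩ := e.surjective u'
    rw [e.symm_apply_apply, e.symm_apply_apply, he, he, hG, hG]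
    exact hd ξ η
  have hC0 : 0 ≤ C := (h0 OnePoint.infty).le.trans (hC _)
  have h2 : Continuous G := (LipschitzWith.of_dist_le_mul (K := ⟨C * C, by positivity⟩)
    fun u u' => by
      rw [h1]
      exact mul_le_mul_of_nonneg_right (mul_le_mul (hC _) (hC _) (h0 _).le hC0)
        dist_nonneg).continuous
  refine ⟨h2.homeoOfEquivCompactToT2, ?_, fun u => μ (e.symm u), fun u => h0 _, h1⟩
  rw [image_image, image_image]
  exact image_congr fun ξ _ => hG ξ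

/-- Moebius and anti-Moebius maps scale chordal distances by a product of conformal factors. -/
theorem MobEquiv.exists_homeomorph {Γ₁ Γ₂ : Set (OnePoint ℂ)} (h : MobEquiv Γ₁ Γ₂) :
    ∃ G : S2 ≃ₜ S2, G '' (stS '' Γ₁) = stS '' Γ₂ ∧ ∃ μ : S2 → ℝ, (∀ u, 0 < μ u) ∧
      ∀ u u', dist (G u) (G u') = μ u * μ u' * dist u u' := by
  obtain ⟨g, h⟩ := h
  obtain ⟨μ, C, h0, hC, hd⟩ := e0_mob g
  rcases h with rfl | rfl
  · exact e0_of_map (MulAction.bijective g) h0 hC hd Γ₁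
  · have h1 : Function.Involutive (OnePoint.map (starRingEnd ℂ)) := fun ξ => by
      induction ξ using OnePoint.rec with
      | infty => rfl
      | coe z => rw [OnePoint.map_some, OnePoint.map_some, Complex.conj_conj]
    exact e0_of_map (μ := fun ξ => μ (OnePoint.map (starRingEnd ℂ) ξ))
      ((MulAction.bijective g).comp h1.bijective) (fun _ => h0 _) (fun _ => hC _)
      (fun ξ η => by rw [← e0_conj ξ η]; exact hd _ _) Γ₁

end Pool.Agent.Lib.MP_44acff_gt.EK
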