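import Pool.Agent.Lib.MP_44acff_gt.EK.D2

open Set Metric Topology Filter MeasureTheory

namespace Pool.Agent.Lib.MP_44acff_gt.EK

variable {S : Type} [MetricSpace S] {E : Set ℂ} {k : ℝ} {pr : S → ℂ}

theorem en_notMem (h : Pl S E k pr) (y : S) : pr y ∉ E := by
  have : pr y ∈ range pr := mem_range_self y
  rwa [h.range_eq] at this

theorem en_pos (h : Pl S E k pr) (y : S) : 0 < infDist (pr y) E :=
  (h.closed.notMem_iff_infDist_pos h.ne).1 (en_notMem h y)

theorem Pl.isOpenEmbedding (h : Pl S E k pr) : IsOpenEmbedding pr := by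
  have hk : 0 < k := one_pos.trans_le h.one_le
  refine .of_continuous_injective_isOpenMap ?_ h.inj ?_
  · refine continuous_iff_continuousAt.2 fun x => tendsto_iff_norm_sub_tendsto_zero.2 ?_
    refine squeeze_zero (fun _ => norm_nonneg _) (h.low x) ?_
    have : Continuous fun y => infDist (pr x) E * (Real.exp (k * dist x y) - 1) := by fun_prop
    simpa using this.tendsto x
  · refine IsOpenMap.of_nhds_le fun x => ?_
    intro s hs
    obtain ⟨ε, hε, hb⟩ := Metric.mem_nhds_iff.1 (mem_map.1 hs)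
    have hd := en_pos h x
    filter_upwards [h.closed.isOpen_compl.mem_nhds (en_notMem h x),
      ball_mem_nhds (pr x) (half_pos hd),
      ball_mem_nhds (pr x) (show 0 < ε * infDist (pr x) E / k by positivity)] with z h1 h2 h3
    rw [← h.range_eq] at h1
    obtain ⟨y, rfl⟩ := h1
    rw [mem_ball, dist_eq_norm] at h2 h3
    refine hb (mem_ball'.2 ((h.up x y h2.le).trans_lt ?_))
    rw [lt_div_iff₀ hk] at h3
    rw [div_lt_iff₀ hd]
    linarith

theorem Pl.notMem (h : Pl S E k pr) (y : S) : pr y ∉ E := en_notMem h y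

theorem Pl.far (h : Pl S E k pr) (x y : S) :
    infDist (pr x) E * Real.exp (-(k * dist x y)) ≤ infDist (pr y) E := by
  have h1 := h.low y x
  have h2 : infDist (pr x) E ≤ infDist (pr y) E + dist (pr x) (pr y) := infDist_le_infDist_add_dist
  rw [dist_eq_norm] at h2
  rw [dist_comm y x] at h1
  rw [Real.exp_neg, ← div_eq_mul_inv, div_le_iff₀ (Real.exp_pos _)]
  linarith

theorem Pl.isBounded (h : Pl S E k pr) {η : ℝ} (hη : 0 < η) :
    Bornology.IsBounded {y | η ≤ infDist (pr y) E} := by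
  have hsub : {z | η ≤ infDist z E} ⊆ Eᶜ := fun z hz hE => by
    have : η ≤ infDist z E := hz
    rw [infDist_zero_of_mem hE] at this
    linarith
  have hK : IsCompact {z | η ≤ infDist z E} :=
    isCompact_of_isClosed_isBounded (isClosed_le continuous_const (continuous_infDist_pt E))
      (h.bdd.subset hsub)
  exact (h.isOpenEmbedding.isInducing.isCompact_preimage' hK (h.range_eq ▸ hsub)).isBounded

theorem Pl.isPreconnected (h : Pl S E k pr) {W : Set ℂ} (hW : IsPreconnected (W \ E)) :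
    IsPreconnected (pr ⁻¹' W) := by
  rw [← h.isOpenEmbedding.isInducing.isPreconnected_image, image_preimage_eq_inter_range,
    h.range_eq]
  exact hW

/-- A pointwise Lipschitz bound by a lower semicontinuous function can be integrated. -/
theorem le_lintegral_of_lsc {u : ℝ → ℝ} {g : ℝ → ENNReal} (hg : LowerSemicontinuous g) {a b : ℝ}
    (hab : a ≤ b) (h : ∀ θ ∈ Icc a b, ∃ M : ℝ, 0 ≤ M ∧ ENNReal.ofReal M ≤ g θ ∧
      ∀ᶠ θ' in 𝓝[Icc a b] θ, |u θ' - u θ| ≤ M * |θ' - θ|) :
    ENNReal.ofReal |u b - u a| ≤ ∫⁻ θ in Ioc a b, g θ := by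
  have key : ∀ ε : ℝ, 0 < ε → ENNReal.ofReal |u b - u a| ≤
      (∫⁻ θ in Ioc a b, g θ) + ENNReal.ofReal (ε * (b - a)) := by
    intro ε hε
    let P : ℝ → ℝ → Prop := fun x y => ENNReal.ofReal |u y - u x| ≤
      (∫⁻ θ in Ioc x y, g θ) + ENNReal.ofReal (ε * (y - x))
    have tr : ∀ x y z, x ≤ y → y ≤ z → P x y → P y z → P x z := by
      intro x y z h1 h2 p1 p2
      have e1 : ∫⁻ θ in Ioc x z, g θ = (∫⁻ θ in Ioc x y, g θ) + ∫⁻ θ in Ioc y z, g θ := by
        rw [← Ioc_union_Ioc_eq_Ioc h1 h2,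
          lintegral_union measurableSet_Ioc (Ioc_disjoint_Ioc_of_le le_rfl)]
      have e2 : ENNReal.ofReal (ε * (z - x)) =
          ENNReal.ofReal (ε * (y - x)) + ENNReal.ofReal (ε * (z - y)) := by
        rw [← ENNReal.ofReal_add (by nlinarith) (by nlinarith)]
        congr 1
        ring
      have e3 : |u z - u x| ≤ |u y - u x| + |u z - u y| := by
        have := abs_sub_le (u z) (u y) (u x)
        linarith
      show _ ≤ _
      rw [e1, e2, add_add_add_comm]
      exact ((ENNReal.ofReal_le_ofReal e3).trans ENNReal.ofReal_add_le).trans (add_le_add p1 p2)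
    have loc : ∀ θ ∈ Icc a b, ∃ δ > 0, ∀ x ∈ Icc a b, |x - θ| < δ →
        (x ≤ θ → P x θ) ∧ (θ ≤ x → P θ x) := by
      intro θ hθ
      obtain ⟨M, hM, h1, h2⟩ := h θ hθ
      have h3 : ∀ᶠ t in 𝓝 θ, ENNReal.ofReal (M - ε) ≤ g t := by
        rcases le_or_gt M 0 with h0 | h0
        · exact .of_forall fun t => by rw [ENNReal.ofReal_of_nonpos (by linarith)]; simp
        · exact (hg θ _ (((ENNReal.ofReal_lt_ofReal_iff h0).2 (by linarith)).trans_le h1)).mono
            fun t ht => ht.le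
      obtain ⟨δ, hδ, h4⟩ := Metric.eventually_nhds_iff.1
        ((eventually_nhdsWithin_iff.1 h2).and h3)
      have main : ∀ x y, x ≤ y → (∀ t ∈ Ioc x y, |t - θ| < δ) → |u y - u x| ≤ M * (y - x) →
          P x y := by
        intro x y hxy ht hu
        have e1 : ENNReal.ofReal ((M - ε) * (y - x)) ≤ ∫⁻ θ in Ioc x y, g θ := by
          rw [ENNReal.ofReal_mul' (by linarith), ← Real.volume_Ioc (a := x) (b := y), ← setLIntegral_const]
          exact setLIntegral_mono' measurableSet_Ioc fun t h5 => (h4 (ht t h5)).2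
        refine le_trans ?_ (add_le_add e1 le_rfl)
        refine le_trans (ENNReal.ofReal_le_ofReal ?_) ENNReal.ofReal_add_le
        linarith
      refine ⟨δ, hδ, fun x hx hd => ?_⟩
      have h5 := (h4 (y := x) hd).1 hx
      rw [abs_lt] at hd
      refine ⟨fun hle => main x θ hle (fun t ht => ?_) ?_, fun hle => main θ x hle (fun t ht => ?_) ?_⟩
      · rw [abs_lt]
        constructor <;> linarith [ht.1, ht.2]
      · rwa [abs_sub_comm, abs_sub_comm x, abs_of_nonneg (sub_nonneg.2 hle)] at h5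
      · rw [abs_lt]
        constructor <;> linarith [ht.1, ht.2]
      · rwa [abs_of_nonneg (sub_nonneg.2 hle)] at h5
    let A := {x | x ∈ Icc a b ∧ P a x}
    have ha : a ∈ A := ⟨left_mem_Icc.2 hab, by simp [P]⟩
    have hbd : BddAbove A := ⟨b, fun x hx => hx.1.2⟩
    have hs : sSup A ∈ Icc a b := ⟨le_csSup hbd ha, csSup_le ⟨a, ha⟩ fun x hx => hx.1.2⟩
    obtain ⟨δ, hδ, hl⟩ := loc _ hs
    obtain ⟨x, hx, hx1⟩ := exists_lt_of_lt_csSup ⟨a, ha⟩ (show sSup A - δ < sSup A by linarith)
    have hx2 := le_csSup hbd hx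
    have hsA : P a (sSup A) := tr a x _ hx.1.1 hx2 hx.2
      ((hl x hx.1 (by rw [abs_lt]; constructor <;> linarith)).1 hx2)
    have hy : min b (sSup A + δ / 2) ∈ Icc a b :=
      ⟨le_min hab (by linarith [hs.1]), min_le_left _ _⟩
    have hy1 : sSup A ≤ min b (sSup A + δ / 2) := le_min hs.2 (by linarith)
    have hy2 := min_le_right b (sSup A + δ / 2)
    have hyA : min b (sSup A + δ / 2) ∈ A := ⟨hy, tr a _ _ hs.1 hy1 hsA
      ((hl _ hy (by rw [abs_lt]; constructor <;> linarith)).2 hy1)⟩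
    have hy3 := le_csSup hbd hyA
    rcases le_total b (sSup A + δ / 2) with h1 | h1
    · rw [min_eq_left h1] at hyA
      exact hyA.2
    · rw [min_eq_right h1] at hy3
      linarith
  refine ENNReal.le_of_forall_pos_le_add fun ε hε _ => ?_
  have hε' : (0 : ℝ) < ε := hε
  refine (key (ε / (b - a + 1)) (by have := sub_nonneg.2 hab; positivity)).trans
    (add_le_add le_rfl ?_)
  rw [← ENNReal.ofReal_coe_nnreal]
  refine ENNReal.ofReal_le_ofReal ?_
  rw [div_mul_eq_mul_div, div_le_iff₀ (by linarith)]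
  nlinarith

/-- The Poisson kernel in a chart. -/
noncomputable def enP (ch : ℂ → S2) (z : ℂ) (p : H3) : ℝ := 2 / ((1 + ‖z‖ ^ 2) * Aa (ch z) p)

theorem en_P_pos (ch : ℂ → S2) (z : ℂ) (p : H3) : 0 < enP ch z p := by
  have := Aa_pos (ch z) p
  unfold enP
  positivity

theorem en_P_cont {ch : ℂ → S2} (hc : Continuous ch) :
    Continuous fun x : ℂ × H3 => enP ch x.1 x.2 := by
  have h1 : Continuous fun x : ℂ × H3 => Aa (ch x.1) x.2 :=
    continuous_Aa.comp ((hc.comp continuous_fst).prodMk continuous_snd)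
  refine continuous_const.div (Continuous.mul (by fun_prop) h1) fun x => ?_
  have := Aa_pos (ch x.1) x.2
  positivity

theorem en_kernel (R : Realis S) (h : Pl S E k pr) {ch : ℂ → S2} (hc : Continuous ch) :
    ∃ F : ℂ × ℂ → ℝ, Measurable F ∧ ∀ z y, F (z, pr y) = enP ch z (R.φ y) := by
  borelize S
  have he : IsOpenEmbedding (Prod.map (id : ℂ → ℂ) pr) :=
    IsOpenEmbedding.id.prodMap h.isOpenEmbedding
  have hG : Continuous fun x : ℂ × S => enP ch x.1 (R.φ x.2) :=
    (en_P_cont hc).comp (continuous_fst.prodMk (R.continuous_φ.comp continuous_snd))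
  exact ⟨Function.extend (Prod.map id pr) (fun x : ℂ × S => enP ch x.1 (R.φ x.2)) 0,
    he.measurableEmbedding.measurable_extend hG.measurable measurable_zero,
    fun z y => he.injective.extend_apply _ _ (z, y)⟩

/-- The retraction read in the two charts is locally Lipschitz. -/
theorem en_lip (R : Realis S) (h : Pl S E k pr) {P : S2} {ch : ℂ → S2} (hch : IsChart P ch)
    {z : ℂ} {y : S} (hy : Ov R (ch z) y) :
    ∀ᶠ z' in 𝓝 z, ∀ y', Ov R (ch z') y' →
      ‖pr y' - pr y‖ ≤ 16 * k * infDist (pr y) E * enP ch z (R.φ y) * ‖z' - z‖ := by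
  have hk : 0 < k := one_pos.trans_le h.one_le
  have hA := Aa_pos (ch z) (R.φ y)
  have hP := en_P_pos ch z (R.φ y)
  have hd := en_pos h y
  have hs : 0 < √(1 + ‖z‖ ^ 2) := Real.sqrt_pos.2 (by positivity)
  have e1 : ∀ᶠ z' in 𝓝 z, dist (ch z') (ch z) ≤
      Aa (ch z) (R.φ y) * Real.exp (-dist (R.φ y) Hyp.o) / 2 :=
    (hch.cont.tendsto z).eventually (closedBall_mem_nhds _ (by positivity))
  have e2 : ∀ᶠ z' : ℂ in 𝓝 z, √(1 + ‖z‖ ^ 2) / 2 < √(1 + ‖z'‖ ^ 2) :=
    (show Continuous fun z' : ℂ => √(1 + ‖z'‖ ^ 2) by fun_prop).continuousAt.eventually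
      (lt_mem_nhds (by linarith))
  have e3 : ∀ᶠ z' in 𝓝 z, dist z' z ≤ 1 / (8 * k * enP ch z (R.φ y)) :=
    closedBall_mem_nhds _ (by positivity)
  filter_upwards [e1, e2, e3] with z' h1 h2 h3 y' hy'
  obtain ⟨y'', h4, h5⟩ := ov_lip hy h1
  obtain rfl := ov_unique hy' h4
  have h6 : dist (ch z') (ch z) ≤ 4 * ‖z' - z‖ / (1 + ‖z‖ ^ 2) := by
    have h7 : √(1 + ‖z‖ ^ 2) * √(1 + ‖z‖ ^ 2) = 1 + ‖z‖ ^ 2 := Real.mul_self_sqrt (by positivity)
    have h8 : 0 < √(1 + ‖z'‖ ^ 2) := by linarith
    rw [hch.dist_eq, div_le_div_iff₀ (by positivity) (by positivity)]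
    have h9 : (1 + ‖z‖ ^ 2) ≤ 2 * (√(1 + ‖z'‖ ^ 2) * √(1 + ‖z‖ ^ 2)) := by nlinarith
    nlinarith [norm_nonneg (z' - z)]
  have h7 : dist y y' ≤ 8 * enP ch z (R.φ y) * ‖z' - z‖ := by
    rw [dist_comm]
    refine h5.trans ?_
    rw [div_le_iff₀ hA]
    refine (mul_le_mul_of_nonneg_left h6 (by norm_num)).trans (le_of_eq ?_)
    unfold enP
    field_simp
    ring
  rw [dist_eq_norm, le_div_iff₀ (by positivity)] at h3
  have h8 : k * dist y y' ≤ 8 * k * enP ch z (R.φ y) * ‖z' - z‖ := by nlinarith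
  have h9 : 0 ≤ k * dist y y' := by positivity
  have h10 := Real.abs_exp_sub_one_le (x := k * dist y y') (by rw [abs_of_nonneg h9]; linarith)
  rw [abs_of_nonneg h9] at h10
  have h11 := (le_abs_self _).trans h10
  refine (h.low y y').trans ?_
  nlinarith

/-- A Lipschitz constant of the test function that bounds the density from below. -/
theorem en_inf (hc : IsClosed E) (hne : E.Nonempty) {U Lt : ℂ → ℝ} (hU : IsT E U Lt) {w : ℂ}
    (hw : w ∉ E) :
    ∃ M : ℝ, 0 ≤ M ∧ (∀ y ∈ ball w (infDist w E / 4), M ≤ |Lt y|) ∧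
      ∀ a ∈ ball w (infDist w E / 8), |U a - U w| ≤ M * ‖a - w‖ := by
  have hd := (hc.notMem_iff_infDist_pos hne).1 hw
  have hn : ((fun y => |Lt y|) '' ball w (infDist w E / 4)).Nonempty :=
    ⟨_, w, mem_ball_self (by positivity), rfl⟩
  refine ⟨sInf ((fun y => |Lt y|) '' ball w (infDist w E / 4)),
    le_csInf hn (by rintro _ ⟨y, -, rfl⟩; exact abs_nonneg _),
    fun y hy => csInf_le ⟨0, by rintro _ ⟨y, -, rfl⟩; exact abs_nonneg _⟩ ⟨y, hy, rfl⟩,
    fun a ha => ?_⟩
  rcases (norm_nonneg (a - w)).eq_or_lt with h0 | h0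
  · rw [sub_eq_zero.1 (norm_eq_zero.1 h0.symm)]
    simp
  rw [← div_le_iff₀ h0]
  refine le_csInf hn ?_
  rintro _ ⟨y, hy, rfl⟩
  have h1 : infDist w E ≤ infDist y E + dist w y := infDist_le_infDist_add_dist
  rw [mem_ball'] at hy
  rw [mem_ball] at ha
  have h2 : y ∉ E := (hc.notMem_iff_infDist_pos hne).2 (by linarith)
  have h3 := dist_triangle a w y
  have h4 := hU y h2 a (mem_ball.2 (by linarith)) w (mem_ball.2 (by linarith))
  rw [div_le_iff₀ h0]
  exact h4.trans (mul_le_mul_of_nonneg_right (le_abs_self _) h0.le)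

/-- The squared density on the sphere at infinity. -/
theorem energy (R : Realis S) (h : Pl S E k pr) {P : S2} {ch : ℂ → S2} (hch : IsChart P ch)
    {U Lt : ℂ → ℝ} (hL : Measurable Lt) (hU : IsT E U Lt) {En : ℝ}
    (hE : ∫⁻ z in Eᶜ, ENNReal.ofReal (Lt z ^ 2) ≤ ENNReal.ofReal En) :
    ∃ ρ : ℂ → ENNReal, Measurable ρ ∧
      ∫⁻ z, ρ z ≤ ENNReal.ofReal (16384 * k ^ 2 * Real.exp k * En) ∧
      ∀ (c : ℂ) (r : ℝ), 0 < r → ∀ (a b : ℝ) (y : ℝ → S), a ≤ b →
        (∀ θ ∈ Icc a b, Ov R (ch (circleMap c r θ)) (y θ)) →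
        ENNReal.ofReal |U (pr (y b)) - U (pr (y a))| ≤ ∫⁻ θ in Ioc a b,
          (ENNReal.ofReal (1 / 100) + ENNReal.ofReal (25 * r ^ 2) * ρ (circleMap c r θ)) := by
  have hk : 0 < k := one_pos.trans_le h.one_le
  have hpi := Real.pi_pos
  obtain ⟨F, hF, hF'⟩ := en_kernel R h hch.cont
  have hEm : MeasurableSet Eᶜ := h.closed.isOpen_compl.measurableSet
  have hmem : ∀ w ∈ Eᶜ, ∃ y, pr y = w := fun w hw => by rwa [← h.range_eq] at hw
  set κ : ℝ := 4096 / Real.pi * k ^ 2 * Real.exp k with hκ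
  have hκ0 : 0 < κ := by positivity
  let G : ℂ → ℂ → ENNReal := fun z w =>
    ENNReal.ofReal (Lt w ^ 2) * ENNReal.ofReal (F (z, w) ^ 2)
  have hG : Measurable (Function.uncurry G) :=
    ((hL.comp measurable_snd).pow_const 2).ennreal_ofReal.mul (hF.pow_const 2).ennreal_ofReal
  have hI : Measurable fun z => ∫⁻ w in Eᶜ, G z w := hG.lintegral_prod_right
  have hlsc : LowerSemicontinuous fun z => ∫⁻ w in Eᶜ, G z w := by
    refine lowerSemicontinuous_iff_le_liminf.2 fun z => le_trans ?_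
      (lintegral_liminf_le (f := G) fun z' => hG.of_uncurry_left)
    refine setLIntegral_mono' hEm fun w hw => ?_
    obtain ⟨y, rfl⟩ := hmem w hw
    refine (Tendsto.liminf_eq ?_).ge
    simp only [G, hF']
    refine ENNReal.Tendsto.const_mul (ENNReal.tendsto_ofReal ?_) (.inr ENNReal.ofReal_ne_top)
    exact (((en_P_cont hch.cont).comp (continuous_id.prodMk continuous_const)).pow 2).tendsto z
  refine ⟨fun z => ENNReal.ofReal κ * ∫⁻ w in Eᶜ, G z w, hI.const_mul _, ?_, ?_⟩
  · rw [lintegral_const_mul _ hI, lintegral_lintegral_swap hG.aemeasurable]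
    have h1 : ∫⁻ w in Eᶜ, ∫⁻ z, G z w ≤
        ∫⁻ w in Eᶜ, ENNReal.ofReal (Lt w ^ 2) * ENNReal.ofReal (4 * Real.pi) := by
      refine setLIntegral_mono' hEm fun w hw => ?_
      obtain ⟨y, rfl⟩ := hmem w hw
      simp only [G, hF']
      rw [lintegral_const_mul' _ _ ENNReal.ofReal_ne_top]
      exact mul_le_mul_right (hch.poisson _) _
    rw [lintegral_mul_const' _ _ ENNReal.ofReal_ne_top] at h1
    refine (mul_le_mul_right (h1.trans (mul_le_mul_left hE _)) _).trans (le_of_eq ?_)
    rw [← ENNReal.ofReal_mul' (by positivity), ← ENNReal.ofReal_mul hκ0.le, hκ]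
    congr 1
    field_simp
    ring
  · intro c r hr a b y hab hy
    have hcm : Continuous (circleMap c r) := continuous_circleMap c r
    refine le_lintegral_of_lsc (u := fun θ => U (pr (y θ))) ?_ hab fun θ hθ => ?_
    · refine Continuous.comp_lowerSemicontinuous (g := fun t : ENNReal =>
        ENNReal.ofReal (1 / 100) + ENNReal.ofReal (25 * r ^ 2) * (ENNReal.ofReal κ * t))
        (continuous_const.add ((ENNReal.continuous_const_mul ENNReal.ofReal_ne_top).comp
          (ENNReal.continuous_const_mul ENNReal.ofReal_ne_top))) (hlsc.comp hcm) ?_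
      intro s t hst
      dsimp only
      gcongr
    obtain ⟨M, hM, hM1, hM2⟩ := en_inf h.closed h.ne hU (h.notMem (y θ))
    have hd := en_pos h (y θ)
    have hP := en_P_pos ch (circleMap c r θ) (R.φ (y θ))
    set d := infDist (pr (y θ)) E with hddef
    set p := enP ch (circleMap c r θ) (R.φ (y θ)) with hp
    refine ⟨16 * k * d * p * M * r, by positivity, ?_, ?_⟩
    · have h1 : ENNReal.ofReal (M ^ 2 * (Real.exp (-k) * p ^ 2)) * volume (ball (pr (y θ)) (d / 4))
          ≤ ∫⁻ w in Eᶜ, G (circleMap c r θ) w := by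
        have hsub : ball (pr (y θ)) (d / 4) ⊆ Eᶜ := fun w hw hE' => by
          have := infDist_le_dist_of_mem (x := pr (y θ)) hE'
          rw [mem_ball'] at hw
          linarith
        rw [← setLIntegral_const]
        refine le_trans (setLIntegral_mono' measurableSet_ball fun w hw => ?_)
          (lintegral_mono_set hsub)
        obtain ⟨y1, rfl⟩ := hmem w (hsub hw)
        simp only [G, hF']
        rw [← ENNReal.ofReal_mul (sq_nonneg _)]
        refine ENNReal.ofReal_le_ofReal (mul_le_mul ?_ ?_ (by positivity) (sq_nonneg _))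
        · rw [← sq_abs (Lt _)]
          exact pow_le_pow_left₀ hM (hM1 _ hw) 2
        · rw [mem_ball, dist_eq_norm] at hw
          have h2 : dist (y θ) y1 ≤ k / 2 := by
            refine (h.up _ _ (by linarith)).trans ?_
            rw [div_le_iff₀ hd]
            nlinarith
          have h3 := Aa_le (ch (circleMap c r θ)) (R.φ y1) (R.φ (y θ))
          have h4 : Real.exp (dist (R.φ y1) (R.φ (y θ))) ≤ Real.exp (k / 2) :=
            Real.exp_le_exp.2 ((R.dist_le _ _).trans (by rwa [dist_comm]))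
          have hA := Aa_pos (ch (circleMap c r θ)) (R.φ (y θ))
          have hA1 := Aa_pos (ch (circleMap c r θ)) (R.φ y1)
          have h5 := h3.trans (mul_le_mul_of_nonneg_right h4 hA.le)
          have h6 : Real.exp (-(k / 2)) * p ≤ enP ch (circleMap c r θ) (R.φ y1) := by
            rw [hp, Real.exp_neg]
            unfold enP
            rw [inv_mul_eq_div, div_div]
            refine div_le_div_of_nonneg_left (by norm_num) (by positivity) ?_
            rw [mul_assoc, mul_comm (Aa _ _)]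
            exact mul_le_mul_of_nonneg_left h5 (by positivity)
          have h7 : Real.exp (-k) = Real.exp (-(k / 2)) ^ 2 := by
            rw [← Real.exp_nat_mul]
            congr 1
            push_cast
            ring
          rw [h7, ← mul_pow]
          exact pow_le_pow_left₀ (by positivity) h6 2
      refine le_trans ?_ (add_le_add le_rfl (mul_le_mul_right (mul_le_mul_right h1 _) _))
      rw [Complex.volume_ball, ← ENNReal.ofReal_coe_nnreal, NNReal.coe_real_pi,
        ← ENNReal.ofReal_pow (by positivity), ← ENNReal.ofReal_mul (by positivity),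
        ← ENNReal.ofReal_mul (by positivity), ← ENNReal.ofReal_mul (by positivity),
        ← ENNReal.ofReal_mul (by positivity), ← ENNReal.ofReal_add (by positivity) (by positivity)]
      refine ENNReal.ofReal_le_ofReal ?_
      have h2 : 25 * r ^ 2 * (κ * (M ^ 2 * (Real.exp (-k) * p ^ 2) * ((d / 4) ^ 2 * Real.pi))) =
          25 * (16 * k * d * p * M * r) ^ 2 := by
        rw [hκ, Real.exp_neg]
        field_simp
        ring
      rw [h2]
      nlinarith [sq_nonneg (5 * (16 * k * d * p * M * r) - 1 / 10)]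
    · have e1 := (hcm.tendsto θ).eventually (en_lip R h hch (hy θ hθ))
      have e2 : ∀ᶠ θ' in 𝓝 θ, dist θ' θ < 1 / (128 * k * p * r) := ball_mem_nhds _ (by positivity)
      filter_upwards [mem_nhdsWithin_of_mem_nhds e1, mem_nhdsWithin_of_mem_nhds e2,
        self_mem_nhdsWithin] with θ' h1 h2 h3
      have h4 := h1 _ (hy θ' h3)
      have h5 : ‖circleMap c r θ' - circleMap c r θ‖ ≤ r * |θ' - θ| := by
        have := (lipschitzWith_circleMap c r).dist_le_mul θ' θ
        rwa [dist_eq_norm, Real.dist_eq, Real.coe_nnabs, abs_of_pos hr] at this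
      have h6 := h4.trans (mul_le_mul_of_nonneg_left h5 (by positivity))
      rw [Real.dist_eq, lt_div_iff₀ (by positivity)] at h2
      have h7 : pr (y θ') ∈ ball (pr (y θ)) (d / 8) := by
        rw [mem_ball, dist_eq_norm]
        refine h6.trans_lt ?_
        nlinarith
      refine (hM2 _ h7).trans ((mul_le_mul_of_nonneg_left h6 hM).trans (le_of_eq ?_))
      ring

end Pool.Agent.Lib.MP_44acff_gt.EK
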