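import Pool.Agent.Lib.MP_44acff_gt.EK.Met
import Pool.Agent.Lib.MP_44acff_gt.EK.En
import Pool.Agent.Lib.MP_44acff_gt.EK.E0

open Set Metric Topology Filter MeasureTheory

namespace Pool.Agent.Lib.MP_44acff_gt.EK

variable {E : ℕ → Set ℂ} {Ei : Set ℂ} {lam : ℕ → ℂ → ℝ} {lami : ℂ → ℝ} {k : ℝ}

theorem cv_notMem {A : Set ℂ} {z : ℂ} {η : ℝ} (hη : 0 < η) (h : η ≤ infDist z A) : z ∉ A :=
  fun hz => by
    rw [infDist_zero_of_mem hz] at h
    exact absurd hη (not_lt.2 h)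

theorem cv_dist (hD : ∀ n, Dat (E n) (lam n) k) (hs : ∀ n, Ei ⊆ E n)
    (hx : ∀ K : Set ℂ, IsCompact K → K ⊆ Eiᶜ →
      ∃ η : ℝ, 0 < η ∧ ∀ᶠ n in atTop, ∀ z ∈ K, η ≤ infDist z (E n))
    (hm : ∀ n, ∀ z ∉ E n, lami z ≤ lam n z)
    (hc : ∀ z ∉ Ei, Tendsto (fun n => lam n z) atTop (𝓝 (lami z))) (x y : ℂ) :
    Tendsto (fun n => lamDist (E n)ᶜ (lam n) x y) atTop (𝓝 (lamDist Eiᶜ lami x y)) := by
  refine tendsto_order.2 ⟨fun a ha => Eventually.of_forall fun n =>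
    ha.trans_le (lamDist_mono (compl_subset_compl.2 (hs n)) (hm n) x y), fun a ha => ?_⟩
  simp only [lamDist, iInf_lt_iff] at ha
  obtain ⟨γ, h1, h2, h3, h4, h5⟩ := ha
  obtain ⟨η, hη, hK⟩ := hx (γ '' Icc 0 1) (isCompact_Icc.image h1.continuous) h2.image_subset
  have hd : Continuous (deriv γ) := h1.continuous_deriv le_rfl
  obtain ⟨M, hM⟩ := isCompact_Icc.exists_bound_of_continuousOn (hd.continuousOn (s := Icc 0 1))
  have hk : 0 ≤ k := zero_le_one.trans (hD 0).one_le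
  have hmap : ∀ᶠ n in atTop, MapsTo γ (Icc 0 1) (E n)ᶜ :=
    hK.mono fun n hn s hs' => cv_notMem hη (hn _ (mem_image_of_mem γ hs'))
  have ht := tendsto_lintegral_filter_of_dominated_convergence' (l := atTop)
    (μ := volume.restrict (Ioo (0 : ℝ) 1))
    (F := fun n s => ENNReal.ofReal (lam n (γ s) * ‖deriv γ s‖))
    (f := fun s => ENNReal.ofReal (lami (γ s) * ‖deriv γ s‖))
    (fun _ => ENNReal.ofReal (k / (2 * η) * M)) ?_ ?_ ?_ ?_
  · filter_upwards [hmap, (tendsto_order.1 ht).2 a h5] with n h6 h7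
    refine lt_of_le_of_lt ?_ h7
    exact iInf_le_of_le γ (iInf_le_of_le h1 (iInf_le_of_le h6 (iInf_le_of_le h3
      (iInf_le_of_le h4 le_rfl))))
  · filter_upwards [hmap] with n hn
    refine ENNReal.measurable_ofReal.comp_aemeasurable (ContinuousOn.aemeasurable ?_
      measurableSet_Ioo)
    exact (((hD n).cont.comp h1.continuous.continuousOn hn).mul
      hd.norm.continuousOn).mono Ioo_subset_Icc_self
  · filter_upwards [hK] with n hn
    refine (ae_restrict_iff' measurableSet_Ioo).2 (Eventually.of_forall fun s hs' => ?_)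
    have h6 := hn _ (mem_image_of_mem γ (Ioo_subset_Icc_self hs'))
    refine ENNReal.ofReal_le_ofReal (le_trans (mul_le_mul_of_nonneg_right
      (((hD n).up _ (cv_notMem hη h6)).trans (b := k / (2 * infDist (γ s) (E n)))
        (c := k / (2 * η)) (by gcongr)) (norm_nonneg _)) ?_)
    exact mul_le_mul_of_nonneg_left (hM s (Ioo_subset_Icc_self hs')) (by positivity)
  · rw [lintegral_const]
    exact ENNReal.mul_ne_top ENNReal.ofReal_ne_top (by simp)
  · refine (ae_restrict_iff' measurableSet_Ioo).2 (Eventually.of_forall fun s hs' => ?_)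
    exact ENNReal.tendsto_ofReal ((hc _ (h2 (Ioo_subset_Icc_self hs'))).mul_const _)

/-- The surfaces converge. -/
theorem exists_cx (hD : ∀ n, Dat (E n) (lam n) k) (hT : Dat Ei lami k) (hs : ∀ n, Ei ⊆ E n)
    (hx : ∀ K : Set ℂ, IsCompact K → K ⊆ Eiᶜ →
      ∃ η : ℝ, 0 < η ∧ ∀ᶠ n in atTop, ∀ z ∈ K, η ≤ infDist z (E n))
    (hm : ∀ n, ∀ z ∉ E n, lami z ≤ lam n z)
    (hc : ∀ z ∉ Ei, Tendsto (fun n => lam n z) atTop (𝓝 (lami z))) {o : ℂ} (ho : ∀ n, o ∉ E n)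
    (𝒰 : Ultrafilter ℕ) (h𝒰 : (𝒰 : Filter ℕ) ≤ atTop) :
    ∃ (ap : Sf hT → ∀ n, Sf (hD n)) (o' : Sf hT), o'.pt = o ∧
      Cx (fun n => Sf (hD n)) (Sf hT) (fun _ => Sf.pt) Sf.pt ap o' 𝒰 E Ei k := by
  classical
  let ap : Sf hT → ∀ n, Sf (hD n) := fun x n =>
    if h : x.pt ∉ E n then Sf.mk (hD n) x.pt h else Sf.mk (hD n) o (ho n)
  have hap : ∀ x n, x.pt ∉ E n → (ap x n).pt = x.pt := fun x n h => by
    simp only [ap, dif_pos h]
    rfl
  have hoi : o ∉ Ei := fun h => ho 0 (hs 0 h)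
  have hev : ∀ z ∉ Ei, ∃ η : ℝ, 0 < η ∧ ∀ᶠ n in (𝒰 : Filter ℕ), η ≤ infDist z (E n) := by
    intro z hz
    obtain ⟨η, h1, h2⟩ := hx {z} isCompact_singleton (singleton_subset_iff.2 hz)
    exact ⟨η, h1, (h2.filter_mono h𝒰).mono fun n hn => hn z rfl⟩
  have hev' : ∀ x : Sf hT, ∀ᶠ n in (𝒰 : Filter ℕ), (ap x n).pt = x.pt := fun x => by
    obtain ⟨η, h1, h2⟩ := hev x.pt x.notMem
    exact h2.mono fun n hn => hap x n (cv_notMem h1 hn)
  refine ⟨ap, Sf.mk hT o hoi, rfl, h𝒰, fun n => (hD n).pl, hT.pl, ⟨fun x y => ?_, fun y r hy => ?_⟩,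
    hT.len, hap⟩
  · have h1 := (ENNReal.tendsto_toReal (hT.lamDist_ne_top x.notMem y.notMem)).comp
      ((cv_dist hD hs hx hm hc x.pt y.pt).mono_left h𝒰)
    refine h1.congr' ?_
    filter_upwards [hev' x, hev' y] with n h2 h3
    change _ = (lamDist (E n)ᶜ (lam n) (ap x n).pt (ap y n).pt).toReal
    rw [h2, h3]
    rfl
  · obtain ⟨η, h1, h2⟩ := hev o hoi
    have hk : 0 ≤ k := zero_le_one.trans hT.one_le
    have hδ : 0 < η * Real.exp (-(k * r)) := by positivity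
    have h3 : ∀ᶠ n in (𝒰 : Filter ℕ), η * Real.exp (-(k * r)) ≤ infDist (y n).pt (E n) := by
      filter_upwards [h2, hy] with n h4 h5
      refine le_trans ?_ ((hD n).pl.far (ap (Sf.mk hT o hoi) n) (y n))
      rw [hap (Sf.mk hT o hoi) n (ho n), dist_comm]
      refine mul_le_mul h4 (Real.exp_le_exp.2 (neg_le_neg (mul_le_mul_of_nonneg_left h5 hk)))
        (Real.exp_pos _).le infDist_nonneg
    generalize η * Real.exp (-(k * r)) = δ at hδ h3
    have hK : IsCompact {z : ℂ | δ ≤ infDist z Ei} :=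
      isCompact_of_isClosed_isBounded (isClosed_le continuous_const (continuous_infDist_pt Ei))
        (hT.bdd.subset fun z hz => cv_notMem hδ hz)
    obtain ⟨z, hz, hz'⟩ := hK.ultrafilter_le_nhds (𝒰.map fun n => (y n).pt) (by
      rw [le_principal_iff, Ultrafilter.coe_map, mem_map]
      exact h3.mono fun n hn => hn.trans (infDist_le_infDist_of_subset (hs n) hT.ne))
    have hz2 : Tendsto (fun n => (y n).pt) 𝒰 (𝓝 z) := hz'
    have hz3 : Tendsto (fun n => ‖z - (y n).pt‖) 𝒰 (𝓝 0) := by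
      simpa using (tendsto_const_nhds (x := z).sub hz2).norm
    refine ⟨Sf.mk hT z (cv_notMem hδ hz), ?_⟩
    have hz4 : Tendsto (fun n => k * ‖z - (y n).pt‖ / δ) 𝒰 (𝓝 0) := by
      simpa using (hz3.const_mul k).div_const δ
    refine squeeze_zero' (Eventually.of_forall fun _ => dist_nonneg) ?_ hz4
    filter_upwards [h3, hev' (Sf.mk hT z (cv_notMem hδ hz)),
      (tendsto_order.1 hz3).2 (δ / 2) (by positivity)] with n h4 h5 h6
    have h7 := (hD n).pl.up (y n) (ap (Sf.mk hT z (cv_notMem hδ hz)) n)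
    rw [h5] at h7
    refine (h7 (h6.le.trans (by linarith))).trans ?_
    change k * ‖z - (y n).pt‖ / _ ≤ _
    gcongr

/-- Compact sets are uniformly bounded. -/
theorem Cx.ubd {S : ℕ → Type} [∀ n, MetricSpace (S n)] {T : Type} [MetricSpace T]
    {pr : ∀ n, S n → ℂ} {pT : T → ℂ} {ap : T → ∀ n, S n} {o : T} {𝒰 : Ultrafilter ℕ}
    (h : Cx S T pr pT ap o 𝒰 E Ei k) {K : Set ℂ} (hK : IsCompact K) (hK' : K ⊆ Eiᶜ) {η : ℝ}
    (hη : 0 < η) (hx : ∀ᶠ n in atTop, ∀ z ∈ K, η ≤ infDist z (E n)) :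
    ∃ r : ℝ, ∀ᶠ n in (𝒰 : Filter ℕ), ∀ y, pr n y ∈ K → dist y (ap o n) ≤ r := by
  obtain ⟨t, h1, h2, h3⟩ := finite_cover_balls_of_compact hK (half_pos hη)
  have h4 : ∀ z, ∃ x : T, z ∈ K → pT x = z := fun z => by
    by_cases hz : z ∈ K
    · obtain ⟨x, hx'⟩ := h.plT.range_eq.symm ▸ hK' hz
      exact ⟨x, fun _ => hx'⟩
    · exact ⟨o, fun h' => absurd h' hz⟩
  choose xf hxf using h4
  obtain ⟨M, hM⟩ := (h2.image fun z => dist (xf z) o).bddAbove
  have hk : 0 ≤ k := zero_le_one.trans h.plT.one_le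
  have h5 : ∀ᶠ n in (𝒰 : Filter ℕ), ∀ z ∈ t, dist (ap (xf z) n) (ap o n) < M + 1 :=
    (eventually_all_finite h2).2 fun z hz => (tendsto_order.1 (h.gc.dist_tendsto (xf z) o)).2 _
      ((hM (mem_image_of_mem _ hz)).trans_lt (lt_add_one M))
  refine ⟨k / 2 + (M + 1), ?_⟩
  filter_upwards [h5, hx.filter_mono h.le] with n h6 h7 y hy
  obtain ⟨z, hz, hz'⟩ := mem_iUnion₂.1 (h3 hy)
  have h8 := h7 z (h1 hz)
  have h9 : pr n (ap (xf z) n) = z := by
    rw [h.compat (xf z) n (by rw [hxf z (h1 hz)]; exact cv_notMem hη h8), hxf z (h1 hz)]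
  have h10 := (h.pl n).up (ap (xf z) n) y
  rw [h9] at h10
  rw [mem_ball, dist_eq_norm] at hz'
  have h11 : dist (ap (xf z) n) y ≤ k / 2 := by
    refine (h10 (by linarith)).trans ?_
    rw [div_le_iff₀ (by linarith)]
    nlinarith
  have h12 := dist_triangle y (ap (xf z) n) (ap o n)
  rw [dist_comm y (ap (xf z) n)] at h12
  linarith [h6 z hz]

theorem cv_homeo : ∃ H : OnePoint ℂ ≃ₜ S2, ∀ ξ, H ξ = stS ξ :=
  ⟨isHomeomorph_stS.homeomorph, fun _ => rfl⟩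

/-- From the statement to the working form. -/
theorem exists_realis {E : Set ℂ} {lam : ℂ → ℝ} (h : Dat E lam k) {Γ : Set (OnePoint ℂ)}
    (hΓ : CircleDomain Γ) (hR : Realises Eᶜ lam Γ) :
    ∃ R : Realis (Sf h), Round (idealS R.C) := by
  obtain ⟨C, h1, h2, h3, -, h5, -, φ, h7, h8⟩ := hR
  obtain ⟨H, hH⟩ := cv_homeo
  refine ⟨⟨C, h1, h2, h3, fun x => φ x.pt, ?_, fun x y => ?_⟩, fun u hu => ?_⟩
  · rw [← h7]
    ext p
    exact ⟨fun ⟨x, hx⟩ => ⟨x.pt, x.notMem, hx⟩, fun ⟨z, hz, hx⟩ => ⟨Sf.mk h z hz, hx⟩⟩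
  · rw [Sf.edist_eq, h8 _ x.notMem _ y.notMem]
  · obtain ⟨ξ, rfl⟩ := H.surjective u
    have e : Γᶜ = H ⁻¹' idealS C := by
      rw [← h5]
      ext η
      rw [mem_preimage, hH]
      rfl
    have hξ : ξ ∈ Γᶜ := e ▸ hu
    obtain ⟨ζ, t, ht⟩ := hΓ.2.2 ξ hξ
    refine ⟨H ζ, t, ?_⟩
    have e2 := H.image_connectedComponentIn hξ
    rw [ht, e, H.image_preimage] at e2
    rw [← e2]
    ext u
    obtain ⟨η, rfl⟩ := H.surjective u
    rw [H.injective.mem_set_image, mem_closedBall, hH, hH]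
    rfl

/-- From the working form to the statement. -/
theorem realises_of {E : Set ℂ} {lam : ℂ → ℝ} {h : Dat E lam k} (R : Realis (Sf h))
    (hR : Round (idealS R.C)) (hc : IsConnected (idealS R.C)ᶜ)
    (hf : idealS (frontier R.C) = frontier (idealS R.C)) :
    CircleDomain (stS ⁻¹' (idealS R.C)ᶜ) ∧ Realises Eᶜ lam (stS ⁻¹' (idealS R.C)ᶜ) := by
  classical
  obtain ⟨H, hH⟩ := cv_homeo
  have e0 : stS = H := funext fun ξ => (hH ξ).symm
  have e1 : ∀ C : Set H3, ideal C = stS ⁻¹' idealS C := fun _ => rfl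
  refine ⟨⟨?_, ?_, fun ξ hξ => ?_⟩, R.C, R.closed, R.convex, R.int, fun x hx => ?_, ?_, ?_,
    fun z => if hz : z ∉ E then R.φ (Sf.mk h z hz) else Hyp.o, ?_, fun x hx y hy => ?_⟩
  · exact (isClosed_idealS R.C).isOpen_compl.preimage isHomeomorph_stS.continuous
  · rw [e0]
    exact H.isConnected_preimage.2 hc
  · have hξ' : stS ξ ∈ idealS R.C := not_not.1 hξ
    obtain ⟨v, t, ht⟩ := hR _ hξ'
    obtain ⟨ζ, rfl⟩ := H.surjective v
    refine ⟨ζ, t, ?_⟩
    have e2 := H.image_connectedComponentIn (s := H ⁻¹' idealS R.C) (x := ξ) (by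
      rw [mem_preimage, hH]
      exact hξ')
    rw [H.image_preimage, hH, ht] at e2
    rw [← preimage_compl, compl_compl, e0]
    ext η
    rw [← H.injective.mem_set_image, e2, mem_closedBall, hH, hH]
    rfl
  · refine hull_subset R.closed R.convex (convexHull_mono ?_ hx)
    rintro _ ⟨ξ, hξ, rfl⟩
    exact ⟨stS ξ, not_not.1 hξ, rfl⟩
  · rw [← preimage_compl, compl_compl, e1]
  · rw [e1, hf, e0, H.preimage_frontier, preimage_compl, frontier_compl]
  · rw [← R.range_φ]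
    ext p
    constructor
    · rintro ⟨z, hz, rfl⟩
      exact ⟨Sf.mk h z hz, by simp only [dif_pos (show z ∉ E from hz)]⟩
    · rintro ⟨x, rfl⟩
      exact ⟨x.pt, x.notMem, dif_pos x.notMem⟩
  · simp only [dif_pos (show x ∉ E from hx), dif_pos (show y ∉ E from hy)]
    rw [← R.isom, Sf.edist_eq]
    rfl

end Pool.Agent.Lib.MP_44acff_gt.EK
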