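import Pool.Agent.Lib.MP_44acff_gt.EK.B

open Set Metric Topology Filter

namespace Pool.Agent.Lib.MP_44acff_gt.EK

theorem d1_norm (u : S2) : ‖(u : E3)‖ = 1 := norm_eq_of_mem_sphere u

theorem d1_null (u : S2) : lor ((1 : ℝ), (u : E3)) (1, (u : E3)) = 0 := by
  simp only [lor, real_inner_self_eq_norm_sq, d1_norm]; norm_num

theorem caus_one (u : S2) : Caus ((1 : ℝ), (u : E3)) := ⟨(d1_null u).le, one_pos⟩

theorem lor_one_self (u : S2) : lor ((1 : ℝ), (u : E3)) (1, (u : E3)) = 0 := d1_null u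

theorem neg_lor_one (u u' : S2) : -lor ((1 : ℝ), (u : E3)) (1, (u' : E3)) = dist u u' ^ 2 / 2 := by
  rw [Subtype.dist_eq, dist_eq_norm, norm_sub_sq_real, d1_norm, d1_norm]
  simp only [lor]; ring

theorem dist_S2_le (u u' : S2) : dist u u' ≤ 2 := by
  have := norm_sub_le (u : E3) u'
  rw [d1_norm, d1_norm] at this
  rw [Subtype.dist_eq, dist_eq_norm]; linarith

theorem Aa_pos (u : S2) (p : H3) : 0 < Aa u p := neg_lor_pos p (caus_one u)

theorem Aa_le (u : S2) (p q : H3) : Aa u p ≤ Real.exp (dist p q) * Aa u q :=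
  busemann p q (caus_one u)

theorem Aa_o (u : S2) : Aa u Hyp.o = 1 := by
  simp [Aa, lor, Hyp.o]

theorem continuous_Aa : Continuous fun x : S2 × H3 => Aa x.1 x.2 :=
  (continuous_lor.comp ((Hyp.continuous_v.comp continuous_snd).prodMk
    (continuous_const.prodMk (continuous_subtype_val.comp continuous_fst)))).neg

theorem d1_one_le (p : H3) : 1 ≤ p.v.1 := by
  rw [Hyp.fst_eq]; exact Real.one_le_cosh _

theorem d1_klein (p : H3) : ((1 : ℝ), klein p) = (p.v.1)⁻¹ • p.v :=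
  Prod.ext (inv_mul_cancel₀ p.pos.ne').symm rfl

theorem d1_sq_dist (u : S2) (p : H3) : p.v.1 * ‖klein p - (u : E3)‖ ^ 2 ≤ 2 * Aa u p := by
  have h1 := norm_klein_lt p
  have h2 : ‖klein p‖ ^ 2 ≤ 1 := by nlinarith [norm_nonneg (klein p)]
  have h3 : p.v.1 * inner ℝ (klein p) (u : E3) = inner ℝ p.v.2 (u : E3) := by
    rw [klein, real_inner_smul_left, mul_inv_cancel_left₀ p.pos.ne']
  have h4 := mul_le_mul_of_nonneg_left h2 p.pos.le
  rw [norm_sub_sq_real, d1_norm]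
  simp only [Aa, lor]
  nlinarith

theorem sq_dist_klein_le (u : S2) (p : H3) : ‖klein p - (u : E3)‖ ^ 2 ≤ 2 * Aa u p :=
  (le_mul_of_one_le_left (sq_nonneg _) (d1_one_le p)).trans (d1_sq_dist u p)

theorem isClosed_idealS (C : Set H3) : IsClosed (idealS C) :=
  isClosed_closure.preimage continuous_subtype_val

theorem idealS_mono {C D : Set H3} (h : C ⊆ D) : idealS C ⊆ idealS D :=
  fun _ hu => closure_mono (image_mono h) hu

theorem d1_tl (u : S2) (c : H3) {t : ℝ} (ht : 0 ≤ t) : TL (c.v + t • ((1 : ℝ), (u : E3))) :=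
  c.tl.add_caus (caus_one u) ht

theorem d1_ray (u : S2) (c : H3) {t : ℝ} (ht : 0 ≤ t) :
    Aa u (nrm (c.v + t • ((1 : ℝ), (u : E3)))) = Aa u c / √(1 + 2 * t * Aa u c) := by
  have e : -lor (c.v + t • ((1 : ℝ), (u : E3))) (c.v + t • ((1 : ℝ), (u : E3))) =
      1 + 2 * t * Aa u c := by
    rw [lor_add_left, lor_add_right, lor_add_right, lor_smul_left, lor_smul_left, lor_smul_right,
      lor_smul_right, c.unit, d1_null, lor_comm _ c.v, Aa]
    ring
  rw [Aa, nrm_v (d1_tl u c ht), e, lor_smul_left, lor_add_left, lor_smul_left, d1_null, Aa]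
  ring

theorem d1_small (u : S2) (c : H3) {ε : ℝ} (hε : 0 < ε) :
    ∃ t : ℝ, 0 ≤ t ∧ Aa u (nrm (c.v + t • ((1 : ℝ), (u : E3)))) < ε := by
  have ha := Aa_pos u c
  refine ⟨Aa u c / ε ^ 2, by positivity, ?_⟩
  rw [d1_ray u c (by positivity), div_lt_iff₀ (by positivity), ← div_lt_iff₀' hε]
  refine Real.lt_sqrt_of_sq_lt ?_
  have : 2 * (Aa u c / ε ^ 2) * Aa u c = 2 * (Aa u c / ε) ^ 2 := by ring
  rw [this]
  nlinarith [sq_nonneg (Aa u c / ε)]

theorem d1_of_Aa {C : Set H3} {u : S2} (h : ∀ ε : ℝ, 0 < ε → ∃ c ∈ C, Aa u c < ε) :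
    u ∈ idealS C := by
  refine Metric.mem_closure_iff.2 fun ε hε => ?_
  obtain ⟨c, hc, h1⟩ := h (ε ^ 2 / 2) (by positivity)
  refine ⟨klein c, mem_image_of_mem _ hc, ?_⟩
  rw [dist_comm, dist_eq_norm]
  exact lt_of_pow_lt_pow_left₀ 2 hε.le (by linarith [sq_dist_klein_le u c])

/-- Ideal points of a closed convex set are the ends of its rays. -/
theorem mem_idealS_iff_ray {C : Set H3} (hc : IsClosed C) (hC : GConvex C) {c : H3} (h : c ∈ C)
    {u : S2} : u ∈ idealS C ↔ ∀ t : ℝ, 0 ≤ t → nrm (c.v + t • ((1 : ℝ), (u : E3))) ∈ C := by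
  refine ⟨fun hu t ht => ?_, fun hu => d1_of_Aa fun ε hε => ?_⟩
  · have c1 : Continuous fun w : E3 => c.v + t • ((1 : ℝ), w) := by fun_prop
    have c2 : ContinuousAt (fun w : E3 => nrm (c.v + t • ((1 : ℝ), w))) (u : E3) :=
      ContinuousAt.comp (f := fun w : E3 => c.v + t • ((1 : ℝ), w))
        (continuousOn_nrm.continuousAt (isOpen_TL.mem_nhds (d1_tl u c ht))) c1.continuousAt
    refine hc.closure_subset (c2.continuousWithinAt.mem_closure hu ?_)
    rintro _ ⟨x, hx, rfl⟩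
    have h1 : 0 ≤ t * (x.v.1)⁻¹ := mul_nonneg ht (inv_pos.2 x.pos).le
    have := gconvex_iff.1 hC c h x hx 1 (t * (x.v.1)⁻¹) zero_le_one h1 (by linarith)
    rw [one_smul, mul_smul, ← d1_klein] at this
    exact this
  · obtain ⟨t, ht, h1⟩ := d1_small u c hε
    exact ⟨_, hu t ht, h1⟩

theorem mem_idealS_iff_Aa {C : Set H3} (hc : IsClosed C) (hC : GConvex C) {u : S2} :
    u ∈ idealS C ↔ ∀ ε : ℝ, 0 < ε → ∃ c ∈ C, Aa u c < ε := by
  refine ⟨fun hu ε hε => ?_, d1_of_Aa⟩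
  obtain ⟨_, c, h, -⟩ := closure_nonempty_iff.1 ⟨_, hu⟩
  obtain ⟨t, ht, h1⟩ := d1_small u c hε
  exact ⟨_, (mem_idealS_iff_ray hc hC h).1 hu t ht, h1⟩

theorem lor_nonpos_of_mem_idealS {C : Set H3} {n : ℝ × E3} (h : ∀ c ∈ C, lor c.v n ≤ 0) {u : S2}
    (hu : u ∈ idealS C) : lor ((1 : ℝ), (u : E3)) n ≤ 0 := by
  have c1 : Continuous fun w : E3 => lor ((1 : ℝ), w) n :=
    continuous_lor.comp ((continuous_const.prodMk continuous_id).prodMk continuous_const)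
  refine closure_minimal (t := {w : E3 | lor ((1 : ℝ), w) n ≤ 0}) ?_
    (isClosed_le c1 continuous_const) hu
  rintro _ ⟨x, hx, rfl⟩
  rw [mem_ofPred_eq, d1_klein, lor_smul_left]
  exact mul_nonpos_of_nonneg_of_nonpos (inv_pos.2 x.pos).le (h x hx)

theorem hull_subset {C : Set H3} (hc : IsClosed C) (hC : GConvex C) {x : H3}
    (h : klein x ∈ convexHull ℝ (Subtype.val '' idealS C)) : x ∈ C := by
  refine mem_of_klein_mem_closure hc (convexHull_min ?_ hC.convex_klein.closure h)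
  rintro _ ⟨u, hu, rfl⟩
  exact hu

theorem ovs_iff {C : Set H3} (hC : GConvex C) {u : S2} {p : H3} (hp : p ∈ C) :
    Ovs C u p ↔ ∀ c ∈ C, -lor p.v c.v * Aa u p ≤ Aa u c :=
  ⟨fun h => proj_ineq hC hp h.2, fun h => ⟨hp, fun c hc =>
    (le_mul_of_one_le_left (Aa_pos u p).le (one_le_neg_lor p c)).trans (h c hc)⟩⟩

theorem Ovs.mem_frontier {C : Set H3} {u : S2} {p : H3} (h : Ovs C u p) : p ∈ frontier C := by
  refine ⟨subset_closure h.1, fun hp => ?_⟩
  have c1 : Continuous fun t : ℝ => p.v + t • ((1 : ℝ), (u : E3)) := by fun_prop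
  have c2 : ContinuousAt (fun t : ℝ => nrm (p.v + t • ((1 : ℝ), (u : E3)))) 0 :=
    ContinuousAt.comp (f := fun t : ℝ => p.v + t • ((1 : ℝ), (u : E3)))
      (continuousOn_nrm.continuousAt (isOpen_TL.mem_nhds (d1_tl u p le_rfl))) c1.continuousAt
  have h1 : ∀ᶠ t in 𝓝 (0 : ℝ), nrm (p.v + t • ((1 : ℝ), (u : E3))) ∈ C := by
    refine c2.eventually_mem ?_
    rw [zero_smul, add_zero, nrm_self]
    exact mem_interior_iff_mem_nhds.1 hp
  obtain ⟨t, h2, ht⟩ := ((h1.filter_mono nhdsWithin_le_nhds).and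
    (self_mem_nhdsWithin (s := Ioi (0 : ℝ)))).exists
  have ht : 0 < t := ht
  have ha := Aa_pos u p
  have h3 := h.2 _ h2
  rw [d1_ray u p ht.le] at h3
  refine absurd h3 (not_le.2 (div_lt_self ha (Real.lt_sqrt_of_sq_lt ?_)))
  have : 0 < 2 * t * Aa u p := by positivity
  linarith

theorem exists_ovs_iff {C : Set H3} (hc : IsClosed C) (hC : GConvex C) (hne : C.Nonempty)
    (u : S2) : (∃ p, Ovs C u p) ↔ u ∉ idealS C := by
  refine ⟨fun ⟨p, hp⟩ hu => ?_, fun hu => ?_⟩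
  · obtain ⟨c, h, h1⟩ := (mem_idealS_iff_Aa hc hC).1 hu _ (Aa_pos u p)
    exact absurd (hp.2 c h) (not_le.2 h1)
  · obtain ⟨c₀, h₀⟩ := hne
    have hu' : ¬∀ ε > 0, ∃ b ∈ klein '' C, dist (u : E3) b < ε :=
      fun h => hu (Metric.mem_closure_iff.2 h)
    push Not at hu'
    obtain ⟨δ, hδ, hd⟩ := hu'
    have key : ∀ c ∈ C, dist c Hyp.o * δ ^ 2 ≤ 2 * Aa u c := fun c h => by
      have h1 := hd _ (mem_image_of_mem _ h)
      rw [dist_comm, dist_eq_norm] at h1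
      have h2 : dist c Hyp.o ≤ c.v.1 := by
        rw [Hyp.fst_eq]
        exact (Real.self_le_sinh_iff.2 dist_nonneg).trans (Real.sinh_lt_cosh _).le
      exact (mul_le_mul h2 (pow_le_pow_left₀ hδ.le h1 2) (sq_nonneg _) c.pos.le).trans
        (d1_sq_dist u c)
    have mem : ∀ c ∈ C, Aa u c ≤ Aa u c₀ → c ∈ closedBall Hyp.o (2 * Aa u c₀ / δ ^ 2) ∩ C :=
      fun c h h1 => ⟨by
        rw [mem_closedBall, le_div_iff₀ (by positivity)]
        linarith [key c h], h⟩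
    have c1 : Continuous fun c : H3 => Aa u c :=
      continuous_Aa.comp (continuous_const.prodMk continuous_id)
    obtain ⟨p, hp, hm⟩ := ((isCompact_closedBall Hyp.o (2 * Aa u c₀ / δ ^ 2)).inter_right
      hc).exists_isMinOn ⟨c₀, mem c₀ h₀ le_rfl⟩ c1.continuousOn
    refine ⟨p, hp.2, fun c h => ?_⟩
    rcases le_total (Aa u c) (Aa u c₀) with h1 | h1
    · exact hm (mem c h h1)
    · exact le_trans (hm (mem c₀ h₀ le_rfl)) h1

theorem ovs_key {C : Set H3} (hC : GConvex C) {u u' : S2} {p p' : H3} (h : Ovs C u p)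
    (h' : Ovs C u' p') : dist p p' * √(Aa u p * Aa u' p') ≤ dist u u' := by
  have h1 := key_null (caus_one u) (d1_null u) (caus_one u') (d1_null u')
    ((ovs_iff hC h.1).1 h p' h'.1) ((ovs_iff hC h'.1).1 h' p h.1)
  rw [neg_lor_one] at h1
  have h2 : 0 ≤ Aa u p * Aa u' p' := (mul_pos (Aa_pos u p) (Aa_pos u' p')).le
  have h3 := mul_le_mul_of_nonneg_right (sq_half_le_cosh (dist p p')) h2
  refine le_of_sq_le_sq ?_ dist_nonneg
  rw [mul_pow, Real.sq_sqrt h2]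
  have h4 : (Real.cosh (dist p p') - 1) * (Aa u p * Aa u' p') ≤ dist u u' ^ 2 / 2 := h1
  linarith

theorem ovs_unique {C : Set H3} (hC : GConvex C) {u : S2} {p p' : H3} (h : Ovs C u p)
    (h' : Ovs C u p') : p = p' := by
  have h1 := ovs_key hC h h'
  rw [dist_self] at h1
  exact dist_le_zero.1 (nonpos_of_mul_nonpos_left h1
    (Real.sqrt_pos.2 (mul_pos (Aa_pos u p) (Aa_pos u p'))))

theorem ovs_far {C : Set H3} (hC : GConvex C) {u ζ : S2} {p : H3} (h : Ovs C u p)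
    (hζ : ζ ∈ idealS C) : Real.exp (-dist p Hyp.o) ≤ dist u ζ := by
  have h1 := lor_nonpos_of_mem_idealS (n := ((1 : ℝ), (u : E3)) - Aa u p • p.v) (fun c hc => by
    have := (ovs_iff hC h.1).1 h c hc
    rw [lor_sub_right, lor_smul_right, lor_comm c.v p.v]
    have e : lor c.v (1, (u : E3)) = -Aa u c := by rw [Aa, neg_neg]
    rw [e]; linarith) hζ
  have e1 := neg_lor_one ζ u
  have e2 : lor ((1 : ℝ), (ζ : E3)) p.v = -Aa ζ p := by rw [Aa, neg_neg, lor_comm]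
  rw [lor_sub_right, lor_smul_right, e2] at h1
  have low : ∀ v : S2, Real.exp (-dist p Hyp.o) ≤ Aa v p := fun v => by
    have := Aa_le v Hyp.o p
    rw [Aa_o, dist_comm] at this
    rw [Real.exp_neg, inv_le_iff_one_le_mul₀' (Real.exp_pos _)]
    exact this
  have h2 := mul_le_mul (low u) (low ζ) (Real.exp_pos _).le (Aa_pos u p).le
  refine le_of_sq_le_sq ?_ dist_nonneg
  rw [dist_comm u ζ]
  nlinarith [sq_nonneg (dist ζ u)]

theorem ovs_surj {C : Set H3} (hc : IsClosed C) (hC : GConvex C) {p : H3} (hp : p ∈ frontier C) :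
    ∃ u, Ovs C u p := by
  have hpC : p ∈ C := hc.closure_subset hp.1
  obtain ⟨n, h1, h2, h3⟩ := exists_support hC ⟨p, hpC⟩ hp.2
  have h4 : lor p.v n = 0 := le_antisymm (h2 p hpC) h3
  obtain ⟨w, hw⟩ : ∃ w, w = p.v + n := ⟨_, rfl⟩
  have w1 : lor w w = 0 := by
    rw [hw, lor_add_left, lor_add_right, lor_add_right, p.unit, h1, lor_comm n, h4]; ring
  have w2 : lor p.v w = -1 := by rw [hw, lor_add_right, p.unit, h4, add_zero]
  have w3 : ‖w.2‖ ^ 2 = w.1 ^ 2 := by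
    simp only [lor, real_inner_self_eq_norm_sq] at w1
    linarith
  have w4 : 0 < w.1 := by
    by_contra hn
    have hn := not_lt.1 hn
    have e : ‖w.2‖ = -w.1 := by
      rw [← abs_of_nonpos hn, ← abs_norm]; exact sq_eq_sq_iff_abs_eq_abs _ _ |>.1 w3
    have a1 := neg_le_of_abs_le (abs_real_inner_le_norm p.v.2 w.2)
    have a2 := mul_le_mul_of_nonneg_right p.norm_snd_lt.le (neg_nonneg.2 hn)
    simp only [lor] at w2
    rw [e] at a1
    linarith
  have w5 : ‖w.2‖ = w.1 := (sq_eq_sq₀ (norm_nonneg _) w4.le).1 w3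
  have w6 : (w.1)⁻¹ • w.2 ∈ sphere (0 : E3) 1 := by
    rw [mem_sphere_zero_iff_norm, norm_smul, w5, Real.norm_of_nonneg (inv_pos.2 w4).le,
      inv_mul_cancel₀ w4.ne']
  have w7 : ((1 : ℝ), (w.1)⁻¹ • w.2) = (w.1)⁻¹ • w := Prod.ext (inv_mul_cancel₀ w4.ne').symm rfl
  refine ⟨⟨_, w6⟩, hpC, fun c hcC => ?_⟩
  simp only [Aa]
  rw [w7, lor_smul_right, lor_smul_right, w2, neg_le_neg_iff]
  refine mul_le_mul_of_nonneg_left ?_ (inv_pos.2 w4).le
  rw [hw, lor_add_right]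
  linarith [one_le_neg_lor c p, h2 c hcC]

variable {S : Type} [MetricSpace S]

theorem exists_ov_iff (R : Realis S) (u : S2) : (∃ y, Ov R u y) ↔ u ∉ idealS R.C := by
  rw [← exists_ovs_iff R.closed R.convex (R.int.mono interior_subset)]
  refine ⟨fun ⟨y, h⟩ => ⟨_, h⟩, fun ⟨p, h⟩ => ?_⟩
  have := h.mem_frontier
  rw [← R.range_φ] at this
  obtain ⟨y, rfl⟩ := this
  exact ⟨y, h⟩

theorem ov_unique {R : Realis S} {u : S2} {y y' : S} (h : Ov R u y) (h' : Ov R u y') :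
    y = y' := R.injective_φ (ovs_unique R.convex h h')

theorem ov_surj (R : Realis S) (y : S) : ∃ u, Ov R u y :=
  ovs_surj R.closed R.convex (R.φ_mem_frontier y)

theorem isClosed_ov (R : Realis S) : IsClosed {x : S2 × S | Ov R x.1 x.2} := by
  have e : {x : S2 × S | Ov R x.1 x.2} =
      ⋂ c ∈ R.C, {x : S2 × S | Aa x.1 (R.φ x.2) ≤ Aa x.1 c} := by
    ext x
    simp only [mem_ofPred_eq, mem_iInter]
    exact ⟨fun h => h.2, fun h => ⟨R.φ_mem _, h⟩⟩
  rw [e]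
  exact isClosed_biInter fun c _ => isClosed_le
    (continuous_Aa.comp (continuous_fst.prodMk (R.continuous_φ.comp continuous_snd)))
    (continuous_Aa.comp (continuous_fst.prodMk continuous_const))

theorem sh_univ (R : Realis S) : Sh R univ = (idealS R.C)ᶜ := by
  ext u
  rw [mem_compl_iff, ← exists_ov_iff]
  exact ⟨fun ⟨y, _, h⟩ => ⟨y, h⟩, fun ⟨y, h⟩ => ⟨y, mem_univ y, h⟩⟩

theorem sh_mono (R : Realis S) {Y Y' : Set S} (h : Y ⊆ Y') : Sh R Y ⊆ Sh R Y' :=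
  fun _ ⟨y, hy, h1⟩ => ⟨y, h hy, h1⟩

end Pool.Agent.Lib.MP_44acff_gt.EK
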