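import Pool.Agent.Lib.MP_44acff_gt.EK.D1

open Set Metric Topology Filter MeasureTheory

namespace Pool.Agent.Lib.MP_44acff_gt.EK

variable {S : Type} [MetricSpace S]

theorem d2_lower {C : Set H3} (hC : GConvex C) {u u' : S2} {p : H3} (h : Ovs C u p)
    (hu : dist u' u ≤ Aa u p * Real.exp (-dist p Hyp.o) / 2) {c : H3} (hc : c ∈ C) :
    Aa u p / 2 ≤ Aa u' c := by
  have h1 := (ovs_iff hC h.1).1 h c hc
  have h2 := one_le_neg_lor p c
  have h3 := busemann Hyp.o p c.tl.caus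
  have h4 : -lor (Hyp.o : H3).v c.v = c.v.1 := by simp [lor, Hyp.o]
  have h5 : Aa u' c = Aa u c - inner ℝ c.v.2 ((u' : E3) - u) := by
    simp only [Aa, lor, inner_sub_right]
    ring
  have h6 : inner ℝ c.v.2 ((u' : E3) - u) ≤ c.v.1 * dist u' u :=
    (real_inner_le_norm _ _).trans (mul_le_mul c.norm_snd_lt.le
      (by rw [Subtype.dist_eq, dist_eq_norm]) (norm_nonneg _) c.pos.le)
  have h7 := Aa_pos u p
  rw [h4, dist_comm] at h3
  have h8 : c.v.1 * dist u' u ≤ -lor p.v c.v * Aa u p / 2 := by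
    refine (mul_le_mul h3 hu dist_nonneg (by positivity)).trans (le_of_eq ?_)
    rw [Real.exp_neg]
    field_simp
  nlinarith

theorem d2_norm {w w' : E3} (hw : w ≠ 0) (hw' : w' ≠ 0) :
    ‖‖w‖⁻¹ • w - ‖w'‖⁻¹ • w'‖ ^ 2 * (‖w‖ * ‖w'‖) ≤ ‖w - w'‖ ^ 2 := by
  have h1 := norm_pos_iff.2 hw
  have h2 := norm_pos_iff.2 hw'
  rw [norm_sub_sq_real, norm_sub_sq_real, norm_smul, norm_smul, real_inner_smul_left,
    real_inner_smul_right, norm_inv, norm_inv, norm_norm, norm_norm, inv_mul_cancel₀ h1.ne',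
    inv_mul_cancel₀ h2.ne']
  have : (1 ^ 2 - 2 * (‖w‖⁻¹ * (‖w'‖⁻¹ * inner ℝ w w')) + 1 ^ 2) * (‖w‖ * ‖w'‖) =
      2 * (‖w‖ * ‖w'‖) - 2 * inner ℝ w w' := by
    field_simp
    ring
  rw [this]
  nlinarith [sq_nonneg (‖w‖ - ‖w'‖)]

/-- The normalised chord between two close points of the sphere. -/
theorem d2_chord {u u' : S2} (h : dist u' u ≤ 1 / 2) : ∃ γ : ℝ → S2, γ 0 = u ∧ γ 1 = u' ∧
    (∀ t ∈ Icc (0 : ℝ) 1, dist (γ t) u ≤ dist u' u) ∧
    ∀ s ∈ Icc (0 : ℝ) 1, ∀ t ∈ Icc (0 : ℝ) 1, dist (γ s) (γ t) ≤ 2 * dist u' u * |s - t| := by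
  have hu : ‖(u : E3)‖ = 1 := norm_eq_of_mem_sphere u
  have hu' : ‖(u' : E3)‖ = 1 := norm_eq_of_mem_sphere u'
  rw [Subtype.dist_eq u' u, dist_eq_norm] at h ⊢
  obtain ⟨e, he⟩ : ∃ e : E3, e = (u' : E3) - u := ⟨_, rfl⟩
  rw [← he] at h ⊢
  have he0 := norm_nonneg e
  have h1 : 2 * inner ℝ (u : E3) e = -‖e‖ ^ 2 := by
    have := norm_add_sq_real (u : E3) e
    rw [he, add_sub_cancel, hu, hu', ← he] at this
    linarith
  have h2 : ∀ t : ℝ, ‖(u : E3) + t • e‖ ^ 2 = 1 - t * (1 - t) * ‖e‖ ^ 2 := by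
    intro t
    rw [norm_add_sq_real, hu, real_inner_smul_right, norm_smul, mul_pow, Real.norm_eq_abs, sq_abs]
    linear_combination t * h1
  have h3 : ∀ t ∈ Icc (0 : ℝ) 1, 1 / 2 ≤ ‖(u : E3) + t • e‖ ∧ t ^ 2 ≤ ‖(u : E3) + t • e‖ := by
    intro t ht
    have h4 : ‖e‖ ^ 2 ≤ 1 / 4 := by nlinarith
    have h5 : 0 ≤ t * (1 - t) := mul_nonneg ht.1 (sub_nonneg.2 ht.2)
    have h6 : t * (1 - t) * ‖e‖ ^ 2 ≤ t * (1 - t) * (1 / 4) := mul_le_mul_of_nonneg_left h4 h5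
    have h7 : t ^ 2 ≤ 1 := pow_le_one₀ ht.1 ht.2
    constructor
    · refine le_of_sq_le_sq ?_ (norm_nonneg _)
      rw [h2]
      nlinarith [sq_nonneg (t - 1 / 2)]
    · refine le_of_sq_le_sq ?_ (norm_nonneg _)
      rw [h2]
      nlinarith [ht.1, ht.2, sq_nonneg t]
  have h4 : ∀ t ∈ Icc (0 : ℝ) 1, (u : E3) + t • e ≠ 0 := fun t ht =>
    norm_pos_iff.1 (by linarith [(h3 t ht).1])
  have h5 : ∀ t : ℝ, ∃ g : S2, t ∈ Icc (0 : ℝ) 1 →
      (g : E3) = ‖(u : E3) + t • e‖⁻¹ • ((u : E3) + t • e) := by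
    intro t
    by_cases ht : t ∈ Icc (0 : ℝ) 1
    · exact ⟨⟨_, mem_sphere_zero_iff_norm.2 (norm_smul_inv_norm (h4 t ht))⟩, fun _ => rfl⟩
    · exact ⟨u, fun h => absurd h ht⟩
  choose γ hγ using h5
  have h6 : ∀ s ∈ Icc (0 : ℝ) 1, ∀ t ∈ Icc (0 : ℝ) 1, dist (γ s) (γ t) ^ 2 *
      (‖(u : E3) + s • e‖ * ‖(u : E3) + t • e‖) ≤ (|s - t| * ‖e‖) ^ 2 := by
    intro s hs t ht
    have := d2_norm (h4 s hs) (h4 t ht)
    rwa [← hγ s hs, ← hγ t ht, add_sub_add_left_eq_sub, ← sub_smul, norm_smul, Real.norm_eq_abs,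
      ← dist_eq_norm, ← Subtype.dist_eq] at this
  have h0 : γ 0 = u := Subtype.ext (by rw [hγ 0 (left_mem_Icc.2 zero_le_one)]; simp [hu])
  refine ⟨γ, h0, Subtype.ext (by rw [hγ 1 (right_mem_Icc.2 zero_le_one)]; simp [he, hu']),
    fun t ht => ?_, fun s hs t ht => ?_⟩
  · have h7 := h6 t ht 0 (left_mem_Icc.2 zero_le_one)
    rw [h0, zero_smul, add_zero, hu, mul_one, sub_zero, mul_pow, sq_abs] at h7
    refine le_of_sq_le_sq (le_of_mul_le_mul_right (h7.trans ?_) (norm_pos_iff.2 (h4 t ht))) he0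
    rw [mul_comm]
    exact mul_le_mul_of_nonneg_left (h3 t ht).2 (sq_nonneg _)
  · have h7 := h6 s hs t ht
    have h8 : 1 / 2 * (1 / 2) ≤ ‖(u : E3) + s • e‖ * ‖(u : E3) + t • e‖ :=
      mul_le_mul (h3 s hs).1 (h3 t ht).1 (by norm_num) (norm_nonneg _)
    refine le_of_sq_le_sq ?_ (by positivity)
    nlinarith [mul_le_mul_of_nonneg_left h8 (sq_nonneg (dist (γ s) (γ t)))]

/-- The retraction is locally Lipschitz for the intrinsic metric. -/
theorem ov_lip {R : Realis S} {u u' : S2} {y : S} (h : Ov R u y)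
    (hu : dist u' u ≤ Aa u (R.φ y) * Real.exp (-dist (R.φ y) Hyp.o) / 2) :
    ∃ y', Ov R u' y' ∧ dist y' y ≤ 4 * dist u' u / Aa u (R.φ y) := by
  have ha := Aa_pos u (R.φ y)
  have h1 : dist u' u ≤ 1 / 2 := by
    have h2 := Aa_le u (R.φ y) Hyp.o
    rw [Aa_o, mul_one] at h2
    refine hu.trans (div_le_div_of_nonneg_right ?_ zero_le_two)
    rw [Real.exp_neg, ← div_eq_mul_inv, div_le_one (Real.exp_pos _)]
    exact h2
  obtain ⟨γ, h0, h1', h2, h3⟩ := d2_chord h1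
  have h4 : ∀ t ∈ Icc (0 : ℝ) 1, ∀ c ∈ R.C, Aa u (R.φ y) / 2 ≤ Aa (γ t) c := fun t ht c hc =>
    d2_lower R.convex h ((h2 t ht).trans hu) hc
  have h5 : ∀ t : ℝ, ∃ z : S, t ∈ Icc (0 : ℝ) 1 → Ov R (γ t) z := by
    intro t
    by_cases ht : t ∈ Icc (0 : ℝ) 1
    · obtain ⟨z, hz⟩ := (exists_ov_iff R (γ t)).2 fun hi => by
        obtain ⟨c, hc, hc'⟩ := (mem_idealS_iff_Aa R.closed R.convex).1 hi _ (half_pos ha)
        exact absurd (h4 t ht c hc) (not_le.2 hc')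
      exact ⟨z, fun _ => hz⟩
    · exact ⟨y, fun h => absurd h ht⟩
  choose z hz using h5
  have hz0 : z 0 = y := ov_unique (h0 ▸ hz 0 (left_mem_Icc.2 zero_le_one)) h
  have hL : 0 ≤ 4 * dist u' u / Aa u (R.φ y) := by positivity
  refine ⟨z 1, h1' ▸ hz 1 (right_mem_Icc.2 zero_le_one), ?_⟩
  have h6 := pathDist_le_lip (A := frontier R.C) (γ := fun t => R.φ (z t)) zero_le_one hL
    (fun t _ => R.φ_mem_frontier _) (fun s hs t ht => by
      have h7 := ovs_key R.convex (hz s hs) (hz t ht)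
      have h8 : Aa u (R.φ y) / 2 ≤ √(Aa (γ s) (R.φ (z s)) * Aa (γ t) (R.φ (z t))) := by
        refine Real.le_sqrt_of_sq_le ?_
        rw [sq]
        exact mul_le_mul (h4 s hs _ (R.φ_mem _)) (h4 t ht _ (R.φ_mem _)) (half_pos ha).le
          (Aa_pos _ _).le
      rw [div_mul_eq_mul_div, le_div_iff₀ ha]
      have h9 := mul_le_mul_of_nonneg_left h8 (dist_nonneg (x := R.φ (z s)) (y := R.φ (z t)))
      linarith [h3 s hs t ht])
  rw [← R.isom, hz0, sub_zero, mul_one, edist_dist, ENNReal.ofReal_le_ofReal_iff hL] at h6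
  rwa [dist_comm]

/-- Continuity of the retraction. -/
theorem ov_cont {R : Realis S} {u : S2} {y : S} (h : Ov R u y) {V : Set S} (hV : V ∈ 𝓝 y) :
    ∀ᶠ u' in 𝓝 u, ∃ y' ∈ V, Ov R u' y' := by
  obtain ⟨ε, hε, hb⟩ := Metric.mem_nhds_iff.1 hV
  have ha := Aa_pos u (R.φ y)
  filter_upwards [closedBall_mem_nhds u
    (show 0 < Aa u (R.φ y) * Real.exp (-dist (R.φ y) Hyp.o) / 2 by positivity),
    ball_mem_nhds u (show 0 < ε * Aa u (R.φ y) / 4 by positivity)] with u' h1 h2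
  obtain ⟨y', h3, h4⟩ := ov_lip h (mem_closedBall.1 h1)
  refine ⟨y', hb (h4.trans_lt ?_), h3⟩
  rw [div_lt_iff₀ ha]
  linarith [mem_ball.1 h2]

theorem d2_null {p : H3} {ν : ℝ × E3} (h : lor ν ν = 0) (h' : lor p.v ν < 0) :
    0 < ν.1 ∧ ‖ν.2‖ = ν.1 := by
  have h1 : ‖ν.2‖ ^ 2 = ν.1 ^ 2 := by
    simp only [lor, real_inner_self_eq_norm_sq] at h
    linarith
  have h2 : 0 < ν.1 := by
    by_contra hn
    have h3 : ‖ν.2‖ = -ν.1 := by
      rw [← neg_sq ν.1] at h1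
      exact (pow_left_inj₀ (norm_nonneg _) (by linarith) two_ne_zero).1 h1
    have h4 := abs_real_inner_le_norm p.v.2 ν.2
    have h5 := neg_abs_le (inner ℝ p.v.2 ν.2 : ℝ)
    have h6 := p.norm_snd_lt
    rw [h3] at h4
    unfold lor at h'
    nlinarith
  exact ⟨h2, (pow_left_inj₀ (norm_nonneg _) h2.le two_ne_zero).1 h1⟩

theorem isPreconnected_fibre (R : Realis S) (y : S) : IsPreconnected {u | Ov R u y} := by
  obtain ⟨q, hq⟩ := R.int
  obtain ⟨p, hp⟩ : ∃ p, p = R.φ y := ⟨_, rfl⟩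
  have hpC : p ∈ R.C := hp ▸ R.φ_mem y
  simp only [Ov, ← hp]
  let N : Set (ℝ × E3) := {n | lor n p.v = 0 ∧ lor q.v n < 0 ∧ ∀ c ∈ R.C, lor c.v n ≤ 0}
  let ν : ℝ × E3 → ℝ × E3 := fun n => √(lor n n) • p.v + n
  have hN : Convex ℝ N := by
    rintro n ⟨h1, h2, h3⟩ m ⟨h4, h5, h6⟩ a b ha hb hab
    refine ⟨by rw [lor_add_left, lor_smul_left, lor_smul_left, h1, h4]; ring, ?_, fun c hc => ?_⟩
    · rw [lor_add_right, lor_smul_right, lor_smul_right]
      rcases ha.eq_or_lt with rfl | ha'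
      · rw [zero_add] at hab
        rw [hab]
        linarith
      · nlinarith [mul_neg_of_pos_of_neg ha' h2, mul_nonneg hb (neg_nonneg.2 h5.le)]
    · rw [lor_add_right, lor_smul_right, lor_smul_right]
      exact add_nonpos (mul_nonpos_of_nonneg_of_nonpos ha (h3 c hc))
        (mul_nonpos_of_nonneg_of_nonpos hb (h6 c hc))
  have hν : ∀ n ∈ N, 0 < √(lor n n) ∧ 0 < (ν n).1 ∧ ‖(ν n).2‖ = (ν n).1 := by
    rintro n ⟨h1, h2, -⟩
    have h3 : 0 < lor n n := lor_self_pos p h1 fun h => by simp [h, lor] at h2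
    have h4 := Real.sqrt_pos.2 h3
    refine ⟨h4, d2_null (p := p) ?_ ?_⟩
    · simp only [ν, lor_add_left, lor_add_right, lor_smul_left, lor_smul_right, p.unit, h1,
        lor_comm p.v n]
      nlinarith [Real.mul_self_sqrt h3.le]
    · simp only [ν, lor_add_right, lor_smul_right, p.unit, h1, lor_comm p.v n]
      linarith
  have hc : Continuous ν :=
    ((continuous_lor.comp (continuous_id.prodMk continuous_id)).sqrt.smul continuous_const).add
      continuous_id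
  have hG : ContinuousOn (fun n => ((ν n).1)⁻¹ • (ν n).2) N :=
    (hc.fst.continuousOn.inv₀ fun n hn => (hν n hn).2.1.ne').smul hc.snd.continuousOn
  rw [← IsInducing.subtypeVal.isPreconnected_image]
  convert hN.isPreconnected.image _ hG using 1
  ext x
  constructor
  · rintro ⟨u, hu, rfl⟩
    have ha := Aa_pos u p
    have h1 : lor ((1 : ℝ), (u : E3)) p.v = -Aa u p := by rw [Aa, neg_neg, lor_comm]
    have h2 : lor (((1 : ℝ), (u : E3)) - Aa u p • p.v) (((1 : ℝ), (u : E3)) - Aa u p • p.v) =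
        Aa u p ^ 2 := by
      simp only [lor_sub_left, lor_sub_right, lor_smul_left, lor_smul_right, p.unit, lor_one_self,
        h1, lor_comm p.v]
      ring
    have h3 : ∀ c ∈ R.C, lor c.v (((1 : ℝ), (u : E3)) - Aa u p • p.v) ≤ 0 := by
      intro c hc
      have h4 := (ovs_iff R.convex hpC).1 hu c hc
      rw [lor_sub_right, lor_smul_right, lor_comm c.v p.v]
      have h5 : Aa u c = -lor c.v ((1 : ℝ), (u : E3)) := rfl
      linarith
    refine ⟨((1 : ℝ), (u : E3)) - Aa u p • p.v, ⟨?_, ?_, h3⟩, ?_⟩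
    · rw [lor_sub_left, lor_smul_left, p.unit, h1]
      ring
    · by_contra hn
      refine not_mem_interior (n := (Aa u p)⁻¹ • (((1 : ℝ), (u : E3)) - Aa u p • p.v)) ?_
        (fun c hc => ?_) ?_ hq
      · rw [lor_smul_left, lor_smul_right, h2]
        field_simp
      · rw [lor_smul_right]
        exact mul_nonpos_of_nonneg_of_nonpos (inv_pos.2 ha).le (h3 c hc)
      · rw [lor_smul_right]
        exact mul_nonneg (inv_pos.2 ha).le (not_lt.1 hn)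
    · simp only [ν, h2, Real.sqrt_sq ha.le, add_sub_cancel, inv_one, one_smul]
  · rintro ⟨n, hn, rfl⟩
    obtain ⟨h1, h2, h3⟩ := hν n hn
    have h4 : ((ν n).1)⁻¹ • (ν n).2 ∈ sphere (0 : E3) 1 := by
      rw [mem_sphere_zero_iff_norm, norm_smul, h3, norm_inv, Real.norm_of_nonneg h2.le,
        inv_mul_cancel₀ h2.ne']
    have h5 : ∀ c : H3, Aa ⟨_, h4⟩ c = ((ν n).1)⁻¹ * (√(lor n n) * -lor c.v p.v - lor c.v n) := by
      intro c
      have h6 : ((1 : ℝ), ((ν n).1)⁻¹ • (ν n).2) = ((ν n).1)⁻¹ • ν n :=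
        Prod.ext (by simp [h2.ne']) rfl
      rw [Aa, h6, lor_smul_right]
      simp only [ν, lor_add_right, lor_smul_right]
      ring
    refine ⟨⟨_, h4⟩, ⟨hpC, fun c hc => ?_⟩, rfl⟩
    rw [h5, h5, p.unit, lor_comm p.v n, hn.1]
    refine mul_le_mul_of_nonneg_left ?_ (inv_pos.2 h2).le
    nlinarith [one_le_neg_lor c p, hn.2.2 c hc]

theorem isPreconnected_sh (R : Realis S) {Y : Set S} (h : IsPreconnected Y) :
    IsPreconnected (Sh R Y) := by
  have hcl : ∀ A : Set S2, IsClosed A → IsClosed {y | ∃ u ∈ A, Ov R u y} := by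
    intro A hA
    convert isClosedMap_snd_of_compactSpace _ ((hA.preimage continuous_fst).inter (isClosed_ov R))
      using 1
    ext y
    exact ⟨fun ⟨u, h1, h2⟩ => ⟨(u, y), ⟨h1, h2⟩, rfl⟩, fun ⟨x, h1, h2⟩ => ⟨x.1, h1.1, h2 ▸ h1.2⟩⟩
  rw [isPreconnected_iff_subset_of_disjoint_closed] at h ⊢
  intro A B hA hB hc hd
  have hf : ∀ y ∈ Y, {u | Ov R u y} ⊆ A ∨ {u | Ov R u y} ⊆ B := fun y hy =>
    isPreconnected_iff_subset_of_disjoint_closed.1 (isPreconnected_fibre R y) A B hA hB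
      (fun u hu => hc ⟨y, hy, hu⟩) (eq_empty_iff_forall_notMem.2 fun u hu =>
        eq_empty_iff_forall_notMem.1 hd u ⟨⟨y, hy, hu.1⟩, hu.2⟩)
  have hn : ∀ y ∈ Y, ∀ u, Ov R u y → u ∈ A → u ∈ B → False := fun y hy u hu h1 h2 =>
    eq_empty_iff_forall_notMem.1 hd u ⟨⟨y, hy, hu⟩, h1, h2⟩
  rcases h _ _ (hcl A hA) (hcl B hB) (fun y hy => by
      obtain ⟨u, hu⟩ := ov_surj R y
      exact (hc ⟨y, hy, hu⟩).imp (fun h => ⟨u, h, hu⟩) fun h => ⟨u, h, hu⟩)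
    (eq_empty_iff_forall_notMem.2 (by
      rintro y ⟨hy, ⟨u, h1, h2⟩, ⟨u', h3, h4⟩⟩
      rcases hf y hy with h5 | h5
      · exact hn y hy u' h4 (h5 h4) h3
      · exact hn y hy u h2 h1 (h5 h2))) with h1 | h1
  · left
    rintro u ⟨y, hy, hu⟩
    obtain ⟨u', h2, h3⟩ := h1 hy
    exact (hf y hy).elim (fun h => h hu) fun h => (hn y hy u' h3 h2 (h h3)).elim
  · right
    rintro u ⟨y, hy, hu⟩
    obtain ⟨u', h2, h3⟩ := h1 hy
    exact (hf y hy).elim (fun h => (hn y hy u' h3 (h h3) h2).elim) fun h => h hu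

/-- The retraction maps connected sets to connected sets. -/
theorem isPreconnected_ret (R : Realis S) {W : Set S2} (h : IsPreconnected W)
    (hW : Disjoint W (idealS R.C)) : IsPreconnected {y | ∃ u ∈ W, Ov R u y} := by
  rcases W.eq_empty_or_nonempty with rfl | ⟨u₀, hu₀⟩
  · simpa using isPreconnected_empty
  have h1 : ∀ u ∈ W, ∃ y, Ov R u y := fun u hu =>
    (exists_ov_iff R u).2 (disjoint_left.1 hW hu)
  have : Nonempty S := (h1 u₀ hu₀).nonempty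
  choose! ρ hρ using h1
  have h2 : ContinuousOn ρ W := by
    intro u hu V hV
    rw [mem_map]
    filter_upwards [(ov_cont (hρ u hu) hV).filter_mono nhdsWithin_le_nhds, self_mem_nhdsWithin]
      with u' ⟨y', h3, h4⟩ h5
    exact (ov_unique h4 (hρ u' h5) ▸ h3 : ρ u' ∈ V)
  convert h.image ρ h2 using 1
  ext y
  exact ⟨fun ⟨u, h3, h4⟩ => ⟨u, h3, ov_unique (hρ u h3) h4⟩,
    fun ⟨u, h3, h4⟩ => ⟨u, h3, h4 ▸ hρ u h3⟩⟩

end Pool.Agent.Lib.MP_44acff_gt.EK
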