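import Pool.Agent.Lib.MP_44acff_gt.EK.D1

open Set Metric Topology Filter MeasureTheory

namespace Pool.Agent.Lib.MP_44acff_gt.EK

theorem d3_orth (a b : E3) : ∃ w : E3, ‖w‖ = 1 ∧ inner ℝ a w = 0 ∧ inner ℝ b w = 0 := by
  have h : LinearMap.ker ((innerₗ E3 a).prod (innerₗ E3 b)) ≠ ⊥ :=
    LinearMap.ker_ne_bot_of_finrank_lt (by simp)
  obtain ⟨w, hw, h0⟩ := Submodule.exists_mem_ne_zero_of_ne_bot h
  have h1 : inner ℝ a w = 0 := congrArg Prod.fst (LinearMap.mem_ker.mp hw)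
  have h2 : inner ℝ b w = 0 := congrArg Prod.snd (LinearMap.mem_ker.mp hw)
  refine ⟨‖w‖⁻¹ • w, ?_, ?_, ?_⟩
  · rw [norm_smul, norm_inv, norm_norm, inv_mul_cancel₀ (norm_ne_zero_iff.mpr h0)]
  · rw [real_inner_smul_right, h1, mul_zero]
  · rw [real_inner_smul_right, h2, mul_zero]

theorem d3_ball {u v : S2} {t : ℝ} (ht : 0 ≤ t) :
    u ∈ closedBall v t ↔ 1 - t ^ 2 / 2 ≤ inner ℝ (u : E3) (v : E3) := by
  have h := neg_lor_one u v
  simp only [lor] at h
  rw [mem_closedBall, ← sq_le_sq₀ dist_nonneg ht]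
  constructor <;> intro h' <;> linarith

theorem d3_norm (u : S2) : ‖(u : E3)‖ = 1 := by simp

/-- The half space over a disc of ideal points. -/
theorem half_subset {C : Set H3} (hc : IsClosed C) (hC : GConvex C) {v : S2} {t : ℝ} (ht : 0 ≤ t)
    (h : closedBall v t ⊆ idealS C) {x : H3} (hx : 1 - t ^ 2 / 2 < inner ℝ (klein x) (v : E3)) :
    x ∈ interior C := by
  have ho : IsOpen {y : H3 | 1 - t ^ 2 / 2 < inner ℝ (klein y) (v : E3)} :=
    isOpen_lt continuous_const (continuous_klein.inner continuous_const)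
  refine interior_maximal (fun y hy => ?_) ho hx
  obtain ⟨w, hw, h1, h2⟩ := d3_orth (klein y) v
  have hk := norm_klein_lt y
  have hs : √(1 - ‖klein y‖ ^ 2) ^ 2 = 1 - ‖klein y‖ ^ 2 :=
    Real.sq_sqrt (by nlinarith [norm_nonneg (klein y)])
  have key : ∀ s : ℝ, s ^ 2 = 1 - ‖klein y‖ ^ 2 → klein y + s • w ∈ Subtype.val '' idealS C := by
    intro s hs
    have hn : ‖klein y + s • w‖ = 1 := by
      rw [← sq_eq_sq₀ (norm_nonneg _) zero_le_one, norm_add_sq_real, real_inner_smul_right, h1,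
        norm_smul, hw, mul_one, Real.norm_eq_abs, sq_abs, hs]
      ring
    refine ⟨⟨_, by simpa using hn⟩, h ((d3_ball ht).mpr ?_), rfl⟩
    have hy' : 1 - t ^ 2 / 2 < inner ℝ (klein y) (v : E3) := hy
    show _ ≤ inner ℝ (klein y + s • w) (v : E3)
    rw [inner_add_left, real_inner_smul_left, real_inner_comm (v : E3) w, h2]
    linarith
  refine hull_subset hc hC ?_
  have h3 := (convex_convexHull ℝ _) (subset_convexHull ℝ _ (key _ hs))
    (subset_convexHull ℝ _ (key (-√(1 - ‖klein y‖ ^ 2)) (by rw [neg_sq, hs])))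
    (a := 1 / 2) (b := 1 / 2) (by norm_num) (by norm_num) (by norm_num)
  convert h3 using 1
  module

theorem interior_nonempty_of_ball {C : Set H3} (hc : IsClosed C) (hC : GConvex C) {v : S2}
    {t : ℝ} (ht : 0 < t) (h : closedBall v t ⊆ idealS C) : (interior C).Nonempty := by
  have h0 : 0 < min 1 (t ^ 2 / 4) := lt_min one_pos (by positivity)
  have h1 := min_le_left 1 (t ^ 2 / 4)
  have h2 := min_le_right 1 (t ^ 2 / 4)
  have hn : ‖(1 - min 1 (t ^ 2 / 4)) • (v : E3)‖ < 1 := by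
    rw [norm_smul, d3_norm, mul_one, Real.norm_eq_abs, abs_of_nonneg (by linarith)]
    linarith
  refine ⟨nrm (1, (1 - min 1 (t ^ 2 / 4)) • (v : E3)), half_subset hc hC ht.le h ?_⟩
  rw [klein_nrm (tl_one hn)]
  simp only [inv_one, one_smul, real_inner_smul_left, real_inner_self_eq_norm_sq, d3_norm]
  nlinarith [pow_pos ht 2]

theorem idealS_frontier {C : Set H3} (hc : IsClosed C) (hC : GConvex C) (hne : C.Nonempty) :
    idealS (frontier C) = frontier (idealS C) := by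
  ext u
  constructor
  · intro hu
    refine ⟨subset_closure (idealS_mono hc.frontier_subset hu), fun hi => ?_⟩
    obtain ⟨t, ht, hb⟩ := nhds_basis_closedBall.mem_iff.mp (mem_interior_iff_mem_nhds.mp hi)
    have ho : IsOpen {y : E3 | 1 - t ^ 2 / 2 < inner ℝ y (u : E3)} :=
      isOpen_lt continuous_const (continuous_id.inner continuous_const)
    obtain ⟨_, hy, x, hx, rfl⟩ := mem_closure_iff.mp hu _ ho (by
      show _ < inner ℝ (u : E3) (u : E3)
      rw [real_inner_self_eq_norm_sq, d3_norm]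
      nlinarith [pow_pos ht 2])
    exact hx.2 (half_subset hc hC ht.le hb hy)
  · intro hu
    have h1 : u ∈ idealS C := (isClosed_idealS C).frontier_subset hu
    have h2 : u ∈ closure (idealS C)ᶜ := by
      rw [closure_compl]
      exact hu.2
    refine Metric.mem_closure_iff.mpr fun ε hε => ?_
    obtain ⟨c, hcC, hA⟩ := (mem_idealS_iff_Aa hc hC).mp h1 (ε ^ 2 / 8) (by positivity)
    have ho : IsOpen ({u' : S2 | Aa u' c < ε ^ 2 / 8} ∩ ball u (ε / 2)) :=
      (isOpen_lt (continuous_Aa.comp (continuous_id.prodMk continuous_const))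
        continuous_const).inter isOpen_ball
    obtain ⟨u', ⟨h3, h4⟩, h5⟩ := mem_closure_iff.mp h2 _ ho ⟨hA, mem_ball_self (by positivity)⟩
    obtain ⟨p, hp⟩ := (exists_ovs_iff hc hC hne u').mpr h5
    refine ⟨klein p, mem_image_of_mem _ hp.mem_frontier, ?_⟩
    have h6 := sq_dist_klein_le u' p
    have h7 := hp.2 c hcC
    have h3' : Aa u' c < ε ^ 2 / 8 := h3
    have h8 : ‖klein p - (u' : E3)‖ < ε / 2 :=
      lt_of_pow_lt_pow_left₀ 2 (by positivity) (by nlinarith)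
    have h9 : dist (u' : E3) (u : E3) < ε / 2 := h4
    have h10 := dist_triangle_left (u : E3) (klein p) (u' : E3)
    rw [dist_comm (u' : E3) (klein p), dist_eq_norm (klein p)] at h10
    linarith

/-- Closed balls of the sphere are the nonempty traces of half spaces. -/
theorem mem_closedBall_iff_lor {u v : S2} {t : ℝ} (ht : 0 ≤ t) :
    u ∈ closedBall v t ↔ 0 ≤ lor ((1 : ℝ), (u : E3)) (1 - t ^ 2 / 2, (v : E3)) := by
  rw [d3_ball ht]
  simp only [lor, one_mul, sub_nonneg]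

theorem exists_ball_of_lor (m : ℝ × E3) : ∃ (v : S2) (t : ℝ),
    {u : S2 | 0 ≤ lor ((1 : ℝ), (u : E3)) m} = closedBall v t := by
  obtain ⟨w, hw, -⟩ := d3_orth 0 0
  have hemp : ∀ v : S2, closedBall v (-1) = ∅ := fun v => closedBall_eq_empty.mpr (by norm_num)
  simp only [lor, one_mul, sub_nonneg]
  by_cases h0 : m.2 = 0
  · by_cases h1 : m.1 ≤ 0
    · refine ⟨⟨w, by simpa using hw⟩, 2, ?_⟩
      ext u
      simp only [h0, inner_zero_right, h1, mem_ofPred_eq, mem_closedBall, dist_S2_le]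
    · refine ⟨⟨w, by simpa using hw⟩, -1, ?_⟩
      rw [hemp]
      ext u
      simp only [h0, inner_zero_right, h1, mem_ofPred_eq, mem_empty_iff_false]
  have hp : 0 < ‖m.2‖ := norm_pos_iff.mpr h0
  have hv : ‖‖m.2‖⁻¹ • m.2‖ = 1 := by
    rw [norm_smul, norm_inv, norm_norm, inv_mul_cancel₀ hp.ne']
  by_cases h1 : m.1 ≤ ‖m.2‖
  · refine ⟨⟨‖m.2‖⁻¹ • m.2, by simpa using hv⟩, √(2 * (1 - ‖m.2‖⁻¹ * m.1)), ?_⟩
    have h2 : ‖m.2‖⁻¹ * m.1 ≤ 1 := by
      rw [inv_mul_le_iff₀ hp, mul_one]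
      exact h1
    ext u
    rw [d3_ball (Real.sqrt_nonneg _), Real.sq_sqrt (by linarith), mem_ofPred_eq]
    show _ ↔ _ ≤ inner ℝ (u : E3) (‖m.2‖⁻¹ • m.2)
    rw [real_inner_smul_right, show 1 - 2 * (1 - ‖m.2‖⁻¹ * m.1) / 2 = ‖m.2‖⁻¹ * m.1 by ring,
      mul_le_mul_iff_right₀ (inv_pos.mpr hp)]
  · refine ⟨⟨w, by simpa using hw⟩, -1, ?_⟩
    rw [hemp]
    ext u
    have h2 := real_inner_le_norm (u : E3) m.2
    rw [d3_norm, one_mul] at h2
    simp only [mem_ofPred_eq, mem_empty_iff_false, iff_false, not_le]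
    linarith [not_le.mp h1]

/-- The reflection in a unit spacelike vector. -/
noncomputable def d3_L (n w : ℝ × E3) : ℝ × E3 := w - (2 * lor w n) • n

theorem d3_adj (n a b : ℝ × E3) : lor (d3_L n a) b = lor a (d3_L n b) := by
  simp only [d3_L, lor_sub_left, lor_sub_right, lor_smul_left, lor_smul_right, lor_comm n b]
  ring

theorem d3_inv {n : ℝ × E3} (hn : lor n n = 1) (a : ℝ × E3) : d3_L n (d3_L n a) = a := by
  simp only [d3_L, lor_sub_left, lor_smul_left, hn]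
  module

theorem d3_smul (n : ℝ × E3) (c : ℝ) (a : ℝ × E3) : d3_L n (c • a) = c • d3_L n a := by
  simp only [d3_L, lor_smul_left]
  module

theorem d3_sphere {n : ℝ × E3} (hn : lor n n = 1) {g : H3 ≃ᵢ H3} (hg : ∀ x, (g x).v = d3_L n x.v) :
    ∃ G : S2 ≃ₜ S2, (∀ u, G (G u) = u) ∧ ∀ u : S2, ∃ c : ℝ, 0 < c ∧
      d3_L n (1, (u : E3)) = c • ((1 : ℝ), (G u : E3)) := by
  have hpos : ∀ u : S2, 0 < (d3_L n (1, (u : E3))).1 := fun u => by
    have h := Aa_pos u (g Hyp.o)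
    rw [Aa, hg, d3_adj] at h
    simpa [lor, Hyp.o] using h
  have hnorm : ∀ u : S2, ‖((d3_L n (1, (u : E3))).1)⁻¹ • (d3_L n (1, (u : E3))).2‖ = 1 := fun u => by
    have h : lor (d3_L n (1, (u : E3))) (d3_L n (1, (u : E3))) = 0 := by
      rw [d3_adj, d3_inv hn, lor_one_self]
    have h1 : ‖(d3_L n (1, (u : E3))).2‖ = (d3_L n (1, (u : E3))).1 := by
      rw [← sq_eq_sq₀ (norm_nonneg _) (hpos u).le]
      rw [lor, real_inner_self_eq_norm_sq] at h
      linarith
    rw [norm_smul, h1, Real.norm_eq_abs, abs_of_pos (inv_pos.mpr (hpos u)),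
      inv_mul_cancel₀ (hpos u).ne']
  let F : S2 → S2 := fun u => ⟨_, mem_sphere_zero_iff_norm.mpr (hnorm u)⟩
  have hF : ∀ u : S2, d3_L n (1, (u : E3)) = (d3_L n (1, (u : E3))).1 • ((1 : ℝ), (F u : E3)) :=
    fun u => Prod.ext (by simp) (by simp [F, smul_smul, (hpos u).ne'])
  have hFF : ∀ u, F (F u) = u := fun u => by
    have h1 := congrArg (d3_L n) (hF u)
    rw [d3_inv hn, d3_smul, hF (F u), smul_smul] at h1
    have h2 := congrArg Prod.fst h1
    have h3 := congrArg Prod.snd h1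
    simp only [Prod.smul_fst, Prod.smul_snd, smul_eq_mul, mul_one] at h2 h3
    rw [← h2, one_smul] at h3
    exact Subtype.ext h3.symm
  have hL : Continuous fun u : S2 => d3_L n (1, (u : E3)) := by
    have h1 : Continuous fun u : S2 => ((1 : ℝ), (u : E3)) :=
      continuous_const.prodMk continuous_subtype_val
    exact h1.sub ((continuous_const.mul
      (continuous_lor.comp (h1.prodMk continuous_const))).smul continuous_const)
  have hc : Continuous F :=
    ((hL.fst.inv₀ fun u => (hpos u).ne').smul hL.snd).subtype_mk _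
  exact ⟨⟨⟨F, F, hFF, hFF⟩, hc, hc⟩, hFF, fun u => ⟨_, hpos u, hF u⟩⟩

/-- Normalisation of the base point. -/
theorem exists_normal (p : H3) : ∃ (g : H3 ≃ᵢ H3) (G : S2 ≃ₜ S2), g p = Hyp.o ∧
    (∀ C : Set H3, IsClosed C → GConvex C → idealS (g '' C) = G '' idealS C) ∧
    ∀ (v : S2) (t : ℝ), ∃ (v' : S2) (t' : ℝ), G '' closedBall v t = closedBall v' t' := by
  by_cases hp : p = Hyp.o
  · exact ⟨IsometryEquiv.refl _, Homeomorph.refl _, hp,
      fun C _ _ => (congrArg idealS (image_id C)).trans (image_id _).symm,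
      fun v t => ⟨v, t, by simp⟩⟩
  have h1 : 1 < -lor p.v (Hyp.o : H3).v :=
    (one_le_neg_lor p _).lt_of_ne fun h => hp (Hyp.eq_of_lor h.symm)
  set o : H3 := Hyp.o with ho
  have h2 : 0 < 2 * (-lor p.v o.v - 1) := by linarith
  have h3 := Real.sq_sqrt h2.le
  have h4 := (Real.sqrt_pos.mpr h2).ne'
  set s := √(2 * (-lor p.v o.v - 1)) with hs
  have hn : lor (s⁻¹ • (p.v - o.v)) (s⁻¹ • (p.v - o.v)) = 1 := by
    simp only [lor_smul_left, lor_smul_right, lor_sub_left, lor_sub_right, p.unit, o.unit,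
      lor_comm o.v p.v]
    field_simp
    linarith
  set n := s⁻¹ • (p.v - o.v) with hnd
  obtain ⟨g, hg⟩ := exists_refl hn
  obtain ⟨G, hG, hL⟩ := d3_sphere hn (g := g) hg
  have him : ∀ (A : Set S2) (w : S2), w ∈ G '' A ↔ G w ∈ A := fun A w =>
    ⟨fun ⟨u, hu, e⟩ => by rw [← e, hG]; exact hu, fun h => ⟨_, h, hG w⟩⟩
  refine ⟨g, G, Hyp.ext ?_, fun C hc hC => ?_, fun v t => ?_⟩
  · have h5 : 2 * lor p.v n * s⁻¹ = 1 := by
      rw [hnd, lor_smul_right, lor_sub_right, p.unit]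
      field_simp
      linarith
    rw [hg, hnd, smul_smul, ← hnd, h5, one_smul, sub_sub_cancel]
  · ext w
    obtain ⟨c, hc0, hw⟩ := hL w
    have hA : ∀ x : H3, Aa w (g x) = c * Aa (G w) x := fun x => by
      have h6 : (g x).v = d3_L n x.v := hg x
      rw [Aa, Aa, h6, d3_adj, hw, lor_smul_right]
      ring
    have hc' : IsClosed (g '' C) := g.toHomeomorph.isClosedMap _ hc
    rw [him, mem_idealS_iff_Aa hc' (hC.image g), mem_idealS_iff_Aa hc hC]
    constructor
    · intro h ε hε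
      obtain ⟨_, ⟨x, hx, rfl⟩, h7⟩ := h (c * ε) (by positivity)
      rw [hA] at h7
      exact ⟨x, hx, lt_of_mul_lt_mul_left h7 hc0.le⟩
    · intro h ε hε
      obtain ⟨x, hx, h7⟩ := h (ε / c) (by positivity)
      refine ⟨g x, mem_image_of_mem _ hx, ?_⟩
      rwa [hA, ← lt_div_iff₀' hc0]
  · rcases lt_or_ge t 0 with ht | ht
    · exact ⟨v, t, by rw [closedBall_eq_empty.mpr ht, image_empty]⟩
    obtain ⟨v', t', h⟩ := exists_ball_of_lor (d3_L n (1 - t ^ 2 / 2, (v : E3)))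
    refine ⟨v', t', ?_⟩
    ext w
    obtain ⟨c, hc0, hw⟩ := hL w
    rw [← h, him, mem_closedBall_iff_lor ht, mem_ofPred_eq, ← d3_adj, hw, lor_smul_left,
      mul_nonneg_iff_of_pos_left hc0]

theorem Realis.exists_normalised {S : Type} [MetricSpace S] (R : Realis S)
    (h : Round (idealS R.C)) (y : S) :
    ∃ R' : Realis S, R'.φ y = Hyp.o ∧ Round (idealS R'.C) := by
  obtain ⟨g, G, h1, h2, h3⟩ := exists_normal (R.φ y)
  obtain ⟨R', h4, h5⟩ := R.exists_map g
  refine ⟨R', by rw [h5, h1], ?_⟩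
  rw [h4, h2 _ R.closed R.convex]
  rintro _ ⟨u, hu, rfl⟩
  obtain ⟨v, t, h6⟩ := h u hu
  obtain ⟨v', t', h7⟩ := h3 v t
  exact ⟨v', t', by rw [← G.image_connectedComponentIn hu, h6, h7]⟩

end Pool.Agent.Lib.MP_44acff_gt.EK
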