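import Mathlib

/-! Hyperbolic space, convex domains, circle domains and complete surfaces. -/

open Set Metric Topology
open scoped ContDiff

namespace Pool.Agent.Lib.MP_44acff_gt.EK

noncomputable section

variable {E : Type} [NormedAddCommGroup E] [InnerProductSpace ℝ E]

/-- The Lorentz form of signature `(-,+,...,+)` on `ℝ × E`. -/
def lor (x y : ℝ × E) : ℝ := inner ℝ x.2 y.2 - x.1 * y.1

/-- Hyperbolic space over the Euclidean space `E`: the upper sheet of the hyperboloid. -/
@[ext]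
structure Hyp (E : Type) [NormedAddCommGroup E] [InnerProductSpace ℝ E] where
  v : ℝ × E
  unit : lor v v = -1
  pos : 0 < v.1

theorem lor_comm (x y : ℝ × E) : lor x y = lor y x := by
  unfold lor; rw [real_inner_comm]; ring

theorem lor_add_left (x y z : ℝ × E) : lor (x + y) z = lor x z + lor y z := by
  simp only [lor, Prod.fst_add, Prod.snd_add, inner_add_left]; ring

theorem lor_add_right (x y z : ℝ × E) : lor x (y + z) = lor x y + lor x z := by
  simp only [lor, Prod.fst_add, Prod.snd_add, inner_add_right]; ring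

theorem lor_sub_left (x y z : ℝ × E) : lor (x - y) z = lor x z - lor y z := by
  simp only [lor, Prod.fst_sub, Prod.snd_sub, inner_sub_left]; ring

theorem lor_sub_right (x y z : ℝ × E) : lor x (y - z) = lor x y - lor x z := by
  simp only [lor, Prod.fst_sub, Prod.snd_sub, inner_sub_right]; ring

theorem lor_smul_left (c : ℝ) (x y : ℝ × E) : lor (c • x) y = c * lor x y := by
  simp only [lor, Prod.smul_fst, Prod.smul_snd, smul_eq_mul, real_inner_smul_left]; ring

theorem lor_smul_right (c : ℝ) (x y : ℝ × E) : lor x (c • y) = c * lor x y := by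
  simp only [lor, Prod.smul_fst, Prod.smul_snd, smul_eq_mul, real_inner_smul_right]; ring

theorem lor_neg_left (x y : ℝ × E) : lor (-x) y = -lor x y := by
  simp only [lor, Prod.fst_neg, Prod.snd_neg, inner_neg_left]; ring

theorem lor_neg_right (x y : ℝ × E) : lor x (-y) = -lor x y := by
  simp only [lor, Prod.fst_neg, Prod.snd_neg, inner_neg_right]; ring

theorem Hyp.sq_fst (y : Hyp E) : y.v.1 ^ 2 = 1 + ‖y.v.2‖ ^ 2 := by
  have h := y.unit
  simp only [lor, real_inner_self_eq_norm_sq] at h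
  nlinarith

/-- The form is positive semidefinite on the orthogonal complement of a point. -/
theorem lor_self_nonneg (y : Hyp E) {u : ℝ × E} (h : lor u y.v = 0) : 0 ≤ lor u u := by
  have h1 := y.sq_fst
  have h2 := abs_real_inner_le_norm u.2 y.v.2
  have h3 : (inner ℝ u.2 y.v.2 : ℝ) ^ 2 ≤ (‖u.2‖ * ‖y.v.2‖) ^ 2 := by
    rw [← sq_abs]; exact pow_le_pow_left₀ (abs_nonneg _) h2 2
  simp only [lor, real_inner_self_eq_norm_sq] at h ⊢
  have h4 : (inner ℝ u.2 y.v.2 : ℝ) = u.1 * y.v.1 := by linarith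
  rw [h4] at h3
  have h5 : 0 < y.v.1 ^ 2 := pow_pos y.pos 2
  by_contra hneg
  have h6 : ‖u.2‖ ^ 2 < u.1 ^ 2 := by nlinarith
  nlinarith [sq_nonneg ‖u.2‖]

/-- Cauchy-Schwarz inequality on the orthogonal complement of a point. -/
theorem lor_sq_le (y : Hyp E) {u w : ℝ × E} (hu : lor u y.v = 0) (hw : lor w y.v = 0) :
    lor u w ^ 2 ≤ lor u u * lor w w := by
  have h : ∀ t : ℝ, 0 ≤ lor w w * (t * t) + 2 * lor u w * t + lor u u := by
    intro t
    have := lor_self_nonneg y (u := u + t • w) (by rw [lor_add_left, lor_smul_left, hu, hw]; ring)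
    simp only [lor_add_left, lor_add_right, lor_smul_left, lor_smul_right, lor_comm w u] at this
    linarith
  have := discrim_le_zero h
  unfold discrim at this
  nlinarith

theorem one_le_neg_lor (x y : Hyp E) : 1 ≤ -lor x.v y.v := by
  have h0 : lor (x.v + lor x.v y.v • y.v) y.v = 0 := by
    rw [lor_add_left, lor_smul_left, y.unit]; ring
  have h1 := lor_self_nonneg y h0
  simp only [lor_add_left, lor_add_right, lor_smul_left, lor_smul_right, x.unit, y.unit,
    lor_comm y.v x.v] at h1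
  have h2 : lor x.v y.v < 0 := by
    have h3 := real_inner_le_norm x.v.2 y.v.2
    have h4 : ‖x.v.2‖ < x.v.1 := by
      have := x.sq_fst; have := x.pos; nlinarith [norm_nonneg x.v.2]
    have h5 : ‖y.v.2‖ < y.v.1 := by
      have := y.sq_fst; have := y.pos; nlinarith [norm_nonneg y.v.2]
    have h6 : ‖x.v.2‖ * ‖y.v.2‖ < x.v.1 * y.v.1 :=
      mul_lt_mul'' h4 h5 (norm_nonneg _) (norm_nonneg _)
    unfold lor; linarith
  nlinarith

theorem Hyp.eq_of_lor {x y : Hyp E} (h : -lor x.v y.v = 1) : x = y := by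
  have h0 : lor (x.v - y.v) y.v = 0 := by rw [lor_sub_left, y.unit]; linarith
  have h1 : lor (x.v - y.v) (x.v - y.v) = 0 := by
    simp only [lor_sub_left, lor_sub_right, x.unit, y.unit, lor_comm y.v x.v]; linarith
  set u := x.v - y.v with hu
  have h2 := y.sq_fst
  have h3 := abs_real_inner_le_norm u.2 y.v.2
  have h4 : (inner ℝ u.2 y.v.2 : ℝ) ^ 2 ≤ (‖u.2‖ * ‖y.v.2‖) ^ 2 := by
    rw [← sq_abs]; exact pow_le_pow_left₀ (abs_nonneg _) h3 2
  simp only [lor, real_inner_self_eq_norm_sq] at h0 h1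
  have h5 : (inner ℝ u.2 y.v.2 : ℝ) = u.1 * y.v.1 := by linarith
  rw [h5] at h4
  have h6 : u.1 ^ 2 ≤ 0 := by nlinarith
  have h7 : u.1 = 0 := by nlinarith [sq_nonneg u.1]
  have h8 : u.2 = 0 := by
    rw [h7] at h1
    have : ‖u.2‖ = 0 := by nlinarith [norm_nonneg u.2]
    exact norm_eq_zero.mp this
  have h9 : u = 0 := Prod.ext h7 h8
  exact Hyp.ext (sub_eq_zero.mp h9)

theorem arcosh_triangle (x y z : Hyp E) :
    Real.arcosh (-lor x.v z.v) ≤ Real.arcosh (-lor x.v y.v) + Real.arcosh (-lor y.v z.v) := by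
  have ha := one_le_neg_lor x y
  have hb := one_le_neg_lor y z
  have hc := one_le_neg_lor x z
  have hu : lor (x.v + lor x.v y.v • y.v) y.v = 0 := by
    rw [lor_add_left, lor_smul_left, y.unit]; ring
  have hw : lor (z.v + lor y.v z.v • y.v) y.v = 0 := by
    rw [lor_add_left, lor_smul_left, y.unit, lor_comm z.v]; ring
  have h1 := lor_sq_le y hu hw
  simp only [lor_add_left, lor_add_right, lor_smul_left, lor_smul_right, x.unit, y.unit, z.unit,
    lor_comm y.v x.v, lor_comm z.v y.v] at h1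
  set a := -lor x.v y.v with hadef
  set b := -lor y.v z.v with hbdef
  set c := -lor x.v z.v with hcdef
  have e1 : lor x.v y.v = -a := by rw [hadef]; ring
  have e2 : lor y.v z.v = -b := by rw [hbdef]; ring
  have e3 : lor x.v z.v = -c := by rw [hcdef]; ring
  rw [e1, e2, e3] at h1
  have h2 : (c - a * b) ^ 2 ≤ (a ^ 2 - 1) * (b ^ 2 - 1) := by nlinarith
  have h3 : c - a * b ≤ √(a ^ 2 - 1) * √(b ^ 2 - 1) := by
    rw [← Real.sqrt_mul (by nlinarith)]
    exact Real.le_sqrt_of_sq_le h2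
  have h4 : c ≤ Real.cosh (Real.arcosh a + Real.arcosh b) := by
    rw [Real.cosh_add, Real.cosh_arcosh ha, Real.cosh_arcosh hb, Real.sinh_arcosh ha,
      Real.sinh_arcosh hb]
    linarith
  have h5 : 0 ≤ Real.arcosh a + Real.arcosh b :=
    add_nonneg (Real.arcosh_nonneg ha) (Real.arcosh_nonneg hb)
  rw [← Real.arcosh_cosh h5]
  exact (Real.arcosh_le_arcosh (by linarith) (Real.cosh_pos _)).mpr h4

/-- The hyperbolic metric (curvature `-1`): `cosh d(x,y) = - lor x y`. -/
instance : MetricSpace (Hyp E) where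
  dist x y := Real.arcosh (-lor x.v y.v)
  dist_self x := by rw [x.unit, neg_neg, Real.arcosh_zero]
  dist_comm x y := by rw [lor_comm]
  dist_triangle := arcosh_triangle
  eq_of_dist_eq_zero := fun {x y} h =>
    Hyp.eq_of_lor ((Real.arcosh_eq_zero_iff (one_le_neg_lor x y)).mp h)

/-- Euclidean 3-space. -/
abbrev E3 : Type := EuclideanSpace ℝ (Fin 3)

/-- Hyperbolic 3-space. -/
abbrev H3 : Type := Hyp E3

/-- The induced path metric on `A`: the infimum of the lengths of the paths from `x` to `y`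
that stay in `A`. -/
def pathDist {X : Type} [PseudoEMetricSpace X] (A : Set X) (x y : X) : ENNReal :=
  ⨅ (γ : Path x y) (_ : range γ ⊆ A), eVariationOn γ univ

/-- Geodesic convexity: `C` contains the geodesic segment between any two of its points. -/
def GConvex (C : Set (Hyp E)) : Prop :=
  ∀ x ∈ C, ∀ y ∈ C, ∀ z, dist x z + dist z y = dist x y → z ∈ C

/-- The Klein model: the image of a point in the open unit ball. -/
def klein (x : Hyp E) : E := (x.v.1)⁻¹ • x.v.2

/-- Stereographic identification of `CP¹ = ℂ ∪ {∞}` with the unit sphere. -/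
def st (ξ : OnePoint ℂ) : E3 :=
  ξ.elim !₂[0, 0, 1] fun z =>
    (‖z‖ ^ 2 + 1)⁻¹ • !₂[2 * z.re, 2 * z.im, ‖z‖ ^ 2 - 1]

/-- The ideal boundary of a subset of hyperbolic space: its limit points on `CP¹`. -/
def ideal (C : Set H3) : Set (OnePoint ℂ) := {ξ | st ξ ∈ closure (klein '' C)}

/-- A domain of the sphere whose complementary components are closed round discs or points
(discs of radius zero). -/
def CircleDomain (Γ : Set (OnePoint ℂ)) : Prop :=
  IsOpen Γ ∧ IsConnected Γ ∧ ∀ ξ ∉ Γ, ∃ (ζ : OnePoint ℂ) (t : ℝ),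
    connectedComponentIn Γᶜ ξ = {η | dist (st η) (st ζ) ≤ t}

/-- The plane domain `Ω` with the metric `lam ^ 2 |dz| ^ 2` is complete of constant curvature `K`:
curves of finite length stay in compact subsets. -/
structure CompleteSurface (K : ℝ) (Ω : Set ℂ) (lam : ℂ → ℝ) : Prop where
  isOpen : IsOpen Ω
  isConnected : IsConnected Ω
  smooth : ContDiffOn ℝ ∞ lam Ω
  pos : ∀ z ∈ Ω, 0 < lam z
  curv : ∀ z ∈ Ω, Laplacian.laplacian (fun w => Real.log (lam w)) z = -K * lam z ^ 2
  complete : ∀ γ : ℝ → ℂ, ContDiffOn ℝ 1 γ (Ico 0 1) → MapsTo γ (Ico 0 1) Ω →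
    MeasureTheory.IntegrableOn (fun s => lam (γ s) * ‖deriv γ s‖) (Ioo 0 1) →
    ∃ L : Set ℂ, IsCompact L ∧ L ⊆ Ω ∧ MapsTo γ (Ico 0 1) L

/-- The Riemannian distance of `lam ^ 2 |dz| ^ 2` on `Ω`: the infimum of the lengths of the
continuously differentiable curves from `x` to `y` in `Ω`. -/
def lamDist (Ω : Set ℂ) (lam : ℂ → ℝ) (x y : ℂ) : ENNReal :=
  ⨅ (γ : ℝ → ℂ) (_ : ContDiff ℝ 1 γ) (_ : MapsTo γ (Icc 0 1) Ω) (_ : γ 0 = x) (_ : γ 1 = y),
    ∫⁻ s in Ioo (0 : ℝ) 1, ENNReal.ofReal (lam (γ s) * ‖deriv γ s‖)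

/-- The surface `(Ω, lam ^ 2 |dz| ^ 2)` is isometric to the boundary, with its induced path metric,
of a closed convex domain `C` that contains the convex hull of the complement of `Γ`, accumulates
exactly on that complement, and whose boundary accumulates exactly on the boundary of `Γ`. -/
def Realises (Ω : Set ℂ) (lam : ℂ → ℝ) (Γ : Set (OnePoint ℂ)) : Prop :=
  ∃ C : Set H3, IsClosed C ∧ GConvex C ∧ (interior C).Nonempty ∧
    (∀ x : H3, klein x ∈ convexHull ℝ (st '' Γᶜ) → x ∈ C) ∧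
    ideal C = Γᶜ ∧ ideal (frontier C) = frontier Γ ∧
    ∃ φ : ℂ → H3, φ '' Ω = frontier C ∧
      ∀ x ∈ Ω, ∀ y ∈ Ω, lamDist Ω lam x y = pathDist (frontier C) (φ x) (φ y)

/-- A Moebius or anti-Moebius transformation carries `Γ₁` onto `Γ₂`. -/
def MobEquiv (Γ₁ Γ₂ : Set (OnePoint ℂ)) : Prop :=
  ∃ g : GL (Fin 2) ℂ, (fun ξ => g • ξ) '' Γ₁ = Γ₂ ∨
    (fun ξ => g • OnePoint.map (starRingEnd ℂ) ξ) '' Γ₁ = Γ₂

end

end Pool.Agent.Lib.MP_44acff_gt.EK
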