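import Pool.Agent.Lib.MP_44acff_gt.EK.E0

open Set Metric Topology Filter MeasureTheory

namespace Pool.Agent.Lib.MP_44acff_gt.EK

variable {P : S2} {ch : ℂ → S2}

theorem sp_pos (s : ℝ) : 0 < √(1 + s ^ 2) := Real.sqrt_pos.2 (by positivity)

theorem sp_sq (s : ℝ) : √(1 + s ^ 2) ^ 2 = 1 + s ^ 2 := Real.sq_sqrt (by positivity)

theorem IsChart.injective (h : IsChart P ch) : Function.Injective ch := by
  intro z w e
  have h1 := h.dist_eq z w
  rw [e, dist_self, eq_comm, div_eq_zero_iff] at h1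
  rcases h1 with h1 | h1
  · exact sub_eq_zero.1 (norm_eq_zero.1 (by linarith))
  · exact absurd h1 (mul_pos (sp_pos _) (sp_pos _)).ne'

theorem IsChart.sp_pole_pos (h : IsChart P ch) (z : ℂ) : 0 < dist (ch z) P := by
  rw [h.dist_pole]
  exact div_pos two_pos (sp_pos _)

theorem IsChart.ne_pole (h : IsChart P ch) (z : ℂ) : ch z ≠ P := dist_pos.1 (h.sp_pole_pos z)

/-- A chart centred at a given point. -/
theorem exists_chart_centre (v : S2) : ∃ P ch, IsChart P ch ∧ ch 0 = v := by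
  obtain ⟨ch, h⟩ := exists_chart (-v)
  refine ⟨_, ch, h, ?_⟩
  have h1 := h.dist_pole 0
  simp only [norm_zero, ne_eq, OfNat.ofNat_ne_zero, not_false_eq_true, zero_pow, add_zero,
    Real.sqrt_one, div_one] at h1
  rw [Subtype.dist_eq, dist_eq_norm, coe_neg_sphere, sub_neg_eq_add] at h1
  have h2 := parallelogram_law_with_norm ℝ ((ch 0 : S2) : E3) (v : E3)
  rw [h1, norm_eq_of_mem_sphere, norm_eq_of_mem_sphere] at h2
  exact Subtype.ext (sub_eq_zero.1 (norm_eq_zero.1 (by nlinarith)))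

theorem sp_lt {a b : ℝ} (ha : 0 ≤ a) (hab : a < b) :
    2 * a / √(1 + a ^ 2) < 2 * b / √(1 + b ^ 2) := by
  have h1 : a * √(1 + b ^ 2) < b * √(1 + a ^ 2) := by
    apply lt_of_pow_lt_pow_left₀ 2 (mul_nonneg (ha.trans hab.le) (sp_pos a).le)
    rw [mul_pow, mul_pow, sp_sq, sp_sq]
    nlinarith
  rw [div_lt_div_iff₀ (sp_pos a) (sp_pos b)]
  linarith

theorem sp_le {a b : ℝ} (ha : 0 ≤ a) (hab : a ≤ b) :
    2 * a / √(1 + a ^ 2) ≤ 2 * b / √(1 + b ^ 2) :=
  hab.eq_or_lt.elim (fun e => by rw [e]) fun e => (sp_lt ha e).le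

theorem sp_lt_two (a : ℝ) : 2 * a / √(1 + a ^ 2) < 2 := by
  rw [div_lt_iff₀ (sp_pos a)]
  have : a < √(1 + a ^ 2) := Real.lt_sqrt_of_sq_lt (by linarith)
  linarith

theorem IsChart.sp_dist (h : IsChart P ch) (z : ℂ) :
    dist (ch z) (ch 0) = 2 * ‖z‖ / √(1 + ‖z‖ ^ 2) := by
  rw [h.dist_eq]
  simp

theorem IsChart.sp_two (h : IsChart P ch) : dist P (ch 0) = 2 := by
  rw [dist_comm, h.dist_pole]
  simp

theorem IsChart.sp_tendsto (h : IsChart P ch) :
    Tendsto (fun s : ℝ => ch s) atTop (𝓝 P) := by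
  rw [tendsto_iff_dist_tendsto_zero]
  simp only [h.dist_pole]
  refine tendsto_const_nhds.div_atTop (tendsto_atTop_mono (fun s => ?_) tendsto_id)
  refine Real.le_sqrt_of_sq_le ?_
  rw [Complex.norm_real, Real.norm_eq_abs, sq_abs, id]
  linarith

theorem sp_conn (v : S2) {I : Set ℝ} (hI : OrdConnected I) :
    IsPreconnected {u : S2 | dist u v ∈ I} := by
  obtain ⟨P, ch, h, rfl⟩ := exists_chart_centre v
  let J : Set ℝ := {s | 0 ≤ s ∧ 2 * s / √(1 + s ^ 2) ∈ I}
  have hJ : OrdConnected J := ⟨fun a ha b hb s hs => ⟨ha.1.trans hs.1,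
    hI.out ha.2 hb.2 ⟨sp_le ha.1 hs.1, sp_le (ha.1.trans hs.1) hs.2⟩⟩⟩
  let F : ℝ × ℝ → S2 := fun x => ch (circleMap 0 x.1 x.2)
  have hF : Continuous F := h.cont.comp (by unfold circleMap; fun_prop)
  have hc : IsPreconnected (F '' (J ×ˢ univ)) :=
    (hJ.isPreconnected.prod isPreconnected_univ).image F hF.continuousOn
  have hm : ∀ z : ℂ, dist (ch z) (ch 0) ∈ I → ch z ∈ F '' (J ×ˢ univ) := fun z hz => by
    refine ⟨(‖z‖, z.arg), ⟨⟨norm_nonneg _, by rwa [h.sp_dist] at hz⟩, trivial⟩, ?_⟩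
    simp only [F, circleMap, zero_add, Complex.norm_mul_exp_arg_mul_I]
  by_cases hn : ∃ z : ℂ, dist (ch z) (ch 0) ∈ I
  · obtain ⟨z, hz⟩ := hn
    refine hc.subset_closure ?_ fun u hu => ?_
    · rintro _ ⟨⟨s, θ⟩, ⟨hs, -⟩, rfl⟩
      simp only [F, mem_ofPred_eq, h.sp_dist, norm_circleMap_zero, abs_of_nonneg hs.1]
      exact hs.2
    by_cases hP : u = P
    · subst hP
      refine mem_closure_of_tendsto h.sp_tendsto ?_
      filter_upwards [eventually_ge_atTop ‖z‖] with s hs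
      refine hm _ (hI.out hz hu ⟨?_, ?_⟩)
      · rw [h.sp_dist, h.sp_dist]
        refine sp_le (norm_nonneg _) (hs.trans ?_)
        rw [Complex.norm_real]
        exact le_abs_self s
      · rw [h.sp_dist, h.sp_two]
        exact (sp_lt_two _).le
    · obtain ⟨w, rfl⟩ := h.surj u hP
      exact subset_closure (hm w hu)
  · refine Set.Subsingleton.isPreconnected (subsingleton_of_forall_eq P fun u hu => ?_)
    by_contra hP
    obtain ⟨w, rfl⟩ := h.surj u hP
    exact hn ⟨w, hu⟩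

theorem isPreconnected_closedBall_S2 (v : S2) (t : ℝ) : IsPreconnected (closedBall v t) :=
  sp_conn v (I := Iic t) ordConnected_Iic

theorem isPreconnected_ball_S2 (v : S2) (t : ℝ) : IsPreconnected (ball v t) :=
  sp_conn v (I := Iio t) ordConnected_Iio

theorem isPreconnected_ring (v : S2) {t : ℝ} (ht : 0 ≤ t) (t' : ℝ) :
    IsPreconnected (ball v t' \ closedBall v t) := by
  have := ht
  convert sp_conn v (I := Ioo t t') ordConnected_Ioo using 1
  ext u
  simp [and_comm]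

theorem closedBall_subset_closure_ball (v : S2) {t : ℝ} (ht : 0 < t) :
    closedBall v t ⊆ closure (ball v t) := by
  obtain ⟨P, ch, h, rfl⟩ := exists_chart_centre v
  intro u hu
  rw [mem_closedBall] at hu
  by_cases hP : u = P
  · subst hP
    refine mem_closure_of_tendsto h.sp_tendsto (Eventually.of_forall fun s => ?_)
    rw [h.sp_two] at hu
    rw [mem_ball, h.sp_dist]
    exact (sp_lt_two _).trans_le hu
  obtain ⟨w, rfl⟩ := h.surj u hP
  by_cases hw : w = 0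
  · subst hw
    exact subset_closure (mem_ball_self ht)
  have h1 : Tendsto (fun s : ℝ => ch (s * w)) (𝓝[<] 1) (𝓝 (ch w)) := by
    have : Continuous fun s : ℝ => ch (s * w) := h.cont.comp (by fun_prop)
    simpa using (this.tendsto 1).mono_left nhdsWithin_le_nhds
  refine mem_closure_of_tendsto h1 ?_
  filter_upwards [Ioo_mem_nhdsLT (zero_lt_one' ℝ)] with s hs
  rw [h.sp_dist] at hu
  rw [mem_ball, h.sp_dist]
  refine (sp_lt (norm_nonneg _) ?_).trans_le hu
  rw [norm_mul, Complex.norm_real, Real.norm_eq_abs, abs_of_pos hs.1]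
  exact mul_lt_of_lt_one_left (norm_pos_iff.2 hw) hs.2

/-- A ball that is not the whole sphere has a point in the closure of its complement. -/
theorem exists_mem_closure_compl (v : S2) {t : ℝ} (ht : 0 ≤ t) (h : closedBall v t ≠ univ) :
    (closedBall v t ∩ closure (closedBall v t)ᶜ).Nonempty := by
  have : PreconnectedSpace S2 := ⟨sp_conn v (I := univ) ordConnected_univ⟩
  have h1 := nonempty_frontier_iff.2 ⟨nonempty_closedBall.2 ht, h⟩
  rwa [frontier_eq_closure_inter_closure, isClosed_closedBall.closure_eq] at h1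

theorem exists_ne_mem_closedBall (v : S2) {t : ℝ} (ht : 0 < t) :
    ∃ u ∈ closedBall v t, u ≠ v := by
  obtain ⟨P, ch, h, rfl⟩ := exists_chart_centre v
  have h1 : ∀ᶠ z in 𝓝[≠] (0 : ℂ), ch z ∈ closedBall (ch 0) t :=
    mem_nhdsWithin_of_mem_nhds (h.cont.continuousAt (closedBall_mem_nhds _ ht))
  obtain ⟨z, hz, hz'⟩ := (h1.and self_mem_nhdsWithin).exists
  exact ⟨_, hz, fun e => hz' (h.injective e)⟩

/-- Points near a ball are near a point of the ball. -/
theorem ball_subset_of_nhds {v : S2} {t : ℝ} (ht : 0 ≤ t) {V : Set S2} (hV : IsOpen V)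
    (h : closedBall v t ⊆ V) : ∃ t' > t, ball v t' ⊆ V := by
  have := ht
  rcases Vᶜ.eq_empty_or_nonempty with e | e
  · exact ⟨t + 1, by linarith, by rw [compl_empty_iff.1 e]; exact subset_univ _⟩
  obtain ⟨u, hu, hm⟩ := hV.isClosed_compl.isCompact.exists_isMinOn e
    (f := fun u => dist u v) (by fun_prop)
  refine ⟨dist u v, lt_of_not_ge fun hh => hu (h hh), fun w hw => ?_⟩
  by_contra hw'
  exact (mem_ball.1 hw).not_ge (hm hw')

theorem sp_quad (a p q d : ℝ) (c : ℂ) : ∃ A B C θ₀ : ℝ, 0 ≤ B ∧ ∀ r θ : ℝ,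
    a * ‖circleMap c r θ‖ ^ 2 - (p * (circleMap c r θ).re + q * (circleMap c r θ).im) + d =
      A * r ^ 2 - B * r * Real.cos (θ - θ₀) + C := by
  let β : ℂ := ⟨p - 2 * a * c.re, q - 2 * a * c.im⟩
  refine ⟨a, ‖β‖, a * (c.re ^ 2 + c.im ^ 2) - (p * c.re + q * c.im) + d, β.arg, norm_nonneg _,
    fun r θ => ?_⟩
  have h1 : ‖β‖ * Real.cos β.arg = p - 2 * a * c.re := Complex.norm_mul_cos_arg β
  have h2 : ‖β‖ * Real.sin β.arg = q - 2 * a * c.im := Complex.norm_mul_sin_arg β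
  have h3 : (circleMap c r θ).re = c.re + r * Real.cos θ := by
    simp [circleMap, Complex.exp_ofReal_mul_I_re]
  have h4 : (circleMap c r θ).im = c.im + r * Real.sin θ := by
    simp [circleMap, Complex.exp_ofReal_mul_I_im]
  rw [Complex.sq_norm, Complex.normSq_apply, h3, h4, Real.cos_sub]
  linear_combination r * Real.cos θ * h1 + r * Real.sin θ * h2 +
    a * r ^ 2 * Real.cos_sq_add_sin_sq θ

/-- A closed ball read on the circles about `c`. -/
theorem IsChart.ball_circle (h : IsChart P ch) (v : S2) {t : ℝ} (ht : 0 ≤ t) (c : ℂ) :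
    ∃ A B C θ₀ : ℝ, 0 ≤ B ∧ ∀ r θ : ℝ, ch (circleMap c r θ) ∈ closedBall v t ↔
      A * r ^ 2 - B * r * Real.cos (θ - θ₀) + C ≤ 0 := by
  by_cases hP : v = P
  · subst hP
    obtain ⟨A, B, C, θ₀, hB, e⟩ := sp_quad (-t ^ 2) 0 0 (4 - t ^ 2) c
    refine ⟨A, B, C, θ₀, hB, fun r θ => ?_⟩
    rw [← e, mem_closedBall, h.dist_pole, div_le_iff₀ (sp_pos _),
      ← pow_le_pow_iff_left₀ zero_le_two (mul_nonneg ht (sp_pos _).le) two_ne_zero, mul_pow, sp_sq]
    constructor <;> intro <;> linarith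
  · obtain ⟨w, rfl⟩ := h.surj v hP
    obtain ⟨A, B, C, θ₀, hB, e⟩ := sp_quad (4 - t ^ 2 * (1 + ‖w‖ ^ 2)) (8 * w.re) (8 * w.im)
      (4 * ‖w‖ ^ 2 - t ^ 2 * (1 + ‖w‖ ^ 2)) c
    refine ⟨A, B, C, θ₀, hB, fun r θ => ?_⟩
    rw [← e]
    generalize circleMap c r θ = z
    have h1 : ‖z - w‖ ^ 2 = ‖z‖ ^ 2 - 2 * (w.re * z.re + w.im * z.im) + ‖w‖ ^ 2 := by
      simp only [Complex.sq_norm, Complex.normSq_apply, Complex.sub_re, Complex.sub_im]
      ring
    have hp := mul_pos (sp_pos ‖z‖) (sp_pos ‖w‖)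
    rw [mem_closedBall, h.dist_eq, div_le_iff₀ hp,
      ← pow_le_pow_iff_left₀ (by positivity) (mul_nonneg ht hp.le) two_ne_zero, mul_pow, mul_pow,
      mul_pow, sp_sq, sp_sq, h1]
    constructor <;> intro <;> linarith

theorem sp_cos {a b x : ℝ} (ha : 0 ≤ a) (hb : b ≤ 2 * Real.pi) (h1 : a ≤ x) (h2 : x ≤ b) :
    Real.cos x ≤ Real.cos a ∨ Real.cos x ≤ Real.cos b := by
  rcases le_total x Real.pi with h | h
  · exact Or.inl (Real.cos_le_cos_of_nonneg_of_le_pi ha h h1)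
  · right
    rw [← Real.cos_two_pi_sub x, ← Real.cos_two_pi_sub b]
    exact Real.cos_le_cos_of_nonneg_of_le_pi (by linarith) (by linarith) (by linarith)

/-- Two points of a circle outside a ball are joined by an arc outside the ball. -/
theorem IsChart.joins (h : IsChart P ch) (v : S2) (t : ℝ) {Y₁ Y₀ : Set S2}
    (h₁ : Disjoint Y₁ (closedBall v t)) (h₀ : Disjoint Y₀ (closedBall v t)) (c : ℂ) {r : ℝ}
    (hr : 0 < r) (m₁ : ∃ θ, ch (circleMap c r θ) ∈ Y₁) (m₀ : ∃ θ, ch (circleMap c r θ) ∈ Y₀) :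
    Joins ch (closedBall v t) Y₁ Y₀ c r := by
  obtain ⟨A, B, C, θ₀, hB, e⟩ : ∃ A B C θ₀ : ℝ, 0 ≤ B ∧ ∀ r θ : ℝ,
      ch (circleMap c r θ) ∈ closedBall v t ↔ A * r ^ 2 - B * r * Real.cos (θ - θ₀) + C ≤ 0 := by
    rcases le_or_gt 0 t with ht | ht
    · exact h.ball_circle v ht c
    · exact ⟨0, 0, 1, 0, le_rfl, fun r θ => by simp [closedBall_eq_empty.2 ht]⟩
  obtain ⟨a, ha⟩ := m₁
  obtain ⟨b, hb⟩ := m₀
  obtain ⟨a', ha', ea⟩ := (periodic_circleMap c r).exists_mem_Ico Real.two_pi_pos a θ₀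
  obtain ⟨b', hb', eb⟩ := (periodic_circleMap c r).exists_mem_Ico Real.two_pi_pos b θ₀
  rw [ea] at ha
  rw [eb] at hb
  have n1 := (e r a').not.1 (disjoint_left.1 h₁ ha)
  have n2 := (e r b').not.1 (disjoint_left.1 h₀ hb)
  refine ⟨a', b', abs_le.2 ⟨by linarith [ha'.1, hb'.2], by linarith [ha'.2, hb'.1]⟩, ha, hb,
    fun θ hθ => ?_⟩
  have key : Real.cos (θ - θ₀) ≤ Real.cos (a' - θ₀) ∨ Real.cos (θ - θ₀) ≤ Real.cos (b' - θ₀) := by
    rcases mem_uIcc.1 hθ with hh | hh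
    · exact sp_cos (by linarith [ha'.1]) (by linarith [hb'.2]) (by linarith [hh.1])
        (by linarith [hh.2])
    · exact (sp_cos (by linarith [hb'.1]) (by linarith [ha'.2]) (by linarith [hh.1])
        (by linarith [hh.2])).symm
  rw [e]
  have hBr := mul_nonneg hB hr.le
  rcases key with k | k <;> linarith [mul_le_mul_of_nonneg_left k hBr, not_le.1 n1, not_le.1 n2]

/-- A preconnected subset of the sphere with points on both sides of a circle meets it. -/
theorem IsChart.meets (h : IsChart P ch) {Y : Set S2} (hY : IsPreconnected Y) (c : ℂ) {r : ℝ}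
    (hr : 0 < r) {z : ℂ} (hz : ch z ∈ closure Y) (hz' : ‖z - c‖ < r)
    (hw : P ∈ closure Y ∨ ∃ w, ch w ∈ closure Y ∧ r < ‖w - c‖) :
    ∃ θ, ch (circleMap c r θ) ∈ Y := by
  let F : S2 → ℝ := fun u => 2 * dist u (ch c) - r * (dist u P * dist (ch c) P)
  have hF : Continuous F := by fun_prop
  have e : ∀ w, F (ch w) = (‖w - c‖ - r) * (dist (ch w) P * dist (ch c) P) := fun w => by
    have := (sp_pos ‖w‖).ne'
    have := (sp_pos ‖c‖).ne'
    simp only [F, h.dist_eq, h.dist_pole]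
    field_simp
  have p : ∀ w, 0 < dist (ch w) P * dist (ch c) P := fun w =>
    mul_pos (h.sp_pole_pos w) (h.sp_pole_pos c)
  have hP : 0 < F P := by
    simp only [F, dist_self, zero_mul, mul_zero, sub_zero, dist_comm P]
    linarith [h.sp_pole_pos c]
  obtain ⟨y₁, h1, m1⟩ := mem_closure_iff.1 hz {u | F u < 0} (isOpen_lt hF continuous_const)
    (by rw [mem_ofPred_eq, e]; exact mul_neg_of_neg_of_pos (by linarith) (p z))
  obtain ⟨y₂, h2, m2⟩ : ∃ y, 0 < F y ∧ y ∈ Y := by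
    rcases hw with hw | ⟨w, hw, hw'⟩
    · exact mem_closure_iff.1 hw {u | 0 < F u} (isOpen_lt continuous_const hF) hP
    · exact mem_closure_iff.1 hw {u | 0 < F u} (isOpen_lt continuous_const hF)
        (by rw [mem_ofPred_eq, e]; exact mul_pos (by linarith) (p w))
  obtain ⟨y, hy, h0⟩ := hY.intermediate_value m1 m2 hF.continuousOn
    (show (0 : ℝ) ∈ Icc (F y₁) (F y₂) from ⟨le_of_lt h1, h2.le⟩)
  obtain ⟨w, rfl⟩ := h.surj y (by rintro rfl; exact hP.ne' h0)
  rw [e, mul_eq_zero, or_iff_left (p w).ne', sub_eq_zero] at h0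
  obtain ⟨θ, hθ⟩ : w ∈ range (circleMap c r) := by
    rw [range_circleMap, abs_of_pos hr, mem_sphere_iff_norm]
    exact h0
  exact ⟨θ, hθ ▸ hy⟩

end Pool.Agent.Lib.MP_44acff_gt.EK
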