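import Pool.Agent.Lib.MP_44acff_gt.EK.En
import Pool.Agent.Lib.MP_44acff_gt.EK.Sp

open Set Metric Topology Filter MeasureTheory

namespace Pool.Agent.Lib.MP_44acff_gt.EK

variable {S : Type} [MetricSpace S] {E : Set ℂ} {k : ℝ} {pr : S → ℂ} {ι : Type} {Q : ι → Set ℂ}
  {I : Finset ι}

theorem ends_sub (hQ : Stage E Q I) {i : ι} (hi : i ∈ I) : Q i ⊆ E := by
  rw [hQ.union]; exact subset_biUnion_of_mem (u := Q) hi

theorem ends_thick (hQ : Stage E Q I) {i : ι} (hi : i ∈ I) {V : Set ℂ} (hV : IsOpen V)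
    (h : Q i ⊆ V) : ∃ η : ℝ, 0 < η ∧ thickening η (Q i) \ E ⊆ V := by
  obtain ⟨r, hr⟩ := hQ.bdd.subset_closedBall 0
  have hK : IsCompact (Q i ∩ closedBall 0 (r + 1)) :=
    (isCompact_closedBall 0 (r + 1)).inter_left (hQ.closed i hi)
  obtain ⟨δ, hδ, h1⟩ := hK.exists_thickening_subset_open hV (inter_subset_left.trans h)
  refine ⟨min δ 1, by positivity, fun z hz => h1 ?_⟩
  obtain ⟨q, hq, hd⟩ := mem_thickening_iff.1 hz.1
  refine mem_thickening_iff.2 ⟨q, ⟨hq, ?_⟩, hd.trans_le (min_le_left _ _)⟩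
  have h2 : dist z 0 ≤ r := hr hz.2
  have h3 := dist_triangle_left q 0 z
  have h4 := hd.trans_le (min_le_right _ _)
  rw [mem_closedBall]
  linarith

theorem ends_sep (hQ : Stage E Q I) : ∃ η : ℝ, 0 < η ∧ ∀ i ∈ I, ∀ j ∈ I, i ≠ j →
    Disjoint (thickening η (Q i) \ E) (thickening η (Q j) \ E) := by
  have h1 : ∀ i ∈ I, ∀ j ∈ I, ∀ᶠ η in 𝓝[>] (0 : ℝ), i ≠ j →
      Disjoint (thickening η (Q i) \ E) (thickening η (Q j) \ E) := by
    intro i hi j hj
    by_cases hij : i = j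
    · exact Eventually.of_forall fun _ h => (h hij).elim
    obtain ⟨U, V, hU, hV, h1, h2, h3⟩ :=
      normal_separation (hQ.closed i hi) (hQ.closed j hj) (hQ.disj i hi j hj hij)
    obtain ⟨a, ha, ha'⟩ := ends_thick hQ hi hU h1
    obtain ⟨b, hb, hb'⟩ := ends_thick hQ hj hV h2
    filter_upwards [Ioo_mem_nhdsGT ha, Ioo_mem_nhdsGT hb] with η h4 h5 _
    exact h3.mono ((sdiff_subset_sdiff_left (thickening_mono h4.2.le _)).trans ha')
      ((sdiff_subset_sdiff_left (thickening_mono h5.2.le _)).trans hb')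
  have h2 := (eventually_all_finset I).2 fun i hi => (eventually_all_finset I).2 (h1 i hi)
  obtain ⟨η, h3, h4⟩ := (h2.and self_mem_nhdsWithin).exists
  exact ⟨η, h4, h3⟩

theorem ends_piece (hE : E.Nonempty) (hQ : Stage E Q I) {z : ℂ} {η : ℝ} (h : infDist z E < η) :
    ∃ i ∈ I, z ∈ thickening η (Q i) := by
  obtain ⟨q, hq, hd⟩ := (infDist_lt_iff hE).1 h
  rw [hQ.union] at hq
  obtain ⟨i, hi, hqi⟩ := mem_iUnion₂.1 hq
  exact ⟨i, hi, mem_thickening_iff.2 ⟨q, hqi, hd⟩⟩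

theorem ends_frontier (hQ : Stage E Q I) {i : ι} (hi : i ∈ I) :
    (closure Eᶜ ∩ Q i).Nonempty := by
  by_contra hcon
  rw [not_nonempty_iff_eq_empty] at hcon
  obtain ⟨η, hη, h1⟩ := ends_thick hQ hi (V := (closure Eᶜ)ᶜ) isClosed_closure.isOpen_compl
    fun z hz hz' => (hcon ▸ (⟨hz', hz⟩ : z ∈ closure Eᶜ ∩ Q i) : z ∈ (∅ : Set ℂ))
  obtain ⟨V, -, -, h2, h3⟩ := hQ.collar i hi η hη
  obtain ⟨z, hz⟩ := h3.nonempty
  exact h1 ⟨h2 hz.1, hz.2⟩ (subset_closure hz.2)

/-- The ideal points attached to a plane set. -/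
def ends_att (R : Realis S) (pr : S → ℂ) (A : Set ℂ) : Set S2 :=
  {u | ∀ η : ℝ, 0 < η → u ∈ closure (Sh R (pr ⁻¹' thickening η A))}

theorem ends_sh_notMem {R : Realis S} {Y : Set S} {u : S2} (h : u ∈ Sh R Y) :
    u ∉ idealS R.C := by
  obtain ⟨y, -, hy⟩ := h
  exact (exists_ov_iff R u).1 ⟨y, hy⟩

theorem ends_att_sub (R : Realis S) (h : Pl S E k pr) {A : Set ℂ} (hA : A ⊆ E) :
    ends_att R pr A ⊆ idealS R.C := by
  intro u hu
  by_contra hn
  obtain ⟨y, hy⟩ := (exists_ov_iff R u).2 hn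
  have hd : 0 < infDist (pr y) E := (h.closed.notMem_iff_infDist_pos h.ne).1 (h.notMem y)
  have hc : Continuous fun y' => infDist (pr y') E :=
    (continuous_infDist_pt E).comp h.isOpenEmbedding.continuous
  have hV : {y' | infDist (pr y) E / 2 < infDist (pr y') E} ∈ 𝓝 y :=
    (isOpen_lt continuous_const hc).mem_nhds (by simpa using hd)
  obtain ⟨u', ⟨y', hy', h1⟩, y'', h2, h3⟩ :=
    mem_closure_iff_nhds.1 (hu (infDist (pr y) E / 2) (by positivity)) _ (ov_cont hy hV)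
  obtain rfl := ov_unique h1 h3
  obtain ⟨q, hq, hd'⟩ := mem_thickening_iff.1 h2
  exact absurd (hy'.trans_le (infDist_le_dist_of_mem (hA hq))) (not_lt.2 hd'.le)

theorem ends_att_ne (R : Realis S) {A : Set ℂ} {Y : Set S}
    (hY : (closure (pr '' Y) ∩ A).Nonempty) :
    (closure (Sh R Y) ∩ ends_att R pr A).Nonempty := by
  obtain ⟨q, hq, hqA⟩ := hY
  have h1 : ∀ n : ℕ, ∃ u : S2, ∃ y ∈ Y, Ov R u y ∧ dist (pr y) q < 1 / ((n : ℝ) + 1) := by
    intro n
    obtain ⟨_, ⟨y, hy, rfl⟩, hd⟩ := Metric.mem_closure_iff.1 hq (1 / ((n : ℝ) + 1)) (by positivity)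
    obtain ⟨u, hu⟩ := ov_surj R y
    exact ⟨u, y, hy, hu, by rwa [dist_comm]⟩
  choose u y hy hu hd using h1
  obtain ⟨a, -, φ, hφ, ha⟩ := isCompact_univ.tendsto_subseq (x := u) fun n => mem_univ _
  refine ⟨a, mem_closure_of_tendsto ha (Eventually.of_forall fun n => ⟨y _, hy _, hu _⟩),
    fun η hη => mem_closure_of_tendsto ha ?_⟩
  have h2 := (tendsto_one_div_add_atTop_nhds_zero_nat (𝕜 := ℝ)).comp hφ.tendsto_atTop
  filter_upwards [h2.eventually (gt_mem_nhds hη)] with n hn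
  exact ⟨y _, mem_thickening_iff.2 ⟨q, hqA, (hd _).trans hn⟩, hu _⟩

theorem ends_att_conn (R : Realis S) (h : Pl S E k pr) (hQ : Stage E Q I) {i : ι} (hi : i ∈ I) :
    IsPreconnected (ends_att R pr (Q i)) := by
  have hcl : IsClosed (ends_att R pr (Q i)) := by
    have : ends_att R pr (Q i) =
        ⋂ η : ℝ, ⋂ _ : 0 < η, closure (Sh R (pr ⁻¹' thickening η (Q i))) := by
      ext u; simp [ends_att]
    rw [this]
    exact isClosed_iInter fun _ => isClosed_iInter fun _ => isClosed_closure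
  rw [isPreconnected_iff_subset_of_fully_disjoint_closed hcl]
  intro A B hA hB hsub hAB
  obtain ⟨U, V, hU, hV, h1, h2, h3⟩ := normal_separation hA hB hAB
  have h4 : ∃ η : ℝ, 0 < η ∧ closure (Sh R (pr ⁻¹' thickening η (Q i))) ⊆ U ∪ V := by
    have hne : Nonempty {η : ℝ // 0 < η} := ⟨⟨1, one_pos⟩⟩
    obtain ⟨η, hη⟩ := exists_subset_nhds_of_compactSpace
      (V := fun η : {η : ℝ // 0 < η} => closure (Sh R (pr ⁻¹' thickening η.1 (Q i))))
      (fun a b => ⟨⟨min a.1 b.1, lt_min a.2 b.2⟩,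
        closure_mono (sh_mono R (preimage_mono (thickening_mono (min_le_left _ _) _))),
        closure_mono (sh_mono R (preimage_mono (thickening_mono (min_le_right _ _) _)))⟩)
      (fun _ => isClosed_closure) (U := U ∪ V) (fun x hx => (hU.union hV).mem_nhds
        (union_subset_union h1 h2 (hsub fun η hη => mem_iInter.1 hx ⟨η, hη⟩)))
    exact ⟨η.1, η.2, hη⟩
  obtain ⟨η, hη, h5⟩ := h4
  obtain ⟨W, hW, hQW, hWη, hWc⟩ := hQ.collar i hi η hη
  obtain ⟨η', hη', h6⟩ := ends_thick hQ hi hW hQW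
  have h7 : IsPreconnected (closure (Sh R (pr ⁻¹' W))) :=
    (isPreconnected_sh R (h.isPreconnected hWc.isPreconnected)).closure
  have h8 : ends_att R pr (Q i) ⊆ closure (Sh R (pr ⁻¹' W)) := fun u hu =>
    closure_mono (sh_mono R fun y hy => h6 ⟨hy, h.notMem y⟩) (hu η' hη')
  rcases h7.subset_or_subset hU hV h3
    ((closure_mono (sh_mono R (preimage_mono hWη))).trans h5) with h9 | h9
  · left
    intro u hu
    exact (hsub hu).resolve_right fun hb => disjoint_left.1 h3 (h9 (h8 hu)) (h2 hb)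
  · right
    intro u hu
    exact (hsub hu).resolve_left fun ha => disjoint_left.1 h3 (h1 ha) (h9 (h8 hu))

theorem ends_far (R : Realis S) (h : Pl S E k pr) {η : ℝ} (hη : 0 < η) :
    idealS R.C ⊆ (closure (Sh R {y | η ≤ infDist (pr y) E}))ᶜ := by
  intro ζ hζ hc
  have hb : Bornology.IsBounded (R.φ '' {y | η ≤ infDist (pr y) E}) :=
    (LipschitzWith.of_dist_le_mul (K := 1) (f := R.φ) fun x y => by
      simpa using R.dist_le x y).isBounded_image (h.isBounded hη)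
  obtain ⟨M, hM⟩ := hb.subset_closedBall Hyp.o
  obtain ⟨u, ⟨y, hy, hu⟩, hd⟩ := Metric.mem_closure_iff.1 hc (Real.exp (-M)) (Real.exp_pos _)
  have h1 := ovs_far R.convex hu hζ
  have h2 : dist (R.φ y) Hyp.o ≤ M := hM ⟨y, hy, rfl⟩
  have h3 : Real.exp (-M) ≤ Real.exp (-dist (R.φ y) Hyp.o) := Real.exp_le_exp.2 (by linarith)
  rw [dist_comm] at hd
  linarith

theorem ends_bdry (R : Realis S) (h : Pl S E k pr) (hQ : Stage E Q I) {ζ : S2}
    (h1 : ζ ∈ idealS R.C) (h2 : ζ ∈ closure (idealS R.C)ᶜ) : ∃ i ∈ I, ζ ∈ ends_att R pr (Q i) := by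
  by_contra hcon
  have h3 : ∀ i ∈ I, ∀ᶠ η in 𝓝[>] (0 : ℝ), ζ ∉ closure (Sh R (pr ⁻¹' thickening η (Q i))) := by
    intro i hi
    have : ¬ ∀ η : ℝ, 0 < η → ζ ∈ closure (Sh R (pr ⁻¹' thickening η (Q i))) :=
      fun hh => hcon ⟨i, hi, hh⟩
    push Not at this
    obtain ⟨a, ha, ha'⟩ := this
    filter_upwards [Ioo_mem_nhdsGT ha] with η hη hm
    exact ha' (closure_mono (sh_mono R (preimage_mono (thickening_mono hη.2.le _))) hm)
  obtain ⟨η, h4, hη⟩ := (((eventually_all_finset I).2 h3).and self_mem_nhdsWithin).exists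
  have h5 : (idealS R.C)ᶜ ⊆ Sh R {y | η ≤ infDist (pr y) E} ∪
      ⋃ i ∈ I, Sh R (pr ⁻¹' thickening η (Q i)) := by
    intro u hu
    obtain ⟨y, hy⟩ := (exists_ov_iff R u).2 hu
    by_cases hd : η ≤ infDist (pr y) E
    · exact Or.inl ⟨y, hd, hy⟩
    · obtain ⟨i, hi, hz⟩ := ends_piece h.ne hQ (not_le.1 hd)
      exact Or.inr (mem_iUnion₂.2 ⟨i, hi, y, hz, hy⟩)
  have h6 := closure_mono h5 h2
  rw [closure_union, Finset.closure_biUnion] at h6
  rcases h6 with h6 | h6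
  · exact ends_far R h hη h1 h6
  · obtain ⟨i, hi, h7⟩ := mem_iUnion₂.1 h6
    exact h4 i hi h7

theorem exists_ends (R : Realis S) (h : Pl S E k pr) (hQ : Stage E Q I) (hne : Nonempty S)
    (hR : Round (idealS R.C)) : ∃ v t, Ends R pr Q I v t := by
  classical
  obtain ⟨y0⟩ := hne
  obtain ⟨u0, hu0⟩ := ov_surj R y0
  have hu0' : u0 ∉ idealS R.C := (exists_ov_iff R u0).1 ⟨y0, hu0⟩
  have hball : ∀ u ∈ idealS R.C, ∃ (v : S2) (t : ℝ), 0 ≤ t ∧ t ≤ 2 ∧
      connectedComponentIn (idealS R.C) u = closedBall v t := by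
    intro u hu
    obtain ⟨v, t, hvt⟩ := hR u hu
    have h1 : u ∈ closedBall v t := hvt ▸ mem_connectedComponentIn hu
    refine ⟨v, min t 2, le_min (dist_nonneg.trans h1) zero_le_two, min_le_right _ _, ?_⟩
    rw [hvt]
    ext w
    simp [dist_S2_le w v]
  have hatt : ∀ i ∈ I, (ends_att R pr (Q i)).Nonempty := by
    intro i hi
    refine (ends_att_ne R (Y := univ) ?_).mono inter_subset_right
    rw [image_univ, h.range_eq]
    exact ends_frontier hQ hi
  have hex : ∀ i, ∃ (a v : S2) (t : ℝ), i ∈ I → a ∈ ends_att R pr (Q i) ∧ 0 ≤ t ∧ t ≤ 2 ∧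
      connectedComponentIn (idealS R.C) a = closedBall v t := by
    intro i
    by_cases hi : i ∈ I
    · obtain ⟨a, ha⟩ := hatt i hi
      obtain ⟨v, t, h1⟩ := hball a (ends_att_sub R h (ends_sub hQ hi) ha)
      exact ⟨a, v, t, fun _ => ⟨ha, h1⟩⟩
    · exact ⟨u0, u0, 0, fun h => (hi h).elim⟩
  choose a v t hp using hex
  have hsub : ∀ i ∈ I, ends_att R pr (Q i) ⊆ closedBall (v i) (t i) := by
    intro i hi
    rw [← (hp i hi).2.2.2]
    exact (ends_att_conn R h hQ hi).subset_connectedComponentIn (hp i hi).1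
      (ends_att_sub R h (ends_sub hQ hi))
  have hK : ∀ i ∈ I, closedBall (v i) (t i) ⊆ idealS R.C := by
    intro i hi
    rw [← (hp i hi).2.2.2]
    exact connectedComponentIn_subset _ _
  have hcomp : ∀ i ∈ I, ∀ u ∈ closedBall (v i) (t i),
      connectedComponentIn (idealS R.C) u = closedBall (v i) (t i) := by
    intro i hi u hu
    rw [← (hp i hi).2.2.2] at hu ⊢
    exact (connectedComponentIn_eq hu).symm
  have hunion : idealS R.C = ⋃ i ∈ I, closedBall (v i) (t i) := by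
    refine Subset.antisymm (fun u hu => ?_) (iUnion₂_subset hK)
    obtain ⟨w, s, hs, -, hws⟩ := hball u hu
    have hc : closedBall w s ⊆ idealS R.C := hws ▸ connectedComponentIn_subset _ _
    obtain ⟨ζ, hζ, hζ'⟩ := exists_mem_closure_compl w hs fun hh => hu0' (hc (hh ▸ mem_univ u0))
    have hζc : connectedComponentIn (idealS R.C) ζ = closedBall w s := by
      rw [← hws] at hζ ⊢
      exact (connectedComponentIn_eq hζ).symm
    have h1 : ζ ∈ closure (idealS R.C)ᶜ := by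
      by_contra hn
      rw [closure_compl, notMem_compl_iff] at hn
      obtain ⟨r, hr, hb⟩ := Metric.mem_nhds_iff.1 (mem_interior_iff_mem_nhds.1 hn)
      have h2 := (isPreconnected_ball_S2 ζ r).subset_connectedComponentIn (mem_ball_self hr) hb
      rw [hζc] at h2
      rw [closure_compl] at hζ'
      exact hζ' (mem_interior_iff_mem_nhds.2 (mem_of_superset (ball_mem_nhds ζ hr) h2))
    obtain ⟨i, hi, h3⟩ := ends_bdry R h hQ (hc hζ) h1
    refine mem_iUnion₂.2 ⟨i, hi, ?_⟩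
    rw [← hcomp i hi ζ (hsub i hi h3), hζc, ← hws]
    exact mem_connectedComponentIn hu
  obtain ⟨η₀, hη₀, hsep⟩ := ends_sep hQ
  have hnear : ∀ i ∈ I, ∀ η : ℝ, 0 < η → ∀ u ∈ closedBall (v i) (t i), ∀ᶠ u' in 𝓝 u,
      ∀ y, Ov R u' y → pr y ∈ thickening η (Q i) := by
    intro i hi η' hη' u hu
    set η := min η' η₀ with hηdef
    have hη : 0 < η := lt_min hη' hη₀
    let J := I.filter fun j => closedBall (v j) (t j) ≠ closedBall (v i) (t i)
    have hV : IsOpen ((⋃ j ∈ J, closedBall (v j) (t j))ᶜ ∩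
        (closure (Sh R {y | η ≤ infDist (pr y) E}))ᶜ) :=
      (isClosed_biUnion_finset fun _ _ => isClosed_closedBall).isOpen_compl.inter
        isClosed_closure.isOpen_compl
    obtain ⟨t', ht', hb⟩ := ball_subset_of_nhds (hp i hi).2.1 hV (by
      intro w hw
      refine ⟨fun hm => ?_, ends_far R h hη (hK i hi hw)⟩
      obtain ⟨j, hj, hwj⟩ := mem_iUnion₂.1 hm
      obtain ⟨hj1, hj2⟩ := Finset.mem_filter.1 hj
      exact hj2 ((hcomp j hj1 w hwj).symm.trans (hcomp i hi w hw)))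
    have hring : Disjoint (ball (v i) t' \ closedBall (v i) (t i)) (idealS R.C) := by
      rw [disjoint_left]
      intro w hw hw'
      rw [hunion] at hw'
      obtain ⟨j, hj, hwj⟩ := mem_iUnion₂.1 hw'
      by_cases hji : closedBall (v j) (t j) = closedBall (v i) (t i)
      · exact hw.2 (hji ▸ hwj)
      · exact (hb hw.1).1 (mem_iUnion₂.2 ⟨j, Finset.mem_filter.2 ⟨hj, hji⟩, hwj⟩)
    have hmem : ∀ w ∈ ball (v i) t', ∀ y, Ov R w y →
        y ∈ {y | ∃ u ∈ ball (v i) t' \ closedBall (v i) (t i), Ov R u y} := fun w hw y hy =>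
      ⟨w, ⟨hw, fun hc => (exists_ov_iff R w).1 ⟨y, hy⟩ (hK i hi hc)⟩, hy⟩
    have hpre := (isPreconnected_ret R (isPreconnected_ring (v i) (hp i hi).2.1 t') hring).image
      pr h.isOpenEmbedding.continuous.continuousOn
    have hop : ∀ j, IsOpen (thickening η (Q j) \ E) :=
      fun j => isOpen_thickening.sdiff h.closed
    have hin := hpre.subset_left_of_subset_union (hop i)
      (isOpen_biUnion (s := (I.erase i : Set ι)) fun j _ => hop j) (by
        rw [disjoint_iUnion₂_right]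
        intro j hj
        obtain ⟨hj1, hj2⟩ := Finset.mem_erase.1 (Finset.mem_coe.1 hj)
        exact (hsep i hi j hj2 hj1.symm).mono
          (sdiff_subset_sdiff_left (thickening_mono (min_le_right _ _) _))
          (sdiff_subset_sdiff_left (thickening_mono (min_le_right _ _) _))) (by
        rintro _ ⟨y, ⟨w, hw, hy⟩, rfl⟩
        have h1 : infDist (pr y) E < η :=
          not_le.1 fun hh => (hb hw.1).2 (subset_closure ⟨y, hh, hy⟩)
        obtain ⟨j, hj, hz⟩ := ends_piece h.ne hQ h1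
        by_cases hji : j = i
        · exact Or.inl ⟨hji ▸ hz, h.notMem y⟩
        · exact Or.inr (mem_iUnion₂.2 ⟨j, Finset.mem_coe.2 (Finset.mem_erase.2 ⟨hji, hj⟩), hz,
            h.notMem y⟩)) (by
        obtain ⟨w, hw, y, hy, hwy⟩ := mem_closure_iff_nhds.1 ((hp i hi).1 η hη) _
          (isOpen_ball.mem_nhds (closedBall_subset_ball ht' (hsub i hi (hp i hi).1)))
        exact ⟨pr y, ⟨y, hmem w hw y hwy, rfl⟩, hy, h.notMem y⟩)
    filter_upwards [isOpen_ball.mem_nhds (closedBall_subset_ball ht' hu)] with w hw y hy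
    exact thickening_mono (min_le_left _ _) _ (hin ⟨y, hmem w hw y hy, rfl⟩).1
  refine ⟨v, t, fun i hi => (hp i hi).2.1, fun i hi => (hp i hi).2.2.1, ?_, hunion, hnear, ?_⟩
  · intro i hi j hj hij
    rw [disjoint_left]
    intro w hwi hwj
    have h1 : a j ∈ closedBall (v i) (t i) := by
      rw [← hcomp i hi w hwi, hcomp j hj w hwj]
      exact hsub j hj (hp j hj).1
    obtain ⟨u', h2, y, hy, huy⟩ := mem_closure_iff_nhds.1 ((hp j hj).1 η₀ hη₀) _
      (hnear i hi η₀ hη₀ _ h1)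
    exact disjoint_left.1 (hsep i hi j hj hij) ⟨h2 y huy, h.notMem y⟩ ⟨hy, h.notMem y⟩
  · intro i hi Y hY
    exact (ends_att_ne R hY).mono (inter_subset_inter_right _ (hsub i hi))

variable {R : Realis S} {v : ι → S2} {t : ι → ℝ}

theorem ends_mem_hat {W : Set ℂ} {u : S2} : u ∈ hat R pr Q I v t W ↔
    u ∈ Sh R (pr ⁻¹' W) ∨ ∃ i ∈ I, Q i ⊆ W ∧ u ∈ closedBall (v i) (t i) := by
  simp only [hat, mem_union, mem_iUnion, exists_prop]

theorem hat_mono {W W' : Set ℂ} (h : W ⊆ W') : hat R pr Q I v t W ⊆ hat R pr Q I v t W' := by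
  intro u hu
  rw [ends_mem_hat] at hu ⊢
  rcases hu with hu | ⟨i, hi, h1, h2⟩
  · exact Or.inl (sh_mono R (preimage_mono h) hu)
  · exact Or.inr ⟨i, hi, h1.trans h, h2⟩

theorem hat_free (hQ : Stage E Q I) {α : Set ℂ} (h : Disjoint α E) :
    hat R pr Q I v t α = Sh R (pr ⁻¹' α) := by
  ext u
  rw [ends_mem_hat]
  refine ⟨?_, Or.inl⟩
  rintro (hu | ⟨i, hi, h1, -⟩)
  · exact hu
  · obtain ⟨q, hq⟩ := hQ.ne i hi
    exact (disjoint_left.1 h (h1 hq) (ends_sub hQ hi hq)).elim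

theorem hat_piece (h : Pl S E k pr) (hQ : Stage E Q I) {i : ι} (hi : i ∈ I) :
    hat R pr Q I v t (Q i) = closedBall (v i) (t i) := by
  ext u
  rw [ends_mem_hat]
  refine ⟨?_, fun hu => Or.inr ⟨i, hi, Subset.rfl, hu⟩⟩
  rintro (⟨y, hy, -⟩ | ⟨j, hj, h1, h2⟩)
  · exact (h.notMem y (ends_sub hQ hi hy)).elim
  · by_cases hji : j = i
    · exact hji ▸ h2
    · obtain ⟨q, hq⟩ := hQ.ne j hj
      exact (disjoint_left.1 (hQ.disj j hj i hi hji) hq (h1 hq)).elim

theorem hat_disjoint (hQ : Stage E Q I) (e : Ends R pr Q I v t) {α β : Set ℂ} (h : Disjoint α β) :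
    Disjoint (hat R pr Q I v t α) (hat R pr Q I v t β) := by
  have hK : ∀ i ∈ I, closedBall (v i) (t i) ⊆ idealS R.C := by
    intro i hi
    rw [e.union]
    exact subset_biUnion_of_mem (u := fun i => closedBall (v i) (t i)) hi
  rw [disjoint_left]
  intro u h1 h2
  rw [ends_mem_hat] at h1 h2
  rcases h1 with h1 | ⟨i, hi, h1, h1'⟩ <;> rcases h2 with h2 | ⟨j, hj, h2, h2'⟩
  · obtain ⟨y, hy, hu⟩ := h1
    obtain ⟨y', hy', hu'⟩ := h2
    obtain rfl := ov_unique hu hu'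
    exact disjoint_left.1 h hy hy'
  · exact ends_sh_notMem h1 (hK j hj h2')
  · exact ends_sh_notMem h2 (hK i hi h1')
  · by_cases hij : i = j
    · obtain ⟨q, hq⟩ := hQ.ne i hi
      exact disjoint_left.1 h (h1 hq) (h2 (hij ▸ hq))
    · exact disjoint_left.1 (e.disj i hi j hj hij) h1' h2'

theorem PT.disjoint {X : Set ι} {α β : Set ℂ} {En : ℝ} (h : PT E Q I X α β En) :
    Disjoint α β := by
  obtain ⟨U, Lt, s, L, -, h1, h2, -⟩ := h
  rw [disjoint_left]
  intro z a b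
  linarith [h1 z a, h2 z b]

theorem PT.nonneg {X : Set ι} {α β : Set ℂ} {En : ℝ} (h : PT E Q I X α β En) : 0 ≤ En := by
  obtain ⟨U, Lt, s, L, -, -, -, -, -, -, -, h1⟩ := h
  exact (Finset.sum_nonneg fun i _ => sq_nonneg (s i)).trans h1

theorem isPreconnected_hat (h : Pl S E k pr) (hQ : Stage E Q I) (e : Ends R pr Q I v t)
    {W : Set ℂ} (hW : IsOpen W) (hc : IsPreconnected (W \ E)) :
    IsPreconnected (hat R pr Q I v t W) := by
  have hA : IsPreconnected (Sh R (pr ⁻¹' W)) := isPreconnected_sh R (h.isPreconnected hc)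
  have h1 : ∀ i ∈ I, Q i ⊆ W →
      (closure (Sh R (pr ⁻¹' W)) ∩ closedBall (v i) (t i)).Nonempty := by
    intro i hi hW'
    obtain ⟨q, hq, hq'⟩ := ends_frontier hQ hi
    refine e.acc i hi _ ⟨q, ?_, hq'⟩
    rw [image_preimage_eq_inter_range, h.range_eq]
    exact hW.inter_closure ⟨hW' hq', hq⟩
  rcases (hat R pr Q I v t W).eq_empty_or_nonempty with h0 | ⟨u, hu⟩
  · rw [h0]; exact isPreconnected_empty
  obtain ⟨a, ha⟩ : (Sh R (pr ⁻¹' W)).Nonempty := by
    rcases ends_mem_hat.1 hu with hu | ⟨i, hi, h2, -⟩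
    · exact ⟨u, hu⟩
    · exact closure_nonempty_iff.1 ((h1 i hi h2).mono inter_subset_left)
  refine isPreconnected_of_forall a fun w hw => ?_
  rcases ends_mem_hat.1 hw with hw | ⟨i, hi, h2, h3⟩
  · exact ⟨_, fun x hx => ends_mem_hat.2 (Or.inl hx), ha, hw, hA⟩
  · obtain ⟨ζ, hζ, hζ'⟩ := h1 i hi h2
    refine ⟨insert ζ (Sh R (pr ⁻¹' W)) ∪ closedBall (v i) (t i), ?_, Or.inl (Or.inr ha), Or.inr h3,
      IsPreconnected.union ζ (Or.inl rfl) hζ' (hA.subset_closure (subset_insert _ _)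
        (insert_subset hζ subset_closure)) (isPreconnected_closedBall_S2 _ _)⟩
    rintro x ((rfl | hx) | hx)
    · exact ends_mem_hat.2 (Or.inr ⟨i, hi, h2, hζ'⟩)
    · exact ends_mem_hat.2 (Or.inl hx)
    · exact ends_mem_hat.2 (Or.inr ⟨i, hi, h2, hx⟩)

end Pool.Agent.Lib.MP_44acff_gt.EK
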