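import Pool.Agent.Lib.MP_44acff_gt.EK.Sp

open Set Metric Topology Filter

namespace Pool.Agent.Lib.MP_44acff_gt.EK

section
variable {X : Type} [PseudoMetricSpace X] {𝒰 : Ultrafilter ℕ}

theorem f1_lim {K : Set X} (hK : IsCompact K) {u : ℕ → X} (h : ∀ᶠ n in (𝒰 : Filter ℕ), u n ∈ K) :
    ∃ p ∈ K, Tendsto u 𝒰 (𝓝 p) :=
  hK.ultrafilter_le_nhds (𝒰.map u) (le_principal_iff.2 h)

theorem f1_union (A B : ℕ → Set X) : ULim 𝒰 (fun n => A n ∪ B n) ⊆ ULim 𝒰 A ∪ ULim 𝒰 B := by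
  intro p hp
  refine or_iff_not_imp_left.2 fun h ε hε => ?_
  obtain ⟨δ, h1⟩ := not_forall.1 h
  obtain ⟨hδ, h2⟩ := Classical.not_imp.1 h1
  filter_upwards [hp _ (lt_min hε hδ), Ultrafilter.eventually_not.2 h2] with n ⟨q, hq, h3⟩ h4
  exact ⟨q, hq.resolve_left fun h5 => h4 ⟨q, h5, h3.trans_le (min_le_right _ _)⟩,
    h3.trans_le (min_le_left _ _)⟩

theorem mem_ULim_of_tendsto {A : ℕ → Set X} {u : ℕ → X} {p : X}
    (h : ∀ᶠ n in (𝒰 : Filter ℕ), u n ∈ A n) (hu : Tendsto u 𝒰 (𝓝 p)) : p ∈ ULim 𝒰 A := by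
  intro ε hε
  filter_upwards [h, Metric.tendsto_nhds.1 hu ε hε] with n h1 h2
  exact ⟨u n, h1, h2⟩

theorem exists_tendsto_of_mem_ULim (h𝒰 : (𝒰 : Filter ℕ) ≤ atTop) {A : ℕ → Set X} {p : X}
    (h : p ∈ ULim 𝒰 A) : ∃ u : ℕ → X, (∀ᶠ n in (𝒰 : Filter ℕ), u n ∈ A n) ∧ Tendsto u 𝒰 (𝓝 p) := by
  have h1 : ∀ n : ℕ, ∃ q, (A n).Nonempty →
      q ∈ A n ∧ dist p q < infDist p (A n) + 1 / ((n : ℝ) + 1) := fun n => by
    by_cases hn : (A n).Nonempty
    · obtain ⟨q, h1, h2⟩ := (infDist_lt_iff hn).1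
        (lt_add_of_pos_right (infDist p (A n)) (Nat.one_div_pos_of_nat (n := n)))
      exact ⟨q, fun _ => ⟨h1, h2⟩⟩
    · exact ⟨p, fun h => (hn h).elim⟩
  choose u hu using h1
  refine ⟨u, (h 1 one_pos).mono fun n ⟨q, hq, _⟩ => (hu n ⟨q, hq⟩).1,
    Metric.tendsto_nhds.2 fun ε hε => ?_⟩
  filter_upwards [h _ (half_pos hε), h𝒰 (tendsto_one_div_add_atTop_nhds_zero_nat.eventually
    (gt_mem_nhds (half_pos hε)))] with n ⟨q, hq, h2⟩ h3
  have h4 := (hu n ⟨q, hq⟩).2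
  have h5 := infDist_le_dist_of_mem (x := p) hq
  rw [dist_comm] at h2 ⊢
  linarith

theorem isClosed_ULim (A : ℕ → Set X) : IsClosed (ULim 𝒰 A) := by
  refine isClosed_of_closure_subset fun p hp ε hε => ?_
  obtain ⟨q, hq, h1⟩ := Metric.mem_closure_iff.1 hp _ (half_pos hε)
  filter_upwards [hq _ (half_pos hε)] with n ⟨x, hx, h2⟩
  exact ⟨x, hx, by linarith [dist_triangle_right x p q]⟩

theorem ULim_mono {A B : ℕ → Set X} (h : ∀ᶠ n in (𝒰 : Filter ℕ), A n ⊆ B n) :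
    ULim 𝒰 A ⊆ ULim 𝒰 B := by
  intro p hp ε hε
  filter_upwards [h, hp ε hε] with n h1 ⟨q, hq, h2⟩
  exact ⟨q, h1 hq, h2⟩

theorem ULim_closure (A : ℕ → Set X) : ULim 𝒰 (fun n => closure (A n)) = ULim 𝒰 A := by
  refine Subset.antisymm (fun p hp ε hε => (hp ε hε).mono fun n ⟨q, hq, h1⟩ => ?_)
    (ULim_mono (Eventually.of_forall fun _ => subset_closure))
  obtain ⟨x, h2, h3⟩ := _root_.mem_closure_iff.1 hq (ball p ε) isOpen_ball h1
  exact ⟨x, h3, h2⟩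

theorem eventually_disjoint_of_isCompact {A : ℕ → Set X} {K : Set X} (hK : IsCompact K)
    (h : Disjoint K (ULim 𝒰 A)) : ∀ᶠ n in (𝒰 : Filter ℕ), Disjoint K (A n) := by
  by_contra h1
  have h2 := (Ultrafilter.eventually_not.2 h1).mono fun n hn => not_disjoint_iff.1 hn
  have : Nonempty X := ⟨h2.exists.choose_spec.choose⟩
  obtain ⟨u, hu⟩ := h2.choice
  obtain ⟨p, hp, h3⟩ := f1_lim hK (hu.mono fun _ h => h.1)
  exact disjoint_left.1 h hp (mem_ULim_of_tendsto (hu.mono fun _ h => h.2) h3)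

theorem ULim_cover {κ : Type} (J : Finset κ) {A : κ → ℕ → Set X} {B : ℕ → Set X}
    (h : ∀ᶠ n in (𝒰 : Filter ℕ), B n ⊆ ⋃ a ∈ J, A a n) : ULim 𝒰 B ⊆ ⋃ a ∈ J, ULim 𝒰 (A a) := by
  classical
  refine (ULim_mono h).trans ?_
  clear h
  induction J using Finset.induction_on with
  | empty => exact fun p hp => by simpa using (hp 1 one_pos).exists
  | insert a J _ ih =>
    simp only [Finset.set_biUnion_insert]
    exact (f1_union _ _).trans (union_subset_union_right _ ih)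

theorem ULim_union (A B : ℕ → Set X) :
    ULim 𝒰 (fun n => A n ∪ B n) = ULim 𝒰 A ∪ ULim 𝒰 B := by
  exact Subset.antisymm (f1_union A B) (union_subset
    (ULim_mono (Eventually.of_forall fun _ => subset_union_left))
    (ULim_mono (Eventually.of_forall fun _ => subset_union_right)))

theorem isPreconnected_ULim [CompactSpace X] {A : ℕ → Set X}
    (h : ∀ᶠ n in (𝒰 : Filter ℕ), IsPreconnected (A n)) : IsPreconnected (ULim 𝒰 A) := by
  have key : ∀ {U V u v : Set X}, IsOpen V → Disjoint U V → v ⊆ V → ULim 𝒰 A ⊆ u ∪ v →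
      (∀ᶠ n in (𝒰 : Filter ℕ), A n ⊆ U) → ULim 𝒰 A ⊆ u := by
    intro U V u v hV hd hv hs hU p hp
    refine (hs hp).resolve_right fun h1 => disjoint_left.1 (hd.closure_left hV) ?_ (hv h1)
    refine Metric.mem_closure_iff.2 fun ε hε => ?_
    obtain ⟨n, ⟨q, hq, h2⟩, h3⟩ := ((hp ε hε).and hU).exists
    exact ⟨q, h3 hq, dist_comm p q ▸ h2⟩
  refine (isPreconnected_iff_subset_of_fully_disjoint_closed (isClosed_ULim A)).2
    fun u v hu hv hs hd => ?_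
  obtain ⟨U, V, hU, hV, h1, h2, h3⟩ := normal_separation hu hv hd
  have h4 := eventually_disjoint_of_isCompact (hU.union hV).isClosed_compl.isCompact
    (disjoint_compl_left_iff_subset.2 (hs.trans (union_subset_union h1 h2)))
  have h5 : ∀ᶠ n in (𝒰 : Filter ℕ), A n ⊆ U ∨ A n ⊆ V := by
    filter_upwards [h, h4] with n h5 h6
    exact h5.subset_or_subset hU hV h3 (disjoint_compl_left_iff_subset.1 h6)
  exact (Ultrafilter.eventually_or.1 h5).imp (key hV h3 h2 hs)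
    (key hU h3.symm h1 (union_comm u v ▸ hs))

end

theorem ULim_closedBall {𝒰 : Ultrafilter ℕ} {v : ℕ → S2} {t : ℕ → ℝ} {v' : S2} {t' : ℝ}
    (h0 : ∀ n, 0 ≤ t n) (hv : Tendsto v 𝒰 (𝓝 v')) (ht : Tendsto t 𝒰 (𝓝 t')) :
    ULim 𝒰 (fun n => closedBall (v n) (t n)) = closedBall v' t' := by
  refine Subset.antisymm (fun p hp => mem_closedBall.2 (le_of_forall_pos_le_add fun ε hε => ?_)) ?_
  · have h3 : 0 < ε / 3 := by positivity
    obtain ⟨n, ⟨q, hq, h1⟩, h2, h4⟩ := ((hp _ h3).and ((Metric.tendsto_nhds.1 hv _ h3).and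
      (ht.eventually (gt_mem_nhds (lt_add_of_pos_right t' h3))))).exists
    have h5 := dist_triangle4 p q (v n) v'
    rw [mem_closedBall] at hq
    rw [dist_comm] at h1
    linarith
  · rcases (ge_of_tendsto' ht h0).eq_or_lt with rfl | h1
    · rw [closedBall_zero, singleton_subset_iff]
      exact mem_ULim_of_tendsto (Eventually.of_forall fun n => mem_closedBall_self (h0 n)) hv
    · refine (closedBall_subset_closure_ball v' h1).trans
        (closure_minimal (fun p hp => ?_) (isClosed_ULim _))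
      exact mem_ULim_of_tendsto (((tendsto_const_nhds.dist hv).eventually_lt ht hp).mono
        fun n hn => hn.le) tendsto_const_nhds

variable {𝒰 : Ultrafilter ℕ} {C : ℕ → Set H3}

theorem ovs_ULim (h𝒰 : (𝒰 : Filter ℕ) ≤ atTop) {u : ℕ → S2} {p : ℕ → H3} {u' : S2} {p' : H3}
    (h : ∀ᶠ n in (𝒰 : Filter ℕ), Ovs (C n) (u n) (p n)) (hu : Tendsto u 𝒰 (𝓝 u'))
    (hp : Tendsto p 𝒰 (𝓝 p')) : Ovs (ULim 𝒰 C) u' p' := by
  refine ⟨mem_ULim_of_tendsto (h.mono fun _ h => h.1) hp, fun c hc => ?_⟩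
  obtain ⟨x, h1, h2⟩ := exists_tendsto_of_mem_ULim h𝒰 hc
  refine le_of_tendsto_of_tendsto ((continuous_Aa.tendsto (u', p')).comp (hu.prodMk_nhds hp))
    ((continuous_Aa.tendsto (u', c)).comp (hu.prodMk_nhds h2)) ?_
  filter_upwards [h, h1] with n h3 h4
  exact h3.2 _ h4

theorem gconvex_ULim (h𝒰 : (𝒰 : Filter ℕ) ≤ atTop) (h : ∀ n, GConvex (C n)) :
    GConvex (ULim 𝒰 C) := by
  refine gconvex_iff.2 fun x hx y hy a b ha hb hab => ?_
  obtain ⟨u, h1, h2⟩ := exists_tendsto_of_mem_ULim h𝒰 hx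
  obtain ⟨w, h3, h4⟩ := exists_tendsto_of_mem_ULim h𝒰 hy
  refine mem_ULim_of_tendsto (u := fun n => nrm (a • (u n).v + b • (w n).v)) ?_
    ((continuousOn_nrm.continuousAt (isOpen_TL.mem_nhds (tl_comb x y ha hb hab))).tendsto.comp
      (((Hyp.tendsto_iff.1 h2).const_smul a).add ((Hyp.tendsto_iff.1 h4).const_smul b)))
  filter_upwards [h1, h3] with n h5 h6
  exact gconvex_iff.1 (h n) _ h5 _ h6 a b ha hb hab

theorem not_mem_interior_ULim (h𝒰 : (𝒰 : Filter ℕ) ≤ atTop) (h : ∀ n, GConvex (C n))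
    (ho : ∀ n, Hyp.o ∈ C n) {b : ℕ → H3} {p : H3} (hb : Tendsto b 𝒰 (𝓝 p))
    (hb' : ∀ᶠ n in (𝒰 : Filter ℕ), b n ∉ interior (C n)) : p ∉ interior (ULim 𝒰 C) := by
  obtain ⟨ν, hν⟩ := (hb'.mono fun n hn => exists_support (h n) ⟨_, ho n⟩ hn).choice
  have h1 : ∀ᶠ n in (𝒰 : Filter ℕ),
      ν n ∈ closedBall (0 : ℝ × E3) (1 + Real.sinh (dist p Hyp.o + 1)) := by
    filter_upwards [hν, (hb.dist tendsto_const_nhds).eventually
      (gt_mem_nhds (lt_add_one (dist p Hyp.o)))] with n ⟨h1, h2, h3⟩ h4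
    have h5 : lor (Hyp.o : H3).v (ν n) = -(ν n).1 := by simp [lor, Hyp.o]
    have h6 := h2 _ (ho n)
    have h7 := (le_abs_self _).trans (arsinh_lor_lip (b n) Hyp.o h1)
    rw [h5] at h6 h7
    rw [Real.arsinh_neg] at h7
    have h8 : (ν n).1 ≤ Real.sinh (dist p Hyp.o + 1) := by
      rw [← Real.sinh_arsinh (ν n).1, Real.sinh_le_sinh]
      linarith [Real.arsinh_nonneg_iff.2 h3]
    have h9 : ‖(ν n).2‖ ≤ 1 + (ν n).1 := by
      simp only [lor, real_inner_self_eq_norm_sq] at h1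
      exact abs_le_of_sq_le_sq' (by nlinarith) (by linarith) |>.2
    rw [mem_closedBall_zero_iff, Prod.norm_def, Real.norm_of_nonneg (by linarith)]
    exact max_le (by linarith) (by linarith)
  obtain ⟨μ, -, h2⟩ := f1_lim (isCompact_closedBall _ _) h1
  have h3 : ∀ {w : ℕ → ℝ × E3} {w' : ℝ × E3}, Tendsto w 𝒰 (𝓝 w') →
      Tendsto (fun n => lor (w n) (ν n)) 𝒰 (𝓝 (lor w' μ)) := fun {w w'} hw => by
    have h3 := (continuous_lor.tendsto (w', μ)).comp (hw.prodMk_nhds h2)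
    exact h3
  have h6 : lor μ μ = 1 := le_antisymm (le_of_tendsto (h3 h2) (hν.mono fun _ h => h.1.le))
    (ge_of_tendsto (h3 h2) (hν.mono fun _ h => h.1.ge))
  have h7 : 0 ≤ lor p.v μ := ge_of_tendsto (h3 (Hyp.tendsto_iff.1 hb)) (hν.mono fun _ h => h.2.2)
  refine not_mem_interior h6 (fun c hc => ?_) h7
  obtain ⟨x, h4, h5⟩ := exists_tendsto_of_mem_ULim h𝒰 hc
  refine le_of_tendsto (h3 (Hyp.tendsto_iff.1 h5)) ?_
  filter_upwards [hν, h4] with n h8 h9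
  exact h8.2.1 _ h9

theorem ULim_idealS_subset (h𝒰 : (𝒰 : Filter ℕ) ≤ atTop) (hc : ∀ n, IsClosed (C n))
    (h : ∀ n, GConvex (C n)) (ho : ∀ n, Hyp.o ∈ C n) :
    ULim 𝒰 (fun n => idealS (C n)) ⊆ idealS (ULim 𝒰 C) := by
  intro ξ hξ
  obtain ⟨u, h1, h2⟩ := exists_tendsto_of_mem_ULim h𝒰 hξ
  refine (mem_idealS_iff_ray (isClosed_ULim C) (gconvex_ULim h𝒰 h)
    (mem_ULim_of_tendsto (Eventually.of_forall ho) tendsto_const_nhds)).2 fun t ht => ?_
  refine mem_ULim_of_tendsto (h1.mono fun n hn => (mem_idealS_iff_ray (hc n) (h n) (ho n)).1 hn t ht)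
    ((continuousOn_nrm.continuousAt (isOpen_TL.mem_nhds
      ((Hyp.tl Hyp.o).add_caus (caus_one ξ) ht))).tendsto.comp (tendsto_const_nhds.add ?_))
  exact (tendsto_const_nhds.prodMk_nhds ((continuous_subtype_val.tendsto ξ).comp h2)).const_smul t

variable {S : ℕ → Type} [∀ n, MetricSpace (S n)] {T : Type} [MetricSpace T]
  {ap : T → ∀ n, S n} {o : T}

theorem exists_limit_map (hG : GConv S T 𝒰 ap o) (R : ∀ n, Realis (S n))
    (ho : ∀ n, (R n).φ (ap o n) = Hyp.o) :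
    ∃ φ : T → H3, ∀ x, Tendsto (fun n => (R n).φ (ap x n)) 𝒰 (𝓝 (φ x)) := by
  have h1 : ∀ x, ∃ p ∈ closedBall (Hyp.o : H3) (dist x o + 1),
      Tendsto (fun n => (R n).φ (ap x n)) 𝒰 (𝓝 p) := fun x => by
    refine f1_lim (isCompact_closedBall _ _) ?_
    filter_upwards [(hG.dist_tendsto x o).eventually (gt_mem_nhds (lt_add_one _))] with n hn
    rw [mem_closedBall, ← ho n]
    exact ((R n).dist_le _ _).trans hn.le
  choose φ _ hφ using h1
  exact ⟨φ, hφ⟩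

/-- Shadows of bounded points do not accumulate on the ideal set of the limit. -/
theorem not_mem_idealS_ULim (h𝒰 : (𝒰 : Filter ℕ) ≤ atTop) (R : ∀ n, Realis (S n))
    (ho : ∀ n, Hyp.o ∈ (R n).C) {u : ℕ → S2} {ξ : S2} (hu : Tendsto u 𝒰 (𝓝 ξ)) {r : ℝ}
    (h : ∀ᶠ n in (𝒰 : Filter ℕ), ∃ y, Ov (R n) (u n) y ∧ dist ((R n).φ y) Hyp.o ≤ r) :
    ξ ∉ idealS (ULim 𝒰 fun n => (R n).C) := by
  obtain ⟨p, hp⟩ := (h.mono fun n ⟨y, h1, h2⟩ => (⟨(R n).φ y, h1, h2⟩ :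
    ∃ p, Ovs (R n).C (u n) p ∧ dist p Hyp.o ≤ r)).choice
  obtain ⟨p', -, h1⟩ := f1_lim (isCompact_closedBall Hyp.o r) (hp.mono fun _ h => h.2)
  have h2 := ovs_ULim h𝒰 (hp.mono fun _ h => h.1) hu h1
  exact (exists_ovs_iff (isClosed_ULim _) (gconvex_ULim h𝒰 fun n => (R n).convex) ⟨_, h2.1⟩ ξ).1
    ⟨_, h2⟩

end Pool.Agent.Lib.MP_44acff_gt.EK
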