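import Pool.Agent.Lib.MP_44acff_gt.EK.F1

open Set Metric Topology Filter

namespace Pool.Agent.Lib.MP_44acff_gt.EK

theorem f2_cosh {w w' : ℝ × E3} (h : TL w) (h' : TL w') {μ : ℝ} (hμ : 1 / 4 ≤ μ)
    (h1 : μ ≤ -lor w w) (h2 : μ ≤ -lor w' w') :
    μ * (Real.cosh (dist (nrm w) (nrm w')) - 1) ≤
      -lor w w' + (lor w w + lor w' w') / 2 + (lor w w - lor w' w') ^ 2 / 2 := by
  have hc1 : 1 ≤ Real.cosh (dist (nrm w) (nrm w')) := Real.one_le_cosh _
  have hc := cosh_dist (nrm w) (nrm w')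
  rw [nrm_v h, nrm_v h', lor_smul_left, lor_smul_right] at hc
  have e1 := Real.sq_sqrt (show 0 ≤ -lor w w by linarith)
  have e2 := Real.sq_sqrt (show 0 ≤ -lor w' w' by linarith)
  have p1 : 1 / 2 ≤ √(-lor w w) := Real.le_sqrt_of_sq_le (by linarith)
  have p2 : 1 / 2 ≤ √(-lor w' w') := Real.le_sqrt_of_sq_le (by linarith)
  set m := √(-lor w w) with hm
  set m' := √(-lor w' w') with hm'
  set c := Real.cosh (dist (nrm w) (nrm w')) with hcdef
  have hm0 : 0 < m := by linarith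
  have hm0' : 0 < m' := by linarith
  have e3 : m * m' * c = -lor w w' := by
    rw [hc]; field_simp
  have e4 : μ ≤ m * m' := by
    have : μ ^ 2 ≤ (m * m') ^ 2 := by
      rw [mul_pow, e1, e2, sq]
      exact mul_le_mul h1 h2 (by linarith) (by linarith)
    exact (pow_le_pow_iff_left₀ (by linarith) (by positivity) two_ne_zero).mp this
  have e5 : lor w w = -m ^ 2 := by linarith
  have e6 : lor w' w' = -m' ^ 2 := by linarith
  have e7 : (m - m') ^ 2 ≤ (lor w w - lor w' w') ^ 2 := by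
    rw [e5, e6]
    have : (-m ^ 2 - -m' ^ 2) ^ 2 = (m - m') ^ 2 * (m + m') ^ 2 := by ring
    rw [this]
    have h3 : 1 ≤ (m + m') ^ 2 := one_le_pow₀ (by linarith)
    exact le_mul_of_one_le_right (sq_nonneg _) h3
  have e8 : μ * (c - 1) ≤ m * m' * (c - 1) := mul_le_mul_of_nonneg_right e4 (by linarith)
  have e9 : m * m' * (c - 1) = -lor w w' + (lor w w + lor w' w') / 2 + (m - m') ^ 2 / 2 := by
    rw [← e3, e5, e6]; ring
  linarith

theorem f2_sinh {l t : ℝ} (hl : 1 ≤ l) (ht : 0 ≤ t) : l * Real.sinh t ≤ Real.sinh (l * t) := by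
  have hd : ∀ x : ℝ, HasDerivAt (fun x => Real.sinh (l * x) - l * Real.sinh x)
      (Real.cosh (l * x) * l - l * Real.cosh x) x := by
    intro x
    have h1 : HasDerivAt (fun x => l * x) l x := by simpa using (hasDerivAt_id x).const_mul l
    exact h1.sinh.sub ((Real.hasDerivAt_sinh x).const_mul l)
  have hm : MonotoneOn (fun x => Real.sinh (l * x) - l * Real.sinh x) (Ici 0) := by
    apply monotoneOn_of_deriv_nonneg (convex_Ici 0)
    · exact fun x _ => (hd x).continuousAt.continuousWithinAt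
    · exact fun x _ => (hd x).differentiableAt.differentiableWithinAt
    · intro x hx
      rw [interior_Ici] at hx
      have hx0 : 0 < x := hx
      rw [(hd x).deriv]
      have : Real.cosh x ≤ Real.cosh (l * x) := by
        rw [Real.cosh_le_cosh, abs_of_pos hx0, abs_of_pos (by positivity)]
        nlinarith
      nlinarith
  have := hm (show (0 : ℝ) ∈ Ici 0 from self_mem_Ici) (show t ∈ Ici 0 from ht) ht
  simp only [mul_zero, Real.sinh_zero, sub_zero] at this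
  linarith

theorem f2_cosh_half (d : ℝ) : Real.cosh d - 1 = 2 * Real.sinh (d / 2) ^ 2 := by
  have h := Real.cosh_two_mul (d / 2)
  have h2 := Real.cosh_sq (d / 2)
  rw [show 2 * (d / 2) = d by ring] at h
  linarith

theorem f2_le_of_cosh {l d d' : ℝ} (hl : 1 ≤ l) (hd : 0 ≤ d) (hd' : 0 ≤ d')
    (h : Real.cosh d' - 1 ≤ l ^ 2 * (Real.cosh d - 1)) : d' ≤ l * d := by
  rw [f2_cosh_half, f2_cosh_half] at h
  have h1 := f2_sinh hl (show 0 ≤ d / 2 by linarith)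
  have h2 : 0 ≤ Real.sinh (d / 2) := Real.sinh_nonneg_iff.mpr (by linarith)
  have h3 : 0 ≤ Real.sinh (d' / 2) := Real.sinh_nonneg_iff.mpr (by linarith)
  have h4 : Real.sinh (d' / 2) ^ 2 ≤ (l * Real.sinh (d / 2)) ^ 2 := by rw [mul_pow]; linarith
  have h5 : Real.sinh (d' / 2) ≤ l * Real.sinh (d / 2) :=
    (pow_le_pow_iff_left₀ h3 (by positivity) two_ne_zero).mp h4
  have h6 := Real.sinh_le_sinh.mp (h5.trans h1)
  linarith

theorem f2_fst_le {x : H3} {r : ℝ} (hx : dist x Hyp.o ≤ r) : x.v.1 ≤ Real.cosh r := by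
  rw [Hyp.fst_eq, Real.cosh_le_cosh, abs_of_nonneg dist_nonneg,
    abs_of_nonneg (dist_nonneg.trans hx)]
  exact hx

theorem f2_one_le_fst (x : H3) : 1 ≤ x.v.1 := by
  rw [Hyp.fst_eq]; exact Real.one_le_cosh _

theorem f2_lor_bd (v : ℝ × E3) {x : H3} {r : ℝ} (hx : dist x Hyp.o ≤ r) :
    |lor x.v v| ≤ Real.cosh r * (‖v.2‖ + |v.1|) := by
  have h1 := f2_fst_le hx
  have h2 := Hyp.norm_snd_lt x
  have h3 := abs_real_inner_le_norm x.v.2 v.2
  have h4 : |x.v.1 * v.1| = x.v.1 * |v.1| := by rw [abs_mul, abs_of_pos x.pos]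
  have h5 : ‖x.v.2‖ * ‖v.2‖ ≤ Real.cosh r * ‖v.2‖ :=
    mul_le_mul_of_nonneg_right (by linarith) (norm_nonneg _)
  have h6 : x.v.1 * |v.1| ≤ Real.cosh r * |v.1| := mul_le_mul_of_nonneg_right h1 (abs_nonneg _)
  have h7 := abs_sub (inner ℝ x.v.2 v.2 : ℝ) (x.v.1 * v.1)
  unfold lor
  linarith

theorem f2_self (x : H3) (v : ℝ × E3) (τ : ℝ) :
    lor (x.v + τ • v) (x.v + τ • v) = -1 + 2 * τ * lor x.v v + τ ^ 2 * lor v v := by
  simp only [lor_add_left, lor_add_right, lor_smul_left, lor_smul_right, x.unit, lor_comm v x.v]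
  ring

theorem f2_low (v : ℝ × E3) {x : H3} {r : ℝ} (hx : dist x Hyp.o ≤ r) {τ : ℝ} (hτ : 0 ≤ τ) :
    1 - 2 * τ * (Real.cosh r * (‖v.2‖ + |v.1|)) - τ ^ 2 * |lor v v| ≤
      -lor (x.v + τ • v) (x.v + τ • v) := by
  rw [f2_self]
  have h1 := (le_abs_self _).trans (f2_lor_bd v hx)
  have h2 : 2 * τ * lor x.v v ≤ 2 * τ * (Real.cosh r * (‖v.2‖ + |v.1|)) :=
    mul_le_mul_of_nonneg_left h1 (by positivity)
  have h3 : τ ^ 2 * lor v v ≤ τ ^ 2 * |lor v v| :=
    mul_le_mul_of_nonneg_left (le_abs_self _) (sq_nonneg _)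
  linarith

theorem f2_tl (v : ℝ × E3) {x : H3} {r : ℝ} (hx : dist x Hyp.o ≤ r) {τ : ℝ} (hτ : 0 ≤ τ)
    (h : 0 < 1 - 2 * τ * (Real.cosh r * (‖v.2‖ + |v.1|)) - τ ^ 2 * |lor v v|) :
    TL (x.v + τ • v) := by
  refine ⟨by linarith [f2_low v hx hτ], ?_⟩
  have h1 := f2_one_le_fst x
  have h2 : τ * -|v.1| ≤ τ * v.1 := mul_le_mul_of_nonneg_left (neg_abs_le _) hτ
  have h3 : |v.1| ≤ Real.cosh r * (‖v.2‖ + |v.1|) := by
    have := Real.one_le_cosh r
    nlinarith [norm_nonneg v.2, abs_nonneg v.1]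
  have h4 : τ * |v.1| ≤ τ * (Real.cosh r * (‖v.2‖ + |v.1|)) := mul_le_mul_of_nonneg_left h3 hτ
  have h5 : 0 ≤ τ ^ 2 * |lor v v| := by positivity
  have h6 : 0 ≤ τ * |v.1| := by positivity
  simp only [Prod.fst_add, Prod.smul_fst, smul_eq_mul]
  linarith

theorem f2_small {P : ℝ → Prop} (h : ∀ᶠ τ in 𝓝 (0 : ℝ), P τ) :
    ∃ τ₀ : ℝ, 0 < τ₀ ∧ ∀ τ ∈ Icc 0 τ₀, P τ := by
  obtain ⟨δ, hδ, h⟩ := Metric.eventually_nhds_iff.mp h
  refine ⟨δ / 2, by linarith, fun τ hτ => h ?_⟩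
  rw [Real.dist_eq, sub_zero, abs_of_nonneg hτ.1]
  linarith [hτ.2]

theorem f2_diff (v : ℝ × E3) (r : ℝ) : ∃ K : ℝ, 0 ≤ K ∧ ∀ x y : H3, dist x Hyp.o ≤ r →
    dist y Hyp.o ≤ r → (lor x.v v - lor y.v v) ^ 2 ≤ K * (Real.cosh (dist x y) - 1) := by
  set M := Real.cosh r * (‖v.2‖ + |v.1|) with hM
  set B := Real.cosh (2 * r) with hB
  have hB1 : 1 ≤ B := Real.one_le_cosh _
  refine ⟨2 * (B + 1) * (|lor v v| + M ^ 2) + 2 * B * M ^ 2, by positivity, fun x y hx hy => ?_⟩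
  have hc := cosh_dist x y
  have hc1 : 1 ≤ Real.cosh (dist x y) := Real.one_le_cosh _
  have hcB : Real.cosh (dist x y) ≤ B := by
    have h1 := dist_triangle_right x y Hyp.o
    have h0 : 0 ≤ r := dist_nonneg.trans hx
    rw [hB, Real.cosh_le_cosh, abs_of_nonneg dist_nonneg, abs_of_nonneg (by linarith)]
    linarith
  set c := Real.cosh (dist x y) with hcdef
  have hxy : lor x.v y.v = -c := by linarith
  have hu : lor (x.v + lor x.v y.v • y.v) y.v = 0 := by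
    rw [lor_add_left, lor_smul_left, y.unit]; ring
  have hw : lor (v + lor y.v v • y.v) y.v = 0 := by
    rw [lor_add_left, lor_smul_left, y.unit, lor_comm v]; ring
  have h1 := lor_sq_le y hu hw
  have h0 := lor_self_nonneg y hw
  simp only [lor_add_left, lor_add_right, lor_smul_left, lor_smul_right, x.unit, y.unit,
    lor_comm y.v x.v, lor_comm v y.v, hxy] at h1 h0
  have hb : lor y.v v ^ 2 ≤ M ^ 2 := by
    rw [← sq_abs]; exact pow_le_pow_left₀ (abs_nonneg _) (f2_lor_bd v hy) 2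
  set a := lor x.v v with ha
  set b := lor y.v v with hb'
  set V := lor v v with hV
  have h2 : (a - c * b) ^ 2 ≤ (c - 1) * ((c + 1) * (V + b ^ 2)) := by nlinarith
  have h3 : 0 ≤ V + b ^ 2 := by nlinarith
  have h4 : (c + 1) * (V + b ^ 2) ≤ (B + 1) * (|V| + M ^ 2) :=
    mul_le_mul (by linarith) (by linarith [le_abs_self V]) h3 (by linarith)
  have h5 : (c - 1) * ((c + 1) * (V + b ^ 2)) ≤ (c - 1) * ((B + 1) * (|V| + M ^ 2)) :=
    mul_le_mul_of_nonneg_left h4 (by linarith)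
  have h6 : (c - 1) * b ^ 2 ≤ B * M ^ 2 :=
    mul_le_mul (by linarith) hb (sq_nonneg _) (by linarith)
  have h7 : (c - 1) * ((c - 1) * b ^ 2) ≤ (c - 1) * (B * M ^ 2) :=
    mul_le_mul_of_nonneg_left h6 (by linarith)
  have h8 : (a - b) ^ 2 ≤ 2 * (a - c * b) ^ 2 + 2 * ((c - 1) * ((c - 1) * b ^ 2)) := by
    nlinarith [sq_nonneg (a - c * b - (c - 1) * b)]
  nlinarith

theorem push_lip (v : ℝ × E3) (r : ℝ) {ε : ℝ} (hε : 0 < ε) : ∃ τ₀ : ℝ, 0 < τ₀ ∧
    ∀ τ ∈ Icc 0 τ₀, (∀ x : H3, dist x Hyp.o ≤ r → TL (x.v + τ • v)) ∧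
      ∀ x y : H3, dist x Hyp.o ≤ r → dist y Hyp.o ≤ r →
        dist (nrm (x.v + τ • v)) (nrm (y.v + τ • v)) ≤ (1 + ε) * dist x y := by
  obtain ⟨K, hK0, hK⟩ := f2_diff v r
  set M := Real.cosh r * (‖v.2‖ + |v.1|) with hM
  have c1 : Continuous fun τ : ℝ => 1 - 2 * τ * M - τ ^ 2 * |lor v v| := by fun_prop
  have e1 : ∀ᶠ τ in 𝓝 (0 : ℝ), 1 / 4 < 1 - 2 * τ * M - τ ^ 2 * |lor v v| :=
    continuousAt_const.eventually_lt c1.continuousAt (by norm_num)
  have e2 : ∀ᶠ τ in 𝓝 (0 : ℝ),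
      1 + 2 * τ ^ 2 * K < (1 + ε) ^ 2 * (1 - 2 * τ * M - τ ^ 2 * |lor v v|) := by
    apply ContinuousAt.eventually_lt (by fun_prop) (by fun_prop)
    simp only [mul_zero, zero_mul, sub_zero, add_zero, mul_one, ne_eq, OfNat.ofNat_ne_zero,
      not_false_eq_true, zero_pow]
    nlinarith
  obtain ⟨τ₀, h0, h⟩ := f2_small (e1.and e2)
  refine ⟨τ₀, h0, fun τ hτ => ?_⟩
  obtain ⟨h1, h2⟩ := h τ hτ
  have htl : ∀ x : H3, dist x Hyp.o ≤ r → TL (x.v + τ • v) :=
    fun x hx => f2_tl v hx hτ.1 (by linarith)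
  refine ⟨htl, fun x y hx hy => ?_⟩
  have h3 := f2_cosh (htl x hx) (htl y hy) h1.le (f2_low v hx hτ.1) (f2_low v hy hτ.1)
  have h4 := hK x y hx hy
  have hc := cosh_dist x y
  have hc1 : 1 ≤ Real.cosh (dist x y) := Real.one_le_cosh _
  have h5 : lor (x.v + τ • v) (y.v + τ • v) =
      lor x.v y.v + τ * (lor x.v v + lor y.v v) + τ ^ 2 * lor v v := by
    simp only [lor_add_left, lor_add_right, lor_smul_left, lor_smul_right, lor_comm v y.v]
    ring
  rw [h5, f2_self, f2_self] at h3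
  apply f2_le_of_cosh (by linarith) dist_nonneg dist_nonneg
  set μ := 1 - 2 * τ * M - τ ^ 2 * |lor v v| with hμ
  set c := Real.cosh (dist x y) with hcdef
  set c' := Real.cosh (dist (nrm (x.v + τ • v)) (nrm (y.v + τ • v))) with hc'
  have h6 : μ * (c' - 1) ≤ c - 1 + 2 * τ ^ 2 * (lor x.v v - lor y.v v) ^ 2 := by
    have : lor x.v y.v = -c := by linarith
    rw [this] at h3
    linarith
  have h7 : 2 * τ ^ 2 * (lor x.v v - lor y.v v) ^ 2 ≤ 2 * τ ^ 2 * (K * (c - 1)) :=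
    mul_le_mul_of_nonneg_left h4 (by positivity)
  have h8 : (1 + 2 * τ ^ 2 * K) * (c - 1) ≤ (1 + ε) ^ 2 * μ * (c - 1) :=
    mul_le_mul_of_nonneg_right h2.le (by linarith)
  have h9 : μ * (c' - 1) ≤ μ * ((1 + ε) ^ 2 * (c - 1)) := by linarith
  exact le_of_mul_le_mul_left h9 (by linarith)

theorem push_short (v : ℝ × E3) (r : ℝ) : ∃ L τ₀ : ℝ, 0 ≤ L ∧ 0 < τ₀ ∧
    ∀ x : H3, dist x Hyp.o ≤ r → ∀ s ∈ Icc 0 τ₀, ∀ t ∈ Icc 0 τ₀,
      dist (nrm (x.v + s • v)) (nrm (x.v + t • v)) ≤ L * |s - t| := by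
  set M := Real.cosh r * (‖v.2‖ + |v.1|) with hM
  have hM0 : 0 ≤ M := by have := Real.cosh_pos r; positivity
  have c1 : Continuous fun τ : ℝ => 1 - 2 * τ * M - τ ^ 2 * |lor v v| := by fun_prop
  have e1 : ∀ᶠ τ in 𝓝 (0 : ℝ), 1 / 4 < 1 - 2 * τ * M - τ ^ 2 * |lor v v| :=
    continuousAt_const.eventually_lt c1.continuousAt (by norm_num)
  have e2 : ∀ᶠ τ in 𝓝 (0 : ℝ), τ < 1 := eventually_lt_nhds one_pos
  obtain ⟨τ₀, h0, h⟩ := f2_small (e1.and e2)
  set K := 4 * (|lor v v| + (2 * M + 2 * |lor v v|) ^ 2) with hK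
  have hK0 : 0 ≤ K := by positivity
  refine ⟨√K, τ₀, Real.sqrt_nonneg _, h0, fun x hx s hs t ht => ?_⟩
  obtain ⟨s1, s2⟩ := h s hs
  obtain ⟨t1, t2⟩ := h t ht
  have h3 := f2_cosh (f2_tl v hx hs.1 (by linarith)) (f2_tl v hx ht.1 (by linarith)) le_rfl
    (s1.le.trans (f2_low v hx hs.1)) (t1.le.trans (f2_low v hx ht.1))
  have h5 : lor (x.v + s • v) (x.v + t • v) = -1 + (s + t) * lor x.v v + s * t * lor v v := by
    simp only [lor_add_left, lor_add_right, lor_smul_left, lor_smul_right, x.unit, lor_comm v x.v]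
    ring
  rw [h5, f2_self, f2_self] at h3
  have h4 := sq_half_le_cosh (dist (nrm (x.v + s • v)) (nrm (x.v + t • v)))
  have ha : |lor x.v v| ≤ M := f2_lor_bd v hx
  set d := dist (nrm (x.v + s • v)) (nrm (x.v + t • v)) with hd
  set a := lor x.v v with ha'
  set V := lor v v with hV
  have h6 : d ^ 2 ≤ 4 * ((s - t) ^ 2 * (V + (2 * a + (s + t) * V) ^ 2)) := by nlinarith
  have h7 : |2 * a + (s + t) * V| ≤ 2 * M + 2 * |V| := by
    have h8 := abs_add_le (2 * a) ((s + t) * V)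
    rw [abs_mul, abs_mul, abs_of_nonneg (show (0 : ℝ) ≤ 2 by norm_num),
      abs_of_nonneg (show 0 ≤ s + t by linarith [hs.1, ht.1])] at h8
    have h9 : (s + t) * |V| ≤ 2 * |V| := mul_le_mul_of_nonneg_right (by linarith) (abs_nonneg _)
    linarith
  have h8 : (2 * a + (s + t) * V) ^ 2 ≤ (2 * M + 2 * |V|) ^ 2 := by
    rw [← sq_abs]; exact pow_le_pow_left₀ (abs_nonneg _) h7 2
  have h9 : (s - t) ^ 2 * (V + (2 * a + (s + t) * V) ^ 2) ≤
      (s - t) ^ 2 * (|V| + (2 * M + 2 * |V|) ^ 2) :=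
    mul_le_mul_of_nonneg_left (by linarith [le_abs_self V]) (sq_nonneg _)
  have h10 : d ^ 2 ≤ (√K * |s - t|) ^ 2 := by
    rw [mul_pow, Real.sq_sqrt hK0, sq_abs, hK]
    linarith
  exact (pow_le_pow_iff_left₀ dist_nonneg (by positivity) two_ne_zero).mp h10

theorem f2_geo {C : Set H3} {π : H3 → H3} (hπ : LipschitzWith 1 π)
    (hf : ∀ x, x ∉ interior C → π x ∈ frontier C) {x y : H3}
    (h : ∀ z, dist z y ≤ dist x y → z ∉ C) : pathDist (frontier C) (π x) (π y) ≤ edist x y := by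
  obtain ⟨g, hg, hg'⟩ := exists_geodesic_path x y
  have h1 := pathDist_le_of_path (B := frontier C) g hπ.lipschitzOnWith (by
    rintro _ ⟨t, rfl⟩
    refine hf _ fun hi => h (g t) ?_ (interior_subset hi)
    linarith [hg' t, dist_nonneg (x := x) (y := g t)])
  rw [ENNReal.coe_one, one_mul] at h1
  exact h1.trans hg

theorem f2_short {C : Set H3} {π : H3 → H3} (hπ : LipschitzWith 1 π)
    (hf : ∀ x, x ∉ interior C → π x ∈ frontier C) {x : H3} (hx : π x = x) {v : ℝ × E3}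
    {τ L : ℝ} (hτ : 0 ≤ τ) (hL : 0 ≤ L)
    (hi : ∀ s ∈ Icc 0 τ, nrm (x.v + s • v) ∉ interior C)
    (h : ∀ s ∈ Icc 0 τ, ∀ t ∈ Icc 0 τ,
      dist (nrm (x.v + s • v)) (nrm (x.v + t • v)) ≤ L * |s - t|) :
    pathDist (frontier C) x (π (nrm (x.v + τ • v))) ≤ ENNReal.ofReal (L * τ) := by
  have h1 := pathDist_le_lip (A := frontier C) (γ := fun s : ℝ => π (nrm (x.v + s • v))) hτ hL
    (fun s hs => hf _ (hi s hs)) (fun s hs t ht => by
      have h2 := hπ.dist_le_mul (nrm (x.v + s • v)) (nrm (x.v + t • v))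
      rw [NNReal.coe_one, one_mul] at h2
      exact h2.trans (h s hs t ht))
  simpa only [zero_smul, add_zero, nrm_self, hx, sub_zero] using h1

/-- Paths of the limit that can be pushed off the limit set give paths on the boundaries. -/
theorem push_path {𝒰 : Ultrafilter ℕ} {C : ℕ → Set H3} (hc : ∀ n, IsClosed (C n))
    (hC : ∀ n, GConvex (C n)) {p q : ℕ → H3} (hp : ∀ n, p n ∈ frontier (C n))
    (hq : ∀ n, q n ∈ frontier (C n)) {p' q' : H3} (hp' : Tendsto p 𝒰 (𝓝 p'))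
    (hq' : Tendsto q 𝒰 (𝓝 q')) (γ : Path p' q') (v : ℝ × E3)
    (hγ : ∀ τ : ℝ, 0 < τ → ∀ t, TL ((γ t).v + τ • v) → nrm ((γ t).v + τ • v) ∉ ULim 𝒰 C)
    (hpv : ∀ᶠ n in (𝒰 : Filter ℕ), ∀ τ : ℝ, 0 ≤ τ → TL ((p n).v + τ • v) →
      nrm ((p n).v + τ • v) ∉ interior (C n))
    (hqv : ∀ᶠ n in (𝒰 : Filter ℕ), ∀ τ : ℝ, 0 ≤ τ → TL ((q n).v + τ • v) →
      nrm ((q n).v + τ • v) ∉ interior (C n))
    {L : ENNReal} (hL : eVariationOn γ univ < L) :
    ∀ᶠ n in (𝒰 : Filter ℕ), pathDist (frontier (C n)) (p n) (q n) ≤ L := by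
  rcases eq_or_ne L ⊤ with rfl | hLt
  · exact Eventually.of_forall fun _ => le_top
  have hℓt : eVariationOn γ univ ≠ ⊤ := hL.ne_top
  set ℓ := (eVariationOn γ univ).toReal with hℓ
  have hℓ0 : 0 ≤ ℓ := ENNReal.toReal_nonneg
  have hlt : ℓ < L.toReal := (ENNReal.toReal_lt_toReal hℓt hLt).mpr hL
  set g := L.toReal - ℓ with hg
  have hg0 : 0 < g := by linarith
  have hγc : IsCompact (range γ) := isCompact_range γ.continuous
  obtain ⟨r₀, hr₀⟩ := hγc.isBounded.subset_closedBall Hyp.o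
  have hr : ∀ t, dist (γ t) Hyp.o ≤ r₀ + 1 := fun t => by
    have := mem_closedBall.mp (hr₀ (mem_range_self t))
    linarith
  have hp0 : dist p' Hyp.o ≤ r₀ := mem_closedBall.mp (hr₀ γ.source_mem_range)
  have hq0 : dist q' Hyp.o ≤ r₀ := mem_closedBall.mp (hr₀ γ.target_mem_range)
  set ε := g / (3 * (ℓ + 1)) with hε
  have hε0 : 0 < ε := by positivity
  have hεℓ : ε * ℓ ≤ g / 3 := by
    rw [hε, div_mul_eq_mul_div, div_le_div_iff₀ (by positivity) (by norm_num)]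
    nlinarith
  obtain ⟨τ₀, hτ₀, hlip⟩ := push_lip v (r₀ + 1) hε0
  obtain ⟨L₀, τ₁, hL₀, hτ₁, hsh⟩ := push_short v (r₀ + 1)
  set τ := min (min τ₀ τ₁) (g / (6 * (L₀ + 1))) with hτ
  have hτp : 0 < τ := lt_min (lt_min hτ₀ hτ₁) (by positivity)
  have hτ0 : τ ≤ τ₀ := (min_le_left _ _).trans (min_le_left _ _)
  have hτ1 : τ ≤ τ₁ := (min_le_left _ _).trans (min_le_right _ _)
  have hτL : L₀ * τ ≤ g / 6 := by
    have h1 : τ ≤ g / (6 * (L₀ + 1)) := min_le_right _ _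
    rw [le_div_iff₀ (by positivity)] at h1
    nlinarith
  obtain ⟨htl, hl⟩ := hlip τ ⟨hτp.le, hτ0⟩
  set P : H3 → H3 := fun x => nrm (x.v + τ • v) with hP
  set Λ : NNReal := ⟨1 + ε, by linarith⟩ with hΛ
  have hPl : LipschitzOnWith Λ P (range γ) := by
    apply LipschitzOnWith.of_dist_le_mul
    rintro _ ⟨s, rfl⟩ _ ⟨t, rfl⟩
    exact hl _ _ (hr s) (hr t)
  have hK : IsCompact (P '' range γ) := hγc.image_of_continuousOn hPl.continuousOn
  have hKU : P '' range γ ⊆ (ULim 𝒰 C)ᶜ := by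
    rintro _ ⟨_, ⟨t, rfl⟩, rfl⟩
    exact hγ τ hτp t (htl _ (hr t))
  obtain ⟨ρ, hρ, hρU⟩ := hK.exists_cthickening_subset_open (isClosed_ULim C).isOpen_compl hKU
  have hev := eventually_disjoint_of_isCompact (𝒰 := 𝒰) (A := C) (hK.cthickening (r := ρ))
    (subset_compl_iff_disjoint_right.mp hρU)
  set η := min 1 (min ρ (g / 6) / (1 + ε)) with hη
  have hη0 : 0 < η := lt_min one_pos (div_pos (lt_min hρ (by positivity)) (by linarith))
  have hη1 : η ≤ 1 := min_le_left _ _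
  have hη2 : (1 + ε) * η ≤ min ρ (g / 6) := by
    have h1 : η ≤ min ρ (g / 6) / (1 + ε) := min_le_right _ _
    rw [le_div_iff₀ (by linarith)] at h1
    linarith
  filter_upwards [hev, hpv, hqv, Metric.tendsto_nhds.mp hp' η hη0,
    Metric.tendsto_nhds.mp hq' η hη0] with n hd hpn hqn dp dq
  have hpC : p n ∈ C n := (hc n).frontier_subset (hp n)
  have hqC : q n ∈ C n := (hc n).frontier_subset (hq n)
  obtain ⟨π, hπ, -, hπ2, hπ3⟩ := exists_proj (hc n) (hC n) ⟨p n, hpC⟩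
  have key : ∀ x x' : H3, x ∈ C n → x' ∈ range γ → dist x' Hyp.o ≤ r₀ → dist x x' < η →
      (∀ s : ℝ, 0 ≤ s → TL (x.v + s • v) → nrm (x.v + s • v) ∉ interior (C n)) →
      pathDist (frontier (C n)) x (π (P x')) ≤ ENNReal.ofReal (g / 3) := by
    intro x x' hx hx' hx0 hxx hi
    have hxr : dist x Hyp.o ≤ r₀ + 1 := by linarith [dist_triangle x x' Hyp.o]
    have h1 := f2_short hπ hπ3 (hπ2 x hx) hτp.le hL₀
      (fun s hs => hi s hs.1 ((hlip s ⟨hs.1, hs.2.trans hτ0⟩).1 x hxr))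
      (fun s hs t ht => hsh x hxr s ⟨hs.1, hs.2.trans hτ1⟩ t ⟨ht.1, ht.2.trans hτ1⟩)
    have h2 : dist (P x) (P x') ≤ min ρ (g / 6) := by
      have h3 : dist (P x) (P x') ≤ (1 + ε) * dist x x' := hl x x' hxr (by linarith)
      have h4 : (1 + ε) * dist x x' ≤ (1 + ε) * η :=
        mul_le_mul_of_nonneg_left hxx.le (by linarith)
      linarith
    have h3 := f2_geo hπ hπ3 (x := P x) (y := P x') fun z hz hzC =>
      disjoint_left.mp hd (mem_cthickening_of_dist_le z (P x') ρ _ (mem_image_of_mem P hx')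
        (hz.trans (h2.trans (min_le_left _ _)))) hzC
    calc pathDist (frontier (C n)) x (π (P x'))
        ≤ pathDist (frontier (C n)) x (π (P x)) + pathDist (frontier (C n)) (π (P x)) (π (P x')) :=
          pathDist_triangle _ _ _ _
      _ ≤ ENNReal.ofReal (g / 6) + ENNReal.ofReal (g / 6) := by
          refine add_le_add (h1.trans (ENNReal.ofReal_le_ofReal hτL)) (h3.trans ?_)
          rw [edist_dist]
          exact ENNReal.ofReal_le_ofReal (h2.trans (min_le_right _ _))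
      _ = ENNReal.ofReal (g / 3) := by
          rw [← ENNReal.ofReal_add (by positivity) (by positivity)]
          congr 1
          ring
  have k1 := key (p n) p' hpC γ.source_mem_range hp0 dp hpn
  have k2 := key (q n) q' hqC γ.target_mem_range hq0 dq hqn
  rw [pathDist_comm] at k2
  have k3 : pathDist (frontier (C n)) (π (P p')) (π (P q')) ≤ ENNReal.ofReal (ℓ + g / 3) := by
    have h1 : LipschitzOnWith Λ (π ∘ P) (range γ) := by
      simpa only [one_mul] using hπ.comp_lipschitzOnWith hPl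
    have h2 := pathDist_le_of_path (B := frontier (C n)) γ h1 (fun x hx =>
      hπ3 _ fun hi => disjoint_left.mp hd (self_subset_cthickening _ (mem_image_of_mem P hx))
        (interior_subset hi))
    refine h2.trans ?_
    rw [← ENNReal.ofReal_toReal hℓt, ← hℓ, ← ENNReal.ofReal_coe_nnreal,
      ← ENNReal.ofReal_mul Λ.coe_nonneg]
    apply ENNReal.ofReal_le_ofReal
    have : (Λ : ℝ) = 1 + ε := rfl
    rw [this]
    linarith
  calc pathDist (frontier (C n)) (p n) (q n)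
      ≤ pathDist (frontier (C n)) (p n) (π (P p')) +
        (pathDist (frontier (C n)) (π (P p')) (π (P q')) +
          pathDist (frontier (C n)) (π (P q')) (q n)) :=
        (pathDist_triangle _ _ _ _).trans (add_le_add le_rfl (pathDist_triangle _ _ _ _))
    _ ≤ ENNReal.ofReal (g / 3) + (ENNReal.ofReal (ℓ + g / 3) + ENNReal.ofReal (g / 3)) :=
        add_le_add k1 (add_le_add k3 k2)
    _ = L := by
        rw [← ENNReal.ofReal_add (by positivity) (by positivity),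
          ← ENNReal.ofReal_add (by positivity) (by positivity), ← ENNReal.ofReal_toReal hLt]
        congr 1
        rw [hg]
        ring

end Pool.Agent.Lib.MP_44acff_gt.EK
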