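import Pool.Agent.Lib.MP_44acff_gt.EK.F2

open Set Metric Topology Filter MeasureTheory

namespace Pool.Agent.Lib.MP_44acff_gt.EK

variable {𝒰 : Ultrafilter ℕ} {S : ℕ → Type} [∀ n, MetricSpace (S n)] {T : Type} [MetricSpace T]
  {ap : T → ∀ n, S n} {o : T}

theorem f4_lor {b c : H3} {τ : ℝ} (h : TL (b.v + τ • -c.v)) (n : ℝ × E3) : ∃ a : ℝ, 0 < a ∧
    lor (nrm (b.v + τ • -c.v)).v n = a * (lor b.v n - τ * lor c.v n) := by
  refine ⟨(√(-lor (b.v + τ • -c.v) (b.v + τ • -c.v)))⁻¹,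
    inv_pos.2 (Real.sqrt_pos.2 (by linarith [h.1])), ?_⟩
  rw [nrm_v h, lor_smul_left]
  congr 1
  rw [lor_add_left, lor_smul_left, lor_neg_left]
  ring

theorem f4_push {C : Set H3} (hC : GConvex C) {b c : H3} (hc : c ∈ C) (hb : b ∉ interior C)
    {τ : ℝ} (hτ : 0 ≤ τ) (h : TL (b.v + τ • -c.v)) : nrm (b.v + τ • -c.v) ∉ interior C := by
  obtain ⟨n, h1, h2, h3⟩ := exists_support hC ⟨c, hc⟩ hb
  obtain ⟨a, ha, e⟩ := f4_lor h n
  refine not_mem_interior h1 h2 ?_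
  rw [e]
  exact mul_nonneg ha.le (by nlinarith [h2 c hc])

theorem f4_push' {C : Set H3} (hC : GConvex C) {b c : H3} (hc : c ∈ interior C)
    (hb : b ∉ interior C) {τ : ℝ} (hτ : 0 < τ) (h : TL (b.v + τ • -c.v)) :
    nrm (b.v + τ • -c.v) ∉ C := by
  obtain ⟨n, h1, h2, h3⟩ := exists_support hC ⟨c, interior_subset hc⟩ hb
  obtain ⟨a, ha, e⟩ := f4_lor h n
  have h4 : lor c.v n < 0 := not_le.1 fun h4 => not_mem_interior h1 h2 h4 hc
  intro h5
  have h6 := h2 _ h5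
  rw [e] at h6
  exact absurd h6 (not_le.2 (mul_pos ha (by nlinarith)))

theorem limit_range (h𝒰 : (𝒰 : Filter ℕ) ≤ atTop) (R : ∀ n, Realis (S n))
    (ho : ∀ n, Hyp.o ∈ (R n).C) {φ : T → H3}
    (hφ : ∀ x, Tendsto (fun n => (R n).φ (ap x n)) 𝒰 (𝓝 (φ x))) :
    range φ ⊆ frontier (ULim 𝒰 fun n => (R n).C) := by
  rintro _ ⟨x, rfl⟩
  exact ⟨subset_closure (mem_ULim_of_tendsto (Eventually.of_forall fun n => (R n).φ_mem _) (hφ x)),
    not_mem_interior_ULim h𝒰 (fun n => (R n).convex) ho (hφ x)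
      (Eventually.of_forall fun n => (R n).φ_not_mem _)⟩

theorem limit_isom (hT : ∀ x y : T, pathDist univ x y ≤ edist x y)
    (h𝒰 : (𝒰 : Filter ℕ) ≤ atTop) (hG : GConv S T 𝒰 ap o) (R : ∀ n, Realis (S n))
    (ho : ∀ n, Hyp.o ∈ (R n).C) (hi : (interior (ULim 𝒰 fun n => (R n).C)).Nonempty)
    {φ : T → H3} (hφ : ∀ x, Tendsto (fun n => (R n).φ (ap x n)) 𝒰 (𝓝 (φ x))) (x y : T) :
    edist x y = pathDist (frontier (ULim 𝒰 fun n => (R n).C)) (φ x) (φ y) := by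
  obtain ⟨c, hc⟩ := hi
  have hv := fun n => (R n).convex
  refine le_antisymm (le_iInf₂ fun γ hγ => le_of_forall_gt_imp_ge_of_dense fun L hL => ?_) ?_
  · have h1 : ∀ᶠ n in (𝒰 : Filter ℕ), c ∈ (R n).C := by
      by_contra h
      exact not_mem_interior_ULim h𝒰 hv ho (b := fun _ => c) tendsto_const_nhds
        ((Ultrafilter.eventually_not.2 h).mono fun n hn h' => hn (interior_subset h')) hc
    have h2 := push_path (fun n => (R n).closed) hv (fun n => (R n).φ_mem_frontier (ap x n))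
      (fun n => (R n).φ_mem_frontier (ap y n)) (hφ x) (hφ y) γ (-c.v)
      (fun τ hτ t h => f4_push' (gconvex_ULim h𝒰 hv) hc (hγ (mem_range_self t)).2 hτ h)
      (h1.mono fun n hn τ hτ h => f4_push (hv n) hn ((R n).φ_not_mem _) hτ h)
      (h1.mono fun n hn τ hτ h => f4_push (hv n) hn ((R n).φ_not_mem _) hτ h) hL
    have h3 := ENNReal.tendsto_ofReal (hG.dist_tendsto x y)
    rw [edist_dist]
    refine le_of_tendsto h3 (h2.mono fun n hn => ?_)
    rwa [← edist_dist, (R n).isom]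
  · have h1 : LipschitzWith 1 φ := LipschitzWith.mk_one fun a b =>
      le_of_tendsto_of_tendsto' ((hφ a).dist (hφ b)) (hG.dist_tendsto a b) fun n =>
        (R n).dist_le _ _
    have h2 := pathDist_map one_ne_zero (h1.lipschitzOnWith (s := univ))
      (fun a _ => limit_range h𝒰 R ho hφ (mem_range_self a)) x y
    rw [ENNReal.coe_one, one_mul] at h2
    exact h2.trans (hT x y)

end Pool.Agent.Lib.MP_44acff_gt.EK
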