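import Pool.Agent.Lib.MP_44acff_gt.EK.Gm
import Pool.Agent.Lib.MP_44acff_gt.H70Base

open Set Metric Topology Filter MeasureTheory

namespace Pool.Agent.Lib.MP_44acff_gt.EK

variable {γ : ℝ} {m n : ℕ}

theorem fat_prod {E : Set ℂ} {A B : Set ℝ} (hA : MeasurableSet A) (hB : MeasurableSet B) {ξ : ℂ}
    {r s t : ℝ} (hs : 2 * s < r) (ht : 0 ≤ t) (hE : ∀ z : ℂ, z.re ∈ A → z.im ∈ B → z ∈ E)
    (h1 : ∀ x ∈ A, |x - ξ.re| ≤ s) (h2 : ∀ x ∈ B, |x - ξ.im| ≤ s)
    (v1 : ENNReal.ofReal t ≤ volume A) (v2 : ENNReal.ofReal t ≤ volume B)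
    (hc : 1 / 10 ^ 5 * r ^ 2 ≤ t * t) :
    ENNReal.ofReal (1 / 10 ^ 5 * r ^ 2) ≤ volume (E ∩ ball ξ r) := by
  calc ENNReal.ofReal (1 / 10 ^ 5 * r ^ 2) ≤ ENNReal.ofReal (t * t) :=
        ENNReal.ofReal_le_ofReal hc
    _ = ENNReal.ofReal t * ENNReal.ofReal t := ENNReal.ofReal_mul ht
    _ ≤ volume A * volume B := mul_le_mul' v1 v2
    _ = volume {z : ℂ | z.re ∈ A ∧ z.im ∈ B} := (volume_prod_set hA hB).symm
    _ ≤ volume (E ∩ ball ξ r) := by
        refine measure_mono fun z hz => ⟨hE z hz.1 hz.2, ?_⟩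
        rw [mem_ball, dist_eq_norm]
        have h3 := Complex.norm_le_abs_re_add_abs_im (z - ξ)
        have h4 := h1 _ hz.1
        have h5 := h2 _ hz.2
        rw [Complex.sub_re, Complex.sub_im] at h3
        linarith

theorem fat_in {x a s : ℝ} (hs : 0 ≤ s) (ha : s ≤ a) (hx : |x - 1 / 2| ≤ a) :
    ∃ u : ℝ, ∀ y ∈ Icc u (u + s), |y - x| ≤ s ∧ |y - 1 / 2| ≤ a := by
  rw [abs_le] at hx
  rcases le_total x (1 / 2) with h | h
  · refine ⟨x, fun y hy => ⟨?_, ?_⟩⟩ <;> rw [abs_le] <;> constructor <;> linarith [hy.1, hy.2]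
  · refine ⟨x - s, fun y hy => ⟨?_, ?_⟩⟩ <;> rw [abs_le] <;> constructor <;>
      linarith [hy.1, hy.2]

theorem fat_out (x : ℝ) {s : ℝ} (hs : 0 ≤ s) :
    ∃ u : ℝ, ∀ y ∈ Icc u (u + s), |y - x| ≤ s ∧ |x - 1 / 2| ≤ |y - 1 / 2| := by
  rcases le_total x (1 / 2) with h | h
  · refine ⟨x - s, fun y hy => ⟨?_, ?_⟩⟩
    · rw [abs_le]; constructor <;> linarith [hy.1, hy.2]
    · rw [abs_of_nonpos (by linarith), abs_of_nonpos (by linarith [hy.2])]; linarith [hy.2]
  · refine ⟨x, fun y hy => ⟨?_, ?_⟩⟩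
    · rw [abs_le]; constructor <;> linarith [hy.1, hy.2]
    · rw [abs_of_nonneg (by linarith), abs_of_nonneg (by linarith [hy.1])]; linarith [hy.1]

theorem fat_vol_Icc (u s : ℝ) : ENNReal.ofReal s ≤ volume (Icc u (u + s)) := by
  rw [Real.volume_Icc, add_sub_cancel_left]

theorem fat_el_zero (γ : ℝ) : el γ 0 = 1 := by
  simp [el]

theorem fat_zero_mem (γ : ℝ) : (0 : ℝ) ∈ Lp γ 0 := by
  simp [Lp]

theorem fat_meas (γ : ℝ) (k j : ℕ) (p : ℝ) : MeasurableSet (Xs γ k ∩ Iv γ j p) :=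
  (isClosed_Xs γ k).measurableSet.inter measurableSet_Icc

theorem fat_corner (h : Gam γ) {p : ℝ} (hp : p ∈ Lp γ n) (m : ℕ) :
    p ∈ Xs γ (n + m) ∩ Iv γ 0 0 := by
  have h1 := Lp_range h hp
  have h2 := el_pos h n
  have h3 := el_pos h (n + m)
  refine ⟨⟨p, Lp_mono γ (Nat.le_add_right n m) hp, le_refl _, by linarith⟩, h1.1, ?_⟩
  rw [fat_el_zero]; linarith [h1.2]

theorem fat_big (h : Gam γ) {E : Set ℂ} (hE : ∀ z, 1 / 2 + γ ≤ rho z → z ∈ E) (ξ : ℂ) {r : ℝ}
    (hr : 1 ≤ r) : ENNReal.ofReal (1 / 10 ^ 5 * r ^ 2) ≤ volume (E ∩ ball ξ r) := by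
  obtain ⟨h0, h1⟩ := h
  set Bx : Set ℂ := box (1 / 2 - (1 / 2 + γ), 1 / 2 + (1 / 2 + γ), 1 / 2 - (1 / 2 + γ),
    1 / 2 + (1 / 2 + γ)) with hBx
  have hv : volume Bx ≤ ENNReal.ofReal (2 * r ^ 2) := by
    rw [hBx, volume_box, ← ENNReal.ofReal_mul (by simp only; linarith)]
    refine ENNReal.ofReal_le_ofReal ?_
    simp only
    nlinarith
  have hsub : ball ξ r ⊆ (E ∩ ball ξ r) ∪ Bx := by
    intro z hz
    rcases le_total (1 / 2 + γ) (rho z) with h2 | h2
    · exact Or.inl ⟨hE z h2, hz⟩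
    · exact Or.inr (rho_le_iff.mp h2)
  have hb : ENNReal.ofReal (1 / 10 ^ 5 * r ^ 2) + ENNReal.ofReal (2 * r ^ 2) ≤
      volume (ball ξ r) := by
    rw [Complex.volume_ball, ← ENNReal.ofReal_add (by positivity) (by positivity),
      ← ENNReal.ofReal_pow (by linarith), ← ENNReal.ofReal_coe_nnreal,
      ← ENNReal.ofReal_mul (by positivity)]
    refine ENNReal.ofReal_le_ofReal ?_
    have hpi := Real.pi_gt_three
    rw [NNReal.coe_real_pi]
    nlinarith [sq_nonneg r]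
  have h3 : volume (ball ξ r) ≤ volume (E ∩ ball ξ r) + ENNReal.ofReal (2 * r ^ 2) :=
    (measure_mono hsub).trans ((measure_union_le _ _).trans (add_le_add le_rfl hv))
  exact (ENNReal.add_le_add_iff_right ENNReal.ofReal_ne_top).mp (hb.trans h3)

theorem fat_EE (h : Gam γ) (hn : 2 ≤ n) : NU.Fat (EE γ m n) (1 / 10 ^ 5) := by
  intro ξ hξ r hr
  rcases le_total 1 r with hr1 | hr1
  · exact fat_big h (fun z hz => mem_EE.mpr (Or.inr (Or.inl hz))) ξ hr1
  have hs : 0 ≤ r / 5 := by positivity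
  rcases mem_EE.mp hξ with h1 | h1 | ⟨a, ha, x, hx, hξx⟩
  · have haa : r / 5 ≤ aa γ := by unfold aa; linarith [h.1]
    obtain ⟨u, hu⟩ := fat_in hs haa ((le_max_left _ _).trans h1)
    obtain ⟨w, hw⟩ := fat_in hs haa ((le_max_right _ _).trans h1)
    refine fat_prod measurableSet_Icc measurableSet_Icc (s := r / 5) (by linarith) hs
      (fun z h2 h3 => mem_EE.mpr (Or.inl (max_le (hu _ h2).2 (hw _ h3).2)))
      (fun y hy => (hu y hy).1) (fun y hy => (hw y hy).1) (fat_vol_Icc u _) (fat_vol_Icc w _)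
      (by nlinarith [sq_nonneg r])
  · obtain ⟨u, hu⟩ := fat_out ξ.re hs
    obtain ⟨w, hw⟩ := fat_out ξ.im hs
    refine fat_prod measurableSet_Icc measurableSet_Icc (s := r / 5) (by linarith) hs
      (fun z h2 h3 => mem_EE.mpr (Or.inr (Or.inl
        (h1.trans (max_le_max (hu _ h2).2 (hw _ h3).2)))))
      (fun y hy => (hu y hy).1) (fun y hy => (hw y hy).1) (fat_vol_Icc u _) (fat_vol_Icc w _)
      (by nlinarith [sq_nonneg r])
  · obtain ⟨k, l, hkl, hu⟩ := kids_union (m := m) h ha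
    have hk : n ≤ k := by omega
    have hl : n ≤ l := by omega
    have ha' : a.1 ∈ Lp γ n ∧ a.2 ∈ Lp γ n := by
      unfold Act at ha
      exact Finset.mem_product.mp (Finset.mem_filter.mp ha).1
    obtain ⟨hre, him⟩ := (hu ξ).mp ⟨x, hx, hξx⟩
    have hs' : 0 < r / 5 := by positivity
    rcases le_total (r / 5) (el γ n) with h2 | h2
    · refine fat_prod ((fat_meas γ k n a.1).inter measurableSet_Icc)
        ((fat_meas γ l n a.2).inter measurableSet_Icc) (s := r / 5) (by linarith)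
        (by positivity)
        (fun z h3 h4 => mem_EE.mpr (Or.inr (Or.inr ⟨a, ha, (hu z).mpr ⟨h3.1, h4.1⟩⟩)))
        (fun y hy => ?_) (fun y hy => ?_) (vol_Xs_loc h hk ha'.1 hre hs' h2)
        (vol_Xs_loc h hl ha'.2 him hs' h2) (by nlinarith [sq_nonneg r])
      · rw [abs_le]; constructor <;> linarith [hy.2.1, hy.2.2]
      · rw [abs_le]; constructor <;> linarith [hy.2.1, hy.2.2]
    · have h3 : r / 5 ≤ el γ 0 := by rw [fat_el_zero]; linarith
      refine fat_prod ((fat_meas γ (n + m) 0 0).inter measurableSet_Icc)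
        ((fat_meas γ (n + m) 0 0).inter measurableSet_Icc) (s := 2 * (r / 5)) (by linarith)
        (by positivity) (fun z h4 h5 => prod_subset_EE h hn h4.1.1 h5.1.1)
        (fun y hy => ?_) (fun y hy => ?_)
        (vol_Xs_loc h (Nat.zero_le _) (fat_zero_mem γ) (fat_corner h ha'.1 m) hs' h3)
        (vol_Xs_loc h (Nat.zero_le _) (fat_zero_mem γ) (fat_corner h ha'.2 m) hs' h3)
        (by nlinarith [sq_nonneg r])
      · rw [abs_le]; constructor <;> linarith [hy.2.1, hy.2.2, hre.2.1, hre.2.2]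
      · rw [abs_le]; constructor <;> linarith [hy.2.1, hy.2.2, him.2.1, him.2.2]

theorem fat_Einf (h : Gam γ) : NU.Fat (Einf γ) (1 / 10 ^ 5) := by
  intro ξ hξ r hr
  have h1 : Einf γ ∩ ball ξ r = ⋂ n, (EE γ 0 (n + 2) ∩ ball ξ r) := by
    unfold Einf
    rw [iInter_inter]
  have h2 : Antitone fun n : ℕ => EE γ 0 (n + 2) ∩ ball ξ r := fun i j hij =>
    inter_subset_inter_left _ (EE_subset h (by omega) (by omega))
  rw [h1, h2.measure_iInter
    (fun i => ((isClosed_EE γ 0 (i + 2)).measurableSet.inter measurableSet_ball).nullMeasurableSet)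
    ⟨0, ((measure_mono inter_subset_right).trans_lt measure_ball_lt_top).ne⟩]
  exact le_iInf fun i => fat_EE h (by omega) ξ (mem_iInter.mp hξ i) r hr

theorem volume_compl_EE (h : Gam γ) (hn : 2 ≤ n) :
    volume (EE γ m n)ᶜ ≤ ENNReal.ofReal (7 * γ) := by
  have h0 := h.1
  have h1 := h.2
  set Bx : Set ℂ := box (1 / 2 - (1 / 2 + γ), 1 / 2 + (1 / 2 + γ), 1 / 2 - (1 / 2 + γ),
    1 / 2 + (1 / 2 + γ)) with hBx
  set A : Set ℝ := Xs γ (n + m) ∩ Iv γ 0 0 with hA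
  set P : Set ℂ := {z | z.re ∈ A ∧ z.im ∈ A} with hP
  have hAm : MeasurableSet A := fat_meas γ _ _ _
  have hv : volume Bx ≤ ENNReal.ofReal (7 * γ) + ENNReal.ofReal ((1 - γ) * (1 - γ)) := by
    rw [hBx, volume_box, ← ENNReal.ofReal_mul (by simp only; linarith),
      ← ENNReal.ofReal_add (by positivity) (by nlinarith)]
    refine ENNReal.ofReal_le_ofReal ?_
    simp only
    nlinarith
  have hvA : ENNReal.ofReal (1 - γ) ≤ volume A := by
    have := vol_Xs_Iv h (Nat.zero_le (n + m)) (fat_zero_mem γ)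
    simpa using this
  have hvP : ENNReal.ofReal ((1 - γ) * (1 - γ)) ≤ volume P := by
    rw [hP, volume_prod_set hAm hAm, ENNReal.ofReal_mul (by linarith)]
    exact mul_le_mul' hvA hvA
  have hPm : MeasurableSet P :=
    (Complex.measurable_re hAm).inter (Complex.measurable_im hAm)
  have hd : Disjoint (EE γ m n)ᶜ P :=
    disjoint_left.mpr fun z hz hp => hz (prod_subset_EE h hn hp.1.1 hp.2.1)
  have hs : (EE γ m n)ᶜ ∪ P ⊆ Bx := by
    rintro z (hz | hz)
    · refine rho_le_iff.mp (le_of_not_ge fun h2 => hz (mem_EE.mpr (Or.inr (Or.inl h2))))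
    · have h2 := hz.1.2
      have h3 := hz.2.2
      unfold Iv at h2 h3
      rw [fat_el_zero] at h2 h3
      exact ⟨⟨by simp only; linarith [h2.1], by simp only; linarith [h2.2]⟩,
        ⟨by simp only; linarith [h3.1], by simp only; linarith [h3.2]⟩⟩
  have h4 : volume (EE γ m n)ᶜ + ENNReal.ofReal ((1 - γ) * (1 - γ)) ≤
      ENNReal.ofReal (7 * γ) + ENNReal.ofReal ((1 - γ) * (1 - γ)) := by
    refine (add_le_add le_rfl hvP).trans ?_
    rw [← measure_union hd hPm]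
    exact (measure_mono hs).trans hv
  exact (ENNReal.add_le_add_iff_right ENNReal.ofReal_ne_top).mp h4

end Pool.Agent.Lib.MP_44acff_gt.EK
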