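import Pool.Agent.Lib.MP_44acff_gt.EK.Fat

open Set Metric Topology Filter MeasureTheory

namespace Pool.Agent.Lib.MP_44acff_gt.EK

variable {γ : ℝ}

theorem rad_dom {α β e x y : ℝ} (h1 : e ≤ |β - α|) (h2 : e ≤ |β + α|) (h3 : |β| ≤ |α|)
    (hx : |x - α| ≤ e / 2) (hy : |y - β| ≤ e / 2) : |y| ≤ |x| := by
  have h4 : e ≤ |α| - |β| := by
    rcases abs_cases α with a | a <;> rcases abs_cases β with b | b <;>
      rcases abs_cases (β - α) with c | c <;> rcases abs_cases (β + α) with d | d <;>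
      linarith [a.1, a.2, b.1, b.2, c.1, c.2, d.1, d.2]
  have h5 := abs_sub_abs_le_abs_sub α x
  rw [abs_sub_comm] at h5
  linarith [abs_sub_abs_le_abs_sub y β]

theorem rad_sep (h : Gam γ) {n : ℕ} {p p' : ℝ} (hp : p ∈ Lp γ n) (hp' : p' ∈ Lp γ n)
    (hne : p ≠ p') : el γ n ≤ |p - p'| := by
  have h0 : 0 ≤ 2 * γ * (1 / 4 : ℝ) ^ n := by have := h.1; positivity
  rcases hne.lt_or_gt with h1 | h1
  · linarith [Lp_sep h hp hp' h1, neg_le_abs (p - p')]
  · linarith [Lp_sep h hp' hp h1, le_abs_self (p - p')]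

theorem rad_rho {z w : ℂ} {e : ℝ} (h1 : |z.re - w.re| ≤ e) (h2 : |z.im - w.im| ≤ e) :
    |rho z - rho w| ≤ e := by
  refine (abs_max_sub_max_le_max _ _ _ _).trans (max_le ?_ ?_) <;>
    refine (abs_abs_sub_abs_le_abs_sub _ _).trans ?_ <;> rwa [sub_sub_sub_cancel_right]

/-- Off the two diagonals the function `rho` is almost constant on the strips. -/
theorem rad_good (h : Gam γ) {m n : ℕ} {a : ℝ × ℝ} (ha : a ∈ Act γ n) (h1 : a.2 ≠ a.1)
    (h2 : a.2 ≠ 1 - el γ n - a.1) {x : R4} (hx : x ∈ kids γ m n a) {z w : ℂ} (hz : z ∈ box x)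
    (hw : w ∈ box x) : |rho z - rho w| ≤ el γ (n + m) := by
  classical
  obtain ⟨a1, a2⟩ := Finset.mem_product.1 (Finset.mem_filter.1 ha).1
  have s1 := rad_sep h a2 a1 h1
  have s2 := rad_sep h a2 (Lp_mirror γ a1) h2
  have e1 : a.2 - a.1 = a.2 + el γ n / 2 - 1 / 2 - (a.1 + el γ n / 2 - 1 / 2) := by ring
  have e2 : a.2 - (1 - el γ n - a.1) =
      a.2 + el γ n / 2 - 1 / 2 + (a.1 + el γ n / 2 - 1 / 2) := by ring
  rw [e1] at s1
  rw [e2] at s2
  have b : ∀ u ∈ box x, |u.re - 1 / 2 - (a.1 + el γ n / 2 - 1 / 2)| ≤ el γ n / 2 ∧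
      |u.im - 1 / 2 - (a.2 + el γ n / 2 - 1 / 2)| ≤ el γ n / 2 := fun u hu => by
    obtain ⟨⟨c1, c2⟩, c3, c4⟩ := (kids_spec h ha hx).2.2 hu
    simp only [sq] at c1 c2 c3 c4
    exact ⟨abs_le.2 ⟨by linarith, by linarith⟩, abs_le.2 ⟨by linarith, by linarith⟩⟩
  unfold kids at hx
  split_ifs at hx with hv
  · obtain ⟨p, -, rfl⟩ := Finset.mem_image.1 hx
    rw [rho, rho, max_eq_left (rad_dom s1 s2 hv (b z hz).1 (b z hz).2),
      max_eq_left (rad_dom s1 s2 hv (b w hw).1 (b w hw).2)]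
    refine (abs_abs_sub_abs_le_abs_sub _ _).trans (abs_le.2 ⟨?_, ?_⟩) <;>
      linarith [hz.1.1, hz.1.2, hw.1.1, hw.1.2]
  · obtain ⟨p, -, rfl⟩ := Finset.mem_image.1 hx
    rw [abs_sub_comm] at s1
    rw [add_comm] at s2
    rw [rho, rho, max_eq_right (rad_dom s1 s2 (not_le.1 hv).le (b z hz).2 (b z hz).1),
      max_eq_right (rad_dom s1 s2 (not_le.1 hv).le (b w hw).2 (b w hw).1)]
    refine (abs_abs_sub_abs_le_abs_sub _ _).trans (abs_le.2 ⟨?_, ?_⟩) <;>
      linarith [hz.2.1, hz.2.2, hw.2.1, hw.2.2]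

theorem rad_clamp (x y : ℝ) : |max 0 (min 1 x) - max 0 (min 1 y)| ≤ |x - y| :=
  (abs_max_sub_max_le_max _ _ _ _).trans (max_le (by simp)
    ((abs_min_sub_min_le_max _ _ _ _).trans (max_le (by simp) le_rfl)))

open Classical in
theorem rad_sum (h : Gam γ) (m n : ℕ) (hn : 32 * 4 ^ m ≤ 2 ^ n) :
    ∑ x ∈ Sm γ m n, (if ∀ z ∈ box x, ∀ w ∈ box x, |rho z - rho w| ≤ el γ (n + m)
      then 4 * el γ (n + m) else 4 * el γ n) ^ 2 ≤ 17 / 2 ^ m := by
  have c0 := card_Lp γ n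
  have c1 : (Sm γ m n).card ≤ 2 ^ n * 2 ^ n * 2 ^ m := by
    refine (Finset.card_biUnion_le_card_mul _ _ _ fun a ha => card_kids h ha).trans ?_
    refine Nat.mul_le_mul_right _ ((Finset.card_filter_le _ _).trans ?_)
    rw [Finset.card_product]
    exact Nat.mul_le_mul c0 c0
  have c2 : ((Sm γ m n).filter fun x =>
      ¬∀ z ∈ box x, ∀ w ∈ box x, |rho z - rho w| ≤ el γ (n + m)).card ≤ 2 * 2 ^ n * 2 ^ m := by
    refine (Finset.card_le_card (t := ((Act γ n).filter fun a =>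
      a.2 = a.1 ∨ a.2 = 1 - el γ n - a.1).biUnion (kids γ m n)) fun x hx => ?_).trans ?_
    · obtain ⟨h1, h2⟩ := Finset.mem_filter.1 hx
      obtain ⟨a, ha, hk⟩ := Finset.mem_biUnion.1 h1
      refine Finset.mem_biUnion.2 ⟨a, Finset.mem_filter.2 ⟨ha, ?_⟩, hk⟩
      by_contra h3
      exact h2 fun z hz w hw => rad_good h ha (not_or.1 h3).1 (not_or.1 h3).2 hk hz hw
    · refine (Finset.card_biUnion_le_card_mul _ _ _ fun a ha =>
        card_kids h (Finset.mem_filter.1 ha).1).trans (Nat.mul_le_mul_right _ ?_)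
      refine (Finset.card_le_card (t := (Lp γ n).image (fun p => (p, p)) ∪
        (Lp γ n).image fun p => (p, 1 - el γ n - p)) fun a ha => ?_).trans ?_
      · obtain ⟨h1, h2⟩ := Finset.mem_filter.1 ha
        have h3 := (Finset.mem_product.1 (Finset.mem_filter.1 h1).1).1
        rcases h2 with h2 | h2
        · exact Finset.mem_union_left _ (Finset.mem_image.2 ⟨a.1, h3, Prod.ext rfl h2.symm⟩)
        · exact Finset.mem_union_right _ (Finset.mem_image.2 ⟨a.1, h3, Prod.ext rfl h2.symm⟩)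
      · refine (Finset.card_union_le _ _).trans ?_
        rw [two_mul]
        exact add_le_add (Finset.card_image_le.trans c0) (Finset.card_image_le.trans c0)
  simp only [ite_pow, Finset.sum_ite, Finset.sum_const, nsmul_eq_mul]
  have d1 := (Nat.cast_le (α := ℝ)).2 ((Finset.card_filter_le _ fun x =>
    ∀ z ∈ box x, ∀ w ∈ box x, |rho z - rho w| ≤ el γ (n + m)).trans c1)
  have d2 := (Nat.cast_le (α := ℝ)).2 c2
  have d3 : (32 : ℝ) * (2 ^ m * 2 ^ m) ≤ 2 ^ n := by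
    rw [← mul_pow]
    exact_mod_cast hn
  push_cast at d1 d2
  have p1 := el_pos h n
  have p2 := el_pos h (n + m)
  have l1 := el_le h n
  have l2 := el_le h (n + m)
  rw [one_div, inv_pow] at l1 l2
  rw [pow_add] at l2
  have q1 : (0 : ℝ) < 2 ^ n := by positivity
  have q2 : (0 : ℝ) < 2 ^ m := by positivity
  generalize (2 : ℝ) ^ n = A at *
  generalize (2 : ℝ) ^ m = B at *
  calc _ ≤ A * A * B * (4 * (A * B)⁻¹) ^ 2 + 2 * A * B * (4 * A⁻¹) ^ 2 := by gcongr
    _ = 16 / B + 32 * (B * B) / A / B := by field_simp; ring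
    _ ≤ 16 / B + 1 / B := by
        gcongr
        exact (div_le_one q1).2 d3
    _ = 17 / B := by ring

/-- The radial test has small energy. -/
theorem rad_test (h : Gam γ) (m : ℕ) : ∀ᶠ n in atTop, PT (EE γ m (n + 2)) (Qs γ) (Ix γ m (n + 2))
    ∅ (Qs γ (.inl true)) (Qs γ (.inl false)) (112 * γ + 17 / 2 ^ m) := by
  classical
  have h0 := h.1
  have hD : 1 / 4 ≤ 1 / 2 + γ - aa γ := by unfold aa; linarith
  obtain ⟨U, hU⟩ : ∃ U : ℂ → ℝ,
      ∀ z, U z = max 0 (min 1 ((1 / 2 + γ - rho z) / (1 / 2 + γ - aa γ))) := ⟨_, fun _ => rfl⟩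
  have u1 : ∀ z w, |U z - U w| ≤ 4 * |rho z - rho w| := fun z w => by
    rw [hU, hU]
    refine (rad_clamp _ _).trans ?_
    rw [← sub_div, sub_sub_sub_cancel_left, abs_div, abs_sub_comm,
      abs_of_pos (show 0 < 1 / 2 + γ - aa γ by linarith), div_le_iff₀ (by linarith)]
    nlinarith [abs_nonneg (rho z - rho w)]
  have u2 : ∀ z w, |U z - U w| ≤ 4 * ‖z - w‖ := fun z w => by
    have := rho_lip.dist_le_mul z w
    rw [Real.dist_eq, dist_eq_norm, NNReal.coe_one, one_mul] at this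
    linarith [u1 z w]
  have u3 : ∀ z ∈ Qs γ (.inl true), U z = 1 := fun z hz => by
    have : rho z ≤ aa γ := hz
    rw [hU, min_eq_left ((one_le_div (by linarith)).2 (by linarith)), max_eq_right zero_le_one]
  have u4 : ∀ z ∈ Qs γ (.inl false), U z = 0 := fun z hz => by
    have : 1 / 2 + γ ≤ rho z := hz
    rw [hU]
    exact max_eq_left ((min_le_right _ _).trans
      (div_nonpos_of_nonpos_of_nonneg (by linarith) (by linarith)))
  have t1 := (tendsto_add_atTop_nat 2).eventually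
    ((tendsto_el h).eventually (ge_mem_nhds (show (0 : ℝ) < 1 / 400 by norm_num)))
  filter_upwards [t1, eventually_ge_atTop (32 * 4 ^ m)] with n n1 n2
  have p2 := el_pos h (n + 2 + m)
  have p3 : el γ (n + 2 + m) ≤ el γ (n + 2) := el_anti h (Nat.le_add_right _ _)
  have q2 : (0 : ℝ) ≤ 17 / 2 ^ m := by positivity
  refine ⟨U, fun _ => 4, Sum.elim (fun _ => 0) fun x =>
    if ∀ z ∈ box x, ∀ w ∈ box x, |rho z - rho w| ≤ el γ (n + 2 + m)
      then 4 * el γ (n + 2 + m) else 4 * el γ (n + 2), 4,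
    LipschitzWith.of_dist_le_mul fun z w => ?_, fun z hz => (u3 z hz).ge, fun z hz => (u4 z hz).le,
    measurable_const, fun _ _ a _ b _ => u2 a b, ?_, fun i hi _ => ?_, ?_⟩
  · rw [Real.dist_eq, dist_eq_norm]
    exact u2 z w
  · rw [setLIntegral_const]
    refine (mul_le_mul_right (volume_compl_EE h (by omega)) _).trans ?_
    rw [← ENNReal.ofReal_mul (by norm_num)]
    exact ENNReal.ofReal_le_ofReal (by linarith)
  · rcases mem_Ix.1 hi with ⟨b, rfl⟩ | ⟨a, ha, x, hx, rfl⟩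
    · refine ⟨le_rfl, by norm_num, fun z hz w hw => ?_⟩
      cases b
      · rw [u4 z hz, u4 w hw, sub_self]
        rfl
      · rw [u3 z hz, u3 w hw, sub_self]
        rfl
    · simp only [Sum.elim_inr]
      split_ifs with hg
      · exact ⟨by linarith, by linarith, fun z hz w hw => by
          linarith [le_abs_self (U z - U w), u1 z w, hg z hz w hw]⟩
      · refine ⟨by linarith, by linarith, fun z hz w hw => ?_⟩
        obtain ⟨⟨c1, c2⟩, c3, c4⟩ := (kids_spec h ha hx).2.2 hz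
        obtain ⟨⟨d1, d2⟩, d3, d4⟩ := (kids_spec h ha hx).2.2 hw
        simp only [sq] at c1 c2 c3 c4 d1 d2 d3 d4
        linarith [le_abs_self (U z - U w), u1 z w, rad_rho (z := z) (w := w) (e := el γ (n + 2))
          (abs_le.2 ⟨by linarith, by linarith⟩) (abs_le.2 ⟨by linarith, by linarith⟩)]
  · rw [Ix, Finset.sum_disjSum]
    simp only [Sum.elim_inl, Sum.elim_inr]
    have := rad_sum h m (n + 2) (n2.trans ((Nat.le_add_right n 2).trans Nat.lt_two_pow_self.le))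
    rw [Finset.sum_eq_zero fun _ _ => by norm_num]
    linarith

end Pool.Agent.Lib.MP_44acff_gt.EK
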