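import Pool.Agent.Lib.MP_44acff_gt.EK.Tre
import Pool.Agent.Lib.MP_44acff_gt.EK.Rad

open Set Metric Topology Filter MeasureTheory

namespace Pool.Agent.Lib.MP_44acff_gt.EK

/-- A point on the vertical line through the centre. -/
noncomputable def geoPt (y : ℝ) : ℂ := ⟨1 / 2, 1 / 2 + y⟩

theorem geo_cont : Continuous geoPt := by
  have : geoPt = fun y : ℝ => ((1 / 2 : ℝ) : ℂ) + ((1 / 2 + y : ℝ) : ℂ) * Complex.I :=
    funext fun y => Complex.ext (by simp [geoPt]) (by simp [geoPt])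
  rw [this]
  fun_prop

theorem geo_rho (y : ℝ) : rho (geoPt y) = |y| := by simp [rho, geoPt]

theorem geo_free {γ : ℝ} (h : Gam γ) (m : ℕ) {s t : ℝ}
    (hy : ∀ y ∈ Ioo s t, aa γ < |y| ∧ |y| < 1 / 2 + γ) :
    Free (fun n => EE γ m (n + 2)) (geoPt '' Ioo s t) := by
  refine ⟨isPreconnected_Ioo.image _ geo_cont.continuousOn, fun n => disjoint_left.2 ?_⟩
  rintro _ ⟨y, a, rfl⟩
  exact notMem_EE_mid h (by omega) rfl (by simpa [geoPt] using (hy y a).1)
    (by simpa [geoPt] using (hy y a).2)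

theorem geo_cl {s t y : ℝ} (h : s < t) (hy : y ∈ Icc s t) :
    geoPt y ∈ closure (geoPt '' Ioo s t) :=
  image_closure_subset_closure_image geo_cont ⟨y, by rwa [closure_Ioo h.ne], rfl⟩

theorem geo_dist (y y' : ℝ) : y - y' ≤ ‖geoPt y - geoPt y'‖ := by
  refine le_trans ?_ (Complex.abs_im_le_norm _)
  simpa [geoPt] using le_abs_self (y - y')

theorem geo_lip (z w : ℂ) : |rho z - rho w| ≤ ‖z - w‖ := by
  simpa [Real.dist_eq, dist_eq_norm] using rho_lip.dist_le_mul z w

theorem geo {γ : ℝ} (h : Gam γ) (m : ℕ) : Geo (fun n => EE γ m (n + 2)) (Einf γ) (Qs γ)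
    (fun n => Ix γ m (n + 2)) Sum.inl (op γ) (144 * 2 ^ m) (112 * γ + 17 / 2 ^ m) := by
  obtain ⟨g0, g1⟩ := id h
  have ha : aa γ = 1 / 4 + γ / 16 := rfl
  have up : ∀ s t : ℝ, aa γ ≤ s → t ≤ 1 / 2 + γ →
      Free (fun n => EE γ m (n + 2)) (geoPt '' Ioo s t) := fun s t hs ht =>
    geo_free h m fun y hy => by
      rw [abs_of_pos (by linarith [hy.1])]
      exact ⟨by linarith [hy.1], by linarith [hy.2]⟩
  have lo : Free (fun n => EE γ m (n + 2)) (geoPt '' Ioo (-(1 / 2 + γ)) (-aa γ)) :=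
    geo_free h m fun y hy => by
      rw [abs_of_neg (by linarith [hy.2])]
      exact ⟨by linarith [hy.2], by linarith [hy.1]⟩
  have q1 : ∀ y : ℝ, |y| = aa γ → geoPt y ∈ Qs γ (.inl true) := fun y hy =>
    ((geo_rho y).trans hy).le
  have q0 : ∀ y : ℝ, |y| = 1 / 2 + γ → geoPt y ∈ Qs γ (.inl false) := fun y hy =>
    ((geo_rho y).trans hy).ge
  have lc : ∀ b, (closure (geoPt '' Ioo (-(1 / 2 + γ)) (-aa γ)) ∩ Qs γ (.inl b)).Nonempty := by
    rintro (_ | _)
    · exact ⟨_, geo_cl (by linarith) (left_mem_Icc.2 (by linarith)),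
        q0 _ (by rw [abs_neg, abs_of_pos (by linarith)])⟩
    · exact ⟨_, geo_cl (by linarith) (right_mem_Icc.2 (by linarith)),
        q1 _ (by rw [abs_neg, abs_of_pos (by linarith)])⟩
  have far : ∀ s t : ℝ, aa γ ≤ s → ∀ z ∈ geoPt '' Ioo s t,
      ∀ w ∈ geoPt '' Ioo (-(1 / 2 + γ)) (-aa γ), 1 / 2 ≤ ‖z - w‖ := by
    rintro s t hs _ ⟨y, hy, rfl⟩ _ ⟨y', hy', rfl⟩
    linarith [geo_dist y y', hy.1, hy'.2]
  refine ⟨fun n => stage_EE h (by omega), fun n b => mem_Ix.2 (Or.inl ⟨b, rfl⟩), by simp,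
    fun n => Einf_subset h (by omega), fun n => ?_, fun K => exh_EE h m, ?_, ?_, rad_test h m,
    _, _, _, _, _, _, tree h m⟩
  · have e : |(op γ).im - 1 / 2| = 1 / 2 + γ / 2 := by
      rw [show (op γ).im = -γ / 2 from rfl, abs_of_neg (by linarith)]
      ring
    exact notMem_EE_mid h (by omega) rfl (by rw [e]; linarith) (by rw [e]; linarith)
  · rintro (_ | _)
    · refine ⟨_, _, _, up (7 / 16 + γ) (1 / 2 + γ) (by linarith) le_rfl, lo,
        ⟨_, geo_cl (by linarith) (right_mem_Icc.2 (by linarith)), q0 _ (abs_of_pos (by linarith))⟩,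
        lc _, dist_test h m (d := 1 / 8) ((nonempty_Ioo.2 (by linarith)).image _) (by norm_num)
          (fun z hz w hw => le_trans (by norm_num) (far _ _ (by linarith) z hz w hw)) ?_⟩
      rintro (_ | _) hb
      · exact absurd rfl hb
      · refine Or.inr ?_
        rintro _ ⟨y, hy, rfl⟩ w hw
        have h1 := (abs_le.1 (geo_lip (geoPt y) w)).2
        have h2 : rho w ≤ aa γ := hw
        rw [geo_rho] at h1
        linarith [le_abs_self y, hy.1]
    · refine ⟨_, _, _, up (aa γ) (aa γ + 1 / 16) le_rfl (by linarith), lo,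
        ⟨_, geo_cl (by linarith) (left_mem_Icc.2 (by linarith)), q1 _ (abs_of_pos (by linarith))⟩,
        lc _, dist_test h m (d := 1 / 8) ((nonempty_Ioo.2 (by linarith)).image _) (by norm_num)
          (fun z hz w hw => le_trans (by norm_num) (far _ _ le_rfl z hz w hw)) ?_⟩
      rintro (_ | _) hb
      · refine Or.inr ?_
        rintro _ ⟨y, hy, rfl⟩ w hw
        have h1 := (abs_le.1 (geo_lip (geoPt y) w)).1
        have h2 : 1 / 2 + γ ≤ rho w := hw
        rw [geo_rho, abs_of_pos (by linarith [hy.1])] at h1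
        linarith [hy.2]
      · exact absurd rfl hb
  · refine ⟨_, _, up (aa γ) (1 / 2 + γ) le_rfl le_rfl, lo, ?_, lc, ?_⟩
    · rintro (_ | _)
      · exact ⟨_, geo_cl (by linarith) (right_mem_Icc.2 (by linarith)),
          q0 _ (abs_of_pos (by linarith))⟩
      · exact ⟨_, geo_cl (by linarith) (left_mem_Icc.2 (by linarith)),
          q1 _ (abs_of_pos (by linarith))⟩
    · have := dist_test h m (X := {.inl true, .inl false}) (d := 1 / 2)
        ((nonempty_Ioo.2 (show aa γ < 1 / 2 + γ by linarith)).image geoPt) (by norm_num)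
        (far _ _ le_rfl) (by rintro (_ | _) hb <;> simp at hb)
      rwa [show (36 * 2 ^ m / (1 / 2) ^ 2 : ℝ) = 144 * 2 ^ m by ring] at this

end Pool.Agent.Lib.MP_44acff_gt.EK
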