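import Pool.Agent.Lib.MP_44acff_gt.EK.Can

open Set Metric Topology Filter MeasureTheory

namespace Pool.Agent.Lib.MP_44acff_gt.EK

noncomputable section

/-- Four numbers describe a rectangle. -/
abbrev R4 : Type := ℝ × ℝ × ℝ × ℝ

/-- A closed rectangle. -/
def box (x : R4) : Set ℂ := {z | z.re ∈ Icc x.1 x.2.1 ∧ z.im ∈ Icc x.2.2.1 x.2.2.2}

/-- The supremum distance to the centre. -/
def rho (z : ℂ) : ℝ := max |z.re - 1 / 2| |z.im - 1 / 2|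

/-- Half the side of the inner square. -/
def aa (γ : ℝ) : ℝ := 1 / 4 + γ / 16

/-- The pieces: the inner square, the outside of the big square, and rectangles. -/
def Qs (γ : ℝ) : Bool ⊕ R4 → Set ℂ
  | .inl true => {z | rho z ≤ aa γ}
  | .inl false => {z | 1 / 2 + γ ≤ rho z}
  | .inr x => box x

open Classical in
/-- The squares of level `n` outside the inner square. -/
def Act (γ : ℝ) (n : ℕ) : Finset (ℝ × ℝ) :=
  (Lp γ n ×ˢ Lp γ n).filter fun a => ¬(|a.1 - 1 / 2| ≤ aa γ ∧ |a.2 - 1 / 2| ≤ aa γ)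

/-- A square of level `n`. -/
def sq (γ : ℝ) (n : ℕ) (a : ℝ × ℝ) : R4 := (a.1, a.1 + el γ n, a.2, a.2 + el γ n)

/-- The squares that are cut into vertical strips. -/
def Vert (γ : ℝ) (n : ℕ) (a : ℝ × ℝ) : Prop :=
  |a.2 + el γ n / 2 - 1 / 2| ≤ |a.1 + el γ n / 2 - 1 / 2|

open Classical in
/-- The strips of a square. -/
def kids (γ : ℝ) (m n : ℕ) (a : ℝ × ℝ) : Finset R4 :=
  if Vert γ n a then ((Lp γ (n + m)).filter fun p => p ∈ Iv γ n a.1).image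
    fun p => (p, p + el γ (n + m), a.2, a.2 + el γ n)
  else ((Lp γ (n + m)).filter fun p => p ∈ Iv γ n a.2).image
    fun p => (a.1, a.1 + el γ n, p, p + el γ (n + m))

open Classical in
/-- All strips of level `n`. -/
def Sm (γ : ℝ) (m n : ℕ) : Finset R4 := (Act γ n).biUnion (kids γ m n)

/-- The indices of the pieces of level `n`. -/
def Ix (γ : ℝ) (m n : ℕ) : Finset (Bool ⊕ R4) := Finset.univ.disjSum (Sm γ m n)

/-- The closed set of level `n`. -/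
def EE (γ : ℝ) (m n : ℕ) : Set ℂ := ⋃ i ∈ Ix γ m n, Qs γ i

/-- The limit set. -/
def Einf (γ : ℝ) : Set ℂ := ⋂ n, EE γ 0 (n + 2)

end

variable {γ : ℝ} {m n : ℕ}

theorem gm_Act {a : ℝ × ℝ} : a ∈ Act γ n ↔ (a.1 ∈ Lp γ n ∧ a.2 ∈ Lp γ n) ∧
    ¬(|a.1 - 1 / 2| ≤ aa γ ∧ |a.2 - 1 / 2| ≤ aa γ) := by
  rw [Act, Finset.mem_filter, Finset.mem_product]

theorem gm_kids {a : ℝ × ℝ} {x : R4} : x ∈ kids γ m n a ↔
    (Vert γ n a ∧ ∃ p ∈ Lp γ (n + m), p ∈ Iv γ n a.1 ∧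
      x = (p, p + el γ (n + m), a.2, a.2 + el γ n)) ∨
    (¬Vert γ n a ∧ ∃ p ∈ Lp γ (n + m), p ∈ Iv γ n a.2 ∧
      x = (a.1, a.1 + el γ n, p, p + el γ (n + m))) := by
  rw [kids]
  split_ifs with h
  · simp only [Finset.mem_image, Finset.mem_filter, h, true_and, not_true, false_and, or_false,
      and_assoc, eq_comm (a := x)]
  · simp only [Finset.mem_image, Finset.mem_filter, h, true_and, not_false_iff, false_and,
      false_or, and_assoc, eq_comm (a := x)]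

theorem gm_self (h : Gam γ) (n : ℕ) (p : ℝ) : p ∈ Iv γ n p :=
  ⟨le_rfl, le_add_of_nonneg_right (el_pos h n).le⟩

theorem gm_sub (h : Gam γ) {p q : ℝ} (hp : p ∈ Lp γ (n + m)) (hq : q ∈ Lp γ n)
    (hm : p ∈ Iv γ n q) : Iv γ (n + m) p ⊆ Iv γ n q :=
  Iv_subset h (Nat.le_add_right n m) hp hq ⟨p, gm_self h _ p, hm⟩

theorem gm_far (h : Gam γ) {p p' x y : ℝ} (hp : p ∈ Lp γ n) (hp' : p' ∈ Lp γ n) (hne : p ≠ p')
    (hx : x ∈ Iv γ n p) (hy : y ∈ Iv γ n p') : 2 * γ * (1 / 4) ^ n ≤ |x - y| := by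
  rcases lt_or_gt_of_ne hne with h1 | h1
  · have := Lp_sep h hp hp' h1
    exact le_abs.2 (Or.inr (by linarith [hx.2, hy.1]))
  · have := Lp_sep h hp' hp h1
    exact le_abs.2 (Or.inl (by linarith [hx.1, hy.2]))

theorem gm_cen (h : Gam γ) (hn : 2 ≤ n) {p x : ℝ} (hp : p ∈ Lp γ n) (hc : |p - 1 / 2| ≤ aa γ)
    (hx : x ∈ Iv γ n p) : |x - 1 / 2| ≤ aa γ := by
  rcases Lp_central h hn hp with h1 | h1
  · exact h1 x hx
  · have := h1 p (gm_self h n p)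
    rw [aa] at hc
    linarith [h.1]

theorem gm_out (h : Gam γ) (hn : 2 ≤ n) {p x : ℝ} (hp : p ∈ Lp γ n) (hc : ¬|p - 1 / 2| ≤ aa γ)
    (hx : x ∈ Iv γ n p) : aa γ + γ / 8 ≤ |x - 1 / 2| := by
  rcases Lp_central h hn hp with h1 | h1
  · exact absurd (h1 p (gm_self h n p)) hc
  · exact h1 x hx

theorem gm_Ix {i : Bool ⊕ R4} : i ∈ Ix γ m n ↔ (∃ b, i = .inl b) ∨
    ∃ a ∈ Act γ n, ∃ x ∈ kids γ m n a, i = .inr x := by
  rw [Ix, Finset.mem_disjSum]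
  refine or_congr ⟨fun ⟨b, _, hb⟩ => ⟨b, hb.symm⟩, fun ⟨b, hb⟩ => ⟨b, Finset.mem_univ _, hb.symm⟩⟩
    ⟨fun ⟨x, hx, e⟩ => ?_, fun ⟨a, ha, x, hx, e⟩ => ⟨x, ?_, e.symm⟩⟩
  · rw [Sm, Finset.mem_biUnion] at hx
    obtain ⟨a, ha, hx⟩ := hx
    exact ⟨a, ha, x, hx, e.symm⟩
  · rw [Sm, Finset.mem_biUnion]
    exact ⟨a, ha, hx⟩

theorem mem_EE {z : ℂ} : z ∈ EE γ m n ↔ rho z ≤ aa γ ∨ 1 / 2 + γ ≤ rho z ∨
    ∃ a ∈ Act γ n, ∃ x ∈ kids γ m n a, z ∈ box x := by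
  simp only [EE, mem_iUnion, exists_prop, gm_Ix]
  constructor
  · rintro ⟨i, ⟨b, rfl⟩ | ⟨a, ha, x, hx, rfl⟩, hz⟩
    · cases b
      · exact Or.inr (Or.inl hz)
      · exact Or.inl hz
    · exact Or.inr (Or.inr ⟨a, ha, x, hx, hz⟩)
  · rintro (h | h | ⟨a, ha, x, hx, hz⟩)
    · exact ⟨.inl true, Or.inl ⟨_, rfl⟩, h⟩
    · exact ⟨.inl false, Or.inl ⟨_, rfl⟩, h⟩
    · exact ⟨.inr x, Or.inr ⟨a, ha, x, hx, rfl⟩, hz⟩

theorem mem_Ix {i : Bool ⊕ R4} : i ∈ Ix γ m n ↔ (∃ b, i = .inl b) ∨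
    ∃ a ∈ Act γ n, ∃ x ∈ kids γ m n a, i = .inr x := by
  exact gm_Ix

theorem isClosed_box (x : R4) : IsClosed (box x) := by
  exact (isClosed_Icc.preimage Complex.continuous_re).inter
    (isClosed_Icc.preimage Complex.continuous_im)

theorem isCompact_box (x : R4) : IsCompact (box x) := by
  exact isCompact_Icc.reProdIm isCompact_Icc

theorem convex_box (x : R4) : Convex ℝ (box x) := by
  exact ((convex_Icc _ _).linear_preimage Complex.reLm).inter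
    ((convex_Icc _ _).linear_preimage Complex.imLm)

theorem volume_box (x : R4) :
    volume (box x) = ENNReal.ofReal (x.2.1 - x.1) * ENNReal.ofReal (x.2.2.2 - x.2.2.1) := by
  have h := Complex.volume_preserving_equiv_real_prod.measure_preimage
    (s := Icc x.1 x.2.1 ×ˢ Icc x.2.2.1 x.2.2.2)
    (measurableSet_Icc.prod measurableSet_Icc).nullMeasurableSet
  rw [Measure.volume_eq_prod, Measure.prod_prod, Real.volume_Icc, Real.volume_Icc] at h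
  exact h

theorem volume_prod_set {A B : Set ℝ} (hA : MeasurableSet A) (hB : MeasurableSet B) :
    volume {z : ℂ | z.re ∈ A ∧ z.im ∈ B} = volume A * volume B := by
  have h := Complex.volume_preserving_equiv_real_prod.measure_preimage
    (s := A ×ˢ B) (hA.prod hB).nullMeasurableSet
  rw [Measure.volume_eq_prod, Measure.prod_prod] at h
  exact h

theorem rho_lip : LipschitzWith 1 rho := by
  refine LipschitzWith.of_dist_le_mul fun z w => ?_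
  rw [NNReal.coe_one, one_mul, Real.dist_eq, dist_eq_norm]
  refine (abs_max_sub_max_le_max _ _ _ _).trans (max_le ?_ ?_)
  · refine (abs_abs_sub_abs_le_abs_sub _ _).trans ?_
    rw [sub_sub_sub_cancel_right]
    exact Complex.abs_re_le_norm (z - w)
  · refine (abs_abs_sub_abs_le_abs_sub _ _).trans ?_
    rw [sub_sub_sub_cancel_right]
    exact Complex.abs_im_le_norm (z - w)

theorem rho_le_iff {z : ℂ} {r : ℝ} :
    rho z ≤ r ↔ z ∈ box (1 / 2 - r, 1 / 2 + r, 1 / 2 - r, 1 / 2 + r) := by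
  simp only [rho, max_le_iff, abs_le, box, mem_ofPred_eq, mem_Icc]
  constructor
  · rintro ⟨⟨a, b⟩, c, d⟩
    exact ⟨⟨by linarith, by linarith⟩, by linarith, by linarith⟩
  · rintro ⟨⟨a, b⟩, c, d⟩
    exact ⟨⟨by linarith, by linarith⟩, by linarith, by linarith⟩

theorem convex_rho_lt (r : ℝ) : Convex ℝ {z | rho z < r} := by
  have e : {z | rho z < r} = Complex.reLm ⁻¹' Ioo (1 / 2 - r) (1 / 2 + r) ∩
      Complex.imLm ⁻¹' Ioo (1 / 2 - r) (1 / 2 + r) := by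
    ext z
    simp only [rho, max_lt_iff, abs_lt, mem_ofPred_eq, mem_inter_iff, mem_preimage, mem_Ioo,
      Complex.reLm_coe, Complex.imLm_coe]
    constructor
    · rintro ⟨⟨a, b⟩, c, d⟩
      exact ⟨⟨by linarith, by linarith⟩, by linarith, by linarith⟩
    · rintro ⟨⟨a, b⟩, c, d⟩
      exact ⟨⟨by linarith, by linarith⟩, by linarith, by linarith⟩
  rw [e]
  exact ((convex_Ioo _ _).linear_preimage _).inter ((convex_Ioo _ _).linear_preimage _)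

theorem isClosed_Qs (γ : ℝ) (i : Bool ⊕ R4) : IsClosed (Qs γ i) := by
  rcases i with (_ | _) | x
  · exact isClosed_le continuous_const rho_lip.continuous
  · exact isClosed_le rho_lip.continuous continuous_const
  · exact isClosed_box x

theorem isClosed_EE (γ : ℝ) (m n : ℕ) : IsClosed (EE γ m n) := by
  exact isClosed_biUnion_finset fun i _ => isClosed_Qs γ i

theorem card_kids (h : Gam γ) {a : ℝ × ℝ} (ha : a ∈ Act γ n) :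
    (kids γ m n a).card ≤ 2 ^ m := by
  obtain ⟨⟨h1, h2⟩, -⟩ := gm_Act.1 ha
  rw [kids]
  split_ifs
  · exact Finset.card_image_le.trans (card_children h n m h1)
  · exact Finset.card_image_le.trans (card_children h n m h2)

theorem kids_spec (h : Gam γ) {a : ℝ × ℝ} (ha : a ∈ Act γ n) {x : R4} (hx : x ∈ kids γ m n a) :
    x.1 < x.2.1 ∧ x.2.2.1 < x.2.2.2 ∧ box x ⊆ box (sq γ n a) := by
  obtain ⟨⟨h1, h2⟩, -⟩ := gm_Act.1 ha
  have e1 := el_pos h n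
  have e2 := el_pos h (n + m)
  rcases gm_kids.1 hx with ⟨-, p, hp, hm, rfl⟩ | ⟨-, p, hp, hm, rfl⟩
  · exact ⟨lt_add_of_pos_right _ e2, lt_add_of_pos_right _ e1,
      fun z hz => ⟨gm_sub h hp h1 hm hz.1, hz.2⟩⟩
  · exact ⟨lt_add_of_pos_right _ e1, lt_add_of_pos_right _ e2,
      fun z hz => ⟨hz.1, gm_sub h hp h2 hm hz.2⟩⟩

theorem kids_disjoint (h : Gam γ) {a : ℝ × ℝ} (ha : a ∈ Act γ n) {x x' : R4}
    (hx : x ∈ kids γ m n a) (hx' : x' ∈ kids γ m n a) (hne : x ≠ x') :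
    Disjoint (box x) (box x') := by
  have h0 : 0 < 2 * γ * (1 / 4) ^ (n + m) := by have := h.1; positivity
  rw [Set.disjoint_left]
  intro z hz hz'
  rcases gm_kids.1 hx with ⟨v, p, hp, -, rfl⟩ | ⟨v, p, hp, -, rfl⟩ <;>
    rcases gm_kids.1 hx' with ⟨v', p', hp', -, rfl⟩ | ⟨v', p', hp', -, rfl⟩
  · have := gm_far h hp hp' (fun e => hne (by rw [e])) hz.1 hz'.1
    rw [sub_self, abs_zero] at this
    linarith
  · exact v' v
  · exact v v'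
  · have := gm_far h hp hp' (fun e => hne (by rw [e])) hz.2 hz'.2
    rw [sub_self, abs_zero] at this
    linarith

theorem kids_nonempty (h : Gam γ) {a : ℝ × ℝ} (ha : a ∈ Act γ n) :
    ∃ x ∈ kids γ m n a, (⟨a.1, a.2⟩ : ℂ) ∈ box x := by
  obtain ⟨⟨h1, h2⟩, -⟩ := gm_Act.1 ha
  by_cases v : Vert γ n a
  · exact ⟨_, gm_kids.2 (Or.inl ⟨v, a.1, Lp_mono γ (Nat.le_add_right n m) h1, gm_self h n _, rfl⟩),
      gm_self h _ _, gm_self h _ _⟩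
  · exact ⟨_, gm_kids.2 (Or.inr ⟨v, a.2, Lp_mono γ (Nat.le_add_right n m) h2, gm_self h n _, rfl⟩),
      gm_self h _ _, gm_self h _ _⟩

/-- The strips of a square cover a product of two sets. -/
theorem kids_union (h : Gam γ) {a : ℝ × ℝ} (ha : a ∈ Act γ n) : ∃ k l : ℕ,
    (k = n + m ∧ l = n ∨ k = n ∧ l = n + m) ∧ ∀ z : ℂ, (∃ x ∈ kids γ m n a, z ∈ box x) ↔
      z.re ∈ Xs γ k ∩ Iv γ n a.1 ∧ z.im ∈ Xs γ l ∩ Iv γ n a.2 := by
  obtain ⟨⟨h1, h2⟩, -⟩ := gm_Act.1 ha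
  by_cases v : Vert γ n a
  · refine ⟨n + m, n, Or.inl ⟨rfl, rfl⟩, fun z => ⟨?_, ?_⟩⟩
    · rintro ⟨x, hx, hz⟩
      rcases gm_kids.1 hx with ⟨-, p, hp, hm, rfl⟩ | ⟨v', -⟩
      · exact ⟨⟨⟨p, hp, hz.1⟩, gm_sub h hp h1 hm hz.1⟩, ⟨a.2, h2, hz.2⟩, hz.2⟩
      · exact absurd v v'
    · rintro ⟨⟨⟨p, hp, k1⟩, k2⟩, -, k3⟩
      exact ⟨_, gm_kids.2 (Or.inl ⟨v, p, hp, Iv_subset h (Nat.le_add_right n m) hp h1
        ⟨_, k1, k2⟩ (gm_self h _ p), rfl⟩), k1, k3⟩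
  · refine ⟨n, n + m, Or.inr ⟨rfl, rfl⟩, fun z => ⟨?_, ?_⟩⟩
    · rintro ⟨x, hx, hz⟩
      rcases gm_kids.1 hx with ⟨v', -⟩ | ⟨-, p, hp, hm, rfl⟩
      · exact absurd v' v
      · exact ⟨⟨⟨a.1, h1, hz.1⟩, hz.1⟩, ⟨p, hp, hz.2⟩, gm_sub h hp h2 hm hz.2⟩
    · rintro ⟨⟨-, k3⟩, ⟨p, hp, k1⟩, k2⟩
      exact ⟨_, gm_kids.2 (Or.inr ⟨v, p, hp, Iv_subset h (Nat.le_add_right n m) hp h2
        ⟨_, k1, k2⟩ (gm_self h _ p), rfl⟩), k3, k1⟩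

theorem sq_loc (h : Gam γ) (hn : 2 ≤ n) {a : ℝ × ℝ} (ha : a ∈ Act γ n) {z : ℂ}
    (hz : z ∈ box (sq γ n a)) :
    aa γ + γ / 8 ≤ rho z ∧ rho z ≤ 1 / 2 ∧ γ / 4 ≤ |z.re - 1 / 2| := by
  obtain ⟨⟨h1, h2⟩, h3⟩ := gm_Act.1 ha
  have k1 : z.re ∈ Iv γ n a.1 := hz.1
  have k2 : z.im ∈ Iv γ n a.2 := hz.2
  obtain ⟨r1, r2⟩ := Lp_range h h1
  obtain ⟨r3, r4⟩ := Lp_range h h2
  refine ⟨?_, max_le (abs_le.2 ⟨by linarith [k1.1], by linarith [k1.2]⟩)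
    (abs_le.2 ⟨by linarith [k2.1], by linarith [k2.2]⟩), Xs_mid h (by omega) ⟨_, h1, k1⟩⟩
  rcases not_and_or.1 h3 with h4 | h4
  · exact (gm_out h hn h1 h4 k1).trans (le_max_left _ _)
  · exact (gm_out h hn h2 h4 k2).trans (le_max_right _ _)

theorem sq_sep (h : Gam γ) {a a' : ℝ × ℝ} (ha : a ∈ Act γ n) (ha' : a' ∈ Act γ n) (hne : a ≠ a')
    {z w : ℂ} (hz : z ∈ box (sq γ n a)) (hw : w ∈ box (sq γ n a')) :
    2 * γ * (1 / 4) ^ n ≤ max |z.re - w.re| |z.im - w.im| := by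
  obtain ⟨⟨h1, h2⟩, -⟩ := gm_Act.1 ha
  obtain ⟨⟨h3, h4⟩, -⟩ := gm_Act.1 ha'
  by_cases e : a.1 = a'.1
  · exact (gm_far h h2 h4 (fun e' => hne (Prod.ext e e')) hz.2 hw.2).trans (le_max_right _ _)
  · exact (gm_far h h1 h3 e hz.1 hw.1).trans (le_max_left _ _)

theorem sq_parent (h : Gam γ) {j : ℕ} (hj : 2 ≤ j) (hjn : j ≤ n) {a : ℝ × ℝ} (ha : a ∈ Act γ n) :
    ∃ a' ∈ Act γ j, box (sq γ n a) ⊆ box (sq γ j a') := by
  obtain ⟨⟨h1, h2⟩, h3⟩ := gm_Act.1 ha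
  obtain ⟨p, hp, k1⟩ := Lp_parent h hjn h1
  obtain ⟨q, hq, k2⟩ := Lp_parent h hjn h2
  exact ⟨(p, q), gm_Act.2 ⟨⟨hp, hq⟩, fun c => h3 ⟨gm_cen h hj hp c.1 (k1 (gm_self h n _)),
    gm_cen h hj hq c.2 (k2 (gm_self h n _))⟩⟩, fun z hz => ⟨k1 hz.1, k2 hz.2⟩⟩

theorem Act_mono (h : Gam γ) {j : ℕ} (hjn : j ≤ n) : Act γ j ⊆ Act γ n := by
  intro a ha
  obtain ⟨⟨h1, h2⟩, h3⟩ := gm_Act.1 ha
  exact gm_Act.2 ⟨⟨Lp_mono γ hjn h1, Lp_mono γ hjn h2⟩, h3⟩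

theorem prod_subset_EE (h : Gam γ) (hn : 2 ≤ n) {z : ℂ} (h1 : z.re ∈ Xs γ (n + m))
    (h2 : z.im ∈ Xs γ (n + m)) : z ∈ EE γ m n := by
  have h3 := Xs_anti h (Nat.le_add_right n m) h1
  have h4 := Xs_anti h (Nat.le_add_right n m) h2
  obtain ⟨p, hp, k1⟩ := id h3
  obtain ⟨q, hq, k2⟩ := id h4
  by_cases c : |p - 1 / 2| ≤ aa γ ∧ |q - 1 / 2| ≤ aa γ
  · exact mem_EE.2 (Or.inl (max_le (gm_cen h hn hp c.1 k1) (gm_cen h hn hq c.2 k2)))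
  · have ha : (p, q) ∈ Act γ n := gm_Act.2 ⟨⟨hp, hq⟩, c⟩
    obtain ⟨k, l, hkl, H⟩ := kids_union (m := m) h ha
    refine mem_EE.2 (Or.inr (Or.inr ⟨_, ha, (H z).2 ?_⟩))
    rcases hkl with ⟨rfl, rfl⟩ | ⟨rfl, rfl⟩
    · exact ⟨⟨h1, k1⟩, h4, k2⟩
    · exact ⟨⟨h3, k1⟩, h2, k2⟩

theorem mem_EE_zero (h : Gam γ) {z : ℂ} : z ∈ EE γ 0 n ↔ rho z ≤ aa γ ∨ 1 / 2 + γ ≤ rho z ∨
    ∃ a ∈ Act γ n, z ∈ box (sq γ n a) := by
  rw [mem_EE]
  refine or_congr_right (or_congr_right (exists_congr fun a => and_congr_right fun ha =>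
    ⟨fun ⟨x, hx, hz⟩ => (kids_spec h ha hx).2.2 hz, fun hz => ?_⟩))
  obtain ⟨⟨h1, h2⟩, -⟩ := gm_Act.1 ha
  obtain ⟨k, l, hkl, H⟩ := kids_union (m := 0) h ha
  refine (H z).2 ?_
  rcases hkl with ⟨rfl, rfl⟩ | ⟨rfl, rfl⟩
  · exact ⟨⟨⟨_, h1, hz.1⟩, hz.1⟩, ⟨_, h2, hz.2⟩, hz.2⟩
  · exact ⟨⟨⟨_, h1, hz.1⟩, hz.1⟩, ⟨_, h2, hz.2⟩, hz.2⟩

theorem EE_subset (h : Gam γ) {j : ℕ} (hj : 2 ≤ j) (hjn : j ≤ n) : EE γ m n ⊆ EE γ 0 j := by
  intro z hz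
  rw [mem_EE_zero h]
  refine (mem_EE.1 hz).imp_right (Or.imp_right ?_)
  rintro ⟨a, ha, x, hx, k⟩
  obtain ⟨a', ha', k'⟩ := sq_parent h hj hjn ha
  exact ⟨a', ha', k' ((kids_spec h ha hx).2.2 k)⟩

theorem Einf_subset (h : Gam γ) (hn : 2 ≤ n) : Einf γ ⊆ EE γ m n := by
  intro z hz
  have h1 := mem_iInter.1 hz (n + m - 2)
  rw [show n + m - 2 + 2 = n + m by omega, mem_EE_zero h] at h1
  rcases h1 with h1 | h1 | ⟨a, ha, k⟩
  · exact mem_EE.2 (Or.inl h1)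
  · exact mem_EE.2 (Or.inr (Or.inl h1))
  · obtain ⟨⟨h1, h2⟩, -⟩ := gm_Act.1 ha
    exact prod_subset_EE h hn ⟨_, h1, k.1⟩ ⟨_, h2, k.2⟩

theorem notMem_EE_mid (h : Gam γ) (hn : 2 ≤ n) {z : ℂ} (h1 : z.re = 1 / 2)
    (h2 : aa γ < |z.im - 1 / 2|) (h3 : |z.im - 1 / 2| < 1 / 2 + γ) : z ∉ EE γ m n := by
  have e : rho z = |z.im - 1 / 2| := by
    rw [rho, h1, sub_self, abs_zero, max_eq_right (abs_nonneg _)]
  intro hz
  rcases mem_EE.1 hz with k | k | ⟨a, ha, x, hx, k⟩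
  · linarith
  · linarith
  · have := (sq_loc h hn ha ((kids_spec h ha hx).2.2 k)).2.2
    rw [h1, sub_self, abs_zero] at this
    linarith [h.1]

theorem notMem_EE_out (h : Gam γ) (hn : 2 ≤ n) {z : ℂ} (h1 : 1 / 2 < rho z)
    (h2 : rho z < 1 / 2 + γ) : z ∉ EE γ m n := by
  intro hz
  rcases mem_EE.1 hz with k | k | ⟨a, ha, x, hx, k⟩
  · rw [aa] at k
    linarith [h.2]
  · linarith
  · linarith [(sq_loc h hn ha ((kids_spec h ha hx).2.2 k)).2.1]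

end Pool.Agent.Lib.MP_44acff_gt.EK
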