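import Pool.Agent.Lib.MP_44acff_gt.EK.Core
import Pool.Agent.Lib.MP_44acff_gt.H70Hyp
import Pool.Agent.Lib.MP_44acff_gt.H70Surf

open Set Metric Topology Filter MeasureTheory

namespace Pool.Agent.Lib.MP_44acff_gt.EK

/-- The extremal description of the hyperbolic density. -/
def Extr (E : Set ℂ) (lam : ℂ → ℝ) : Prop :=
  (∀ ψ : ℂ → ℂ, DifferentiableOn ℂ ψ (ball 0 1) → MapsTo ψ (ball 0 1) Eᶜ →
    lam (ψ 0) * ‖deriv ψ 0‖ ≤ 2) ∧
  ∀ z ∉ E, ∃ ψ : ℂ → ℂ, DifferentiableOn ℂ ψ (ball 0 1) ∧ MapsTo ψ (ball 0 1) Eᶜ ∧ ψ 0 = z ∧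
    lam z * ‖deriv ψ 0‖ = 2

open NU NU.CaraAux in
theorem hy_cara {E : Set ℂ} {c : ℝ} (hE : Dom E) (hc : 0 < c) (hF : Fat E c) {z : ℂ}
    (hz : z ∉ E) : ∃ H : ℂ → ℂ, DifferentiableOn ℂ H Eᶜ ∧ MapsTo H Eᶜ (ball 0 1) ∧ H z = 0 ∧
      c / 3456 / infDist z E ≤ ‖deriv H z‖ := by
  have hd : 0 < infDist z E := (hE.closed.notMem_iff_infDist_pos hE.nonempty).1 hz
  obtain ⟨ξ0, hξ0, hdist⟩ := hE.closed.exists_infDist_eq_dist hE.nonempty z
  set d := infDist z E with hddef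
  set A : Set ℂ := E ∩ ball ξ0 (d / 8) with hAdef
  have hA : MeasurableSet A := hE.closed.measurableSet.inter measurableSet_ball
  have hAE : A ⊆ E := inter_subset_left
  have hvol : volume A ≤ ENNReal.ofReal (d ^ 2) := by
    refine (measure_mono inter_subset_right).trans ?_
    rw [Complex.volume_ball, ← ENNReal.ofReal_pow (by positivity), ← ENNReal.ofReal_coe_nnreal,
      ← ENNReal.ofReal_mul (by positivity), NNReal.coe_real_pi]
    refine ENNReal.ofReal_le_ofReal ?_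
    have := Real.pi_le_four
    nlinarith [sq_nonneg d]
  have hfin : volume A ≠ ⊤ := ne_top_of_le_ne_top ENNReal.ofReal_ne_top hvol
  have hlow : c * (d / 8) ^ 2 ≤ volume.real A := by
    have h1 := ENNReal.toReal_mono hfin (hF ξ0 hξ0 (d / 8) (by positivity))
    rwa [ENNReal.toReal_ofReal (by positivity)] at h1
  let h : ℂ → ℂ := fun w => ∫ ξ in A, (ξ - w)⁻¹
  have hD : ((27 * d : ℝ) : ℂ) ≠ 0 := Complex.ofReal_ne_zero.2 (by positivity)
  have hDn : ‖((27 * d : ℝ) : ℂ)‖ = 27 * d := by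
    rw [Complex.norm_real, Real.norm_of_nonneg (by positivity)]
  refine ⟨fun w => (h w - h z) / ((27 * d : ℝ) : ℂ), fun w hw => ?_, fun w _ => ?_, by simp, ?_⟩
  · exact (((hasDerivAt_int hE hA hAE hfin hw).2.sub_const _).div_const
      _).differentiableAt.differentiableWithinAt
  · rw [mem_ball_zero_iff, norm_div, hDn, div_lt_one (by positivity)]
    have h1 := norm_sub_le (h w) (h z)
    have h2 : ‖h w‖ ≤ 9 * d := norm_int_le hd hvol w
    have h3 : ‖h z‖ ≤ 9 * d := norm_int_le hd hvol z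
    linarith
  · obtain ⟨hint, hder⟩ := hasDerivAt_int hE hA hAE hfin hz
    rw [((hder.sub_const (h z)).div_const _).deriv, norm_div, hDn]
    have : IsFiniteMeasure (volume.restrict A) := isFiniteMeasure_restrict.2 hfin
    have hu : ‖ξ0 - z‖ = d := by rw [hdist, dist_comm, dist_eq_norm]
    have h1 : ‖∫ ξ in A, ((ξ0 - z) ^ 2 * ((ξ - z) ^ 2)⁻¹ - 1)‖ ≤ 1 / 2 * volume.real A := by
      refine norm_setIntegral_le_of_norm_le_const hfin.lt_top fun ξ hξ => ?_
      have h2 : ξ - z = (ξ0 - z) + (ξ - ξ0) := by ring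
      rw [h2]
      refine point_le hd hu ?_
      rw [← dist_eq_norm]
      exact (mem_ball.1 hξ.2).le
    rw [integral_sub (hint.const_mul _) (integrable_const _), integral_const_mul,
      setIntegral_const] at h1
    have h3 := norm_sub_norm_le ((volume.real A) • (1 : ℂ))
      ((ξ0 - z) ^ 2 * ∫ ξ in A, ((ξ - z) ^ 2)⁻¹)
    rw [norm_sub_rev, norm_smul, norm_one, mul_one, Real.norm_of_nonneg measureReal_nonneg,
      norm_mul, norm_pow, hu] at h3
    have h4 : c / 128 * d ^ 2 ≤ ‖∫ ξ in A, ((ξ - z) ^ 2)⁻¹‖ * d ^ 2 := by nlinarith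
    have h5 := le_of_mul_le_mul_right h4 (by positivity)
    rw [div_le_div_iff₀ hd (by positivity)]
    nlinarith

open NU NU.HypAux Pool.Agent.Lib.MP_21db80_an in
theorem hy_hyp {E : Set ℂ} {c : ℝ} (hE : Dom E) (hc : 0 < c) (hF : Fat E c) {p X : ℂ → ℂ}
    (hp : DifferentiableOn ℂ p (ball 0 1)) (hm : MapsTo p (ball 0 1) Eᶜ)
    (hL : Lifts p (ball 0 1) Eᶜ) (hX : ∀ z, z ∉ E → ‖X z‖ < 1 ∧ p (X z) = z) :
    NU.Hyp E (fun z => 2 / mm p (X z)) 1 (c / 3456) := by
  intro z hz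
  obtain ⟨hx, hpx⟩ := hX z hz
  obtain ⟨σ, s1, s2, s3, s4⟩ := exists_section hE hL hx (by rwa [hpx])
  rw [hpx] at s1 s2 s3 s4
  have hd0 : 0 < infDist z E := (hE.closed.notMem_iff_infDist_pos hE.nonempty).mp hz
  have key : ∀ w ∈ ball z (infDist z E),
      HasDerivAt σ (deriv σ w) w ∧ ‖deriv p (σ w)‖ * ‖deriv σ w‖ = 1 := by
    intro w hw
    have h1 : HasDerivAt σ (deriv σ w) w :=
      (s1.differentiableAt (isOpen_ball.mem_nhds hw)).hasDerivAt
    have h2 : HasDerivAt p (deriv p (σ w)) (σ w) :=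
      (hp.differentiableAt (isOpen_ball.mem_nhds (s2 hw))).hasDerivAt
    have h3 : HasDerivAt (fun w : ℂ => w) (deriv p (σ w) * deriv σ w) w := by
      refine (h2.comp w h1).congr_of_eventuallyEq ?_
      filter_upwards [isOpen_ball.mem_nhds hw] with t ht
      exact (s4 t ht).symm
    have h4 := congrArg norm (h3.unique (hasDerivAt_id w))
    exact ⟨h1, by simpa using h4⟩
  have hmm : 0 < mm p (X z) := by
    have h1 := (key z (mem_ball_self hd0)).2
    rw [s3] at h1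
    refine mul_pos (one_sub_pos hx) (lt_of_le_of_ne (norm_nonneg _) fun h => ?_)
    rw [← h] at h1
    simp at h1
  refine ⟨?_, dmob (X z) ∘ σ, ?_, ?_, ?_, ?_⟩
  · obtain ⟨H, h1, h2, h3, h4⟩ := hy_cara hE hc hF hz
    have hn : ‖-X z‖ < 1 := by rwa [norm_neg]
    have h5 := schwarz0 (g := H ∘ p ∘ dmob (-X z))
      (h1.comp (hp.comp (diffOn_dmob hn) (mapsTo_dmob hn)) (hm.comp (mapsTo_dmob hn)))
      (h2.comp (hm.comp (mapsTo_dmob hn))) (by simp [dmob_neg_zero, hpx, h3])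
    have h6 : HasDerivAt H (deriv H z) ((p ∘ dmob (-X z)) 0) := by
      simp only [Function.comp_apply, dmob_neg_zero, hpx]
      exact (h1.differentiableAt (hE.closed.isOpen_compl.mem_nhds hz)).hasDerivAt
    rw [(h6.comp 0 (hasDerivAt_comp_dmob hp hx)).deriv, norm_mul, norm_mul,
      norm_one_sub _ hx] at h5
    have h7 : ‖deriv H z‖ * mm p (X z) ≤ 1 := by unfold mm; nlinarith
    rw [le_div_iff₀ hmm]
    have h8 := mul_le_mul_of_nonneg_right h4 hmm.le
    linarith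
  · rw [one_mul]
    exact (diffOn_dmob hx).comp s1 s2
  · rw [one_mul]
    exact (mapsTo_dmob hx).comp s2
  · simp [s3, dmob]
  · rw [one_mul]
    intro w hw
    have hy : ‖σ w‖ < 1 := mem_ball_zero_iff.mp (s2 hw)
    have hwE : w ∉ E := by
      rw [← s4 w hw]
      exact hm (s2 hw)
    obtain ⟨hx', hpx'⟩ := hX w hwE
    have e1 : mm p (X w) = mm p (σ w) :=
      le_antisymm (mm_le hp hm hL hx' hy (by rw [s4 w hw, hpx']))
        (mm_le hp hm hL hy hx' (by rw [s4 w hw, hpx']))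
    obtain ⟨k1, k2⟩ := key w hw
    simp only
    rw [e1, ((hasDerivAt_dmob hx hy).comp w k1).deriv, Function.comp_apply, one_sub_sq_dmob hx hy,
      norm_mul, norm_div, norm_pow, norm_one_sub _ hx]
    have p1 := one_sub_pos hx
    have p2 := one_sub_pos hy
    have p3 := norm_pos_iff.mpr (dmob_den hx hy)
    have p4 : ‖deriv p (σ w)‖ ≠ 0 := fun h => by rw [h] at k2; simp at k2
    have e2 : ‖deriv σ w‖ = ‖deriv p (σ w)‖⁻¹ := by field_simp; linarith
    rw [e2]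
    unfold mm
    field_simp

theorem exists_hyp_extr {E : Set ℂ} {c : ℝ} (hE : NU.Dom E) (hc : 0 < c) (hF : NU.Fat E c)
    (hb : ∀ z, infDist z E ≤ 1) (hcon : IsConnected Eᶜ) :
    ∃ lam : ℂ → ℝ, NU.Hyp E lam 1 (c / 3456) ∧ Extr E lam := by
  obtain ⟨z₀, hz₀⟩ := hcon.nonempty
  obtain ⟨p, hp, hm, -, hL⟩ := NU.exists_cover hE hc hF hb hz₀
  have hs := NU.HypAux.surj hE hcon hm hL
  have hch : ∀ z, ∃ x : ℂ, z ∉ E → ‖x‖ < 1 ∧ p x = z := fun z => by
    by_cases hz : z ∈ E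
    · exact ⟨0, fun h => absurd hz h⟩
    · obtain ⟨x, hx, hx'⟩ := hs hz
      exact ⟨x, fun _ => ⟨mem_ball_zero_iff.mp hx, hx'⟩⟩
  choose X hX using hch
  have hH := hy_hyp hE hc hF hp hm hL hX
  have hmm : ∀ z ∉ E, 0 < NU.HypAux.mm p (X z) := fun z hz => by
    have h1 : 0 < infDist z E := (hE.closed.notMem_iff_infDist_pos hE.nonempty).mp hz
    have h2 : 0 < 2 / NU.HypAux.mm p (X z) := lt_of_lt_of_le (by positivity) (hH z hz).1
    exact (div_pos_iff_of_pos_left two_pos).1 h2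
  refine ⟨_, hH, fun ψ h1 h2 => ?_, fun z hz => ?_⟩
  · have hz : ψ 0 ∉ E := h2 (mem_ball_self one_pos)
    obtain ⟨hx, hpx⟩ := hX _ hz
    obtain ⟨χ, k1, k2, k3, k4⟩ := hL ψ h1 h2 _ (mem_ball_zero_iff.mpr hx) hpx
    have hd : HasDerivAt χ (deriv χ 0) 0 :=
      (k1.differentiableAt (ball_mem_nhds 0 one_pos)).hasDerivAt
    have h5 : HasDerivAt p (deriv p (X (ψ 0))) (χ 0) := by
      rw [k3]
      exact (hp.differentiableAt (isOpen_ball.mem_nhds (mem_ball_zero_iff.mpr hx))).hasDerivAt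
    have h6 : HasDerivAt ψ (deriv p (X (ψ 0)) * deriv χ 0) 0 := by
      refine (h5.comp 0 hd).congr_of_eventuallyEq ?_
      filter_upwards [ball_mem_nhds (0 : ℂ) one_pos] with t ht
      exact (k4 t ht).symm
    have h8 := NU.HypAux.pick0 k1 k2
    rw [k3] at h8
    have h9 : ‖deriv ψ 0‖ ≤ NU.HypAux.mm p (X (ψ 0)) := by
      rw [h6.deriv, norm_mul, mul_comm]
      exact mul_le_mul_of_nonneg_right h8 (norm_nonneg _)
    show 2 / NU.HypAux.mm p (X (ψ 0)) * ‖deriv ψ 0‖ ≤ 2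
    rw [div_mul_eq_mul_div, div_le_iff₀ (hmm _ hz)]
    linarith
  · obtain ⟨hx, hpx⟩ := hX z hz
    have hn : ‖-X z‖ < 1 := by rwa [norm_neg]
    refine ⟨_, hp.comp (NU.HypAux.diffOn_dmob hn) (NU.HypAux.mapsTo_dmob hn),
      hm.comp (NU.HypAux.mapsTo_dmob hn), ?_, ?_⟩
    · rw [Function.comp_apply, NU.HypAux.dmob_neg_zero, hpx]
    · rw [(NU.HypAux.hasDerivAt_comp_dmob hp hx).deriv, norm_mul, NU.HypAux.norm_one_sub _ hx,
        mul_comm ‖_‖]
      exact div_mul_cancel₀ 2 (hmm z hz).ne'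

theorem Extr.mono {E E' : Set ℂ} {lam lam' : ℂ → ℝ} (h : Extr E lam) (h' : Extr E' lam')
    (hs : E ⊆ E') {z : ℂ} (hz : z ∉ E') : lam z ≤ lam' z := by
  obtain ⟨ψ, h1, h2, h3, h4⟩ := h'.2 z hz
  have h5 := h.1 ψ h1 (h2.mono_right (compl_subset_compl.2 hs))
  rw [h3, ← h4] at h5
  refine le_of_mul_le_mul_right h5 (lt_of_le_of_ne (norm_nonneg _) fun h6 => ?_)
  rw [← h6] at h4
  norm_num at h4

theorem Extr.tendsto {E : ℕ → Set ℂ} {Ei : Set ℂ} {lam : ℕ → ℂ → ℝ} {lami : ℂ → ℝ}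
    (h : ∀ n, Extr (E n) (lam n)) (h' : Extr Ei lami) (hs : ∀ n, Ei ⊆ E n)
    (hx : ∀ K : Set ℂ, IsCompact K → K ⊆ Eiᶜ → ∀ᶠ n in atTop, Disjoint K (E n)) {z : ℂ}
    (hz : z ∉ Ei) : Tendsto (fun n => lam n z) atTop (𝓝 (lami z)) := by
  obtain ⟨ψ, h1, h2, h3, h4⟩ := h'.2 z hz
  have hd : 0 < ‖deriv ψ 0‖ := lt_of_le_of_ne (norm_nonneg _) fun h6 => by
    rw [← h6] at h4
    norm_num at h4
  have hl : 0 < lami z := (mul_pos_iff_of_pos_right hd).1 (by rw [h4]; norm_num)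
  refine tendsto_order.2 ⟨fun a ha => ?_, fun b hb => ?_⟩
  · filter_upwards [hx {z} isCompact_singleton (singleton_subset_iff.2 hz)] with n hn
    exact ha.trans_le (h'.mono (h n) (hs n) (disjoint_singleton_left.1 hn))
  · have hb0 : 0 < b := hl.trans hb
    obtain ⟨r, r1, r2⟩ := exists_between ((div_lt_one hb0).2 hb)
    have r0 : 0 < r := (div_pos hl hb0).trans r1
    have hsub : closedBall (0 : ℂ) r ⊆ ball 0 1 := closedBall_subset_ball r2
    have hmap : MapsTo (fun t : ℂ => (r : ℂ) * t) (ball 0 1) (closedBall 0 r) := fun t ht => by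
      rw [mem_closedBall_zero_iff, norm_mul, Complex.norm_real, Real.norm_of_nonneg r0.le]
      exact mul_le_of_le_one_right r0.le (mem_ball_zero_iff.1 ht).le
    have hder : HasDerivAt (fun t : ℂ => ψ (r * t)) (deriv ψ 0 * r) 0 := by
      have h5 : HasDerivAt ψ (deriv ψ 0) ((r : ℂ) * 0) := by
        rw [mul_zero]
        exact (h1.differentiableAt (ball_mem_nhds 0 one_pos)).hasDerivAt
      have h6 : HasDerivAt (fun t : ℂ => (r : ℂ) * t) r 0 := by
        simpa using (hasDerivAt_id (0 : ℂ)).const_mul (r : ℂ)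
      exact h5.comp 0 h6
    filter_upwards [hx (ψ '' closedBall 0 r)
      ((isCompact_closedBall 0 r).image_of_continuousOn (h1.continuousOn.mono hsub))
      (h2.mono_left hsub).image_subset] with n hn
    have h5 := (h n).1 (fun t : ℂ => ψ (r * t))
      (h1.comp (by fun_prop) (hmap.mono_right hsub))
      fun t ht => disjoint_left.1 hn (mem_image_of_mem ψ (hmap ht))
    rw [hder.deriv, norm_mul, Complex.norm_real, Real.norm_of_nonneg r0.le, mul_zero, h3,
      ← h4] at h5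
    rw [div_lt_iff₀ hb0] at r1
    have h6 : lam n z * r ≤ lami z := le_of_mul_le_mul_right (by linarith) hd
    exact lt_of_mul_lt_mul_right (by linarith) r0.le

/-- The metric of curvature `K`, with constants that depend on `K` and `c` only. -/
theorem exists_dat {K c : ℝ} (hK : K < 0) (hc : 0 < c) : ∃ k : ℝ, ∀ E : Set ℂ, IsClosed E →
    Bornology.IsBounded Eᶜ → NU.Fat E c → (∀ z, infDist z E ≤ 1) → IsConnected Eᶜ →
    ∃ lam : ℂ → ℝ, Extr E lam ∧ CompleteSurface K Eᶜ (fun z => lam z / √(-K)) ∧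
      Dat E (fun z => lam z / √(-K)) k := by
  have hs : 0 < √(-K) := Real.sqrt_pos.2 (by linarith)
  refine ⟨max 1 (max (4 / √(-K)) (3456 * √(-K) / c)), fun E hE hbd hF hb hcon => ?_⟩
  have hne : E.Nonempty := by
    by_contra h
    rw [not_nonempty_iff_eq_empty.1 h, compl_empty] at hbd
    exact NormedSpace.unbounded_univ ℝ ℂ hbd
  have hD : NU.Dom E := ⟨hE, hne⟩
  obtain ⟨lam, h1, h2⟩ := exists_hyp_extr hD hc hF hb hcon
  have h3 := NU.surface hD one_pos (by positivity) h1 hb hcon (show 0 < -K by linarith)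
  rw [neg_neg] at h3
  have hdp : ∀ z ∉ E, 0 < infDist z E := fun z hz => (hE.notMem_iff_infDist_pos hne).1 hz
  refine ⟨lam, h2, ⟨h3.isOpen, h3.isConnected, h3.smooth, h3.pos, h3.curv, h3.complete⟩,
    hE, hne, hbd, hcon, le_max_left _ _, h3.smooth.continuousOn, fun z hz => ?_, fun z hz => ?_⟩
  · have h4 := hdp z hz
    have h5 : 3456 * √(-K) / c ≤ max 1 (max (4 / √(-K)) (3456 * √(-K) / c)) :=
      (le_max_right _ _).trans (le_max_right _ _)
    calc _ ≤ 1 / (3456 * √(-K) / c * infDist z E) := by gcongr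
      _ = c / 3456 / infDist z E / √(-K) := by field_simp
      _ ≤ _ := div_le_div_of_nonneg_right (h1 z hz).1 hs.le
  · have h4 := hdp z hz
    have h5 : 4 / √(-K) ≤ max 1 (max (4 / √(-K)) (3456 * √(-K) / c)) :=
      (le_max_left _ _).trans (le_max_right _ _)
    have hder : HasDerivAt (fun t : ℂ => z + (infDist z E : ℝ) * t) (infDist z E : ℝ) 0 := by
      simpa using ((hasDerivAt_id (0 : ℂ)).const_mul ((infDist z E : ℝ) : ℂ)).const_add z
    have h6 := h2.1 (fun t : ℂ => z + (infDist z E : ℝ) * t) (by fun_prop) fun t ht hE' => by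
      have h7 : infDist z E ≤ dist z (z + (infDist z E : ℝ) * t) := infDist_le_dist_of_mem hE'
      rw [dist_self_add_right, norm_mul, Complex.norm_real, Real.norm_of_nonneg h4.le] at h7
      have := mem_ball_zero_iff.mp ht
      nlinarith
    rw [hder.deriv, mul_zero, add_zero, Complex.norm_real, Real.norm_of_nonneg h4.le,
      ← le_div_iff₀ h4] at h6
    calc _ ≤ 2 / infDist z E / √(-K) := div_le_div_of_nonneg_right h6 hs.le
      _ = 4 / √(-K) / (2 * infDist z E) := by field_simp; norm_num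
      _ ≤ _ := by gcongr

end Pool.Agent.Lib.MP_44acff_gt.EK
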