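import Pool.Agent.Lib.MP_44acff_gt.EK.Lw
import Pool.Agent.Lib.MP_44acff_gt.EK.Cr
import Pool.Agent.Lib.MP_44acff_gt.EK.F4
import Pool.Agent.Lib.MP_44acff_gt.EK.D3
import Pool.Agent.Lib.MP_44acff_gt.EK.Cv

open Set Metric Topology Filter MeasureTheory

namespace Pool.Agent.Lib.MP_44acff_gt.EK

/-- The normalised realisations and their limit data. -/
structure Ly {S : ℕ → Type} [∀ n, MetricSpace (S n)] {T : Type} [MetricSpace T]
    (pr : ∀ n, S n → ℂ) (pT : T → ℂ) (ap : T → ∀ n, S n) (o : T) (𝒰 : Ultrafilter ℕ)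
    (E : ℕ → Set ℂ) (Ei : Set ℂ) (k : ℝ) {ι : Type} (Q : ι → Set ℂ) (I : ℕ → Finset ι)
    (q : Bool → ι) (e₁ e₂ : ℝ) (R : ∀ n, Realis (S n)) (v : ℕ → ι → S2) (t : ℕ → ι → ℝ)
    (φ : T → H3) (vl : Bool → S2) (tl : Bool → ℝ) : Prop where
  cx : Cx S T pr pT ap o 𝒰 E Ei k
  geo : Geo E Ei Q I q (pT o) e₁ e₂
  ho : ∀ n, (R n).φ (ap o n) = Hyp.o
  ends : ∀ n, Ends (R n) (pr n) Q (I n) (v n) (t n)
  hφ : ∀ x, Tendsto (fun n => (R n).φ (ap x n)) 𝒰 (𝓝 (φ x))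
  hv : ∀ b, Tendsto (fun n => v n (q b)) 𝒰 (𝓝 (vl b))
  ht : ∀ b, Tendsto (fun n => t n (q b)) 𝒰 (𝓝 (tl b))

theorem limA_lim (𝒰 : Ultrafilter ℕ) (u : ℕ → S2) : ∃ x, Tendsto u 𝒰 (𝓝 x) := by
  obtain ⟨x, -, hx⟩ := (isCompact_univ (X := S2)).ultrafilter_le_nhds (𝒰.map u) (by simp)
  exact ⟨x, hx⟩

theorem limA_cst (k : ℝ) : 0 ≤ cst k := by
  unfold cst; positivity

section
variable {S : Type} [MetricSpace S] {E : Set ℂ} {k : ℝ} {pr : S → ℂ} {ι : Type} {Q : ι → Set ℂ}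
  {I : Finset ι} {R : Realis S} {v : ι → S2} {t : ι → ℝ}

theorem limA_ideal (e : Ends R pr Q I v t) {i : ι} (hi : i ∈ I) :
    closedBall (v i) (t i) ⊆ idealS R.C := by
  rw [e.union]
  exact subset_biUnion_of_mem (u := fun i => closedBall (v i) (t i)) hi

theorem limA_conn (h : Pl S E k pr) (R : Realis S) {α : Set ℂ} (hα : IsPreconnected α)
    (hd : Disjoint α E) : IsPreconnected (Sh R (pr ⁻¹' α)) :=
  isPreconnected_sh R (h.isPreconnected (by rwa [hd.sdiff_eq_left]))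

theorem limA_acc (h : Pl S E k pr) (e : Ends R pr Q I v t) {i : ι} (hi : i ∈ I) {α : Set ℂ}
    (hd : Disjoint α E) (hm : (closure α ∩ Q i).Nonempty) :
    (closure (Sh R (pr ⁻¹' α)) ∩ closedBall (v i) (t i)).Nonempty := by
  refine e.acc i hi _ ?_
  rwa [image_preimage_eq_of_subset]
  rw [h.range_eq]
  exact hd.subset_compl_right

end

theorem cr_lim {𝒰 : Ultrafilter ℕ} (h𝒰 : (𝒰 : Filter ℕ) ≤ atTop) {Y₁ Y₀ : ℕ → Set S2} {ε : ℝ}
    (h : ∀ᶠ n in (𝒰 : Filter ℕ), ∀ ξ₀ ∈ Y₁ n, ∀ ξ₁ ∈ Y₁ n, ∀ η₁ ∈ Y₀ n, ∀ η₂ ∈ Y₀ n,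
      CRle ε ξ₀ ξ₁ η₁ η₂) {ξ₀ ξ₁ η₁ η₂ : S2} (h0 : ξ₀ ∈ ULim 𝒰 Y₁) (h1 : ξ₁ ∈ ULim 𝒰 Y₁)
    (h2 : η₁ ∈ ULim 𝒰 Y₀) (h3 : η₂ ∈ ULim 𝒰 Y₀) : CRle ε ξ₀ ξ₁ η₁ η₂ := by
  obtain ⟨a0, m0, t0⟩ := exists_tendsto_of_mem_ULim h𝒰 h0
  obtain ⟨a1, m1, t1⟩ := exists_tendsto_of_mem_ULim h𝒰 h1
  obtain ⟨a2, m2, t2⟩ := exists_tendsto_of_mem_ULim h𝒰 h2
  obtain ⟨a3, m3, t3⟩ := exists_tendsto_of_mem_ULim h𝒰 h3
  have tt : Tendsto (fun n => (a0 n, a1 n, a2 n, a3 n)) (𝒰 : Filter ℕ) (𝓝 (ξ₀, ξ₁, η₁, η₂)) :=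
    t0.prodMk_nhds (t1.prodMk_nhds (t2.prodMk_nhds t3))
  have ev : ∀ᶠ n in (𝒰 : Filter ℕ), (a0 n, a1 n, a2 n, a3 n) ∈
      {x : S2 × S2 × S2 × S2 | CRle ε x.1 x.2.1 x.2.2.1 x.2.2.2} := by
    filter_upwards [h, m0, m1, m2, m3] with n hn b0 b1 b2 b3
    exact hn _ b0 _ b1 _ b2 _ b3
  have := (isClosed_CRle ε).mem_of_tendsto tt ev
  exact this

variable {S : ℕ → Type} [∀ n, MetricSpace (S n)] {T : Type} [MetricSpace T]
  {pr : ∀ n, S n → ℂ} {pT : T → ℂ} {ap : T → ∀ n, S n} {o : T} {𝒰 : Ultrafilter ℕ}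
  {E : ℕ → Set ℂ} {Ei : Set ℂ} {k : ℝ} {ι : Type} {Q : ι → Set ℂ} {I : ℕ → Finset ι}
  {q : Bool → ι} {e₁ e₂ : ℝ} {R : ∀ n, Realis (S n)} {v : ℕ → ι → S2} {t : ℕ → ι → ℝ}
  {φ : T → H3} {vl : Bool → S2} {tl : Bool → ℝ}

theorem exists_ly (cx : Cx S T pr pT ap o 𝒰 E Ei k) (G : Geo E Ei Q I q (pT o) e₁ e₂)
    (R₀ : ∀ n, Realis (S n)) (hR : ∀ n, Round (idealS (R₀ n).C)) :
    ∃ (R : ∀ n, Realis (S n)) (v : ℕ → ι → S2) (t : ℕ → ι → ℝ) (φ : T → H3) (vl : Bool → S2)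
      (tl : Bool → ℝ), Ly pr pT ap o 𝒰 E Ei k Q I q e₁ e₂ R v t φ vl tl := by
  choose R ho hr using fun n => (R₀ n).exists_normalised (hR n) (ap o n)
  choose v t he using fun n => exists_ends (R n) (cx.pl n) (G.stage n) ⟨ap o n⟩ (hr n)
  obtain ⟨φ, hφ⟩ := exists_limit_map cx.gc R ho
  choose vl hv using fun b => limA_lim 𝒰 fun n => v n (q b)
  have ht : ∀ b, ∃ x, Tendsto (fun n => t n (q b)) 𝒰 (𝓝 x) := fun b => by
    obtain ⟨x, -, hx⟩ := (isCompact_Icc (a := (0 : ℝ)) (b := 2)).ultrafilter_le_nhds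
      (𝒰.map fun n => t n (q b)) (by
        rw [Ultrafilter.coe_map, le_principal_iff, mem_map]
        exact Eventually.of_forall fun n =>
          ⟨(he n).nonneg _ (G.qmem n b), (he n).le_two _ (G.qmem n b)⟩)
    exact ⟨x, hx⟩
  choose tl ht using ht
  exact ⟨R, v, t, φ, vl, tl, cx, G, ho, he, hφ, hv, ht⟩

theorem Ly.o_mem (X : Ly pr pT ap o 𝒰 E Ei k Q I q e₁ e₂ R v t φ vl tl) (n : ℕ) :
    Hyp.o ∈ (R n).C := by
  rw [← X.ho n]
  exact (R n).φ_mem _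

theorem Ly.disc_eq (X : Ly pr pT ap o 𝒰 E Ei k Q I q e₁ e₂ R v t φ vl tl) (b : Bool) :
    ULim 𝒰 (fun n => closedBall (v n (q b)) (t n (q b))) = closedBall (vl b) (tl b) := by
  exact ULim_closedBall (fun n => (X.ends n).nonneg _ (X.geo.qmem n b)) (X.hv b) (X.ht b)

theorem Ly.disc_subset (X : Ly pr pT ap o 𝒰 E Ei k Q I q e₁ e₂ R v t φ vl tl) (b : Bool) :
    closedBall (vl b) (tl b) ⊆ idealS (ULim 𝒰 fun n => (R n).C) := by
  rw [← X.disc_eq b]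
  exact (ULim_mono (Eventually.of_forall fun n => limA_ideal (X.ends n) (X.geo.qmem n b))).trans
    (ULim_idealS_subset X.cx.le (fun n => (R n).closed) (fun n => (R n).convex) X.o_mem)

/-- The two discs do not degenerate. -/
theorem Ly.pos (X : Ly pr pT ap o 𝒰 E Ei k Q I q e₁ e₂ R v t φ vl tl) (b : Bool) : 0 < tl b := by
  obtain ⟨N, α, β, fa, fb, ma, mb, hT⟩ := X.geo.nd b
  obtain ⟨z₁, hz₁⟩ : α.Nonempty := closure_nonempty_iff.1 (ma.mono inter_subset_left)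
  obtain ⟨z₂, hz₂⟩ : β.Nonempty := closure_nonempty_iff.1 (mb.mono inter_subset_left)
  have n₁ : ∀ n, z₁ ∉ E n := fun n => disjoint_left.1 (fa.2 n) hz₁
  have n₂ : ∀ n, z₂ ∉ E n := fun n => disjoint_left.1 (fb.2 n) hz₂
  obtain ⟨x₁, rfl⟩ : z₁ ∈ range pT := by
    rw [X.cx.plT.range_eq]; exact fun h => n₁ 0 (X.geo.sub 0 h)
  obtain ⟨x₂, rfl⟩ : z₂ ∈ range pT := by
    rw [X.cx.plT.range_eq]; exact fun h => n₂ 0 (X.geo.sub 0 h)
  have key : ∀ᶠ n in (𝒰 : Filter ℕ), Real.exp (-dist ((R n).φ (ap x₁ n)) Hyp.o) *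
      Real.exp (-dist ((R n).φ (ap x₂ n)) Hyp.o) ≤ Real.exp (cst k * N) * (t n (q b) * 2) := by
    filter_upwards [X.cx.le hT] with n hn
    have hn : PT (E n) Q (I n) {q b} α β N := hn
    have hq := X.geo.qmem n b
    have e := X.ends n
    obtain ⟨η₁, o₁⟩ := ov_surj (R n) (ap x₁ n)
    obtain ⟨η₂, o₂⟩ := ov_surj (R n) (ap x₂ n)
    have p₁ := X.cx.compat x₁ n (n₁ n)
    have p₂ := X.cx.compat x₂ n (n₂ n)
    have hne : η₁ ≠ η₂ := fun h => by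
      have := ov_unique o₁ (h ▸ o₂)
      rw [this, p₂] at p₁
      exact disjoint_left.1 hn.disjoint hz₁ (p₁ ▸ hz₂)
    have hid := limA_ideal e hq
    have hL := loewner (X.cx.pl n) (X.geo.stage n) e hn
      (Y := closedBall (v n (q b)) (t n (q b)) ∪ {η₁, η₂}) fun i _ hi => by
        rw [mem_singleton_iff.1 hi]; exact subset_union_left
    rw [hat_free (X.geo.stage n) (fa.2 n), hat_free (X.geo.stage n) (fb.2 n)] at hL
    have hv0 : v n (q b) ∈ closedBall (v n (q b)) (t n (q b)) := mem_closedBall_self (e.nonneg _ hq)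
    obtain ⟨ξ, hξ, η, hη, hηP, hle⟩ := cr_gap hL (mul_nonneg (limA_cst k) hn.nonneg)
      isClosed_closedBall (Set.toFinite _).isClosed
      (by
        rw [disjoint_right]
        rintro u (rfl | rfl) hu
        · exact (exists_ov_iff _ _).1 ⟨_, o₁⟩ (hid hu)
        · exact (exists_ov_iff _ _).1 ⟨_, o₂⟩ (hid hu))
      hv0 (P := η₂) (by simp) ⟨η₁, by simp, hne⟩ (limA_conn (X.cx.pl n) _ fa.1 (fa.2 n))
      (limA_conn (X.cx.pl n) _ fb.1 (fb.2 n)) (limA_acc (X.cx.pl n) e hq (fa.2 n) ma)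
      ⟨η₁, subset_closure ⟨_, by simpa [p₁] using hz₁, o₁⟩, by simp⟩
      (limA_acc (X.cx.pl n) e hq (fb.2 n) mb)
      ⟨η₂, subset_closure ⟨_, by simpa [p₂] using hz₂, o₂⟩, by simp⟩
    obtain rfl : η = η₁ := hη.resolve_right hηP
    have f₁ := ovs_far (R n).convex o₁ (hid hv0)
    have f₂ := ovs_far (R n).convex o₂ (hid hξ)
    rw [dist_comm η] at f₁
    rw [dist_comm η₂] at f₂
    refine (mul_le_mul f₁ f₂ (Real.exp_pos _).le dist_nonneg).trans (hle.trans ?_)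
    exact mul_le_mul_of_nonneg_left (mul_le_mul (mem_closedBall'.1 hξ) (dist_S2_le _ _)
      dist_nonneg (e.nonneg _ hq)) (Real.exp_pos _).le
  have lim := le_of_tendsto_of_tendsto
    ((((X.hφ x₁).dist tendsto_const_nhds).neg.rexp).mul
      (((X.hφ x₂).dist tendsto_const_nhds).neg.rexp))
    (((X.ht b).mul_const 2).const_mul (Real.exp (cst k * N))) key
  have h0 : 0 < Real.exp (cst k * N) * (tl b * 2) :=
    (mul_pos (Real.exp_pos _) (Real.exp_pos _)).trans_le lim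
  have := (mul_pos_iff_of_pos_left (Real.exp_pos _)).1 h0
  linarith

theorem Ly.int (X : Ly pr pT ap o 𝒰 E Ei k Q I q e₁ e₂ R v t φ vl tl) :
    (interior (ULim 𝒰 fun n => (R n).C)).Nonempty := by
  exact interior_nonempty_of_ball (isClosed_ULim _) (gconvex_ULim X.cx.le fun n => (R n).convex)
    (X.pos true) (X.disc_subset true)

theorem Ly.isom (X : Ly pr pT ap o 𝒰 E Ei k Q I q e₁ e₂ R v t φ vl tl) (x y : T) :
    edist x y = pathDist (frontier (ULim 𝒰 fun n => (R n).C)) (φ x) (φ y) := by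
  exact limit_isom X.cx.len X.cx.le X.cx.gc R X.o_mem X.int X.hφ x y

/-- Limits of shadows of points. -/
theorem Ly.anchor (X : Ly pr pT ap o 𝒰 E Ei k Q I q e₁ e₂ R v t φ vl tl) :
    ∃ ξ : T → S2, Function.Injective ξ ∧ ∀ x, ∀ W : Set ℂ, pT x ∈ W →
      ξ x ∈ ULim 𝒰 fun n => Sh (R n) (pr n ⁻¹' W) := by
  choose u hu using fun x n => ov_surj (R n) (ap x n)
  choose ξ hξ using fun x => limA_lim 𝒰 (u x)
  have ho : ∀ x, Ovs (ULim 𝒰 fun n => (R n).C) (ξ x) (φ x) := fun x =>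
    ovs_ULim X.cx.le (Eventually.of_forall (hu x)) (hξ x) (X.hφ x)
  refine ⟨ξ, fun x y h => ?_, fun x W hW => mem_ULim_of_tendsto ?_ (hξ x)⟩
  · have e : φ x = φ y :=
      ovs_unique (gconvex_ULim X.cx.le fun n => (R n).convex) (ho x) (h ▸ ho y)
    have := X.isom x y
    rw [← e, ← X.isom x x, edist_self] at this
    exact edist_eq_zero.1 this
  · obtain ⟨η, hη, hx⟩ := X.geo.exh {pT x} isCompact_singleton
      (singleton_subset_iff.2 (X.cx.plT.notMem x))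
    filter_upwards [X.cx.le hx] with n hn
    have hn : η ≤ infDist (pT x) (E n) := hn _ rfl
    have : pT x ∉ E n := fun h => by
      rw [infDist_zero_of_mem h] at hn
      linarith
    exact ⟨ap x n, by simpa [X.cx.compat x n this] using hW, hu x n⟩

/-- Limits of shadows of compact sets retract to the image of the limit surface. -/
theorem Ly.ret (X : Ly pr pT ap o 𝒰 E Ei k Q I q e₁ e₂ R v t φ vl tl) {O : Set ℂ}
    (hO : closure O ⊆ Eiᶜ) {u : S2} (hu : u ∈ ULim 𝒰 fun n => Sh (R n) (pr n ⁻¹' O)) :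
    ∃ x, Ovs (ULim 𝒰 fun n => (R n).C) u (φ x) := by
  have hK : IsCompact (closure O) :=
    isCompact_of_isClosed_isBounded isClosed_closure (X.cx.plT.bdd.subset hO)
  obtain ⟨η, hη, hx⟩ := X.geo.exh _ hK hO
  obtain ⟨r, hr⟩ := X.cx.ubd hK hO hη hx
  obtain ⟨w, hw, tw⟩ := exists_tendsto_of_mem_ULim X.cx.le hu
  have : ∀ n, ∃ y : S n, w n ∈ Sh (R n) (pr n ⁻¹' O) → pr n y ∈ O ∧ Ov (R n) (w n) y := fun n => by
    by_cases h : w n ∈ Sh (R n) (pr n ⁻¹' O)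
    · obtain ⟨y, h1, h2⟩ := h
      exact ⟨y, fun _ => ⟨h1, h2⟩⟩
    · exact ⟨ap o n, fun h' => absurd h' h⟩
  choose y hy using this
  obtain ⟨x, tx⟩ := X.cx.gc.bdd y r (by
    filter_upwards [hw, hr] with n a b
    exact b _ (subset_closure (hy n a).1))
  refine ⟨x, ovs_ULim X.cx.le (p := fun n => (R n).φ (y n)) (hw.mono fun n a => (hy n a).2) tw ?_⟩
  refine (X.hφ x).congr_dist ?_
  exact squeeze_zero (fun _ => dist_nonneg)
    (fun n => (dist_comm _ _).trans_le ((R n).dist_le _ _)) tx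

theorem Ly.close (X : Ly pr pT ap o 𝒰 E Ei k Q I q e₁ e₂ R v t φ vl tl) :
    Close vl tl (cst k * e₁) := by
  obtain ⟨α, β, fa, fb, ma, mb, hT⟩ := X.geo.dual
  have key : ∀ᶠ n in (𝒰 : Filter ℕ), ∃ x : S2 × S2,
      x.1 ∈ closedBall (v n (q true)) (t n (q true)) ∧
      x.2 ∈ closedBall (v n (q false)) (t n (q false)) ∧
      dist (v n (q true)) x.2 * dist x.1 (v n (q false)) ≤
        Real.exp (cst k * e₁) * (dist (v n (q true)) x.1 * dist x.2 (v n (q false))) := by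
    filter_upwards [X.cx.le hT, (X.ht false).eventually (lt_mem_nhds (X.pos false))] with n hn hp
    have hn : PT (E n) Q (I n) {q true, q false} α β e₁ := hn
    have hq := X.geo.qmem n
    have e := X.ends n
    have hL := loewner (X.cx.pl n) (X.geo.stage n) e hn
      (Y := closedBall (v n (q true)) (t n (q true)) ∪ closedBall (v n (q false)) (t n (q false)))
      fun i _ hi => by
        rcases hi with rfl | rfl
        · exact subset_union_left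
        · exact subset_union_right
    rw [hat_free (X.geo.stage n) (fa.2 n), hat_free (X.geo.stage n) (fb.2 n)] at hL
    obtain ⟨ξ, hξ, η, hη, -, hle⟩ := cr_gap hL (mul_nonneg (limA_cst k) hn.nonneg)
      isClosed_closedBall isClosed_closedBall (e.disj _ (hq true) _ (hq false) X.geo.qne)
      (mem_closedBall_self (e.nonneg _ (hq true))) (mem_closedBall_self (e.nonneg _ (hq false)))
      (exists_ne_mem_closedBall _ hp) (limA_conn (X.cx.pl n) _ fa.1 (fa.2 n))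
      (limA_conn (X.cx.pl n) _ fb.1 (fb.2 n))
      (limA_acc (X.cx.pl n) e (hq true) (fa.2 n) (ma true))
      (limA_acc (X.cx.pl n) e (hq false) (fa.2 n) (ma false))
      (limA_acc (X.cx.pl n) e (hq true) (fb.2 n) (mb true))
      (limA_acc (X.cx.pl n) e (hq false) (fb.2 n) (mb false))
    exact ⟨(ξ, η), hξ, hη, hle⟩
  obtain ⟨x, hx⟩ := key.choice
  obtain ⟨ξ, tξ⟩ := limA_lim 𝒰 fun n => (x n).1
  obtain ⟨η, tη⟩ := limA_lim 𝒰 fun n => (x n).2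
  refine ⟨vl true, mem_closedBall_self (X.pos true).le, ξ, ?_, η, ?_, vl false,
    mem_closedBall_self (X.pos false).le, ?_⟩
  · rw [← X.disc_eq true]
    exact mem_ULim_of_tendsto (hx.mono fun n a => a.1) tξ
  · rw [← X.disc_eq false]
    exact mem_ULim_of_tendsto (hx.mono fun n a => a.2.1) tη
  · exact le_of_tendsto_of_tendsto (((X.hv true).dist tη).mul (tξ.dist (X.hv false)))
      ((((X.hv true).dist tξ).mul (tη.dist (X.hv false))).const_mul _) (hx.mono fun n a => a.2.2)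

theorem Ly.far (X : Ly pr pT ap o 𝒰 E Ei k Q I q e₁ e₂ R v t φ vl tl) :
    Far vl tl (cst k * e₂) := by
  intro ξ₀ h0 ξ₁ h1 η₁ h2 η₂ h3
  rw [← X.disc_eq true] at h0 h1
  rw [← X.disc_eq false] at h2 h3
  refine cr_lim X.cx.le ?_ h0 h1 h2 h3
  filter_upwards [X.cx.le X.geo.rad] with n hn a0 b0 a1 b1 a2 b2 a3 b3
  have hn : PT (E n) Q (I n) ∅ (Q (q true)) (Q (q false)) e₂ := hn
  have hq := X.geo.qmem n
  have hL := loewner (X.cx.pl n) (X.geo.stage n) (X.ends n) hn (Y := closedBall a0 (-1))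
    fun i _ hi => absurd hi (notMem_empty i)
  rw [hat_piece (X.cx.pl n) (X.geo.stage n) (hq true),
    hat_piece (X.cx.pl n) (X.geo.stage n) (hq false)] at hL
  have hE : closedBall a0 (-1 : ℝ) = ∅ := closedBall_eq_empty.2 (by norm_num)
  exact cr_le hL (isPreconnected_closedBall_S2 _ _) (isPreconnected_closedBall_S2 _ _)
    (by rw [hE]; exact disjoint_empty _) (by rw [hE]; exact disjoint_empty _)
    ((X.ends n).disj _ (hq true) _ (hq false) X.geo.qne) b0 b1 b2 b3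

end Pool.Agent.Lib.MP_44acff_gt.EK
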