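import Pool.Agent.Lib.MP_44acff_gt.EK.LimA

open Set Metric Topology Filter MeasureTheory

namespace Pool.Agent.Lib.MP_44acff_gt.EK

section stage

variable {S : Type} [MetricSpace S] {E : Set ℂ} {k : ℝ} {pr : S → ℂ} {ι : Type} {Q : ι → Set ℂ}
  {I : Finset ι} {R : Realis S} {v : ι → S2} {t : ι → ℝ}

theorem lb_free (h : Pl S E k pr) {α : Set ℂ} (hc : IsPreconnected α) (hd : Disjoint α E) :
    IsPreconnected (Sh R (pr ⁻¹' α)) :=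
  isPreconnected_sh R (h.isPreconnected (by rwa [hd.sdiff_eq_left]))

theorem lb_sh_disj (e : Ends R pr Q I v t) {i : ι} (hi : i ∈ I) (Y : Set S) :
    Disjoint (Sh R Y) (closedBall (v i) (t i)) := by
  rw [Set.disjoint_left]
  rintro u ⟨y, -, hy⟩ hu
  refine (exists_ov_iff R u).1 ⟨y, hy⟩ ?_
  rw [e.union]
  exact mem_biUnion hi hu

theorem lb_cr0 (h : Pl S E k pr) (hQ : Stage E Q I) (e : Ends R pr Q I v t) {α β : Set ℂ}
    {En : ℝ} (hT : PT E Q I ∅ α β En) (c₁ : IsPreconnected (hat R pr Q I v t α))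
    (c₀ : IsPreconnected (hat R pr Q I v t β)) : ∀ ξ₀ ∈ hat R pr Q I v t α,
    ∀ ξ₁ ∈ hat R pr Q I v t α, ∀ η₁ ∈ hat R pr Q I v t β, ∀ η₂ ∈ hat R pr Q I v t β,
      CRle (cst k * En) ξ₀ ξ₁ η₁ η₂ := fun ξ₀ h0 _ h1 _ h2 _ h3 => by
  have e0 : closedBall ξ₀ (-1 : ℝ) = ∅ := closedBall_eq_empty.2 (by norm_num)
  exact cr_le (v := ξ₀) (t := -1) (loewner h hQ e hT fun _ _ hx => absurd hx (notMem_empty _))
    c₁ c₀ (by simp [e0]) (by simp [e0]) (hat_disjoint hQ e hT.disjoint) h0 h1 h2 h3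

theorem lb_cr1 (h : Pl S E k pr) (hQ : Stage E Q I) (e : Ends R pr Q I v t) {α β : Set ℂ}
    {En : ℝ} {i : ι} (hi : i ∈ I) (hT : PT E Q I {i} α β En) (c₁ : IsPreconnected α)
    (d₁ : Disjoint α E) (c₀ : IsPreconnected β) (d₀ : Disjoint β E) :
    ∀ ξ₀ ∈ Sh R (pr ⁻¹' α), ∀ ξ₁ ∈ Sh R (pr ⁻¹' α), ∀ η₁ ∈ Sh R (pr ⁻¹' β),
      ∀ η₂ ∈ Sh R (pr ⁻¹' β), CRle (cst k * En) ξ₀ ξ₁ η₁ η₂ := fun ξ₀ h0 _ h1 _ h2 _ h3 => by
  have l := loewner h hQ e hT (Y := closedBall (v i) (t i)) fun j _ hx => by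
    rw [mem_singleton_iff.1 hx]
  have d := hat_disjoint hQ e hT.disjoint
  rw [hat_free hQ d₁, hat_free hQ d₀] at l d
  exact cr_le l (lb_free h c₁ d₁) (lb_free h c₀ d₀) (lb_sh_disj e hi _) (lb_sh_disj e hi _) d
    h0 h1 h2 h3

end stage

theorem lb_small {ε δ e : ℝ} (hδ : 0 < δ) (h0 : 0 ≤ e) (h1 : e ≤ 1 / 10) (h2 : 40 * e ≤ ε * δ)
    {ξ₀ ξ₁ η₁ η₂ : S2} (h : CRle e ξ₀ ξ₁ η₁ η₂) (hd : δ ≤ dist η₁ η₂) : dist ξ₀ ξ₁ ≤ ε := by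
  have h3 := h.2 h1
  have h4 : dist ξ₀ η₁ * dist ξ₁ η₂ ≤ 2 * 2 :=
    mul_le_mul (dist_S2_le _ _) (dist_S2_le _ _) dist_nonneg (by norm_num)
  have h5 : dist ξ₀ ξ₁ * δ ≤ dist ξ₀ ξ₁ * dist η₁ η₂ := mul_le_mul_of_nonneg_left hd dist_nonneg
  refine le_of_mul_le_mul_right ?_ hδ
  nlinarith

theorem lb_choose {k ε δ : ℝ} (hk : 1 ≤ k) (hε : 0 < ε) (hδ : 0 < δ) :
    ∃ e : ℝ, 0 < e ∧ 0 ≤ cst k * e ∧ cst k * e ≤ 1 / 10 ∧ 40 * (cst k * e) ≤ ε * δ := by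
  have hc : 0 < cst k := by unfold cst; positivity
  refine ⟨min (1 / 10) (ε * δ / 40) / cst k, by positivity, by positivity, ?_, ?_⟩
  · rw [mul_div_cancel₀ _ hc.ne']; exact min_le_left _ _
  · rw [mul_div_cancel₀ _ hc.ne']; linarith [min_le_right (1 / 10 : ℝ) (ε * δ / 40)]

theorem lb_lim (𝒰 : Ultrafilter ℕ) (u : ℕ → S2) : ∃ ζ, Tendsto u 𝒰 (𝓝 ζ) := by
  haveI : Nonempty S2 := ⟨u 0⟩
  exact ⟨_, (𝒰.map u).le_nhds_lim⟩

variable {S : ℕ → Type} [∀ n, MetricSpace (S n)] {T : Type} [MetricSpace T]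
  {pr : ∀ n, S n → ℂ} {pT : T → ℂ} {ap : T → ∀ n, S n} {o : T} {𝒰 : Ultrafilter ℕ}
  {E : ℕ → Set ℂ} {Ei : Set ℂ} {k : ℝ} {ι : Type} {Q : ι → Set ℂ} {I : ℕ → Finset ι}
  {q : Bool → ι} {e₁ e₂ : ℝ} {R : ∀ n, Realis (S n)} {v : ℕ → ι → S2} {t : ℕ → ι → ℝ}
  {φ : T → H3} {vl : Bool → S2} {tl : Bool → ℝ}
  {κ : Type} {A : ℕ → Finset κ} {W : ℕ → κ → Set ℂ} {f : Bool → κ} {O : ℕ → Set ℂ} {Z : Set ℂ}

/-- The limit of the extended shadows of a plane set. -/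
def LL (𝒰 : Ultrafilter ℕ) (R : ∀ n, Realis (S n)) (pr : ∀ n, S n → ℂ) (Q : ι → Set ℂ)
    (I : ℕ → Finset ι) (v : ℕ → ι → S2) (t : ℕ → ι → ℝ) (V : Set ℂ) : Set S2 :=
  ULim 𝒰 fun n => hat (R n) (pr n) Q (I n) (v n) (t n) V

/-- The limit of the shadows of a plane set. -/
def MM (𝒰 : Ultrafilter ℕ) (R : ∀ n, Realis (S n)) (pr : ∀ n, S n → ℂ) (V : Set ℂ) : Set S2 :=
  ULim 𝒰 fun n => Sh (R n) (pr n ⁻¹' V)

theorem lb_MM_LL (V : Set ℂ) : MM 𝒰 R pr V ⊆ LL 𝒰 R pr Q I v t V :=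
  ULim_mono (Eventually.of_forall fun _ => subset_union_left)

theorem Ly.two_pts (X : Ly pr pT ap o 𝒰 E Ei k Q I q e₁ e₂ R v t φ vl tl) {ξ : T → S2}
    (hξ : Function.Injective ξ) (hm : ∀ x, ∀ V : Set ℂ, pT x ∈ V → ξ x ∈ MM 𝒰 R pr V)
    {V : Set ℂ} (hV : (V \ Ei).Nontrivial) : (MM 𝒰 R pr V).Nontrivial := by
  obtain ⟨z, hz, z', hz', hne⟩ := hV
  obtain ⟨x, rfl⟩ : z ∈ range pT := by rw [X.cx.plT.range_eq]; exact hz.2
  obtain ⟨x', rfl⟩ : z' ∈ range pT := by rw [X.cx.plT.range_eq]; exact hz'.2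
  exact ⟨_, hm x V hz.1, _, hm x' V hz'.1, fun h => hne (by rw [hξ h])⟩

theorem Ly.MM_nt (X : Ly pr pT ap o 𝒰 E Ei k Q I q e₁ e₂ R v t φ vl tl) {V : Set ℂ}
    (hV : (V \ Ei).Nontrivial) : (MM 𝒰 R pr V).Nontrivial := by
  obtain ⟨ξ, h1, h2⟩ := X.anchor
  exact X.two_pts h1 h2 hV

theorem Ly.MM_not (X : Ly pr pT ap o 𝒰 E Ei k Q I q e₁ e₂ R v t φ vl tl) {V : Set ℂ}
    (hV : closure V ⊆ Eiᶜ) {u : S2} (hu : u ∈ MM 𝒰 R pr V) :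
    u ∉ idealS (ULim 𝒰 fun n => (R n).C) := by
  obtain ⟨x, hx⟩ := X.ret hV hu
  exact (exists_ovs_iff (isClosed_ULim _) (gconvex_ULim X.cx.le fun n => (R n).convex)
    ⟨_, hx.1⟩ u).1 ⟨_, hx⟩

theorem Ly.cover (X : Ly pr pT ap o 𝒰 E Ei k Q I q e₁ e₂ R v t φ vl tl)
    (Tr : Tree E Ei Q I q (pT o) A W f O Z) (j : ℕ) (u : S2) :
    u ∈ MM 𝒰 R pr (O j) ∨ ∃ a ∈ A j, u ∈ LL 𝒰 R pr Q I v t (W j a) := by
  have h1 : u ∈ ULim 𝒰 fun n => Sh (R n) (pr n ⁻¹' O j) ∪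
      ⋃ a ∈ A j, hat (R n) (pr n) Q (I n) (v n) (t n) (W j a) := by
    refine mem_ULim_of_tendsto (u := fun _ => u) ?_ tendsto_const_nhds
    filter_upwards [(Tr.cov' j).filter_mono X.cx.le] with n hn
    by_cases hu : u ∈ idealS (R n).C
    · rw [(X.ends n).union] at hu
      simp only [mem_iUnion] at hu
      obtain ⟨i, hi, hu⟩ := hu
      obtain ⟨a, ha, hs⟩ := hn i hi
      refine Or.inr (mem_biUnion ha (Or.inr ?_))
      simp only [mem_iUnion]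
      exact ⟨i, hi, hs, hu⟩
    · obtain ⟨y, hy⟩ := (exists_ov_iff (R n) u).2 hu
      rcases Tr.cov j (pr n y) with h | ⟨a, ha, h⟩
      · exact Or.inl ⟨y, h, hy⟩
      · exact Or.inr (mem_biUnion ha (Or.inl ⟨y, h, hy⟩))
  rw [ULim_union] at h1
  rcases h1 with h1 | h1
  · exact Or.inl h1
  · have := ULim_cover (A j) (A := fun a n => hat (R n) (pr n) Q (I n) (v n) (t n) (W j a))
      (Eventually.of_forall fun _ => subset_rfl) h1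
    simp only [mem_iUnion] at this
    obtain ⟨a, ha, h⟩ := this
    exact Or.inr ⟨a, ha, h⟩

theorem Ly.hconn (X : Ly pr pT ap o 𝒰 E Ei k Q I q e₁ e₂ R v t φ vl tl)
    (Tr : Tree E Ei Q I q (pT o) A W f O Z) {j : ℕ} {a : κ} (ha : a ∈ A j) :
    ∀ᶠ n in atTop, IsPreconnected (hat (R n) (pr n) Q (I n) (v n) (t n) (W j a)) :=
  (Tr.conn j a ha).mono fun n hn =>
    isPreconnected_hat (X.cx.pl n) (X.geo.stage n) (X.ends n) (Tr.isOpen j a) hn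

theorem Ly.LL_disj (X : Ly pr pT ap o 𝒰 E Ei k Q I q e₁ e₂ R v t φ vl tl)
    (Tr : Tree E Ei Q I q (pT o) A W f O Z) {j : ℕ} {a a' : κ} (ha : a ∈ A j) (ha' : a' ∈ A j)
    (hne : a ≠ a') : Disjoint (LL 𝒰 R pr Q I v t (W j a)) (LL 𝒰 R pr Q I v t (W j a')) := by
  obtain ⟨N, hN⟩ := Tr.sep j
  rw [Set.disjoint_left]
  intro u h1 h2
  obtain ⟨x, hx, hxu⟩ := (X.MM_nt (Tr.anc j a ha)).exists_ne u
  obtain ⟨y, hy, hyu⟩ := (X.MM_nt (Tr.anc j a' ha')).exists_ne u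
  have := (cr_lim X.cx.le (ε := cst k * N) (Eventually.filter_mono X.cx.le (by
    filter_upwards [hN a ha a' ha' hne, X.hconn Tr ha, X.hconn Tr ha'] with n p1 p2 p3
    exact lb_cr0 (X.cx.pl n) (X.geo.stage n) (X.ends n) p1 p2 p3)) h1 (lb_MM_LL _ hx) h2
    (lb_MM_LL _ hy)).1
  rw [dist_self, zero_mul, mul_zero] at this
  exact absurd this (not_le.2 (mul_pos (dist_pos.2 hxu.symm) (dist_pos.2 hyu.symm)))

theorem lb_Z (X : Ly pr pT ap o 𝒰 E Ei k Q I q e₁ e₂ R v t φ vl tl)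
    (Tr : Tree E Ei Q I q (pT o) A W f O Z) : (MM 𝒰 R pr Z).Nontrivial := by
  refine X.MM_nt ?_
  rw [((Tr.zfree.2 0).mono_right (X.geo.sub 0)).sdiff_eq_left]
  exact Tr.znt

theorem Ly.LL_small (X : Ly pr pT ap o 𝒰 E Ei k Q I q e₁ e₂ R v t φ vl tl)
    (Tr : Tree E Ei Q I q (pT o) A W f O Z) {ε : ℝ} (hε : 0 < ε) : ∀ᶠ j in atTop, ∀ a ∈ A j,
      (∀ b, a ≠ f b) → ∀ u ∈ LL 𝒰 R pr Q I v t (W j a), ∀ u' ∈ LL 𝒰 R pr Q I v t (W j a),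
        dist u u' ≤ ε := by
  obtain ⟨η₁, h1, η₂, h2, hne⟩ := lb_Z X Tr
  obtain ⟨e, e0, e1, e2, e3⟩ := lb_choose X.cx.plT.one_le hε (dist_pos.2 hne)
  filter_upwards [Tr.small e e0] with j hj a ha hb u hu u' hu'
  refine lb_small (dist_pos.2 hne) e1 e2 e3 (cr_lim X.cx.le (Eventually.filter_mono X.cx.le ?_)
    hu hu' (lb_MM_LL (Q := Q) (I := I) (v := v) (t := t) _ h1) (lb_MM_LL _ h2)) le_rfl
  filter_upwards [hj a ha hb, X.hconn Tr ha] with n p1 p2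
  refine lb_cr0 (X.cx.pl n) (X.geo.stage n) (X.ends n) p1 p2 ?_
  rw [hat_free (X.geo.stage n) (Tr.zfree.2 n)]
  exact lb_free (X.cx.pl n) Tr.zfree.1 (Tr.zfree.2 n)

theorem Ly.LL_meets (X : Ly pr pT ap o 𝒰 E Ei k Q I q e₁ e₂ R v t φ vl tl)
    (Tr : Tree E Ei Q I q (pT o) A W f O Z) {j : ℕ} {a : κ} (ha : a ∈ A j) :
    ∃ u ∈ LL 𝒰 R pr Q I v t (W j a), u ∈ idealS (ULim 𝒰 fun n => (R n).C) := by
  haveI : Nonempty S2 := ⟨vl true⟩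
  have h1 : ∀ᶠ n in (𝒰 : Filter ℕ), ∃ u, u ∈ hat (R n) (pr n) Q (I n) (v n) (t n) (W j a) ∧
      u ∈ idealS (R n).C := by
    filter_upwards [(Tr.has j a ha).filter_mono X.cx.le] with n ⟨i, hi, hs⟩
    have hv : v n i ∈ closedBall (v n i) (t n i) := mem_closedBall_self ((X.ends n).nonneg i hi)
    refine ⟨v n i, Or.inr ?_, ?_⟩
    · simp only [mem_iUnion]
      exact ⟨i, hi, hs, hv⟩
    · rw [(X.ends n).union]
      exact mem_biUnion hi hv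
  obtain ⟨u, hu⟩ := h1.choice
  obtain ⟨ζ, hζ⟩ := lb_lim 𝒰 u
  exact ⟨ζ, mem_ULim_of_tendsto (hu.mono fun _ h => h.1) hζ,
    ULim_idealS_subset X.cx.le (fun n => (R n).closed) (fun n => (R n).convex) X.o_mem
      (mem_ULim_of_tendsto (hu.mono fun _ h => h.2) hζ)⟩

theorem Ly.disc_LL (X : Ly pr pT ap o 𝒰 E Ei k Q I q e₁ e₂ R v t φ vl tl)
    (Tr : Tree E Ei Q I q (pT o) A W f O Z) (j : ℕ) (b : Bool) :
    closedBall (vl b) (tl b) ⊆ LL 𝒰 R pr Q I v t (W j (f b)) := by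
  rw [← X.disc_eq b]
  refine ULim_mono (Eventually.of_forall fun n u hu => Or.inr ?_)
  simp only [mem_iUnion]
  exact ⟨q b, X.geo.qmem n b, Tr.fsub j b, hu⟩

theorem Ly.LL_collar (X : Ly pr pT ap o 𝒰 E Ei k Q I q e₁ e₂ R v t φ vl tl)
    (Tr : Tree E Ei Q I q (pT o) A W f O Z) {ε : ℝ} (hε : 0 < ε) : ∀ᶠ j in atTop, ∀ b,
      ∀ u ∈ LL 𝒰 R pr Q I v t (W j (f b)), ∃ ζ ∈ closedBall (vl b) (tl b), dist u ζ ≤ ε := by
  haveI : Nonempty S2 := ⟨vl true⟩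
  obtain ⟨η₁, h1, η₂, h2, hne⟩ := lb_Z X Tr
  have hd : 0 < dist η₁ η₂ / 2 := half_pos (dist_pos.2 hne)
  obtain ⟨e, e0, e1, e2, e3⟩ := lb_choose X.cx.plT.one_le hε hd
  filter_upwards [Tr.collar e e0] with j hj b u hu
  obtain ⟨w, w1, w2⟩ := exists_tendsto_of_mem_ULim X.cx.le hu
  have h3 : ∀ᶠ n in (𝒰 : Filter ℕ), ∃ ζ, ζ ∈ closedBall (v n (q b)) (t n (q b)) ∧
      dist (w n) ζ ≤ ε := by
    filter_upwards [(hj b).filter_mono X.cx.le, w1, h1 _ (half_pos hd), h2 _ (half_pos hd)] with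
      n ⟨p1, p2⟩ p3 ⟨a₁, m₁, d₁⟩ ⟨a₂, m₂, d₂⟩
    rcases p3 with ⟨y, y1, y2⟩ | p3
    · obtain ⟨α, α1, α2, α3, α4, α5⟩ := p2 (pr n y) ⟨y1, (X.cx.pl n).notMem y⟩
      have c := lb_cr1 (X.cx.pl n) (X.geo.stage n) (X.ends n) (X.geo.qmem n b) α5 α2 α3
        Tr.zfree.1 (Tr.zfree.2 n)
      have da : dist η₁ η₂ / 2 ≤ dist a₁ a₂ := by
        have := dist_triangle4 η₁ a₁ a₂ η₂
        rw [dist_comm η₁ a₁] at this
        linarith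
      obtain ⟨ζ, z1, z2⟩ := (X.ends n).acc (q b) (X.geo.qmem n b) (pr n ⁻¹' α) (by
        rwa [image_preimage_eq_of_subset]
        rw [(X.cx.pl n).range_eq]
        exact α3.subset_compl_right)
      refine ⟨ζ, z2, ?_⟩
      have : Sh (R n) (pr n ⁻¹' α) ⊆ closedBall (w n) ε := fun u' hu' => by
        rw [mem_closedBall, dist_comm]
        exact lb_small hd e1 e2 e3 (c _ ⟨y, α1, y2⟩ _ hu' _ m₁ _ m₂) da
      rw [dist_comm]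
      exact closure_minimal this isClosed_closedBall z1
    · simp only [mem_iUnion] at p3
      obtain ⟨i, hi, hs, p3⟩ := p3
      rw [p1 i hi hs] at p3
      exact ⟨w n, p3, by rw [dist_self]; exact hε.le⟩
  obtain ⟨z, hz⟩ := h3.choice
  obtain ⟨ζ, hζ⟩ := lb_lim 𝒰 z
  refine ⟨ζ, ?_, le_of_tendsto (w2.dist hζ) (hz.mono fun _ h => h.2)⟩
  rw [← X.disc_eq b]
  exact mem_ULim_of_tendsto (hz.mono fun _ h => h.1) hζ

theorem Ly.mem_disc (X : Ly pr pT ap o 𝒰 E Ei k Q I q e₁ e₂ R v t φ vl tl)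
    (Tr : Tree E Ei Q I q (pT o) A W f O Z) {b : Bool} {u : S2}
    (h : ∃ᶠ j in atTop, u ∈ LL 𝒰 R pr Q I v t (W j (f b))) : u ∈ closedBall (vl b) (tl b) := by
  rw [← isClosed_closedBall.closure_eq, Metric.mem_closure_iff]
  intro ε hε
  obtain ⟨j, h1, h2⟩ := (h.and_eventually (X.LL_collar Tr (half_pos hε))).exists
  obtain ⟨ζ, z1, z2⟩ := h2 b u h1
  exact ⟨ζ, z1, by linarith⟩

theorem Ly.not_collar (X : Ly pr pT ap o 𝒰 E Ei k Q I q e₁ e₂ R v t φ vl tl)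
    (Tr : Tree E Ei Q I q (pT o) A W f O Z) {u : S2} (h : ∀ b, u ∉ closedBall (vl b) (tl b)) :
    ∀ᶠ j in atTop, ∀ a, u ∈ LL 𝒰 R pr Q I v t (W j a) → ∀ b, a ≠ f b := by
  have h1 : ∀ b, ∀ᶠ j in atTop, u ∉ LL 𝒰 R pr Q I v t (W j (f b)) := fun b =>
    not_frequently.1 fun k => h b (X.mem_disc Tr k)
  filter_upwards [h1 true, h1 false] with j p1 p2 a ha b e
  subst e
  cases b
  · exact p2 ha
  · exact p1 ha

theorem Ly.comp (X : Ly pr pT ap o 𝒰 E Ei k Q I q e₁ e₂ R v t φ vl tl)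
    (Tr : Tree E Ei Q I q (pT o) A W f O Z) {Y : Set S2} (hY : IsPreconnected Y)
    (hs : Y ⊆ idealS (ULim 𝒰 fun n => (R n).C)) {j : ℕ} {a : κ} (ha : a ∈ A j) {u : S2}
    (h1 : u ∈ Y) (h2 : u ∈ LL 𝒰 R pr Q I v t (W j a)) : Y ⊆ LL 𝒰 R pr Q I v t (W j a) := by
  classical
  intro w hw
  by_contra hc
  have cov : ∀ w ∈ Y, w ∉ LL 𝒰 R pr Q I v t (W j a) →
      w ∈ ⋃ a' ∈ (A j).erase a, LL 𝒰 R pr Q I v t (W j a') := fun w hw hc => by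
    rcases X.cover Tr j w with h | ⟨a', ha', h⟩
    · exact absurd (hs hw) (X.MM_not (Tr.ofree j) h)
    · exact mem_biUnion (Finset.mem_coe.2 (Finset.mem_erase.2 ⟨fun e => hc (e ▸ h), ha'⟩)) h
  obtain ⟨z, -, z1, z2⟩ := isPreconnected_closed_iff.1 hY (LL 𝒰 R pr Q I v t (W j a))
    (⋃ a' ∈ (A j).erase a, LL 𝒰 R pr Q I v t (W j a')) (isClosed_ULim _)
    (isClosed_biUnion_finset fun _ _ => isClosed_ULim _)
    (fun w hw => (em _).imp id (cov w hw)) ⟨u, h1, h2⟩ ⟨w, hw, cov w hw hc⟩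
  simp only [mem_iUnion, Finset.mem_erase] at z2
  obtain ⟨a', ⟨n1, n2⟩, z2⟩ := z2
  exact Set.disjoint_left.1 (X.LL_disj Tr ha n2 n1.symm) z1 z2

theorem Ly.two (X : Ly pr pT ap o 𝒰 E Ei k Q I q e₁ e₂ R v t φ vl tl)
    (Tr : Tree E Ei Q I q (pT o) A W f O Z) : Two (idealS (ULim 𝒰 fun n => (R n).C)) vl tl := by
  refine ⟨(X.LL_disj Tr (Tr.fmem 0 true) (Tr.fmem 0 false) Tr.fne).mono (X.disc_LL Tr 0 true)
    (X.disc_LL Tr 0 false), fun b u hu => ⟨X.disc_subset b hu, subset_antisymm (fun w hw => ?_)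
      ((isPreconnected_closedBall_S2 _ _).subset_connectedComponentIn hu (X.disc_subset b))⟩,
    fun u hu hb => subset_antisymm (fun w hw => ?_)
      (singleton_subset_iff.2 (mem_connectedComponentIn hu))⟩
  · exact X.mem_disc Tr (Frequently.of_forall fun j => X.comp Tr
      isPreconnected_connectedComponentIn (connectedComponentIn_subset _ _) (Tr.fmem j b)
      (mem_connectedComponentIn (X.disc_subset b hu)) (X.disc_LL Tr j b hu) hw)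
  · refine mem_singleton_iff.2 (eq_of_forall_dist_le fun ε hε => ?_)
    obtain ⟨j, p1, p2⟩ := ((X.not_collar Tr hb).and (X.LL_small Tr hε)).exists
    rcases X.cover Tr j u with h | ⟨a, ha, h⟩
    · exact absurd hu (X.MM_not (Tr.ofree j) h)
    · exact p2 a ha (p1 a h) w (X.comp Tr isPreconnected_connectedComponentIn
        (connectedComponentIn_subset _ _) ha (mem_connectedComponentIn hu) h hw) u h

theorem Ly.exists_MM (X : Ly pr pT ap o 𝒰 E Ei k Q I q e₁ e₂ R v t φ vl tl)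
    (Tr : Tree E Ei Q I q (pT o) A W f O Z) {u : S2}
    (hu : u ∉ idealS (ULim 𝒰 fun n => (R n).C)) : ∃ j, u ∈ MM 𝒰 R pr (O j) := by
  by_contra hc
  push Not at hc
  refine hu ?_
  rw [← (isClosed_idealS _).closure_eq, Metric.mem_closure_iff]
  intro ε hε
  obtain ⟨j, p1, p2⟩ := ((X.not_collar Tr fun b h => hu (X.disc_subset b h)).and
    (X.LL_small Tr (half_pos hε))).exists
  obtain ⟨a, ha, h⟩ := (X.cover Tr j u).resolve_left (hc j)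
  obtain ⟨w, w1, w2⟩ := X.LL_meets Tr ha
  exact ⟨w, w2, by linarith [p2 a ha (p1 a h) u h w w1]⟩

theorem Ly.conn (X : Ly pr pT ap o 𝒰 E Ei k Q I q e₁ e₂ R v t φ vl tl)
    (Tr : Tree E Ei Q I q (pT o) A W f O Z) :
    IsConnected (idealS (ULim 𝒰 fun n => (R n).C))ᶜ := by
  obtain ⟨ξ, -, hξ⟩ := X.anchor
  have e : (idealS (ULim 𝒰 fun n => (R n).C))ᶜ = ⋃ j, MM 𝒰 R pr (O j) := by
    ext u
    rw [mem_iUnion]
    exact ⟨X.exists_MM Tr, fun ⟨j, h⟩ => X.MM_not (Tr.ofree j) h⟩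
  rw [e]
  refine ⟨⟨ξ o, mem_iUnion.2 ⟨0, hξ o _ (Tr.omem 0)⟩⟩, isPreconnected_iUnion
    ⟨ξ o, mem_iInter.2 fun j => hξ o _ (Tr.omem j)⟩ fun j => isPreconnected_ULim ?_⟩
  obtain ⟨η, hη, h⟩ := X.geo.exh (closure (O j)) (Metric.isCompact_of_isClosed_isBounded
    isClosed_closure (X.cx.plT.bdd.subset (Tr.ofree j))) (Tr.ofree j)
  filter_upwards [h.filter_mono X.cx.le] with n hn
  refine lb_free (X.cx.pl n) (Tr.oconn j) (Set.disjoint_left.2 fun z hz hE => ?_)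
  have := hn z (subset_closure hz)
  rw [infDist_zero_of_mem hE] at this
  linarith

/-- The limit of the realisations. -/
theorem limit (cx : Cx S T pr pT ap o 𝒰 E Ei k) (G : Geo E Ei Q I q (pT o) e₁ e₂)
    (R₀ : ∀ n, Realis (S n)) (hR : ∀ n, Round (idealS (R₀ n).C)) :
    ∃ (R : Realis T) (v : Bool → S2) (t : Bool → ℝ), IsConnected (idealS R.C)ᶜ ∧
      Two (idealS R.C) v t ∧ Close v t (cst k * e₁) ∧ Far v t (cst k * e₂) := by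
  obtain ⟨R, v, t, φ, vl, tl, X⟩ := exists_ly cx G R₀ hR
  obtain ⟨κ, A, W, f, O, Z, Tr⟩ := G.tree
  have hc : GConvex (ULim 𝒰 fun n => (R n).C) := gconvex_ULim cx.le fun n => (R n).convex
  refine ⟨⟨ULim 𝒰 fun n => (R n).C, isClosed_ULim _, hc, X.int, φ,
    subset_antisymm (limit_range cx.le R X.o_mem X.hφ) fun p hp => ?_, X.isom⟩, vl, tl,
    X.conn Tr, X.two Tr, X.close, X.far⟩
  obtain ⟨u, hu⟩ := ovs_surj (isClosed_ULim _) hc hp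
  obtain ⟨j, hj⟩ := X.exists_MM Tr
    ((exists_ovs_iff (isClosed_ULim _) hc ⟨_, hu.1⟩ u).1 ⟨_, hu⟩)
  obtain ⟨x, hx⟩ := X.ret (Tr.ofree j) hj
  exact ⟨x, ovs_unique hc hx hu⟩

end Pool.Agent.Lib.MP_44acff_gt.EK
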