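import Pool.Agent.Lib.MP_44acff_gt.EK.Ends
import Pool.Agent.Lib.MP_44acff_gt.EK.Cap

open Set Metric Topology Filter MeasureTheory

namespace Pool.Agent.Lib.MP_44acff_gt.EK

variable {S : Type} [MetricSpace S] {E : Set ℂ} {k : ℝ} {pr : S → ℂ} {ι : Type} {Q : ι → Set ℂ}
  {I : Finset ι} {R : Realis S} {v : ι → S2} {t : ι → ℝ}

theorem lw_near (h : Pl S E k pr) (e : Ends R pr Q I v t) {U : ℂ → ℝ} {L : NNReal}
    (hL : LipschitzWith L U) {W : Set ℂ} {p : ℝ} (hW : ∀ z ∈ W, p ≤ U z) {u : S2}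
    (hu : u ∈ hat R pr Q I v t W) {ε : ℝ} (hε : 0 < ε) :
    ∀ᶠ u' in 𝓝 u, ∀ y, Ov R u' y → p - ε ≤ U (pr y) := by
  rcases hu with ⟨y, hy, hov⟩ | hu
  · have hc : Continuous fun y => U (pr y) := hL.continuous.comp h.isOpenEmbedding.continuous
    have hV : {y' | p - ε < U (pr y')} ∈ 𝓝 y :=
      (isOpen_lt continuous_const hc).mem_nhds (by
        have := hW _ hy
        show p - ε < U (pr y)
        linarith)
    filter_upwards [ov_cont hov hV] with u' hu' y'' hy''
    obtain ⟨y', h1, h2⟩ := hu'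
    rw [ov_unique hy'' h2]
    exact le_of_lt h1
  · simp only [mem_iUnion] at hu
    obtain ⟨i, hi, hQ, hu⟩ := hu
    have hL0 : (0 : ℝ) ≤ L := L.2
    filter_upwards [e.near i hi (ε / (L + 1)) (by positivity) u hu] with u' hu' y hy
    obtain ⟨z, hz, hd⟩ := mem_thickening_iff.1 (hu' y hy)
    have h1 := hL.dist_le_mul (pr y) z
    have h2 := hW z (hQ hz)
    have h3 : (L : ℝ) * dist (pr y) z ≤ ε := by
      rw [lt_div_iff₀ (by positivity)] at hd
      nlinarith [dist_nonneg (x := pr y) (y := z)]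
    rw [Real.dist_eq] at h1
    linarith [(abs_le.1 h1).1]

theorem lw_sub (e : Ends R pr Q I v t) {W : Set ℂ} {u : S2} (hu : u ∈ hat R pr Q I v t W) {j : ι}
    (hj : j ∈ I) (hm : u ∈ closedBall (v j) (t j)) : Q j ⊆ W := by
  rcases hu with ⟨y, -, hov⟩ | hu
  · refine absurd ?_ ((exists_ov_iff R u).1 ⟨y, hov⟩)
    rw [e.union]
    exact mem_biUnion (s := (I : Set ι)) hj hm
  · simp only [mem_iUnion] at hu
    obtain ⟨i, hi, hQ, hu⟩ := hu
    by_cases hij : i = j
    · exact hij ▸ hQ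
    · exact absurd hm (disjoint_left.1 (e.disj i hi j hj hij) hu)

theorem lw_ball {j : ι} (hj : j ∈ I) : closedBall (v j) (t j) ⊆ hat R pr Q I v t (Q j) :=
  fun _ hu => Or.inr (by
    simp only [mem_iUnion]
    exact ⟨j, hj, subset_rfl, hu⟩)

open Classical in
theorem lw_arc (h : Pl S E k pr) (hQ : Stage E Q I) (e : Ends R pr Q I v t) {X : Set ι}
    {α β : Set ℂ} {U : ℂ → ℝ} {L : NNReal} (hL : LipschitzWith L U) {p q : ℝ}
    (hα : ∀ z ∈ α, p ≤ U z) (hβ : ∀ z ∈ β, U z ≤ q) {s : ι → ℝ}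
    (hs : ∀ i ∈ I, i ∉ X → 0 ≤ s i ∧ ∀ a ∈ Q i, ∀ b ∈ Q i, U a - U b ≤ s i) {Y : Set S2}
    (hY : ∀ i ∈ I, i ∈ X → closedBall (v i) (t i) ⊆ Y) {w : ℝ → S2} (hw : Continuous w)
    {G : ℝ → ENNReal} (hG : ∀ (a b : ℝ) (y : ℝ → S), a ≤ b → (∀ θ ∈ Icc a b, Ov R (w θ) (y θ)) →
      ENNReal.ofReal |U (pr (y b)) - U (pr (y a))| ≤ ∫⁻ θ in Ioc a b, G θ)
    {a b : ℝ} (hab : a < b) (m1 : w a ∈ hat R pr Q I v t α) (m2 : w b ∈ hat R pr Q I v t β)
    (hav : ∀ θ ∈ Icc a b, w θ ∉ Y) :
    ENNReal.ofReal (p - q) ≤ (∫⁻ θ in Ioc a b, G θ) + ENNReal.ofReal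
      (∑ j ∈ (I.filter (· ∉ X)).filter (fun j => ∃ θ, w θ ∈ closedBall (v j) (t j)), s j) := by
  by_cases hfin : ∫⁻ θ in Ioc a b, G θ = ⊤
  · rw [hfin, top_add]; exact le_top
  have hne : Nonempty S := by
    obtain ⟨z, hz⟩ := h.ne
    rw [hQ.union] at hz
    simp only [mem_iUnion] at hz
    obtain ⟨i, hi, -⟩ := hz
    obtain ⟨V, -, -, -, hV⟩ := hQ.collar i hi 1 one_pos
    obtain ⟨z, -, hz⟩ := hV.nonempty
    have : z ∈ range pr := by rw [h.range_eq]; exact hz
    exact ⟨this.choose⟩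
  have hret : ∀ u : S2, ∃ y : S, u ∉ idealS R.C → Ov R u y := fun u => by
    by_cases hu : u ∈ idealS R.C
    · exact ⟨hne.some, fun h => absurd hu h⟩
    · obtain ⟨y, hy⟩ := (exists_ov_iff R u).2 hu
      exact ⟨y, fun _ => hy⟩
  choose ret hret using hret
  have hJ : ∀ j ∈ I.filter (· ∉ X), j ∈ I ∧ j ∉ X := fun j hj => Finset.mem_filter.1 hj
  have hlo : ∀ j ∈ I.filter (· ∉ X), ∀ z ∈ Q j,
      sInf (U '' Q j) ≤ U z ∧ U z ≤ sInf (U '' Q j) + s j := by
    intro j hj z hz
    have h1 := (hs j (hJ j hj).1 (hJ j hj).2).2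
    constructor
    · refine csInf_le ⟨U z - s j, ?_⟩ ⟨z, hz, rfl⟩
      rintro _ ⟨y, hy, rfl⟩
      linarith [h1 z hz y hy]
    · have : U z - s j ≤ sInf (U '' Q j) := le_csInf ⟨_, z, hz, rfl⟩ (by
        rintro _ ⟨y, hy, rfl⟩
        linarith [h1 z hz y hy])
      linarith
  have hL' : LipschitzWith L fun z => -U z := hL.neg
  have hfin' : ∀ x y, a ≤ x → y ≤ b → ∫⁻ θ in Ioc x y, G θ ≠ ⊤ := fun x y hx hy =>
    ne_top_of_le_ne_top hfin (lintegral_mono_set (Ioc_subset_Ioc hx hy))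
  have key := arc (I.filter (· ∉ X)) (fun j => {θ | w θ ∈ closedBall (v j) (t j)})
    (fun j _ => isClosed_closedBall.preimage hw)
    (fun i hi j hj hij => disjoint_left.2 fun θ h1 h2 =>
      disjoint_left.1 (e.disj i (hJ i hi).1 j (hJ j hj).1 hij) h1 h2)
    {θ | θ ∈ Icc a b ∧ w θ ∉ idealS R.C} (fun θ => U (pr (ret (w θ))))
    (fun θ => (∫⁻ x in Ioc a (min θ b), G x).toReal)
    (fun x y hxy => ENNReal.toReal_mono (hfin' _ _ le_rfl (min_le_right _ _))
      (lintegral_mono_set (Ioc_subset_Ioc le_rfl (min_le_min_right _ hxy))))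
    (by
      intro x y hxy hO
      have hx := (hO (left_mem_Icc.2 hxy)).1
      have hy := (hO (right_mem_Icc.2 hxy)).1
      have h1 := hG x y (fun θ => ret (w θ)) hxy fun θ hθ => hret _ (hO hθ).2
      have h2 : ∫⁻ θ in Ioc a y, G θ = (∫⁻ θ in Ioc a x, G θ) + ∫⁻ θ in Ioc x y, G θ := by
        rw [← lintegral_union measurableSet_Ioc (Ioc_disjoint_Ioc_of_le le_rfl),
          Ioc_union_Ioc_eq_Ioc hx.1 hxy]
      simp only [min_eq_left hx.2, min_eq_left hy.2]
      rw [h2, ENNReal.toReal_add (hfin' _ _ le_rfl hx.2) (hfin' _ _ hx.1 hy.2),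
        add_sub_cancel_left]
      exact (ENNReal.ofReal_le_iff_le_toReal (hfin' _ _ hx.1 hy.2)).1 h1)
    (fun j => sInf (U '' Q j)) (fun j => sInf (U '' Q j) + s j)
    (fun j hj => by linarith [(hs j (hJ j hj).1 (hJ j hj).2).1])
    (by
      intro j hj θ hθ ε hε
      have h0 : w θ ∈ hat R pr Q I v t (Q j) := lw_ball (hJ j hj).1 hθ
      have h1 := lw_near h e hL (fun z hz => (hlo j hj z hz).1) h0 hε
      have h2 := lw_near h e hL' (p := -(sInf (U '' Q j) + s j))
        (fun z hz => neg_le_neg (hlo j hj z hz).2) h0 hε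
      filter_upwards [hw.continuousAt.eventually h1, hw.continuousAt.eventually h2]
        with θ' g1 g2 hO
      exact ⟨g1 _ (hret _ hO.2), by linarith [g2 _ (hret _ hO.2)]⟩)
    (p := p) (q := q) hab
    (by
      intro θ hθ
      by_cases hi : w θ ∈ idealS R.C
      · right
        rw [e.union] at hi
        simp only [mem_iUnion] at hi
        obtain ⟨i, hi, hm⟩ := hi
        exact ⟨i, Finset.mem_filter.2 ⟨hi, fun hX =>
          hav θ (Ioo_subset_Icc_self hθ) (hY i hi hX hm)⟩, hm⟩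
      · exact Or.inl ⟨Ioo_subset_Icc_self hθ, hi⟩)
    (by
      intro ε hε
      filter_upwards [mem_nhdsWithin_of_mem_nhds
        (hw.continuousAt.eventually (lw_near h e hL hα m1 hε))] with θ g hO
      exact g _ (hret _ hO.2))
    (by
      intro j hj hm
      obtain ⟨z, hz⟩ := hQ.ne j (hJ j hj).1
      linarith [(hlo j hj z hz).2, hα z (lw_sub e m1 (hJ j hj).1 hm hz)])
    (by
      intro ε hε
      filter_upwards [mem_nhdsWithin_of_mem_nhds (hw.continuousAt.eventually
        (lw_near h e hL' (p := -q) (fun z hz => neg_le_neg (hβ z hz)) m2 hε))] with θ g hO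
      linarith [g _ (hret _ hO.2)])
    (by
      intro j hj hm
      obtain ⟨z, hz⟩ := hQ.ne j (hJ j hj).1
      linarith [(hlo j hj z hz).1, hβ z (lw_sub e m2 (hJ j hj).1 hm hz)])
  simp only [min_self, min_eq_left hab.le, Ioc_self, Measure.restrict_empty,
    lintegral_zero_measure, ENNReal.toReal_zero, sub_zero, add_sub_cancel_left] at key
  have h5 : p - q ≤ (∫⁻ θ in Ioc a b, G θ).toReal +
      ∑ j ∈ (I.filter (· ∉ X)).filter (fun j => ∃ θ, w θ ∈ closedBall (v j) (t j)), s j := by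
    refine key.trans (add_le_add le_rfl (Finset.sum_le_sum_of_subset_of_nonneg ?_ ?_))
    · intro j hj
      obtain ⟨h1, θ, h2, -⟩ := Finset.mem_filter.1 hj
      exact Finset.mem_filter.2 ⟨h1, θ, h2⟩
    · intro j hj _
      have := hJ j (Finset.mem_filter.1 hj).1
      exact (hs j this.1 this.2).1
  refine (ENNReal.ofReal_le_ofReal h5).trans (ENNReal.ofReal_add_le.trans ?_)
  rw [ENNReal.ofReal_toReal hfin]

theorem lw_period {G : ℝ → ENNReal} (hG : Function.Periodic G (2 * Real.pi)) {a b : ℝ}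
    (h : b - a ≤ 2 * Real.pi) : ∫⁻ θ in Ioc a b, G θ ≤ ∫⁻ θ in Ioo (-Real.pi) Real.pi, G θ := by
  have h1 := (isAddFundamentalDomain_Ioc Real.two_pi_pos a).setLIntegral_eq
    (isAddFundamentalDomain_Ioc Real.two_pi_pos (-Real.pi)) G hG.map_vadd_zmultiples
  rw [show -Real.pi + 2 * Real.pi = Real.pi by ring] at h1
  rw [setLIntegral_congr Ioo_ae_eq_Ioc, ← h1]
  exact lintegral_mono_set (Ioc_subset_Ioc le_rfl (by linarith))

theorem lw_polar {ρ : ℂ → ENNReal} (hρ : Measurable ρ) (c : ℂ) :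
    ∫⁻ r in Ioi (0 : ℝ), ENNReal.ofReal r * ∫⁻ θ in Ioo (-Real.pi) Real.pi, ρ (circleMap c r θ) =
      ∫⁻ z, ρ z := by
  have h1 := Complex.lintegral_comp_polarCoord_symm fun z => ρ (c + z)
  rw [lintegral_add_left_eq_self] at h1
  have h2 : ∀ p : ℝ × ℝ, c + Complex.polarCoord.symm p = circleMap c p.1 p.2 := fun p => by
    rw [Complex.polarCoord_symm_apply, circleMap, Complex.exp_mul_I]
    push_cast
    ring
  simp only [h2, smul_eq_mul] at h1
  have h3 : Measurable fun p : ℝ × ℝ => ENNReal.ofReal p.1 * ρ (circleMap c p.1 p.2) := by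
    refine (ENNReal.measurable_ofReal.comp measurable_fst).mul (hρ.comp ?_)
    refine Continuous.measurable ?_
    unfold circleMap
    fun_prop
  rw [← h1, polarCoord_target, Measure.volume_eq_prod, setLIntegral_prod _ h3.aemeasurable]
  refine lintegral_congr fun r => ?_
  exact (lintegral_const_mul' _ _ ENNReal.ofReal_ne_top).symm

theorem lw_log {a b : ℝ} (ha : 0 < a) (hab : a ≤ b) :
    ∫⁻ r in Ioo a b, ENNReal.ofReal (1 / r) = ENNReal.ofReal (Real.log (b / a)) := by
  have hi : IntegrableOn (fun r : ℝ => 1 / r) (Icc a b) :=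
    ContinuousOn.integrableOn_Icc (continuousOn_const.div continuousOn_id
      fun x hx => (ha.trans_le hx.1).ne')
  rw [← integral_one_div_of_pos ha (ha.trans_le hab), intervalIntegral.integral_of_le hab,
    integral_Ioc_eq_integral_Ioo, ofReal_integral_eq_lintegral_ofReal
      (hi.mono_set Ioo_subset_Icc_self)]
  filter_upwards [ae_restrict_mem measurableSet_Ioo] with x hx
  have := ha.trans hx.1
  positivity

/-- The transboundary length-area estimate. -/
theorem loewner (h : Pl S E k pr) (hQ : Stage E Q I) (e : Ends R pr Q I v t) {X : Set ι}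
    {α β : Set ℂ} {En : ℝ} (hT : PT E Q I X α β En) {Y : Set S2}
    (hY : ∀ i ∈ I, i ∈ X → closedBall (v i) (t i) ⊆ Y) :
    Lw Y (hat R pr Q I v t α) (hat R pr Q I v t β) (cst k * En) := by
  classical
  intro P ch hch c a b ha hab hj
  have hEn := hT.nonneg
  have hdis := hat_disjoint hQ e hT.disjoint
  obtain ⟨U, Lt, s, L, hL, hα, hβ, hm, hU, hE, hs, hsum⟩ := hT
  obtain ⟨ρ, hρ, hρE, hρU⟩ := energy R h hch hm hU hE
  have hJ : ∀ j ∈ I.filter (· ∉ X), j ∈ I ∧ j ∉ X := fun j hj => Finset.mem_filter.1 hj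
  obtain ⟨B, hBm, hB, hBs⟩ := cap_sum hch (I.filter (· ∉ X)) v t s
    (fun j hj => e.nonneg j (hJ j hj).1)
    (fun i hi j hj hij => e.disj i (hJ i hi).1 j (hJ j hj).1 hij)
    (fun j hj => ⟨(hs j (hJ j hj).1 (hJ j hj).2).1, (hs j (hJ j hj).1 (hJ j hj).2).2.1⟩) c ha hab
  have one : ∀ r ∈ Ioo a b, ENNReal.ofReal (1 / r) ≤
      ENNReal.ofReal (7 / 100) * ENNReal.ofReal (1 / r) + 25 * (ENNReal.ofReal r *
        ∫⁻ θ in Ioo (-Real.pi) Real.pi, ρ (circleMap c r θ)) +
      ∑ j ∈ I.filter (· ∉ X), ENNReal.ofReal (s j) *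
        (B j).indicator (fun r => ENNReal.ofReal (1 / r)) r := by
    intro r hr
    have hr0 : 0 < r := ha.trans hr.1
    obtain ⟨θ₁, θ₂, hθ, m1, m2, hav⟩ := hj r hr
    have hw : Continuous fun θ => ch (circleMap c r θ) := hch.cont.comp (continuous_circleMap c r)
    have hper : Function.Periodic (fun θ => ENNReal.ofReal (1 / 100) +
        ENNReal.ofReal (25 * r ^ 2) * ρ (circleMap c r θ)) (2 * Real.pi) := fun θ => by
      simp only [periodic_circleMap c r θ]
    have h1 : ENNReal.ofReal 1 ≤ (∫⁻ θ in Ioo (-Real.pi) Real.pi, (ENNReal.ofReal (1 / 100) +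
        ENNReal.ofReal (25 * r ^ 2) * ρ (circleMap c r θ))) + ENNReal.ofReal
        (∑ j ∈ (I.filter (· ∉ X)).filter
          (fun j => ∃ θ, ch (circleMap c r θ) ∈ closedBall (v j) (t j)), s j) := by
      rcases lt_trichotomy θ₁ θ₂ with hlt | heq | hlt
      · have := lw_arc h hQ e hL hα hβ (s := s)
          (fun i hi hX => ⟨(hs i hi hX).1, (hs i hi hX).2.2⟩) hY hw (hρU c r hr0) hlt m1 m2
          (fun θ hθ => hav θ (by rwa [uIcc_of_le hlt.le]))
        rw [sub_zero] at this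
        refine this.trans (add_le_add (lw_period hper ?_) ?_)
        · linarith [(abs_le.1 hθ).1]
        · convert le_rfl
      · subst heq
        exact absurd m2 (disjoint_left.1 hdis m1)
      · have := lw_arc h hQ e (U := fun z => -U z) hL.neg (p := 0) (q := -1)
          (fun z hz => neg_nonneg.2 (hβ z hz)) (fun z hz => neg_le_neg (hα z hz)) (s := s)
          (fun i hi hX => ⟨(hs i hi hX).1, fun x hx y hy => by
            linarith [(hs i hi hX).2.2 y hy x hx]⟩) hY hw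
          (fun x y f hxy hf => by
            rw [neg_sub_neg, abs_sub_comm]
            exact hρU c r hr0 x y f hxy hf) hlt m2 m1
          (fun θ hθ => hav θ (by rwa [uIcc_of_ge hlt.le]))
        rw [zero_sub, neg_neg] at this
        refine this.trans (add_le_add (lw_period hper ?_) ?_)
        · linarith [(abs_le.1 hθ).2]
        · convert le_rfl
    rw [lintegral_add_left measurable_const, lintegral_const_mul' _ _ ENNReal.ofReal_ne_top,
      setLIntegral_const, Real.volume_Ioo, ← ENNReal.ofReal_mul (by norm_num)] at h1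
    have h2 : ENNReal.ofReal (1 / 100 * (Real.pi - -Real.pi)) ≤ ENNReal.ofReal (7 / 100) :=
      ENNReal.ofReal_le_ofReal (by linarith [Real.pi_lt_d2])
    have h3 : ENNReal.ofReal (∑ j ∈ (I.filter (· ∉ X)).filter
        (fun j => ∃ θ, ch (circleMap c r θ) ∈ closedBall (v j) (t j)), s j) *
        ENNReal.ofReal (1 / r) ≤ ∑ j ∈ I.filter (· ∉ X), ENNReal.ofReal (s j) *
          (B j).indicator (fun r => ENNReal.ofReal (1 / r)) r := by
      rw [ENNReal.ofReal_sum_of_nonneg fun j hj =>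
        (hs j (hJ j (Finset.mem_filter.1 hj).1).1 (hJ j (Finset.mem_filter.1 hj).1).2).1,
        Finset.sum_mul]
      refine le_trans (Finset.sum_le_sum fun j hj => ?_)
        (Finset.sum_le_sum_of_subset (Finset.filter_subset
          (fun j => ∃ θ, ch (circleMap c r θ) ∈ closedBall (v j) (t j)) _))
      rw [indicator_of_mem (hB j (Finset.mem_filter.1 hj).1 r hr (Finset.mem_filter.1 hj).2)]
    have h4 : ENNReal.ofReal (25 * r ^ 2) * ENNReal.ofReal (1 / r) = 25 * ENNReal.ofReal r := by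
      rw [← ENNReal.ofReal_mul (by positivity), show 25 * r ^ 2 * (1 / r) = 25 * r by field_simp,
        ENNReal.ofReal_mul (by norm_num), ENNReal.ofReal_ofNat]
    have h5 := mul_le_mul_left h1 (ENNReal.ofReal (1 / r))
    rw [ENNReal.ofReal_one, one_mul, add_mul, add_mul, mul_right_comm (ENNReal.ofReal (25 * r ^ 2)),
      h4, mul_assoc 25] at h5
    exact h5.trans (add_le_add (add_le_add (mul_le_mul_left h2 _) le_rfl) h3)
  have hinv : Measurable fun r : ℝ => ENNReal.ofReal (1 / r) :=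
    ENNReal.measurable_ofReal.comp (measurable_const.div measurable_id)
  have two := setLIntegral_mono' (μ := volume) measurableSet_Ioo one
  rw [lintegral_add_right _ (Finset.measurable_sum _ fun j _ =>
      (hinv.indicator (hBm j)).const_mul _), lintegral_add_left (hinv.const_mul _),
    lintegral_const_mul _ hinv, lintegral_const_mul' 25 _ (by simp), lw_log ha hab,
    lintegral_finsetSum _ fun j _ => (hinv.indicator (hBm j)).const_mul _] at two
  have g1 : ∫⁻ r in Ioo a b, ENNReal.ofReal r *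
      ∫⁻ θ in Ioo (-Real.pi) Real.pi, ρ (circleMap c r θ) ≤
      ENNReal.ofReal (16384 * k ^ 2 * Real.exp k * En) :=
    ((lintegral_mono_set fun r hr => ha.trans hr.1).trans_eq (lw_polar hρ c)).trans hρE
  have g2 : ∑ j ∈ I.filter (· ∉ X), ∫⁻ r in Ioo a b, ENNReal.ofReal (s j) *
      (B j).indicator (fun r => ENNReal.ofReal (1 / r)) r ≤
      ENNReal.ofReal (Real.log (b / a) / 5 + 200 * ∑ j ∈ I.filter (· ∉ X), s j ^ 2) := by
    refine le_trans (Finset.sum_le_sum fun j _ => ?_) hBs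
    rw [lintegral_const_mul _ (hinv.indicator (hBm j)), ← lintegral_indicator (hBm j)]
    exact mul_le_mul_right (setLIntegral_le_lintegral _ _) _
  have g3 : ∑ j ∈ I.filter (· ∉ X), s j ^ 2 ≤ En :=
    (Finset.sum_le_sum_of_subset_of_nonneg (Finset.filter_subset _ _)
      fun _ _ _ => sq_nonneg _).trans hsum
  have g4 : 0 ≤ ∑ j ∈ I.filter (· ∉ X), s j ^ 2 := Finset.sum_nonneg fun _ _ => sq_nonneg _
  have g5 : 0 ≤ Real.log (b / a) := Real.log_nonneg ((one_le_div ha).2 hab)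
  have g6 : 1 ≤ k ^ 2 * Real.exp k :=
    one_le_mul_of_one_le_of_one_le (one_le_pow₀ h.one_le) (Real.one_le_exp (by linarith [h.one_le]))
  have g7 : En ≤ k ^ 2 * Real.exp k * En := le_mul_of_one_le_left hEn g6
  have three := two.trans (add_le_add (add_le_add le_rfl (mul_le_mul_right g1 25)) g2)
  rw [← ENNReal.ofReal_mul (by norm_num), ← ENNReal.ofReal_ofNat 25,
    ← ENNReal.ofReal_mul (by norm_num), ← ENNReal.ofReal_add (by positivity) (by positivity),
    ← ENNReal.ofReal_add (by positivity) (by positivity),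
    ENNReal.ofReal_le_ofReal_iff (by positivity)] at three
  unfold cst
  nlinarith

end Pool.Agent.Lib.MP_44acff_gt.EK
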