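import Pool.Agent.Lib.MP_44acff_gt.EK.LimB
import Pool.Agent.Lib.MP_44acff_gt.EK.Geo
import Pool.Agent.Lib.MP_44acff_gt.EK.Hy

open Set Metric Topology Filter MeasureTheory

namespace Pool.Agent.Lib.MP_44acff_gt.EK

theorem mn_outer (γ : ℝ) (m n : ℕ) : Qs γ (.inl false) ⊆ EE γ m n :=
  fun _ hz => mem_iUnion₂.2 ⟨.inl false, mem_Ix.2 (Or.inl ⟨false, rfl⟩), hz⟩

/-- The components of a finite disjoint union of closed connected sets. -/
theorem mn_comp {ι : Type} {E : Set ℂ} {Q : ι → Set ℂ} {I : Finset ι} (h : Stage E Q I)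
    (hc : ∀ i ∈ I, IsPreconnected (Q i)) {i : ι} (hi : i ∈ I) {z : ℂ} (hz : z ∈ Q i) :
    connectedComponentIn E z = Q i := by
  classical
  have hs : Q i ⊆ E := by rw [h.union]; exact subset_biUnion_of_mem (u := Q) hi
  refine subset_antisymm ?_ ((hc i hi).subset_connectedComponentIn hz hs)
  have hcl : IsClosed (⋃ j ∈ I.erase i, Q j) :=
    isClosed_biUnion_finset fun j hj => h.closed j (Finset.mem_of_mem_erase hj)
  have hcov : connectedComponentIn E z ⊆ Q i ∪ ⋃ j ∈ I.erase i, Q j := by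
    intro w hw
    have hw' := connectedComponentIn_subset E z hw
    rw [h.union] at hw'
    obtain ⟨j, hj, hwj⟩ := mem_iUnion₂.1 hw'
    by_cases e : j = i
    · exact Or.inl (e ▸ hwj)
    · exact Or.inr (mem_iUnion₂.2 ⟨j, Finset.mem_erase.2 ⟨e, hj⟩, hwj⟩)
  have hd : Disjoint (Q i) (⋃ j ∈ I.erase i, Q j) := by
    refine disjoint_iUnion₂_right.2 fun j hj => ?_
    exact h.disj i hi j (Finset.mem_of_mem_erase hj) (Finset.ne_of_mem_erase hj).symm
  rcases (isPreconnected_iff_subset_of_disjoint_closed.1 isPreconnected_connectedComponentIn) _ _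
    (h.closed i hi) hcl hcov (by rw [hd.inter_eq, inter_empty]) with h1 | h1
  · exact h1
  · exact absurd (h1 (mem_connectedComponentIn (hs hz))) (disjoint_left.1 hd hz)

theorem mn_round {Λ : Set S2} {v : Bool → S2} {t : Bool → ℝ} (h : Two Λ v t) : Round Λ := by
  intro u hu
  by_cases hb : ∃ b, u ∈ closedBall (v b) (t b)
  · obtain ⟨b, hb⟩ := hb
    exact ⟨v b, t b, (h.disc b u hb).2⟩
  · push Not at hb
    exact ⟨u, 0, by rw [h.point u hu hb, closedBall_zero]⟩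

theorem mn_par {c : ℝ} (hc : 0 < c) : ∃ (γ : ℝ) (m : ℕ), Gam γ ∧
    c * (112 * γ + 17 / 2 ^ m) ≤ 1 / 10 ∧
    10 * (c * (112 * γ + 17 / 2 ^ m)) * Real.exp (c * (144 * 2 ^ 0)) < 1 := by
  set X := Real.exp (c * (144 * 2 ^ 0)) with hX
  have hX1 : 1 ≤ X := Real.one_le_exp (by positivity)
  set δ := 1 / (20 * c * X) with hδ
  have hδ0 : 0 < δ := by positivity
  obtain ⟨m, hm⟩ := exists_pow_lt_of_lt_one (show 0 < δ / 34 by positivity)
    (show (1 / 2 : ℝ) < 1 by norm_num)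
  have hm' : 17 / 2 ^ m ≤ δ / 2 := by
    rw [one_div, inv_pow] at hm
    rw [div_eq_mul_inv]; linarith
  have hg : 112 * min (1 / 100) (δ / 224) ≤ δ / 2 := by
    linarith [min_le_right (1 / 100 : ℝ) (δ / 224)]
  have h1 : c * (112 * min (1 / 100) (δ / 224) + 17 / 2 ^ m) ≤ c * δ :=
    mul_le_mul_of_nonneg_left (by linarith) hc.le
  have h2 : c * δ * X = 1 / 20 := by rw [hδ]; field_simp
  have h3 : c * δ ≤ 1 / 20 := by nlinarith [mul_pos hc hδ0]
  refine ⟨min (1 / 100) (δ / 224), m, ⟨lt_min (by norm_num) (by positivity), min_le_left _ _⟩,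
    by linarith, ?_⟩
  nlinarith [mul_le_mul_of_nonneg_right h1 (show 0 ≤ X by linarith)]

/-- The limit of the realisations of one approximating sequence. -/
theorem mn_lim {γ k s : ℝ} (h : Gam γ) (hs : 0 < s) (m : ℕ) {lam : ℕ → ℂ → ℝ} {lami : ℂ → ℝ}
    (hx : ∀ n, Extr (EE γ m (n + 2)) (lam n)) (hxi : Extr (Einf γ) lami)
    (hD : ∀ n, Dat (EE γ m (n + 2)) (fun z => lam n z / s) k)
    (hT : Dat (Einf γ) (fun z => lami z / s) k)
    (hR : ∀ n, ∃ Γ, CircleDomain Γ ∧ Realises (EE γ m (n + 2))ᶜ (fun z => lam n z / s) Γ) :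
    ∃ (R : Realis (Sf hT)) (v : Bool → S2) (t : Bool → ℝ), IsConnected (idealS R.C)ᶜ ∧
      Two (idealS R.C) v t ∧ Close v t (cst k * (144 * 2 ^ m)) ∧
      Far v t (cst k * (112 * γ + 17 / 2 ^ m)) := by
  have G := geo h m
  have hsub : ∀ n, Einf γ ⊆ EE γ m (n + 2) := G.sub
  have hdis : ∀ K : Set ℂ, IsCompact K → K ⊆ (Einf γ)ᶜ →
      ∀ᶠ n in atTop, Disjoint K (EE γ m (n + 2)) := by
    intro K hK hK'
    obtain ⟨η, hη, he⟩ := G.exh K hK hK'
    filter_upwards [he] with n hn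
    refine disjoint_left.2 fun z hz hz' => ?_
    have := hn z hz
    rw [infDist_zero_of_mem hz'] at this
    linarith
  obtain ⟨ap, o, ho, cx⟩ := exists_cx (lam := fun n z => lam n z / s) hD hT hsub G.exh
    (fun n z hz => div_le_div_of_nonneg_right (hxi.mono (hx n) (hsub n) hz) hs.le)
    (fun z hz => (Extr.tendsto hx hxi hsub hdis hz).div_const s) G.onot
    (Filter.hyperfilter ℕ) (by rw [← Nat.cofinite_eq_atTop]; exact hyperfilter_le_cofinite)
  choose Γ hΓ hΓ' using hR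
  choose R₀ hR₀ using fun n => exists_realis (hD n) (hΓ n) (hΓ' n)
  rw [← ho] at G
  exact limit cx G R₀ hR₀

theorem main (K : ℝ) (hK : K < 0) : ∃ (Ω : Set ℂ) (lam : ℂ → ℝ), CompleteSurface K Ω lam ∧
    ((Bornology.IsBounded Ω ∧ (connectedComponentIn Ωᶜ '' Ωᶜ).Finite ∧
      (∀ z ∈ Ωᶜ, (connectedComponentIn Ωᶜ z).Nontrivial) ∧
      ∀ Γ, CircleDomain Γ → ¬ Realises Ω lam Γ) ∨
    ∃ Γ₁ Γ₂ : Set (OnePoint ℂ), CircleDomain Γ₁ ∧ CircleDomain Γ₂ ∧ Realises Ω lam Γ₁ ∧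
      Realises Ω lam Γ₂ ∧ ¬ MobEquiv Γ₁ Γ₂) := by
  obtain ⟨k, hk⟩ := exists_dat hK (show (0 : ℝ) < 1 / 10 ^ 5 by norm_num)
  have hs : 0 < √(-K) := Real.sqrt_pos.2 (by linarith)
  have hst : ∀ γ, Gam γ → ∀ m n, ∃ lam : ℂ → ℝ, Extr (EE γ m (n + 2)) lam ∧
      CompleteSurface K (EE γ m (n + 2))ᶜ (fun z => lam z / √(-K)) ∧
      Dat (EE γ m (n + 2)) (fun z => lam z / √(-K)) k := fun γ h m n =>
    hk _ (isClosed_EE γ m _) (isBounded_compl (mn_outer γ m _)) (fat_EE h (by omega))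
      (infDist_le_one h (mn_outer γ m _)) (isConnected_compl_EE h (by omega))
  have hk1 : 1 ≤ k := by
    obtain ⟨_, -, -, hD⟩ := hst (1 / 100) ⟨by norm_num, le_rfl⟩ 0 0
    exact hD.one_le
  have hc : 0 < cst k := by unfold cst; positivity
  obtain ⟨γ, m, h, e1, e2⟩ := mn_par hc
  choose lam hx hS hD using hst γ h
  by_cases hall : ∀ m n, ∃ Γ, CircleDomain Γ ∧
      Realises (EE γ m (n + 2))ᶜ (fun z => lam m n z / √(-K)) Γ
  · obtain ⟨lami, hxi, hSi, hT⟩ := hk _ (isClosed_Einf γ) (isBounded_compl (outer_subset_Einf γ))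
      (fat_Einf h) (infDist_le_one h (outer_subset_Einf γ)) (isConnected_compl_Einf h)
    obtain ⟨R₁, v₁, t₁, c₁, w₁, hcl, -⟩ := mn_lim h hs 0 (hx 0) hxi (hD 0) hT (hall 0)
    obtain ⟨R₂, v₂, t₂, c₂, w₂, -, hfar⟩ := mn_lim h hs m (hx m) hxi (hD m) hT (hall m)
    obtain ⟨a₁, b₁⟩ := realises_of R₁ (mn_round w₁) c₁
      (idealS_frontier R₁.closed R₁.convex (R₁.int.mono interior_subset))
    obtain ⟨a₂, b₂⟩ := realises_of R₂ (mn_round w₂) c₂
      (idealS_frontier R₂.closed R₂.convex (R₂.int.mono interior_subset))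
    refine ⟨_, _, hSi, Or.inr ⟨_, _, a₁, a₂, b₁, b₂, fun hM => ?_⟩⟩
    obtain ⟨G, hG, μ, hμ, hd⟩ := hM.exists_homeomorph
    have hsurj := isHomeomorph_stS.surjective
    rw [image_preimage_eq _ hsurj, image_preimage_eq _ hsurj, G.image_compl, compl_inj_iff] at hG
    exact not_equiv w₁ w₂ hcl hfar e1 e2 G hG hμ hd
  · push Not at hall
    obtain ⟨m', n, hn⟩ := hall
    have st := stage_EE (m := m') h (show 2 ≤ n + 2 by omega)
    have hq := fun i (hi : i ∈ Ix γ m' (n + 2)) => Qs_conn h hi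
    have hcomp : ∀ z ∈ EE γ m' (n + 2), ∃ i ∈ Ix γ m' (n + 2),
        connectedComponentIn (EE γ m' (n + 2)) z = Qs γ i := by
      intro z hz
      obtain ⟨i, hi, hzi⟩ := mem_iUnion₂.1 hz
      exact ⟨i, hi, mn_comp st (fun j hj => (hq j hj).1) hi hzi⟩
    refine ⟨_, _, hS m' n, Or.inl ⟨st.bdd, ?_, ?_, hn⟩⟩
    · rw [compl_compl]
      refine ((Ix γ m' (n + 2)).finite_toSet.image (Qs γ)).subset ?_
      rintro _ ⟨z, hz, rfl⟩
      obtain ⟨i, hi, e⟩ := hcomp z hz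
      exact ⟨i, hi, e.symm⟩
    · rw [compl_compl]
      intro z hz
      obtain ⟨i, hi, e⟩ := hcomp z hz
      rw [e]; exact (hq i hi).2

end Pool.Agent.Lib.MP_44acff_gt.EK
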