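import Pool.Agent.Lib.MP_44acff_gt.EK.B

open Set Metric Topology Filter MeasureTheory

namespace Pool.Agent.Lib.MP_44acff_gt.EK

variable {Ω E : Set ℂ} {lam : ℂ → ℝ} {k : ℝ}

theorem met_le {γ : ℝ → ℂ} (hγ : ContDiff ℝ 1 γ) (hm : MapsTo γ (Icc 0 1) Ω) {x y : ℂ}
    (h0 : γ 0 = x) (h1 : γ 1 = y) :
    lamDist Ω lam x y ≤ ∫⁻ s in Ioo (0 : ℝ) 1, ENNReal.ofReal (lam (γ s) * ‖deriv γ s‖) :=
  iInf_le_of_le γ (iInf_le_of_le hγ (iInf_le_of_le hm (iInf_le_of_le h0 (iInf_le _ h1))))

theorem met_pt {γ : ℝ → ℂ} (hγ : ContDiff ℝ 1 γ) {f : ℝ → ℝ} {f' t : ℝ} (hf : HasDerivAt f f' t) :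
    ENNReal.ofReal (lam (γ (f t)) * ‖deriv (fun s => γ (f s)) t‖) =
      ENNReal.ofReal |f'| * ENNReal.ofReal (lam (γ (f t)) * ‖deriv γ (f t)‖) := by
  have h1 : HasDerivAt (fun s => γ (f s)) (f' • deriv γ (f t)) t :=
    ((hγ.differentiable one_ne_zero) (f t)).hasDerivAt.scomp t hf
  rw [h1.deriv, norm_smul, ← ENNReal.ofReal_mul (abs_nonneg _), Real.norm_eq_abs]
  congr 1
  ring

theorem met_rep {γ : ℝ → ℂ} (hγ : ContDiff ℝ 1 γ) {f : ℝ → ℝ} (hf : Differentiable ℝ f)
    (hm : Monotone f) {s : Set ℝ} (hs : MeasurableSet s) {a b : ℝ} (hab : MapsTo f s (Icc a b)) :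
    ∫⁻ t in s, ENNReal.ofReal (lam (γ (f t)) * ‖deriv (fun s => γ (f s)) t‖) ≤
      ∫⁻ t in Ioo a b, ENNReal.ofReal (lam (γ t) * ‖deriv γ t‖) := by
  rw [setLIntegral_congr Ioo_ae_eq_Icc]
  refine le_trans (le_of_eq ?_) (lintegral_mono_set hab.image_subset)
  rw [lintegral_image_eq_lintegral_deriv_mul_of_monotoneOn hs
    (fun x _ => (hf x).hasDerivAt.hasDerivWithinAt) (hm.monotoneOn s)]
  refine lintegral_congr fun t => ?_
  rw [met_pt hγ (hf t).hasDerivAt, abs_of_nonneg hm.deriv_nonneg]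

theorem lamDist_self {x : ℂ} (hx : x ∈ Ω) : lamDist Ω lam x x = 0 := by
  refine le_antisymm ((met_le (γ := fun _ => x) contDiff_const (fun _ _ => hx) rfl rfl).trans ?_)
    bot_le
  simp

theorem lamDist_comm (x y : ℂ) : lamDist Ω lam x y = lamDist Ω lam y x := by
  have key : ∀ x y : ℂ, lamDist Ω lam x y ≤ lamDist Ω lam y x := fun x y => by
    refine le_iInf fun γ => le_iInf fun hγ => le_iInf fun hm => le_iInf fun h0 =>
      le_iInf fun h1 => ?_
    refine (met_le (γ := fun t => γ (1 - t)) (hγ.comp (contDiff_const.sub contDiff_id))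
      (fun t ht => hm ⟨by linarith [ht.2], by linarith [ht.1]⟩) (by simpa using h1)
      (by simpa using h0)).trans (le_of_eq ?_)
    have hd : ∀ t : ℝ, HasDerivAt (fun s : ℝ => 1 - s) (-1) t := fun t =>
      (hasDerivAt_id t).const_sub 1
    have h2 := lintegral_image_eq_lintegral_abs_deriv_mul (s := Ioo (0 : ℝ) 1) measurableSet_Ioo
      (fun t _ => (hd t).hasDerivWithinAt) (sub_right_injective.injOn)
      fun t => ENNReal.ofReal (lam (γ t) * ‖deriv γ t‖)
    rw [image_const_sub_Ioo, sub_self, sub_zero] at h2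
    rw [h2]
    exact lintegral_congr fun t => met_pt hγ (hd t)
  exact le_antisymm (key x y) (key y x)

theorem lamDist_triangle (x y z : ℂ) :
    lamDist Ω lam x z ≤ lamDist Ω lam x y + lamDist Ω lam y z := by
  conv_rhs => unfold lamDist
  simp only [ENNReal.iInf_add, le_iInf_iff]
  intro γ hγ hm h0 h1
  simp only [ENNReal.add_iInf, le_iInf_iff]
  intro δ hδ hm' h0' h1'
  have hs : ContDiff ℝ 1 Real.smoothTransition := Real.smoothTransition.contDiff
  have c1 : ContDiff ℝ 1 fun t : ℝ => Real.smoothTransition (2 * t) :=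
    hs.comp (contDiff_const.mul contDiff_id)
  have c2 : ContDiff ℝ 1 fun t : ℝ => Real.smoothTransition (2 * t - 1) :=
    hs.comp ((contDiff_const.mul contDiff_id).sub contDiff_const)
  have m : ∀ t, Real.smoothTransition t ∈ Icc (0 : ℝ) 1 := fun t =>
    ⟨Real.smoothTransition.nonneg t, Real.smoothTransition.le_one t⟩
  set c : ℝ → ℂ := fun t => γ (Real.smoothTransition (2 * t)) +
    δ (Real.smoothTransition (2 * t - 1)) - y with hc
  have e1 : ∀ t, t ≤ 1 / 2 → c t = γ (Real.smoothTransition (2 * t)) := fun t ht => by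
    simp only [hc]
    rw [Real.smoothTransition.zero_of_nonpos (by linarith : 2 * t - 1 ≤ 0), h0']
    ring
  have e2 : ∀ t, 1 / 2 ≤ t → c t = δ (Real.smoothTransition (2 * t - 1)) := fun t ht => by
    simp only [hc]
    rw [Real.smoothTransition.one_of_one_le (by linarith : 1 ≤ 2 * t), h1]
    ring
  refine (met_le (γ := c) (((hγ.comp c1).add (hδ.comp c2)).sub contDiff_const) (fun t _ => ?_)
    ?_ ?_).trans ?_
  · rcases le_total t (1 / 2) with h | h
    · rw [e1 t h]; exact hm (m _)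
    · rw [e2 t h]; exact hm' (m _)
  · rw [e1 0 (by norm_num), mul_zero, Real.smoothTransition.zero, h0]
  · rw [e2 1 (by norm_num), Real.smoothTransition.one_of_one_le (by norm_num), h1']
  have hsub : Ioo (0 : ℝ) 1 ⊆ Ioo 0 (1 / 2) ∪ Ico (1 / 2) 1 := fun t ht => by
    rcases lt_or_ge t (1 / 2) with h | h
    exacts [Or.inl ⟨ht.1, h⟩, Or.inr ⟨h, ht.2⟩]
  refine ((lintegral_mono_set hsub).trans (lintegral_union_le _ _ _)).trans (add_le_add ?_ ?_)
  · refine le_trans (le_of_eq (setLIntegral_congr_fun measurableSet_Ioo fun t ht => ?_))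
      (met_rep hγ (c1.differentiable one_ne_zero)
        (fun a b hab => Real.smoothTransition.monotone (by linarith)) measurableSet_Ioo
        fun t _ => m _)
    have h2 : c =ᶠ[𝓝 t] fun t => γ (Real.smoothTransition (2 * t)) :=
      (eventually_lt_nhds ht.2).mono fun s hs => e1 s hs.le
    simp only [h2.deriv_eq, e1 t ht.2.le]
  · rw [← setLIntegral_congr Ioo_ae_eq_Ico]
    refine le_trans (le_of_eq (setLIntegral_congr_fun measurableSet_Ioo fun t ht => ?_))
      (met_rep hδ (c2.differentiable one_ne_zero)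
        (fun a b hab => Real.smoothTransition.monotone (by linarith)) measurableSet_Ioo
        fun t _ => m _)
    have h2 : c =ᶠ[𝓝 t] fun t => δ (Real.smoothTransition (2 * t - 1)) :=
      (eventually_gt_nhds ht.1).mono fun s hs => e2 s hs.le
    simp only [h2.deriv_eq, e2 t ht.1.le]

theorem lamDist_mono {Ω' : Set ℂ} {lam' : ℂ → ℝ} (h : Ω' ⊆ Ω) (h' : ∀ z ∈ Ω', lam z ≤ lam' z)
    (x y : ℂ) : lamDist Ω lam x y ≤ lamDist Ω' lam' x y := by
  refine le_iInf fun γ => le_iInf fun hγ => le_iInf fun hm => le_iInf fun h0 =>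
    le_iInf fun h1 => (met_le hγ (hm.mono_right h) h0 h1).trans ?_
  exact setLIntegral_mono' measurableSet_Ioo fun t ht => ENNReal.ofReal_le_ofReal
    (mul_le_mul_of_nonneg_right (h' _ (hm (Ioo_subset_Icc_self ht))) (norm_nonneg _))

/-- Parts of a curve. -/
theorem lamDist_le_part {γ : ℝ → ℂ} (hγ : ContDiff ℝ 1 γ) {a b : ℝ} (hab : a ≤ b)
    (hm : MapsTo γ (Icc a b) Ω) : lamDist Ω lam (γ a) (γ b) ≤
      ∫⁻ s in Ioo a b, ENNReal.ofReal (lam (γ s) * ‖deriv γ s‖) := by
  have c : ContDiff ℝ 1 fun t : ℝ => a + t * (b - a) :=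
    contDiff_const.add (contDiff_id.mul contDiff_const)
  have m : ∀ t ∈ Icc (0 : ℝ) 1, a + t * (b - a) ∈ Icc a b := fun t ht =>
    ⟨by nlinarith [ht.1], by nlinarith [ht.2]⟩
  exact (met_le (γ := fun t => γ (a + t * (b - a))) (hγ.comp c) (fun t ht => hm (m t ht))
    (by simp) (by simp)).trans (met_rep hγ (c.differentiable one_ne_zero)
      (fun s t hst => by dsimp only; nlinarith) measurableSet_Ioo
      fun t ht => m t (Ioo_subset_Icc_self ht))

theorem Dat.met_pos (h : Dat E lam k) {x : ℂ} (hx : x ∉ E) : 0 < infDist x E :=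
  (h.closed.notMem_iff_infDist_pos h.ne).1 hx

theorem Dat.lamDist_le (h : Dat E lam k) {x y : ℂ} (hx : x ∉ E)
    (hy : ‖y - x‖ ≤ infDist x E / 2) :
    lamDist Eᶜ lam x y ≤ ENNReal.ofReal (k * ‖y - x‖ / infDist x E) := by
  have hd := h.met_pos hx
  have hk : 0 ≤ k := zero_le_one.trans h.one_le
  have hD : ∀ t : ℝ, HasDerivAt (fun s : ℝ => x + s • (y - x)) (y - x) t := fun t => by
    simpa using ((hasDerivAt_id t).smul_const (y - x)).const_add x
  have h1 : ∀ t ∈ Icc (0 : ℝ) 1, infDist x E / 2 ≤ infDist (x + t • (y - x)) E := fun t ht => by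
    have h2 := infDist_le_infDist_add_dist (s := E) (x := x) (y := x + t • (y - x))
    have h3 : dist x (x + t • (y - x)) ≤ ‖y - x‖ := by
      rw [dist_self_add_right, norm_smul, Real.norm_eq_abs, abs_of_nonneg ht.1]
      exact mul_le_of_le_one_left (norm_nonneg _) ht.2
    linarith
  have h2 : ∀ t ∈ Icc (0 : ℝ) 1, x + t • (y - x) ∉ E := fun t ht he => by
    have := h1 t ht
    rw [infDist_zero_of_mem he] at this
    linarith
  refine (met_le (Ω := Eᶜ) (γ := fun t : ℝ => x + t • (y - x))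
    (contDiff_const.add (contDiff_id.smul contDiff_const)) (fun t ht => h2 t ht) (by simp)
    (by simp)).trans ?_
  refine (setLIntegral_mono' (g := fun _ => ENNReal.ofReal (k * ‖y - x‖ / infDist x E))
    measurableSet_Ioo fun t ht => ENNReal.ofReal_le_ofReal ?_).trans (by simp)
  have h3 := Ioo_subset_Icc_self ht
  rw [(hD t).deriv, mul_div_right_comm]
  refine mul_le_mul_of_nonneg_right ((h.up _ (h2 t h3)).trans ?_) (norm_nonneg _)
  exact div_le_div_of_nonneg_left hk hd (by linarith [h1 t h3])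

theorem Dat.lamDist_ne_top (h : Dat E lam k) {x y : ℂ} (hx : x ∉ E) (hy : y ∉ E) :
    lamDist Eᶜ lam x y ≠ ⊤ := by
  refine h.conn.isPreconnected.induction₂ (fun x y => lamDist Eᶜ lam x y ≠ ⊤) (fun x hx => ?_)
    (fun x y z _ _ _ h1 h2 => ne_top_of_le_ne_top (ENNReal.add_ne_top.2 ⟨h1, h2⟩)
      (lamDist_triangle x y z)) (fun x y _ _ h1 => by rwa [lamDist_comm]) hx hy
  refine mem_nhdsWithin_of_mem_nhds (mem_of_superset
    (closedBall_mem_nhds x (half_pos (h.met_pos hx))) fun y hy => ?_)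
  exact ne_top_of_le_ne_top ENNReal.ofReal_ne_top (h.lamDist_le hx (mem_closedBall_iff_norm.1 hy))

theorem Dat.le_lamDist (h : Dat E lam k) {x y : ℂ} (hx : x ∉ E) (hy : y ∉ E) :
    ‖y - x‖ ≤ infDist x E * (Real.exp (k * (lamDist Eᶜ lam x y).toReal) - 1) := by
  have hd := h.met_pos hx
  have hk : 0 < k := zero_lt_one.trans_le h.one_le
  have key : ENNReal.ofReal ((Real.log (infDist x E + ‖y - x‖) - Real.log (infDist x E)) / k) ≤
      lamDist Eᶜ lam x y := by
    refine le_iInf fun γ => le_iInf fun hγ => le_iInf fun hm => le_iInf fun h0 =>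
      le_iInf fun h1 => ?_
    have hc : Continuous (deriv γ) := hγ.continuous_deriv le_rfl
    set l : ℝ → ℝ := fun t => ∫ s in (0 : ℝ)..t, ‖deriv γ s‖ with hl
    have l1 : ∀ t, HasDerivAt l ‖deriv γ t‖ t := fun t =>
      (hc.norm.integral_hasStrictDerivAt 0 t).hasDerivAt
    have l2 : ∀ t, 0 ≤ t → ‖γ t - x‖ ≤ l t := fun t ht => by
      rw [← h0, ← intervalIntegral.integral_deriv_eq_sub
        (fun s _ => hγ.differentiable one_ne_zero s) (hc.intervalIntegrable _ _)]
      exact intervalIntegral.norm_integral_le_integral_norm ht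
    have l3 : ∀ t, 0 ≤ t → 0 < infDist x E + l t := fun t ht => by
      linarith [l2 t ht, norm_nonneg (γ t - x)]
    have l4 : Continuous l := continuous_iff_continuousAt.2 fun t => (l1 t).continuousAt
    have l5 : ContinuousOn (fun t => ‖deriv γ t‖ / (infDist x E + l t) / k) (Icc 0 1) :=
      (hc.norm.continuousOn.div (continuous_const.add l4).continuousOn
        fun t ht => (l3 t ht.1).ne').div_const k
    have l6 : ∫ t in (0 : ℝ)..1, ‖deriv γ t‖ / (infDist x E + l t) / k =
        Real.log (infDist x E + l 1) / k - Real.log (infDist x E + l 0) / k := by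
      refine intervalIntegral.integral_eq_sub_of_hasDerivAt
        (f := fun t => Real.log (infDist x E + l t) / k) (fun t ht => ?_)
        (l5.intervalIntegrable_of_Icc zero_le_one)
      rw [uIcc_of_le zero_le_one] at ht
      exact (((l1 t).const_add _).log (l3 t ht.1).ne').div_const k
    have l7 : l 0 = 0 := by simp [hl]
    have l8 : (Real.log (infDist x E + ‖y - x‖) - Real.log (infDist x E)) / k ≤
        ∫ t in Ioo (0 : ℝ) 1, ‖deriv γ t‖ / (infDist x E + l t) / k := by
      rw [← integral_Ioc_eq_integral_Ioo, ← intervalIntegral.integral_of_le zero_le_one, l6, l7,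
        add_zero, ← sub_div]
      refine div_le_div_of_nonneg_right (sub_le_sub_right (Real.log_le_log (by positivity) ?_) _)
        hk.le
      have := l2 1 zero_le_one
      rw [h1] at this
      linarith
    refine (ENNReal.ofReal_le_ofReal l8).trans ?_
    rw [ofReal_integral_eq_lintegral_ofReal
      ((l5.integrableOn_compact isCompact_Icc).mono_set Ioo_subset_Icc_self)
      ((ae_restrict_iff' measurableSet_Ioo).2 (Eventually.of_forall fun t ht =>
        div_nonneg (div_nonneg (norm_nonneg _) (l3 t ht.1.le).le) hk.le))]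
    refine setLIntegral_mono' measurableSet_Ioo fun t ht => ENNReal.ofReal_le_ofReal ?_
    have h2 : γ t ∉ E := hm (Ioo_subset_Icc_self ht)
    have h3 := h.met_pos h2
    have h4 : infDist (γ t) E ≤ infDist x E + l t := by
      have := infDist_le_infDist_add_dist (s := E) (x := γ t) (y := x)
      rw [dist_eq_norm] at this
      linarith [l2 t ht.1.le]
    refine le_trans ?_ (mul_le_mul_of_nonneg_right (h.low _ h2) (norm_nonneg _))
    rw [div_div, one_div_mul_eq_div, mul_comm k]
    exact div_le_div_of_nonneg_left (norm_nonneg _) (by positivity)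
      (mul_le_mul_of_nonneg_right h4 hk.le)
  have h1 := (ENNReal.ofReal_le_iff_le_toReal (h.lamDist_ne_top hx hy)).1 key
  rw [div_le_iff₀' hk, sub_le_iff_le_add, Real.log_le_iff_le_exp (by positivity), Real.exp_add,
    Real.exp_log hd] at h1
  linarith

/-- The surface as a metric space. -/
def Sf (_h : Dat E lam k) : Type := {z : ℂ // z ∉ E}

/-- The underlying point of the plane. -/
def Sf.pt {h : Dat E lam k} (x : Sf h) : ℂ := Subtype.val x

theorem Sf.notMem {h : Dat E lam k} (x : Sf h) : x.pt ∉ E := Subtype.property x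

/-- A point of the surface. -/
def Sf.mk (h : Dat E lam k) (z : ℂ) (hz : z ∉ E) : Sf h := Subtype.mk z hz

noncomputable instance (h : Dat E lam k) : MetricSpace (Sf h) where
  dist x y := (lamDist Eᶜ lam x.pt y.pt).toReal
  dist_self x := by rw [lamDist_self x.notMem]; rfl
  dist_comm x y := by rw [lamDist_comm]
  dist_triangle x y z := by
    rw [← ENNReal.toReal_add (h.lamDist_ne_top x.notMem y.notMem)
      (h.lamDist_ne_top y.notMem z.notMem)]
    exact ENNReal.toReal_mono (ENNReal.add_ne_top.2 ⟨h.lamDist_ne_top x.notMem y.notMem,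
      h.lamDist_ne_top y.notMem z.notMem⟩) (lamDist_triangle _ _ _)
  eq_of_dist_eq_zero := fun {x y} e => by
    have := h.le_lamDist x.notMem y.notMem
    rw [e] at this
    simp only [mul_zero, Real.exp_zero, sub_self, norm_le_zero_iff, sub_eq_zero] at this
    exact Subtype.ext this.symm

theorem Sf.edist_eq {h : Dat E lam k} (x y : Sf h) : edist x y = lamDist Eᶜ lam x.pt y.pt := by
  rw [edist_dist]
  exact ENNReal.ofReal_toReal (h.lamDist_ne_top x.notMem y.notMem)

theorem Dat.pl (h : Dat E lam k) : Pl (Sf h) E k Sf.pt := by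
  refine ⟨h.closed, h.ne, h.bdd, h.one_le, fun x y e => Subtype.ext e, ?_, fun x y hy => ?_,
    fun x y => h.le_lamDist x.notMem y.notMem⟩
  · ext z
    exact ⟨fun ⟨x, hx⟩ => hx ▸ x.notMem, fun hz => ⟨Sf.mk h z hz, rfl⟩⟩
  · exact ENNReal.toReal_le_of_le_ofReal (div_nonneg (mul_nonneg (zero_le_one.trans h.one_le)
      (norm_nonneg _)) infDist_nonneg) (h.lamDist_le x.notMem hy)

theorem Dat.len (h : Dat E lam k) (x y : Sf h) : pathDist univ x y ≤ edist x y := by
  classical
  rw [Sf.edist_eq]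
  refine le_iInf fun γ => le_iInf fun hγ => le_iInf fun hm => le_iInf fun h0 =>
    le_iInf fun h1 => ?_
  let c : ℝ → Sf h := fun t => if ht : γ t ∉ E then Sf.mk h (γ t) ht else x
  have e : ∀ t ∈ Icc (0 : ℝ) 1, (c t).pt = γ t := fun t ht => by
    have h2 : γ t ∉ E := hm ht
    simp only [c, dif_pos h2]
    rfl
  have e0 : c 0 = x := h.pl.inj ((e 0 (by simp)).trans h0)
  have e1 : c 1 = y := h.pl.inj ((e 1 (by simp)).trans h1)
  have hc : ContinuousOn c (Icc 0 1) := fun t ht => by
    have hd := h.met_pos (hm ht)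
    have h2 : Tendsto (fun s => ‖γ s - γ t‖) (𝓝[Icc 0 1] t) (𝓝 0) :=
      tendsto_iff_norm_sub_tendsto_zero.1 hγ.continuous.continuousWithinAt
    rw [ContinuousWithinAt, tendsto_iff_dist_tendsto_zero]
    refine squeeze_zero' (g := fun s => k * ‖γ s - γ t‖ / infDist (γ t) E)
      (Eventually.of_forall fun _ => dist_nonneg) ?_
      (by simpa using (h2.const_mul k).div_const (infDist (γ t) E))
    filter_upwards [h2.eventually (ge_mem_nhds (half_pos hd)), self_mem_nhdsWithin] with s hs hs'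
    have := h.pl.up (c t) (c s) (by rwa [e t ht, e s hs'])
    rwa [e t ht, e s hs', dist_comm] at this
  have h2 := pathDist_le_var (A := univ) zero_le_one hc (mapsTo_univ _ _)
  rw [e0, e1] at h2
  refine h2.trans (iSup_le ?_)
  rintro ⟨n, u, hu, hu'⟩
  have key : ∀ n, ∑ i ∈ Finset.range n, edist (c (u (i + 1))) (c (u i)) ≤
      ∫⁻ s in Ioo (u 0) (u n), ENNReal.ofReal (lam (γ s) * ‖deriv γ s‖) := fun n => by
    induction n with
    | zero => simp
    | succ n ih =>
      have h3 : edist (c (u (n + 1))) (c (u n)) ≤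
          ∫⁻ s in Ioo (u n) (u (n + 1)), ENNReal.ofReal (lam (γ s) * ‖deriv γ s‖) := by
        rw [edist_comm, Sf.edist_eq, e _ (hu' _), e _ (hu' _)]
        exact lamDist_le_part hγ (hu n.le_succ)
          (hm.mono_left (Icc_subset_Icc (hu' _).1 (hu' _).2))
      rw [Finset.sum_range_succ]
      refine (add_le_add ih h3).trans ?_
      rw [← lintegral_union measurableSet_Ioo
        (disjoint_left.2 fun s h4 h5 => lt_asymm h4.2 h5.1)]
      exact lintegral_mono_set (union_subset (Ioo_subset_Ioo_right (hu n.le_succ))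
        (Ioo_subset_Ioo_left (hu n.zero_le)))
  exact (key n).trans (lintegral_mono_set (Ioo_subset_Ioo (hu' _).1 (hu' _).2))

end Pool.Agent.Lib.MP_44acff_gt.EK
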