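import Pool.Agent.Lib.MP_44acff_gt.EK.Gm

open Set Metric Topology Filter MeasureTheory

namespace Pool.Agent.Lib.MP_44acff_gt.EK

theorem top_corner {W : Set ℂ} (hW : IsOpen W) {p : ℂ} (hp : p ∈ W) (d : ℂ) :
    ∃ t : ℝ, 0 < t ∧ p + t * d ∈ W := by
  have hc : Continuous fun t : ℝ => p + t * d := by fun_prop
  have h1 : ∀ᶠ t : ℝ in 𝓝 0, p + t * d ∈ W :=
    hc.continuousAt.eventually (hW.mem_nhds (by simpa using hp))
  have h2 : ∀ᶠ t : ℝ in 𝓝[>] 0, 0 < t ∧ p + t * d ∈ W :=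
    (eventually_mem_nhdsWithin).and (h1.filter_mono nhdsWithin_le_nhds)
  exact h2.exists

/-- A convex open set minus a rectangle is connected. -/
theorem isConnected_diff_box {W : Set ℂ} (hW : IsOpen W) (hc : Convex ℝ W) {x : R4}
    (h1 : x.1 ≤ x.2.1) (h2 : x.2.2.1 ≤ x.2.2.2) (hx : box x ⊆ W) : IsConnected (W \ box x) := by
  obtain ⟨a, b, c, d⟩ := x
  simp only at h1 h2
  have e : W \ box (a, b, c, d) = W ∩ {z : ℂ | z.re < a} ∪ (W ∩ {z : ℂ | z.im < c} ∪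
      (W ∩ {z : ℂ | b < z.re} ∪ W ∩ {z : ℂ | d < z.im})) := by
    ext z
    simp only [box, Set.mem_sdiff, mem_ofPred_eq, mem_Icc, mem_union, mem_inter_iff, not_and_or,
      not_le]
    tauto
  obtain ⟨t1, p1, q1⟩ := top_corner hW (hx (a := ⟨a, c⟩) ⟨⟨le_rfl, h1⟩, le_rfl, h2⟩) ⟨-1, -1⟩
  obtain ⟨t2, p2, q2⟩ := top_corner hW (hx (a := ⟨b, c⟩) ⟨⟨h1, le_rfl⟩, le_rfl, h2⟩) ⟨1, -1⟩
  obtain ⟨t3, p3, q3⟩ := top_corner hW (hx (a := ⟨b, d⟩) ⟨⟨h1, le_rfl⟩, h2, le_rfl⟩) ⟨1, 1⟩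
  rw [e]
  refine ⟨⟨_, Or.inl ⟨q1, by simpa using p1⟩⟩, ?_⟩
  refine IsPreconnected.union _ ⟨q1, by simpa using p1⟩ (Or.inl ⟨q1, by simpa using p1⟩)
    (hc.inter (convex_halfSpace_re_lt a)).isPreconnected ?_
  refine IsPreconnected.union _ ⟨q2, by simpa using p2⟩ (Or.inl ⟨q2, by simpa using p2⟩)
    (hc.inter (convex_halfSpace_im_lt c)).isPreconnected ?_
  exact IsPreconnected.union _ ⟨q3, by simpa using p3⟩ ⟨q3, by simpa using p3⟩
    (hc.inter (convex_halfSpace_re_gt b)).isPreconnected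
    (hc.inter (convex_halfSpace_im_gt d)).isPreconnected

theorem top_aux {X K V u v : Set ℂ} (hX : IsPreconnected X) (hK : IsClosed K) (hV : IsOpen V)
    (hKV : K ⊆ V) (hu : IsOpen u) (hv : IsOpen v) (hc : X \ K ⊆ u ∪ v)
    (h1 : ((X \ K) ∩ u).Nonempty) (h2 : ((X \ K) ∩ v).Nonempty) (h : V \ K ⊆ u) :
    ((X \ K) ∩ (u ∩ v)).Nonempty := by
  obtain ⟨a, ⟨a1, -⟩, a3⟩ := h1
  obtain ⟨b, ⟨b1, b2⟩, b3⟩ := h2
  obtain ⟨z, z1, z2, z3, z4⟩ := hX (u ∪ V) (v \ K) (hu.union hV) (hv.sdiff hK) (fun z hz => by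
    by_cases hk : z ∈ K
    · exact Or.inl (Or.inr (hKV hk))
    · exact (hc ⟨hz, hk⟩).imp Or.inl fun k => ⟨k, hk⟩) ⟨a, a1, Or.inl a3⟩ ⟨b, b1, b3, b2⟩
  exact ⟨z, ⟨z1, z4⟩, z2.elim id fun k => h ⟨k, z4⟩, z3⟩

theorem top_remove {X K V : Set ℂ} (hX : IsPreconnected X) (hK : IsClosed K) (hV : IsOpen V)
    (hKV : K ⊆ V) (hVX : V ⊆ X) (h : IsConnected (V \ K)) : IsConnected (X \ K) := by
  have hs : V \ K ⊆ X \ K := sdiff_subset_sdiff_left hVX
  refine ⟨h.1.mono hs, fun u v hu hv hc h1 h2 => ?_⟩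
  by_cases k1 : V \ K ⊆ u
  · exact top_aux hX hK hV hKV hu hv hc h1 h2 k1
  by_cases k2 : V \ K ⊆ v
  · rw [inter_comm u v]
    exact top_aux hX hK hV hKV hv hu (by rwa [union_comm]) h2 h1 k2
  obtain ⟨a, a1, a2⟩ := not_subset.1 k1
  obtain ⟨b, b1, b2⟩ := not_subset.1 k2
  exact (h.2 u v hu hv (hs.trans hc) ⟨b, b1, (hc (hs b1)).resolve_right b2⟩
    ⟨a, a1, (hc (hs a1)).resolve_left a2⟩).mono (inter_subset_inter_left _ hs)

/-- A convex open set minus finitely many disjoint rectangles is connected. -/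
theorem isConnected_remove {κ : Type} {W : Set ℂ} (hW : IsOpen W) (hc : Convex ℝ W)
    (hne : W.Nonempty) (J : Finset κ) (x : κ → R4)
    (h : ∀ j ∈ J, (x j).1 ≤ (x j).2.1 ∧ (x j).2.2.1 ≤ (x j).2.2.2 ∧ box (x j) ⊆ W)
    (hd : ∀ i ∈ J, ∀ j ∈ J, i ≠ j → Disjoint (box (x i)) (box (x j))) :
    IsConnected (W \ ⋃ j ∈ J, box (x j)) := by
  classical
  induction J using Finset.induction_on with
  | empty => simpa using hc.isConnected hne
  | insert a J ha ih =>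
    have h0 := ih (fun j hj => h j (Finset.mem_insert_of_mem hj)) fun i hi j hj =>
      hd i (Finset.mem_insert_of_mem hi) j (Finset.mem_insert_of_mem hj)
    have ho : IsOpen (W \ ⋃ j ∈ J, box (x j)) :=
      hW.sdiff (isClosed_biUnion_finset fun j _ => isClosed_box _)
    obtain ⟨k1, k2, k3⟩ := h a (Finset.mem_insert_self _ _)
    have hs : box (x a) ⊆ W \ ⋃ j ∈ J, box (x j) := fun z hz => ⟨k3 hz, fun hz' => by
      obtain ⟨j, hj, hz'⟩ := mem_iUnion₂.1 hz'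
      exact disjoint_left.1 (hd a (Finset.mem_insert_self _ _) j (Finset.mem_insert_of_mem hj)
        fun e => ha (e ▸ hj)) hz hz'⟩
    obtain ⟨δ, hδ, hδ'⟩ := (isCompact_box (x a)).exists_thickening_subset_open ho hs
    rw [Finset.set_biUnion_insert, union_comm, ← Set.sdiff_sdiff]
    exact top_remove h0.2 (isClosed_box _) isOpen_thickening (self_subset_thickening hδ _) hδ'
      (isConnected_diff_box isOpen_thickening ((convex_box _).thickening δ) k1 k2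
        (self_subset_thickening hδ _))

variable {γ : ℝ} {m n : ℕ}

theorem Qs_disjoint (h : Gam γ) (hn : 2 ≤ n) {i j : Bool ⊕ R4} (hi : i ∈ Ix γ m n)
    (hj : j ∈ Ix γ m n) (hne : i ≠ j) : Disjoint (Qs γ i) (Qs γ j) := by
  have g0 := h.1
  have g1 := h.2
  rw [disjoint_left]
  intro z hz hz'
  rcases mem_Ix.1 hi with ⟨b, rfl⟩ | ⟨a, ha, x, hx, rfl⟩
  · rcases mem_Ix.1 hj with ⟨b', rfl⟩ | ⟨a', ha', x', hx', rfl⟩
    · cases b <;> cases b' <;> simp only [Qs, mem_ofPred_eq, aa] at hz hz'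
      · exact hne rfl
      · linarith
      · linarith
      · exact hne rfl
    · obtain ⟨k1, k2, -⟩ := sq_loc h hn ha' ((kids_spec h ha' hx').2.2 hz')
      cases b <;> simp only [Qs, mem_ofPred_eq] at hz <;> linarith
  · rcases mem_Ix.1 hj with ⟨b', rfl⟩ | ⟨a', ha', x', hx', rfl⟩
    · obtain ⟨k1, k2, -⟩ := sq_loc h hn ha ((kids_spec h ha hx).2.2 hz)
      cases b' <;> simp only [Qs, mem_ofPred_eq] at hz' <;> linarith
    · by_cases e : a = a'
      · subst e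
        exact disjoint_left.1 (kids_disjoint h ha hx hx' fun e => hne (by rw [e])) hz hz'
      · have := sq_sep h ha ha' e ((kids_spec h ha hx).2.2 hz) ((kids_spec h ha' hx').2.2 hz')
        simp only [sub_self, abs_zero, max_self] at this
        have : 0 < 2 * γ * (1 / 4) ^ n := by positivity
        linarith

theorem top_box_nontrivial {x : R4} (h1 : x.1 < x.2.1) (h2 : x.2.2.1 ≤ x.2.2.2) :
    (box x).Nontrivial :=
  ⟨⟨x.1, x.2.2.1⟩, ⟨⟨le_rfl, h1.le⟩, le_rfl, h2⟩, ⟨x.2.1, x.2.2.1⟩, ⟨⟨h1.le, le_rfl⟩, le_rfl, h2⟩,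
    fun e => h1.ne (congrArg Complex.re e)⟩

/-- The rectangle of a bounded piece. -/
noncomputable def top_bx (γ : ℝ) : Bool ⊕ R4 → R4
  | .inl _ => (1 / 2 - aa γ, 1 / 2 + aa γ, 1 / 2 - aa γ, 1 / 2 + aa γ)
  | .inr x => x

theorem top_bx_spec (h : Gam γ) {i : Bool ⊕ R4} (hi : i ∈ Ix γ m n) (hne : i ≠ .inl false) :
    Qs γ i = box (top_bx γ i) ∧ (top_bx γ i).1 < (top_bx γ i).2.1 ∧
      (top_bx γ i).2.2.1 < (top_bx γ i).2.2.2 := by
  have g0 := h.1
  rcases mem_Ix.1 hi with ⟨b, rfl⟩ | ⟨a, ha, x, hx, rfl⟩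
  · cases b
    · exact absurd rfl hne
    · refine ⟨Set.ext fun z => rho_le_iff, ?_, ?_⟩ <;> simp only [top_bx, aa] <;> linarith
  · exact ⟨rfl, (kids_spec h ha hx).1, (kids_spec h ha hx).2.1⟩

theorem top_outer_conn (r : ℝ) : IsPreconnected {z | r ≤ rho z} := by
  have e : {z | r ≤ rho z} = {z : ℂ | z.re ≤ 1 / 2 - r} ∪ ({z : ℂ | z.im ≤ 1 / 2 - r} ∪
      ({z : ℂ | 1 / 2 + r ≤ z.re} ∪ {z : ℂ | 1 / 2 + r ≤ z.im})) := by
    ext z
    simp only [rho, mem_ofPred_eq, mem_union, le_max_iff, le_abs]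
    constructor
    · rintro ((k | k) | k | k)
      · exact Or.inr (Or.inr (Or.inl (by linarith)))
      · exact Or.inl (by linarith)
      · exact Or.inr (Or.inr (Or.inr (by linarith)))
      · exact Or.inr (Or.inl (by linarith))
    · rintro (k | k | k | k)
      · exact Or.inl (Or.inr (by linarith))
      · exact Or.inr (Or.inr (by linarith))
      · exact Or.inl (Or.inl (by linarith))
      · exact Or.inr (Or.inl (by linarith))
  rw [e]
  refine IsPreconnected.union (⟨1 / 2 - r, 1 / 2 - r⟩ : ℂ) (by simp) (Or.inl (by simp))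
    (convex_halfSpace_re_le _).isPreconnected ?_
  refine IsPreconnected.union (⟨1 / 2 + r, 1 / 2 - r⟩ : ℂ) (by simp) (Or.inl (by simp))
    (convex_halfSpace_im_le _).isPreconnected ?_
  exact IsPreconnected.union (⟨1 / 2 + r, 1 / 2 + r⟩ : ℂ) (by simp) (by simp)
    (convex_halfSpace_re_ge _).isPreconnected (convex_halfSpace_im_ge _).isPreconnected

theorem top_rho_ge (r s : ℝ) : r ≤ rho ⟨1 / 2 + r, s⟩ := by
  simp only [rho, add_sub_cancel_left]
  exact (le_abs_self r).trans (le_max_left _ _)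

theorem Qs_conn (h : Gam γ) {i : Bool ⊕ R4} (hi : i ∈ Ix γ m n) :
    IsPreconnected (Qs γ i) ∧ (Qs γ i).Nontrivial := by
  by_cases e : i = .inl false
  · subst e
    exact ⟨top_outer_conn _, _, top_rho_ge _ 0, _, top_rho_ge _ 1,
      fun e => zero_ne_one (congrArg Complex.im e)⟩
  · obtain ⟨k1, k2, k3⟩ := top_bx_spec h hi e
    rw [k1]
    exact ⟨(convex_box _).isPreconnected, top_box_nontrivial k2 k3.le⟩

/-- A convex open set that contains or misses each piece. -/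
theorem isConnected_diff_EE (h : Gam γ) (hn : 2 ≤ n) {W : Set ℂ} (hW : IsOpen W)
    (hc : Convex ℝ W) (hne : W.Nonempty) (hb : Disjoint W (Qs γ (.inl false)))
    (hi : ∀ i ∈ Ix γ m n, Qs γ i ⊆ W ∨ Disjoint W (Qs γ i)) : IsConnected (W \ EE γ m n) := by
  classical
  have hJ : ∀ j ∈ (Ix γ m n).filter fun i => Qs γ i ⊆ W, j ≠ .inl false := by
    intro j hj e
    subst e
    exact disjoint_left.1 hb ((Finset.mem_filter.1 hj).2 (top_rho_ge _ 0)) (top_rho_ge _ 0)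
  have hQ : ∀ j ∈ (Ix γ m n).filter fun i => Qs γ i ⊆ W, Qs γ j = box (top_bx γ j) :=
    fun j hj => (top_bx_spec h (Finset.mem_filter.1 hj).1 (hJ j hj)).1
  have e : W \ EE γ m n =
      W \ ⋃ j ∈ (Ix γ m n).filter fun i => Qs γ i ⊆ W, box (top_bx γ j) := by
    ext z
    refine and_congr_right fun hz => not_congr ?_
    simp only [EE, mem_iUnion₂]
    constructor
    · rintro ⟨i, i1, i2⟩
      have : i ∈ (Ix γ m n).filter fun i => Qs γ i ⊆ W := Finset.mem_filter.2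
        ⟨i1, (hi i i1).resolve_right fun k => disjoint_left.1 k hz i2⟩
      exact ⟨i, this, hQ i this ▸ i2⟩
    · rintro ⟨i, i1, i2⟩
      exact ⟨i, (Finset.mem_filter.1 i1).1, (hQ i i1).symm ▸ i2⟩
  rw [e]
  refine isConnected_remove hW hc hne _ _ (fun j hj => ?_) fun i i1 j j1 hij => ?_
  · obtain ⟨k1, k2, k3⟩ := top_bx_spec h (Finset.mem_filter.1 hj).1 (hJ j hj)
    exact ⟨k2.le, k3.le, k1 ▸ (Finset.mem_filter.1 hj).2⟩
  · rw [← hQ i i1, ← hQ j j1]
    exact Qs_disjoint h hn (Finset.mem_filter.1 i1).1 (Finset.mem_filter.1 j1).1 hij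

theorem top_isOpen_lt (r : ℝ) : IsOpen {z | rho z < r} :=
  isOpen_lt rho_lip.continuous continuous_const

/-- The outer collar. -/
theorem isConnected_outer (h : Gam γ) (hn : 2 ≤ n) {η : ℝ} (h0 : 0 < η) (h1 : η ≤ γ) :
    IsConnected ({z | 1 / 2 + γ - η < rho z} \ EE γ m n) := by
  have e : {z | 1 / 2 + γ - η < rho z} \ EE γ m n = {z | rho z < 1 / 2 + γ} \
      box (1 / 2 - (1 / 2 + γ - η), 1 / 2 + (1 / 2 + γ - η), 1 / 2 - (1 / 2 + γ - η),
        1 / 2 + (1 / 2 + γ - η)) := by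
    ext z
    simp only [Set.mem_sdiff, mem_ofPred_eq, ← rho_le_iff, not_le]
    constructor
    · rintro ⟨k1, k2⟩
      exact ⟨not_le.1 fun k => k2 (mem_EE.2 (Or.inr (Or.inl k))), k1⟩
    · rintro ⟨k1, k2⟩
      exact ⟨k2, notMem_EE_out h hn (by linarith) k1⟩
  rw [e]
  refine isConnected_diff_box (top_isOpen_lt _) (convex_rho_lt _) (by simp only; linarith)
    (by simp only; linarith) fun z hz => ?_
  have := rho_le_iff.2 hz
  simp only [mem_ofPred_eq]
  linarith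

theorem top_push (z : ℂ) {t : ℝ} (ht : 0 ≤ t) : ∃ w, dist z w ≤ t ∧ rho z + t ≤ rho w := by
  have key : ∀ u : ℝ, ∃ s : ℝ, |s| ≤ t ∧ |u - 1 / 2| + t ≤ |u + s - 1 / 2| := by
    intro u
    rcases le_total 0 (u - 1 / 2) with k | k
    · refine ⟨t, (abs_of_nonneg ht).le, ?_⟩
      rw [abs_of_nonneg k]
      exact le_abs.2 (Or.inl (by linarith))
    · refine ⟨-t, by rw [abs_neg, abs_of_nonneg ht], ?_⟩
      rw [abs_of_nonpos k]
      exact le_abs.2 (Or.inr (by linarith))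
  rcases le_total |z.re - 1 / 2| |z.im - 1 / 2| with k | k
  · obtain ⟨s, s1, s2⟩ := key z.im
    refine ⟨z + s * Complex.I, by simpa using s1, ?_⟩
    rw [rho, max_eq_right k]
    exact s2.trans (le_max_of_le_right (by simp))
  · obtain ⟨s, s1, s2⟩ := key z.re
    refine ⟨z + s, by simpa using s1, ?_⟩
    rw [rho, max_eq_left k]
    exact s2.trans (le_max_of_le_left (by simp))

theorem top_bdd {E : Set ℂ} (hE : Qs γ (.inl false) ⊆ E) : Bornology.IsBounded Eᶜ :=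
  (isCompact_box _).isBounded.subset fun _ hz =>
    (rho_le_iff (r := 1 / 2 + γ)).1 (not_le.1 fun k => hz (hE k)).le

theorem top_outer_sub : Qs γ (.inl false) ⊆ EE γ m n := fun _ hz => mem_EE.2 (Or.inr (Or.inl hz))

theorem stage_EE (h : Gam γ) (hn : 2 ≤ n) : Stage (EE γ m n) (Qs γ) (Ix γ m n) := by
  classical
  refine ⟨fun i _ => isClosed_Qs γ i, fun i hi => (Qs_conn h hi).2.nonempty,
    fun i hi j hj => Qs_disjoint h hn hi hj, rfl, top_bdd top_outer_sub, fun i hi η hη => ?_⟩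
  by_cases e : i = .inl false
  · subst e
    have h0 : 0 < min (η / 2) γ := lt_min (by linarith) h.1
    refine ⟨{z | 1 / 2 + γ - min (η / 2) γ < rho z}, isOpen_lt continuous_const rho_lip.continuous,
      fun z hz => ?_, fun z hz => ?_, isConnected_outer h hn h0 (min_le_right _ _)⟩
    · simp only [Qs, mem_ofPred_eq] at hz ⊢
      linarith
    · obtain ⟨w, w1, w2⟩ := top_push z h0.le
      have := min_le_left (η / 2) γ
      refine mem_thickening_iff.2 ⟨w, ?_, by linarith⟩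
      simp only [Qs, mem_ofPred_eq] at hz ⊢
      linarith
  · obtain ⟨k1, -, -⟩ := top_bx_spec h hi e
    have ho : IsOpen (⋃ j ∈ (Ix γ m n).erase i, Qs γ j)ᶜ :=
      (isClosed_biUnion_finset fun j _ => isClosed_Qs γ j).isOpen_compl
    have hs : Qs γ i ⊆ (⋃ j ∈ (Ix γ m n).erase i, Qs γ j)ᶜ := fun z hz hz' => by
      obtain ⟨j, hj, hz'⟩ := mem_iUnion₂.1 hz'
      exact disjoint_left.1 (Qs_disjoint h hn hi (Finset.mem_of_mem_erase hj)
        (Finset.ne_of_mem_erase hj).symm) hz hz'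
    have hk : IsCompact (Qs γ i) := k1 ▸ isCompact_box _
    have hv : Convex ℝ (Qs γ i) := k1 ▸ convex_box _
    obtain ⟨δ, hδ, hδ'⟩ := hk.exists_thickening_subset_open ho hs
    have h0 : 0 < min δ η := lt_min hδ hη
    have hd : ∀ j ∈ Ix γ m n, j ≠ i → Disjoint (thickening (min δ η) (Qs γ i)) (Qs γ j) :=
      fun j hj hne => disjoint_left.2 fun z hz hz' =>
        hδ' (thickening_mono (min_le_left _ _) _ hz)
          (mem_iUnion₂.2 ⟨j, Finset.mem_erase.2 ⟨hne, hj⟩, hz'⟩)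
    refine ⟨thickening (min δ η) (Qs γ i), isOpen_thickening, self_subset_thickening h0 _,
      thickening_mono (min_le_right _ _) _, isConnected_diff_EE h hn isOpen_thickening
        (hv.thickening _) ((Qs_conn h hi).2.nonempty.mono (self_subset_thickening h0 _))
        (hd _ (mem_Ix.2 (Or.inl ⟨_, rfl⟩)) (Ne.symm e)) fun j hj => ?_⟩
    by_cases e' : j = i
    · exact Or.inl (e' ▸ self_subset_thickening h0 _)
    · exact Or.inr (hd j hj e')

theorem isConnected_compl_EE (h : Gam γ) (hn : 2 ≤ n) : IsConnected (EE γ m n)ᶜ := by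
  have g0 := h.1
  have hd : Disjoint {z | rho z < 1 / 2 + γ} (Qs γ (.inl false)) :=
    disjoint_left.2 fun z (hz : rho z < 1 / 2 + γ) (hz' : 1 / 2 + γ ≤ rho z) => not_le.2 hz hz'
  have e : (EE γ m n)ᶜ = {z | rho z < 1 / 2 + γ} \ EE γ m n := by
    ext z
    exact ⟨fun hz => ⟨(not_le.1 fun k => hz (top_outer_sub k) : rho z < 1 / 2 + γ), hz⟩,
      fun hz => hz.2⟩
  rw [e]
  refine isConnected_diff_EE h hn (top_isOpen_lt _) (convex_rho_lt _)
    ⟨⟨1 / 2, 1 / 2⟩, by simp only [mem_ofPred_eq, rho, sub_self, abs_zero, max_self]; linarith⟩ hd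
    fun i hi => ?_
  by_cases e' : i = .inl false
  · exact Or.inr (e' ▸ hd)
  · exact Or.inl fun z hz => (not_le.1 fun k => disjoint_left.1
      (Qs_disjoint h hn hi (mem_Ix.2 (Or.inl ⟨_, rfl⟩)) e') hz k : rho z < 1 / 2 + γ)

theorem isClosed_Einf (γ : ℝ) : IsClosed (Einf γ) :=
  isClosed_iInter fun _ => isClosed_EE _ _ _

theorem outer_subset_Einf (γ : ℝ) : Qs γ (.inl false) ⊆ Einf γ :=
  subset_iInter fun _ => top_outer_sub

theorem isBounded_compl {E : Set ℂ} (hE : Qs γ (.inl false) ⊆ E) : Bornology.IsBounded Eᶜ :=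
  top_bdd hE

theorem infDist_le_one (h : Gam γ) {E : Set ℂ} (hE : Qs γ (.inl false) ⊆ E) (z : ℂ) :
    infDist z E ≤ 1 := by
  obtain ⟨w, w1, w2⟩ := top_push z zero_le_one
  have h0 : 0 ≤ rho z := (abs_nonneg _).trans (le_max_left _ _)
  have g1 := h.2
  have hw : w ∈ E := hE (by simp only [Qs, mem_ofPred_eq]; linarith)
  exact (infDist_le_dist_of_mem hw).trans w1

theorem isConnected_compl_Einf (h : Gam γ) : IsConnected (Einf γ)ᶜ := by
  have g0 := h.1
  have h0 : ∀ k : ℕ, (⟨1 / 2 + (1 / 2 + γ / 2), 1 / 2⟩ : ℂ) ∈ (EE γ 0 (k + 2))ᶜ := by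
    intro k
    have e : rho ⟨1 / 2 + (1 / 2 + γ / 2), 1 / 2⟩ = 1 / 2 + γ / 2 := by
      simp only [rho, add_sub_cancel_left, sub_self, abs_zero]
      rw [abs_of_pos (by linarith), max_eq_left (by linarith)]
    exact notMem_EE_out h (by omega) (by rw [e]; linarith) (by rw [e]; linarith)
  rw [Einf, compl_iInter]
  exact ⟨⟨_, mem_iUnion.2 ⟨0, h0 0⟩⟩, isPreconnected_iUnion ⟨_, mem_iInter.2 h0⟩
    fun k => (isConnected_compl_EE h (by omega)).2⟩

theorem exh_EE (h : Gam γ) (m : ℕ) {K : Set ℂ} (hK : IsCompact K) (hK' : K ⊆ (Einf γ)ᶜ) :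
    ∃ η : ℝ, 0 < η ∧ ∀ᶠ n in atTop, ∀ z ∈ K, η ≤ infDist z (EE γ m (n + 2)) := by
  rw [Einf, compl_iInter] at hK'
  obtain ⟨N, hN⟩ := hK.elim_directed_cover (fun k : ℕ => (EE γ 0 (k + 2))ᶜ)
    (fun k => (isClosed_EE _ _ _).isOpen_compl) hK'
    (Monotone.directed_le fun a b hab => compl_subset_compl.2
      (EE_subset h (by omega) (by omega)))
  obtain ⟨δ, hδ, hδ'⟩ := hK.exists_thickening_subset_open (isClosed_EE _ _ _).isOpen_compl hN
  refine ⟨δ, hδ, (eventually_ge_atTop N).mono fun n hn z hz => ?_⟩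
  refine (le_infDist ⟨_, top_outer_sub (top_rho_ge _ 0)⟩).2 fun y hy => not_lt.1 fun k => ?_
  exact hδ' (mem_thickening_iff.2 ⟨z, hz, by rwa [dist_comm]⟩)
    (EE_subset h (by omega) (by omega) hy)

end Pool.Agent.Lib.MP_44acff_gt.EK
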