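import Pool.Agent.Lib.MP_44acff_gt.EK.Gm

open Set Metric Topology Filter MeasureTheory

namespace Pool.Agent.Lib.MP_44acff_gt.EK

theorem PT.mono {ι : Type} {E : Set ℂ} {Q : ι → Set ℂ} {I : Finset ι} {X : Set ι}
    {α β α' β' : Set ℂ} {En En' : ℝ} (h : PT E Q I X α β En) (hα : α' ⊆ α) (hβ : β' ⊆ β)
    (hE : En ≤ En') : PT E Q I X α' β' En' := by
  obtain ⟨U, Lt, s, L, h1, h2, h3, h4, h5, h6, h7, h8⟩ := h
  exact ⟨U, Lt, s, L, h1, fun z hz => h2 z (hα hz), fun z hz => h3 z (hβ hz), h4, h5,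
    h6.trans (ENNReal.ofReal_le_ofReal hE), h7, h8.trans hE⟩

variable {γ : ℝ} {m n : ℕ}

theorem tst_norm {l : ℝ} (hl : 0 < l) {a : ℝ × ℝ} {z w : ℂ}
    (hz : z ∈ box (a.1, a.1 + l, a.2, a.2 + l)) (hw : w ∈ box (a.1, a.1 + l, a.2, a.2 + l)) :
    ‖z - w‖ < 2 * l := by
  obtain ⟨⟨a1, a2⟩, a3, a4⟩ := hz
  obtain ⟨⟨b1, b2⟩, b3, b4⟩ := hw
  dsimp only at a1 a2 a3 a4 b1 b2 b3 b4
  refine lt_of_pow_lt_pow_left₀ 2 (by positivity) ?_
  rw [Complex.sq_norm, Complex.normSq_apply, Complex.sub_re, Complex.sub_im]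
  have h1 : (z.re - w.re) * (z.re - w.re) ≤ l * l := by nlinarith
  have h2 : (z.im - w.im) * (z.im - w.im) ≤ l * l := by nlinarith
  nlinarith [mul_pos hl hl]

theorem tst_biUnion {A B : Type} [DecidableEq B] (s : Finset A) (t : A → Finset B)
    (f : B → ENNReal) : ∑ x ∈ s.biUnion t, f x ≤ ∑ a ∈ s, ∑ x ∈ t a, f x := by
  classical
  induction s using Finset.induction_on with
  | empty => simp
  | insert a s ha ih =>
    rw [Finset.biUnion_insert, Finset.sum_insert ha]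
    refine le_trans ?_ (add_le_add le_rfl ih)
    rw [← Finset.sum_union_inter]
    exact le_self_add

theorem tst_mean {l σ : ℝ} (hl : 0 < l) (hσ : 0 ≤ σ) (a : ℝ × ℝ) {Lt : ℂ → ℝ}
    (h : ∀ y ∈ box (a.1, a.1 + l, a.2, a.2 + l), σ ≤ Lt y * (2 * l)) :
    ENNReal.ofReal (σ ^ 2) ≤
      4 * ∫⁻ y in box (a.1, a.1 + l, a.2, a.2 + l), ENNReal.ofReal (Lt y ^ 2) := by
  have h0 : ENNReal.ofReal (l ^ 2) ≠ 0 := (ENNReal.ofReal_pos.2 (by positivity)).ne'
  have h1 : volume (box (a.1, a.1 + l, a.2, a.2 + l)) = ENNReal.ofReal (l ^ 2) := by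
    rw [volume_box, ← ENNReal.ofReal_mul (by simpa using hl.le)]
    congr 1
    ring
  refine (ENNReal.mul_le_mul_iff_left h0 ENNReal.ofReal_ne_top).1 ?_
  rw [← h1, ← setLIntegral_const, h1, mul_right_comm,
    ← lintegral_const_mul' _ _ (ENNReal.mul_ne_top (by simp) ENNReal.ofReal_ne_top)]
  refine setLIntegral_mono' (isClosed_box _).measurableSet fun y hy => ?_
  rw [← ENNReal.ofReal_ofNat 4, ← ENNReal.ofReal_mul (by norm_num),
    ← ENNReal.ofReal_mul (by positivity)]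
  refine ENNReal.ofReal_le_ofReal ((pow_le_pow_left₀ hσ (h y hy) 2).trans_eq (by ring))

theorem tst_box (h : Gam γ) {z : ℂ} (hz : rho z ≤ 1 / 2 + γ) : z ∈ box (-1, 2, -1, 2) := by
  obtain ⟨⟨a1, a2⟩, a3, a4⟩ := rho_le_iff.1 hz
  have := h.2
  dsimp only at a1 a2 a3 a4
  exact ⟨⟨by dsimp only; linarith, by dsimp only; linarith⟩, by dsimp only; linarith,
    by dsimp only; linarith⟩

/-- The general test function. -/
theorem gen_test (h : Gam γ) (hn : 2 ≤ n) {X : Set (Bool ⊕ R4)} {α β : Set ℂ} {U Lt tt : ℂ → ℝ}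
    {L' : NNReal} {L En : ℝ} (hU : LipschitzWith L' U) (hα : ∀ z ∈ α, 1 ≤ U z)
    (hβ : ∀ z ∈ β, U z ≤ 0) (hm : Measurable Lt) (h0 : ∀ y, 0 ≤ Lt y ∧ Lt y ≤ L)
    (hs : ∀ y, ∀ a ∈ ball y (tt y), ∀ b ∈ ball y (tt y), |U a - U b| ≤ Lt y * ‖a - b‖)
    (h1 : ∀ y, infDist y (EE γ m n) / 2 ≤ tt y) (h2 : ∀ y, 2 * el γ n ≤ tt y)
    (h3 : L * (2 * el γ n) ≤ 1 / 100) (hEn : 0 ≤ En)
    (h4 : ∫⁻ z in box (-1, 2, -1, 2), ENNReal.ofReal (Lt z ^ 2) ≤ ENNReal.ofReal En)
    (h5 : ∀ b, Sum.inl b ∉ X → ∀ z ∈ Qs γ (.inl b), ∀ w ∈ Qs γ (.inl b), U z = U w) :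
    PT (EE γ m n) (Qs γ) (Ix γ m n) X α β (4 * 2 ^ m * En) := by
  classical
  have hl := el_pos h n
  let T : R4 → Set ℝ := fun x => insert 0 {t | ∃ z ∈ box x, ∃ w ∈ box x, t = U z - U w}
  have key : ∀ a ∈ Act γ n, ∀ x ∈ kids γ m n a, ∀ y ∈ box (sq γ n a),
      Lt y * (2 * el γ n) ∈ upperBounds (T x) := by
    intro a ha x hx y hy
    have h6 := (kids_spec h ha hx).2.2
    rintro _ (rfl | ⟨z, hz, w, hw, rfl⟩)
    · exact mul_nonneg (h0 y).1 (by positivity)
    · refine (le_abs_self _).trans ((hs y z ?_ w ?_).trans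
        (mul_le_mul_of_nonneg_left (tst_norm hl (h6 hz) (h6 hw)).le (h0 y).1))
      exacts [mem_ball_iff_norm.2 ((tst_norm hl (h6 hz) hy).trans_le (h2 y)),
        mem_ball_iff_norm.2 ((tst_norm hl (h6 hw) hy).trans_le (h2 y))]
  have hc : ∀ a : ℝ × ℝ, (⟨a.1, a.2⟩ : ℂ) ∈ box (sq γ n a) := fun a =>
    ⟨⟨le_rfl, le_add_of_nonneg_right hl.le⟩, le_rfl, le_add_of_nonneg_right hl.le⟩
  have hb : ∀ a ∈ Act γ n, ∀ x ∈ kids γ m n a, BddAbove (T x) := fun a ha x hx =>
    ⟨_, key a ha x hx _ (hc a)⟩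
  have hp : (1 : ℝ) ≤ 2 ^ m := one_le_pow₀ one_le_two
  refine ⟨U, Lt, Sum.elim (fun _ => 0) fun x => sSup (T x), L', hU, hα, hβ, hm,
    fun y _ a ha b hb => hs y a (ball_subset_ball (h1 y) ha) b (ball_subset_ball (h1 y) hb),
    ?_, fun i hi hX => ?_, ?_⟩
  · refine (lintegral_mono_set fun z hz => tst_box h ?_).trans
      (h4.trans (ENNReal.ofReal_le_ofReal (by nlinarith)))
    exact le_of_not_ge fun h6 => hz (mem_EE.2 (Or.inr (Or.inl h6)))
  · rcases mem_Ix.1 hi with ⟨b, rfl⟩ | ⟨a, ha, x, hx, rfl⟩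
    · exact ⟨le_rfl, by norm_num, fun z hz w hw => (sub_eq_zero.2 (h5 b hX z hz w hw)).le⟩
    · refine ⟨le_csSup (hb a ha x hx) (Or.inl rfl), ?_,
        fun z hz w hw => le_csSup (hb a ha x hx) (Or.inr ⟨z, hz, w, hw, rfl⟩)⟩
      exact (csSup_le (insert_nonempty _ _) (key a ha x hx _ (hc a))).trans
        ((mul_le_mul_of_nonneg_right (h0 _).2 (by positivity)).trans h3)
  · rw [Ix, Finset.sum_disjSum]
    simp only [Sum.elim_inl, Sum.elim_inr]
    rw [Finset.sum_eq_zero fun _ _ => zero_pow two_ne_zero, zero_add,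
      ← ENNReal.ofReal_le_ofReal_iff (by positivity),
      ENNReal.ofReal_sum_of_nonneg fun _ _ => sq_nonneg _]
    refine (tst_biUnion _ _ _).trans ?_
    have h6 : ∀ a ∈ Act γ n, ∑ x ∈ kids γ m n a, ENNReal.ofReal (sSup (T x) ^ 2) ≤
        (4 * 2 ^ m) * ∫⁻ y in box (sq γ n a), ENNReal.ofReal (Lt y ^ 2) := by
      intro a ha
      refine (Finset.sum_le_card_nsmul _ _ _ fun x hx => tst_mean hl
        (le_csSup (hb a ha x hx) (Or.inl rfl)) a fun y hy =>
          csSup_le (insert_nonempty _ _) (key a ha x hx y hy)).trans ?_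
      rw [nsmul_eq_mul, ← mul_assoc, mul_comm (4 : ENNReal)]
      refine mul_le_mul' (mul_le_mul' ?_ le_rfl) le_rfl
      exact_mod_cast card_kids h ha
    refine (Finset.sum_le_sum h6).trans ?_
    rw [← Finset.mul_sum, ← lintegral_biUnion_finset (fun a ha a' ha' hne =>
      disjoint_left.2 fun z hz hz' => ?_) fun a _ => (isClosed_box _).measurableSet,
      ENNReal.ofReal_mul (by positivity), ENNReal.ofReal_mul (by norm_num),
      ENNReal.ofReal_pow (by norm_num), ENNReal.ofReal_ofNat, ENNReal.ofReal_ofNat]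
    · refine mul_le_mul' le_rfl ((lintegral_mono_set (iUnion₂_subset fun a ha z hz =>
        tst_box h ((sq_loc h hn ha hz).2.1.trans ?_))).trans h4)
      linarith [h.1]
    · have h7 := sq_sep h ha ha' hne hz hz'
      have h8 := h.1
      have h9 : 0 < 2 * γ * (1 / 4) ^ n := by positivity
      simp only [sub_self, abs_zero, max_self] at h7
      linarith

/-- Sets at a positive distance. -/
theorem dist_test (h : Gam γ) (m : ℕ) {X : Set (Bool ⊕ R4)} {α β : Set ℂ} (hne : α.Nonempty)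
    {d : ℝ} (hd : 0 < d) (hβ : ∀ z ∈ α, ∀ w ∈ β, d ≤ ‖z - w‖)
    (hb : ∀ b, Sum.inl b ∉ X → Qs γ (.inl b) ⊆ α ∨ ∀ z ∈ α, ∀ w ∈ Qs γ (.inl b), d ≤ ‖z - w‖) :
    ∀ᶠ n in atTop, PT (EE γ m (n + 2)) (Qs γ) (Ix γ m (n + 2)) X α β (36 * 2 ^ m / d ^ 2) := by
  have h1 : ∀ a b : ℂ, |max 0 (1 - infDist a α / d) - max 0 (1 - infDist b α / d)| ≤
      1 / d * ‖a - b‖ := by
    intro a b
    rw [max_comm, max_comm 0]
    refine (abs_max_sub_max_le_abs _ _ _).trans ?_
    have h2 := (lipschitz_infDist_pt α).dist_le_mul b a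
    rw [NNReal.coe_one, one_mul, Real.dist_eq, dist_comm, dist_eq_norm] at h2
    rw [sub_sub_sub_cancel_left, ← sub_div, abs_div, abs_of_pos hd, one_div_mul_eq_div]
    exact div_le_div_of_nonneg_right h2 hd.le
  have h2 : ∀ z ∈ α, max 0 (1 - infDist z α / d) = 1 := fun z hz => by
    simp [infDist_zero_of_mem hz]
  have h3 : ∀ w, (∀ z ∈ α, d ≤ ‖z - w‖) → max 0 (1 - infDist w α / d) = 0 := fun w hw =>
    max_eq_left (sub_nonpos.2 ((one_le_div hd).2 ((le_infDist hne).2 fun z hz => by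
      rw [dist_comm, dist_eq_norm]
      exact hw z hz)))
  have h4 : ∀ᶠ n in atTop, el γ (n + 2) < d / 200 :=
    ((tendsto_el h).comp (tendsto_add_atTop_nat 2)).eventually (gt_mem_nhds (by positivity))
  filter_upwards [h4] with n hn
  refine (gen_test h (Nat.le_add_left 2 n) (U := fun z => max 0 (1 - infDist z α / d))
    (Lt := fun _ => 1 / d) (tt := fun y => max (infDist y (EE γ m (n + 2)) / 2) (2 * el γ (n + 2)))
    (L' := ⟨1 / d, by positivity⟩) (L := 1 / d) (En := 9 / d ^ 2)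
    (LipschitzWith.of_dist_le_mul fun a b => ?_) (fun z hz => (h2 z hz).ge)
    (fun w hw => (h3 w fun z hz => hβ z hz w hw).le) measurable_const
    (fun _ => ⟨by positivity, le_rfl⟩) (fun _ a _ b _ => h1 a b) (fun _ => le_max_left _ _)
    (fun _ => le_max_right _ _) ?_ (by positivity) ?_ fun b hX z hz w hw => ?_).mono
    subset_rfl subset_rfl (le_of_eq (by ring))
  · rw [Real.dist_eq, dist_eq_norm]
    exact h1 a b
  · rw [one_div_mul_eq_div, div_le_iff₀ hd]
    linarith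
  · rw [setLIntegral_const, volume_box, ← ENNReal.ofReal_mul (by norm_num),
      ← ENNReal.ofReal_mul (by positivity)]
    exact ENNReal.ofReal_le_ofReal (le_of_eq (by ring))
  · rcases hb b hX with h5 | h5
    · exact (h2 z (h5 hz)).trans (h2 w (h5 hw)).symm
    · exact (h3 z fun x hx => h5 x hx z hz).trans (h3 w fun x hx => h5 x hx w hw).symm

theorem tst_log {x y c : ℝ} (hc : 0 < c) (hx : c ≤ x) (hy : c ≤ y) :
    |Real.log x - Real.log y| ≤ |x - y| / c := by
  have key : ∀ x y : ℝ, c ≤ x → c ≤ y → Real.log x - Real.log y ≤ |x - y| / c := by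
    intro x y hx hy
    have h1 := hc.trans_le hx
    have h2 := hc.trans_le hy
    rw [← Real.log_div h1.ne' h2.ne']
    refine (Real.log_le_sub_one_of_pos (div_pos h1 h2)).trans ?_
    rw [div_sub_one h2.ne']
    exact (div_le_div_of_nonneg_right (le_abs_self _) h2.le).trans
      (div_le_div_of_nonneg_left (abs_nonneg _) hc hy)
  exact abs_sub_le_iff.2 ⟨key x y hx hy, abs_sub_comm x y ▸ key y x hy hx⟩

theorem tst_radial (g : ℝ → ENNReal) (hg : Measurable g) (p : ℂ) :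
    ∫⁻ z : ℂ, g ‖z - p‖ =
      (∫⁻ t in Ioi (0 : ℝ), ENNReal.ofReal t * g t) * ENNReal.ofReal (2 * Real.pi) := by
  rw [lintegral_sub_right_eq_self (fun z : ℂ => g ‖z‖) p, ← Complex.lintegral_comp_polarCoord_symm,
    polarCoord_target, setLIntegral_congr_fun (measurableSet_Ioi.prod measurableSet_Ioo)
      (g := fun q : ℝ × ℝ => ENNReal.ofReal q.1 * g q.1 * 1) fun q hq => by
        simp only [Complex.norm_polarCoord_symm, abs_of_pos (mem_Ioi.1 hq.1), smul_eq_mul, mul_one],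
    Measure.volume_eq_prod, ← Measure.prod_restrict,
    lintegral_prod_mul (f := fun t => ENNReal.ofReal t * g t) (g := fun _ => 1)
      (ENNReal.measurable_ofReal.mul hg).aemeasurable aemeasurable_const,
    setLIntegral_const, one_mul, Real.volume_Ioo]
  congr 2
  ring

theorem tst_energy {r R l : ℝ} (hr : 0 < r) (hR : r ≤ R) (hl : 1 ≤ l)
    (he : Real.log (R / r) = l) :
    (∫⁻ t in Ioi (0 : ℝ), ENNReal.ofReal t *
      ENNReal.ofReal ((if t ≤ 2 * R then 2 / (l * max t r) else 0) ^ 2)) *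
        ENNReal.ofReal (2 * Real.pi) ≤ ENNReal.ofReal (60 / l) := by
  have h0 : 0 < l := one_pos.trans_le hl
  have h1 : r ≤ 2 * R := by linarith
  have h2 : ∫⁻ t in Ioc (0 : ℝ) r, ENNReal.ofReal t *
      ENNReal.ofReal ((if t ≤ 2 * R then 2 / (l * max t r) else 0) ^ 2) =
      ENNReal.ofReal (2 / l ^ 2) := by
    rw [setLIntegral_congr_fun measurableSet_Ioc
      (g := fun t => ENNReal.ofReal (4 / (l * r) ^ 2 * t)) fun t ht => by
        simp only [if_pos (ht.2.trans h1), max_eq_right ht.2]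
        rw [← ENNReal.ofReal_mul ht.1.le]
        congr 1
        ring,
      ← ofReal_integral_eq_lintegral_ofReal (f := fun t : ℝ => 4 / (l * r) ^ 2 * t)
        (Continuous.integrableOn_Ioc (by fun_prop))
        (ae_restrict_of_forall_mem measurableSet_Ioc fun t ht =>
          mul_nonneg (by positivity) ht.1.le),
      ← intervalIntegral.integral_of_le hr.le, intervalIntegral.integral_const_mul, integral_id]
    congr 1
    field_simp
    ring
  have h3 : ∫⁻ t in Ioc r (2 * R), ENNReal.ofReal t *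
      ENNReal.ofReal ((if t ≤ 2 * R then 2 / (l * max t r) else 0) ^ 2) =
      ENNReal.ofReal (4 / l ^ 2 * (Real.log 2 + l)) := by
    have h4 : IntegrableOn (fun t : ℝ => 4 / l ^ 2 * t⁻¹) (Ioc r (2 * R)) :=
      ((continuousOn_const.mul (continuousOn_inv₀.mono fun t ht =>
        (hr.trans_le ht.1).ne')).integrableOn_Icc).mono_set Ioc_subset_Icc_self
    rw [setLIntegral_congr_fun measurableSet_Ioc
      (g := fun t => ENNReal.ofReal (4 / l ^ 2 * t⁻¹)) fun t ht => by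
        have h5 := hr.trans ht.1
        simp only [if_pos ht.2, max_eq_left ht.1.le]
        rw [← ENNReal.ofReal_mul h5.le]
        congr 1
        field_simp
        norm_num,
      ← ofReal_integral_eq_lintegral_ofReal h4
        (ae_restrict_of_forall_mem measurableSet_Ioc fun t ht =>
          mul_nonneg (by positivity) (inv_nonneg.2 (hr.trans ht.1).le)),
      ← intervalIntegral.integral_of_le h1, intervalIntegral.integral_const_mul,
      integral_inv_of_pos hr (hr.trans_le h1), mul_div_assoc,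
      Real.log_mul two_ne_zero (div_pos (hr.trans_le hR) hr).ne', he]
  have h4 : ∫⁻ t in Ioi (2 * R), ENNReal.ofReal t *
      ENNReal.ofReal ((if t ≤ 2 * R then 2 / (l * max t r) else 0) ^ 2) = 0 := by
    rw [setLIntegral_congr_fun measurableSet_Ioi (g := fun _ => 0) fun t ht => by
      simp [not_le.2 (mem_Ioi.1 ht)], lintegral_zero]
  have h5 : Ioi (0 : ℝ) ⊆ Ioc 0 r ∪ Ioc r (2 * R) ∪ Ioi (2 * R) := by
    rw [Ioc_union_Ioc_eq_Ioc hr.le h1, Ioc_union_Ioi_eq_Ioi (hr.le.trans h1)]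
  have h6 := (lintegral_mono_set h5).trans ((lintegral_union_le _ _ _).trans
    (add_le_add ((lintegral_union_le _ _ _).trans (add_le_add h2.le h3.le)) h4.le))
  have h7 := Real.log_two_lt_d9
  have h8 := Real.log_pos one_lt_two
  refine (mul_le_mul' h6 le_rfl).trans ?_
  rw [add_zero, ← ENNReal.ofReal_add (by positivity) (by positivity),
    ← ENNReal.ofReal_mul (by positivity)]
  refine ENNReal.ofReal_le_ofReal ?_
  have h9 := Real.pi_lt_d2
  have h10 := Real.pi_pos
  have h11 : (2 + 4 * (Real.log 2 + l)) * (2 * Real.pi) ≤ 60 * l := by nlinarith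
  calc _ = (2 + 4 * (Real.log 2 + l)) * (2 * Real.pi) / l ^ 2 := by ring
    _ ≤ 60 * l / l ^ 2 := div_le_div_of_nonneg_right h11 (by positivity)
    _ = 60 / l := by field_simp

/-- The logarithmic cut-off. -/
theorem log_test (h : Gam γ) (hn : 2 ≤ n) {X : Set (Bool ⊕ R4)} {p : ℂ} (hp : p ∈ EE γ m n)
    {r R : ℝ} (hr : 0 < r) (hR : 1 ≤ Real.log (R / r)) (hR' : 0 < R) (hel : 400 * el γ n ≤ r)
    (hb : ∀ b, Sum.inl b ∉ X → Disjoint (Qs γ (.inl b)) (ball p R)) :
    PT (EE γ m n) (Qs γ) (Ix γ m n) X (closedBall p r) (ball p R)ᶜ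
      (240 * 2 ^ m / Real.log (R / r)) := by
  obtain ⟨l, he⟩ : ∃ l, Real.log (R / r) = l := ⟨_, rfl⟩
  rw [he] at hR ⊢
  have h0 : 0 < l := one_pos.trans_le hR
  have hl := el_pos h n
  have hrR : r ≤ R := by
    by_contra h1
    have := Real.log_nonpos (div_pos hR' hr).le ((div_le_one hr).2 (le_of_not_ge h1))
    linarith
  have hM : ∀ y : ℂ, 0 < max ‖y - p‖ r := fun y => hr.trans_le (le_max_right _ _)
  have h1 : ∀ (a b : ℂ) (c : ℝ), 0 < c → c ≤ max ‖a - p‖ r → c ≤ max ‖b - p‖ r →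
      |max 0 (Real.log (R / max ‖a - p‖ r) / l) - max 0 (Real.log (R / max ‖b - p‖ r) / l)| ≤
        1 / (l * c) * ‖a - b‖ := by
    intro a b c hc ha hb
    rw [max_comm, max_comm 0]
    refine (abs_max_sub_max_le_abs _ _ _).trans ?_
    rw [← sub_div, abs_div, abs_of_pos h0, Real.log_div hR'.ne' (hM a).ne',
      Real.log_div hR'.ne' (hM b).ne', sub_sub_sub_cancel_left, abs_sub_comm,
      one_div_mul_eq_div, mul_comm, ← div_div]
    refine div_le_div_of_nonneg_right ((tst_log hc ha hb).trans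
      (div_le_div_of_nonneg_right ((abs_max_sub_max_le_abs _ _ _).trans ?_) hc.le)) h0.le
    simpa using abs_norm_sub_norm_le (a - p) (b - p)
  have h2 : ∀ z : ℂ, R ≤ ‖z - p‖ → max 0 (Real.log (R / max ‖z - p‖ r) / l) = 0 := fun z hz =>
    max_eq_left (div_nonpos_of_nonpos_of_nonneg (Real.log_nonpos (div_pos hR' (hM z)).le
      ((div_le_one (hM z)).2 (hz.trans (le_max_left _ _)))) h0.le)
  have h3 : ∀ y : ℂ, ∀ a ∈ ball y (max ‖y - p‖ r / 2), max ‖y - p‖ r / 2 ≤ max ‖a - p‖ r := by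
    intro y a ha
    have h4 := mem_ball_iff_norm.1 ha
    have h5 := norm_sub_le_norm_sub_add_norm_sub y a p
    rw [norm_sub_rev y a] at h5
    rcases le_total ‖y - p‖ r with h6 | h6
    · rw [max_eq_right h6]
      exact le_max_of_le_right (by linarith)
    · rw [max_eq_left h6] at h4 ⊢
      exact le_max_of_le_left (by linarith)
  have h4 : Measurable fun t : ℝ => if t ≤ 2 * R then 2 / (l * max t r) else 0 :=
    Measurable.ite measurableSet_Iic (by fun_prop) measurable_const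
  refine (gen_test h hn (α := closedBall p r) (β := (ball p R)ᶜ)
    (U := fun z => max 0 (Real.log (R / max ‖z - p‖ r) / l))
    (Lt := fun y => if ‖y - p‖ ≤ 2 * R then 2 / (l * max ‖y - p‖ r) else 0)
    (tt := fun y => max ‖y - p‖ r / 2) (L' := ⟨1 / (l * r), by positivity⟩) (L := 2 / r)
    (En := 60 / l) (LipschitzWith.of_dist_le_mul fun a b => ?_) (fun z hz => ?_)
    (fun w hw => (h2 w (le_of_not_gt fun h5 => hw (mem_ball_iff_norm.2 h5))).le)
    (h4.comp (by fun_prop)) (fun y => ?_) (fun y a ha b hb => ?_) (fun y => ?_) (fun y => ?_)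
    ?_ (by positivity) ?_ fun b hX z hz w hw => ?_).mono subset_rfl subset_rfl
    (le_of_eq (by ring))
  · rw [Real.dist_eq, dist_eq_norm]
    exact h1 a b r hr (le_max_right _ _) (le_max_right _ _)
  · rw [max_eq_right (mem_closedBall_iff_norm.1 hz), he, div_self h0.ne']
    exact le_max_right _ _
  · have h5 := hM y
    split_ifs
    · refine ⟨by positivity, div_le_div_of_nonneg_left zero_le_two hr ?_⟩
      nlinarith [le_max_right ‖y - p‖ r]
    · exact ⟨le_rfl, by positivity⟩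
  · have h5 := hM y
    split_ifs with h6
    · refine (h1 a b _ (half_pos h5) (h3 y a ha) (h3 y b hb)).trans_eq ?_
      field_simp
    · have h7 : ∀ a ∈ ball y (max ‖y - p‖ r / 2), R ≤ ‖a - p‖ := fun a ha => by
        have h8 := mem_ball_iff_norm.1 ha
        have h9 := norm_sub_le_norm_sub_add_norm_sub y a p
        rw [norm_sub_rev y a] at h9
        rw [max_eq_left (by linarith)] at h8
        linarith
      rw [h2 a (h7 a ha), h2 b (h7 b hb), sub_self, abs_zero, zero_mul]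
  · have h5 := infDist_le_dist_of_mem (x := y) hp
    rw [dist_eq_norm] at h5
    linarith [le_max_left ‖y - p‖ r]
  · linarith [le_max_right ‖y - p‖ r]
  · rw [div_mul_eq_mul_div, div_le_iff₀ hr]
    linarith
  · refine (setLIntegral_le_lintegral _ _).trans ?_
    rw [tst_radial (fun t => ENNReal.ofReal ((if t ≤ 2 * R then 2 / (l * max t r) else 0) ^ 2))
      (ENNReal.measurable_ofReal.comp (h4.pow_const 2)) p]
    exact tst_energy hr hrR hR he
  · have h5 : ∀ z ∈ Qs γ (.inl b), R ≤ ‖z - p‖ := fun z hz =>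
      le_of_not_gt fun h6 => disjoint_left.1 (hb b hX) hz (mem_ball_iff_norm.2 h6)
    exact (h2 z (h5 z hz)).trans (h2 w (h5 w hw)).symm

end Pool.Agent.Lib.MP_44acff_gt.EK
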