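import Pool.Agent.Lib.MP_44acff_gt.EK.Top
import Pool.Agent.Lib.MP_44acff_gt.EK.Tst

open Set Metric Topology Filter MeasureTheory

namespace Pool.Agent.Lib.MP_44acff_gt.EK

noncomputable section

/-- The width of the collars. -/
def eta (γ : ℝ) (j : ℕ) : ℝ := γ / 4 * (1 / 4) ^ (j + 2)

/-- The open pieces. -/
def Wp (γ : ℝ) (j : ℕ) : Bool ⊕ ℝ × ℝ → Set ℂ
  | .inl true => {z | rho z < aa γ + 2 * eta γ j}
  | .inl false => {z | 1 / 2 + γ - 2 * eta γ j < rho z}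
  | .inr a => {z | z.re ∈ Ioo (a.1 - 2 * eta γ j) (a.1 + el γ (j + 2) + 2 * eta γ j) ∧
      z.im ∈ Ioo (a.2 - 2 * eta γ j) (a.2 + el γ (j + 2) + 2 * eta γ j)}

/-- The indices of the open pieces. -/
def Ap (γ : ℝ) (j : ℕ) : Finset (Bool ⊕ ℝ × ℝ) := Finset.univ.disjSum (Act γ (j + 2))

/-- The bounded part. -/
def Op (γ : ℝ) (j : ℕ) : Set ℂ :=
  {z | rho z < 1 / 2 + γ - eta γ j ∧ aa γ + eta γ j < rho z ∧ ∀ a ∈ Act γ (j + 2),
    z ∉ box (a.1 - eta γ j, a.1 + el γ (j + 2) + eta γ j,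
      a.2 - eta γ j, a.2 + el γ (j + 2) + eta γ j)}

/-- The anchor. -/
def Zp (γ : ℝ) : Set ℂ := box (0, 1, -γ / 2, -γ / 2)

/-- The base point. -/
def op (γ : ℝ) : ℂ := ⟨1 / 2, -γ / 2⟩

end

variable {γ : ℝ}

theorem tre_eta (h : Gam γ) (j : ℕ) : 0 < eta γ j ∧ 64 * eta γ j ≤ γ := by
  have h0 := h.1
  have h1 : (1 / 4 : ℝ) ^ j ≤ 1 := pow_le_one₀ (by norm_num) (by norm_num)
  refine ⟨by unfold eta; positivity, ?_⟩
  unfold eta
  rw [pow_add]
  nlinarith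

theorem tre_rho {z w : ℂ} {t : ℝ} (h1 : |z.re - w.re| ≤ t) (h2 : |z.im - w.im| ≤ t) :
    rho z ≤ rho w + t := by
  have h3 := abs_sub_le z.re w.re (1 / 2)
  have h4 := abs_sub_le z.im w.im (1 / 2)
  have h5 := le_max_left |w.re - 1 / 2| |w.im - 1 / 2|
  have h6 := le_max_right |w.re - 1 / 2| |w.im - 1 / 2|
  unfold rho
  exact max_le (by linarith) (by linarith)

theorem tre_rho' (z w : ℂ) : rho z ≤ rho w + ‖z - w‖ ∧ rho w ≤ rho z + ‖z - w‖ := by
  have h1 := Complex.abs_re_le_norm (z - w)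
  have h2 := Complex.abs_im_le_norm (z - w)
  rw [Complex.sub_re] at h1
  rw [Complex.sub_im] at h2
  exact ⟨tre_rho h1 h2, tre_rho (by rwa [abs_sub_comm]) (by rwa [abs_sub_comm])⟩

theorem tre_clamp {x a l t : ℝ} (hl : 0 ≤ l) (ht : 0 ≤ t) (h : x ∈ Icc (a - t) (a + l + t)) :
    ∃ y ∈ Icc a (a + l), |x - y| ≤ t := by
  obtain ⟨h1, h2⟩ := h
  rcases le_total x a with h3 | h3
  · exact ⟨a, ⟨le_rfl, by linarith⟩, abs_le.2 ⟨by linarith, by linarith⟩⟩
  rcases le_total x (a + l) with h4 | h4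
  · exact ⟨x, ⟨h3, h4⟩, by simpa using ht⟩
  · exact ⟨a + l, ⟨by linarith, le_rfl⟩, abs_le.2 ⟨by linarith, by linarith⟩⟩

/-- A square with a margin. -/
noncomputable def treFat (γ : ℝ) (n : ℕ) (a : ℝ × ℝ) (t : ℝ) : R4 :=
  (a.1 - t, a.1 + el γ n + t, a.2 - t, a.2 + el γ n + t)

theorem tre_near (h : Gam γ) {n : ℕ} {a : ℝ × ℝ} {t : ℝ} (ht : 0 ≤ t) {z : ℂ}
    (hz : z ∈ box (treFat γ n a t)) :
    ∃ w ∈ box (sq γ n a), |z.re - w.re| ≤ t ∧ |z.im - w.im| ≤ t := by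
  obtain ⟨x, hx, hx'⟩ := tre_clamp (el_pos h n).le ht hz.1
  obtain ⟨y, hy, hy'⟩ := tre_clamp (el_pos h n).le ht hz.2
  exact ⟨⟨x, y⟩, ⟨hx, hy⟩, hx', hy'⟩

theorem tre_loc (h : Gam γ) {j : ℕ} {a : ℝ × ℝ} (ha : a ∈ Act γ (j + 2)) {t : ℝ} (ht : 0 ≤ t)
    {z : ℂ} (hz : z ∈ box (treFat γ (j + 2) a t)) :
    aa γ + γ / 8 - t ≤ rho z ∧ rho z ≤ 1 / 2 + t := by
  obtain ⟨w, hw, h1, h2⟩ := tre_near h ht hz
  obtain ⟨h3, h4, -⟩ := sq_loc h (by omega) ha hw
  have h5 := tre_rho h1 h2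
  have h6 := tre_rho (z := w) (w := z) (t := t) (by rwa [abs_sub_comm]) (by rwa [abs_sub_comm])
  constructor <;> linarith

theorem tre_sep (h : Gam γ) {j : ℕ} {a a' : ℝ × ℝ} (ha : a ∈ Act γ (j + 2))
    (ha' : a' ∈ Act γ (j + 2)) (hne : a ≠ a') {t : ℝ} (ht : 0 ≤ t) {z w : ℂ}
    (hz : z ∈ box (treFat γ (j + 2) a t)) (hw : w ∈ box (treFat γ (j + 2) a' t)) :
    8 * eta γ j - 2 * t ≤ ‖z - w‖ := by
  obtain ⟨z', hz', h1, h2⟩ := tre_near h ht hz
  obtain ⟨w', hw', h3, h4⟩ := tre_near h ht hw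
  have h5 := sq_sep h ha ha' hne hz' hw'
  have h6 := Complex.abs_re_le_norm (z - w)
  have h7 := Complex.abs_im_le_norm (z - w)
  rw [Complex.sub_re] at h6
  rw [Complex.sub_im] at h7
  have h8 : 8 * eta γ j = 2 * γ * (1 / 4) ^ (j + 2) := by unfold eta; ring
  rw [abs_le] at h1 h2 h3 h4 h6 h7
  have h9 : max |z'.re - w'.re| |z'.im - w'.im| ≤ ‖z - w‖ + 2 * t :=
    max_le (abs_le.2 ⟨by linarith, by linarith⟩) (abs_le.2 ⟨by linarith, by linarith⟩)
  linarith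

theorem tre_Wp_fat {j : ℕ} {a : ℝ × ℝ} {z : ℂ} (hz : z ∈ Wp γ j (.inr a)) :
    z ∈ box (treFat γ (j + 2) a (2 * eta γ j)) :=
  ⟨Ioo_subset_Icc_self hz.1, Ioo_subset_Icc_self hz.2⟩

theorem tre_fat_Wp {j : ℕ} {a : ℝ × ℝ} {t : ℝ} (ht : t < 2 * eta γ j) {z : ℂ}
    (hz : z ∈ box (treFat γ (j + 2) a t)) : z ∈ Wp γ j (.inr a) := by
  obtain ⟨⟨h1, h2⟩, h3, h4⟩ := hz
  simp only [treFat] at h1 h2 h3 h4
  exact ⟨⟨by linarith, by linarith⟩, by linarith, by linarith⟩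

theorem tre_sq_Wp (h : Gam γ) (j : ℕ) (a : ℝ × ℝ) : box (sq γ (j + 2) a) ⊆ Wp γ j (.inr a) := by
  rintro z ⟨⟨h1, h2⟩, h3, h4⟩
  have h0 := (tre_eta h j).1
  simp only [sq] at h1 h2 h3 h4
  exact ⟨⟨by linarith, by linarith⟩, by linarith, by linarith⟩

theorem tre_corner (h : Gam γ) (n : ℕ) (a : ℝ × ℝ) : (⟨a.1, a.2⟩ : ℂ) ∈ box (sq γ n a) :=
  ⟨⟨le_rfl, le_add_of_nonneg_right (el_pos h n).le⟩, le_rfl,
    le_add_of_nonneg_right (el_pos h n).le⟩

theorem tre_Qs_Wp (h : Gam γ) (j : ℕ) (b : Bool) : Qs γ (.inl b) ⊆ Wp γ j (.inl b) := by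
  have h0 := (tre_eta h j).1
  intro z hz
  cases b
  · have h1 : 1 / 2 + γ ≤ rho z := hz
    show 1 / 2 + γ - 2 * eta γ j < rho z
    linarith
  · have h1 : rho z ≤ aa γ := hz
    show rho z < aa γ + 2 * eta γ j
    linarith

theorem tre_inl (j : ℕ) (b : Bool) : Sum.inl b ∈ Ap γ j :=
  Finset.inl_mem_disjSum.2 (Finset.mem_univ b)

theorem tre_inr {j : ℕ} {a : ℝ × ℝ} : Sum.inr a ∈ Ap γ j ↔ a ∈ Act γ (j + 2) :=
  Finset.inr_mem_disjSum

theorem Wp_far (h : Gam γ) (j : ℕ) {a a' : Bool ⊕ ℝ × ℝ} (ha : a ∈ Ap γ j) (ha' : a' ∈ Ap γ j)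
    (hne : a ≠ a') {z w : ℂ} (hz : z ∈ Wp γ j a) (hw : w ∈ Wp γ j a') :
    4 * eta γ j ≤ ‖z - w‖ := by
  obtain ⟨h0, h1⟩ := tre_eta h j
  obtain ⟨h2, h3⟩ := tre_rho' z w
  have h4 := h.2
  have h5 : aa γ = 1 / 4 + γ / 16 := rfl
  have ht : 0 ≤ 2 * eta γ j := by linarith
  rcases a with (_ | _) | a <;> rcases a' with (_ | _) | a'
  · exact absurd rfl hne
  · have hz' : 1 / 2 + γ - 2 * eta γ j < rho z := hz
    have hw' : rho w < aa γ + 2 * eta γ j := hw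
    linarith
  · have hz' : 1 / 2 + γ - 2 * eta γ j < rho z := hz
    have hw' := tre_loc h (tre_inr.1 ha') ht (tre_Wp_fat hw)
    linarith [hw'.2]
  · have hz' : rho z < aa γ + 2 * eta γ j := hz
    have hw' : 1 / 2 + γ - 2 * eta γ j < rho w := hw
    linarith
  · exact absurd rfl hne
  · have hz' : rho z < aa γ + 2 * eta γ j := hz
    have hw' := tre_loc h (tre_inr.1 ha') ht (tre_Wp_fat hw)
    linarith [hw'.1]
  · have hz' := tre_loc h (tre_inr.1 ha) ht (tre_Wp_fat hz)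
    have hw' : 1 / 2 + γ - 2 * eta γ j < rho w := hw
    linarith [hz'.2]
  · have hz' := tre_loc h (tre_inr.1 ha) ht (tre_Wp_fat hz)
    have hw' : rho w < aa γ + 2 * eta γ j := hw
    linarith [hz'.1]
  · have h6 := tre_sep h (tre_inr.1 ha) (tre_inr.1 ha') (fun e => hne (by rw [e])) ht
      (tre_Wp_fat hz) (tre_Wp_fat hw)
    linarith

theorem tre_uniq (h : Gam γ) (j : ℕ) {a a' : Bool ⊕ ℝ × ℝ} (ha : a ∈ Ap γ j) (ha' : a' ∈ Ap γ j)
    {z : ℂ} (hz : z ∈ Wp γ j a) (hz' : z ∈ Wp γ j a') : a = a' := by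
  by_contra hne
  have h1 := Wp_far h j ha ha' hne hz hz'
  rw [sub_self, norm_zero] at h1
  linarith [(tre_eta h j).1]

theorem tre_kid (h : Gam γ) {m j n : ℕ} (hj : j ≤ n) {a : ℝ × ℝ} (ha : a ∈ Act γ (n + 2)) {x : R4}
    (hx : x ∈ kids γ m (n + 2) a) : ∃ a' ∈ Act γ (j + 2), box x ⊆ Wp γ j (.inr a') := by
  obtain ⟨a', ha', h1⟩ := sq_parent h (j := j + 2) (by omega) (by omega) ha
  exact ⟨a', ha', ((kids_spec h ha hx).2.2.trans h1).trans (tre_sq_Wp h j a')⟩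

theorem Wp_cov' (h : Gam γ) (m : ℕ) {j n : ℕ} (hj : j ≤ n) {i : Bool ⊕ R4}
    (hi : i ∈ Ix γ m (n + 2)) : ∃ a ∈ Ap γ j, Qs γ i ⊆ Wp γ j a := by
  rcases mem_Ix.1 hi with ⟨b, rfl⟩ | ⟨a, ha, x, hx, rfl⟩
  · exact ⟨.inl b, tre_inl j b, tre_Qs_Wp h j b⟩
  · obtain ⟨a', ha', h1⟩ := tre_kid h hj ha hx
    exact ⟨.inr a', tre_inr.2 ha', h1⟩

theorem tre_open (j : ℕ) (a : Bool ⊕ ℝ × ℝ) : IsOpen (Wp γ j a) := by
  rcases a with (_ | _) | a
  · exact isOpen_lt continuous_const rho_lip.continuous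
  · exact isOpen_lt rho_lip.continuous continuous_const
  · exact (isOpen_Ioo.preimage Complex.continuous_re).inter
      (isOpen_Ioo.preimage Complex.continuous_im)

theorem tre_rho_h (t : ℝ) : rho ⟨1 / 2 + t, 1 / 2⟩ = |t| := by
  simp [rho]

theorem tre_not (h : Gam γ) (j : ℕ) {z : ℂ} :
    (∀ b, z ∈ Wp γ j (.inl b) → z ∉ Qs γ (.inl b) → z ∉ EE γ 0 (j + 2)) ∧
      ∀ a ∈ Act γ (j + 2), z ∈ Wp γ j (.inr a) → z ∉ box (sq γ (j + 2) a) →
        z ∉ EE γ 0 (j + 2) := by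
  have h1 : z ∈ EE γ 0 (j + 2) → (∃ b, z ∈ Qs γ (.inl b)) ∨
      ∃ a ∈ Act γ (j + 2), z ∈ box (sq γ (j + 2) a) := fun hz => by
    rcases (mem_EE_zero h).1 hz with h1 | h1 | h1
    · exact Or.inl ⟨true, h1⟩
    · exact Or.inl ⟨false, h1⟩
    · exact Or.inr h1
  refine ⟨fun b hb hb' hz => ?_, fun a ha hb hb' hz => ?_⟩
  · rcases h1 hz with ⟨b', h2⟩ | ⟨a, ha, h2⟩
    · have h3 := Sum.inl_injective
        (tre_uniq h j (tre_inl j b) (tre_inl j b') hb (tre_Qs_Wp h j b' h2))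
      exact hb' (h3 ▸ h2 :)
    · exact Sum.inl_ne_inr (tre_uniq h j (tre_inl j b) (tre_inr.2 ha) hb (tre_sq_Wp h j a h2))
  · rcases h1 hz with ⟨b', h2⟩ | ⟨a', ha', h2⟩
    · exact Sum.inr_ne_inl (tre_uniq h j (tre_inr.2 ha) (tre_inl j b') hb (tre_Qs_Wp h j b' h2))
    · have h3 := Sum.inr_injective
        (tre_uniq h j (tre_inr.2 ha) (tre_inr.2 ha') hb (tre_sq_Wp h j a' h2))
      exact hb' (h3 ▸ h2 :)

theorem Wp_anc (h : Gam γ) (j : ℕ) {a : Bool ⊕ ℝ × ℝ} (ha : a ∈ Ap γ j) :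
    (Wp γ j a \ Einf γ).Nontrivial := by
  obtain ⟨h0, h1⟩ := tre_eta h j
  have h2 := h.1
  have h5 : aa γ = 1 / 4 + γ / 16 := rfl
  refine Set.Nontrivial.mono (s := Wp γ j a \ EE γ 0 (j + 2)) ?_
    (sdiff_subset_sdiff_right (iInter_subset _ j))
  have h3 : ∀ (b : Bool) (t : ℝ), 0 < t →
      (∀ z, rho z = t → z ∈ Wp γ j (.inl b) ∧ z ∉ Qs γ (.inl b)) →
      (Wp γ j (.inl b) \ EE γ 0 (j + 2)).Nontrivial := fun b t ht hb => by
    have e1 := hb ⟨1 / 2 + t, 1 / 2⟩ (by rw [tre_rho_h, abs_of_pos ht])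
    have e2 := hb ⟨1 / 2 + -t, 1 / 2⟩ (by rw [tre_rho_h, abs_neg, abs_of_pos ht])
    refine ⟨_, ⟨e1.1, (tre_not h j).1 b e1.1 e1.2⟩, _, ⟨e2.1, (tre_not h j).1 b e2.1 e2.2⟩,
      fun e => ?_⟩
    have e3 := congrArg Complex.re e
    simp only at e3
    linarith
  rcases a with (_ | _) | a
  · refine h3 false (1 / 2 + γ - eta γ j) (by linarith) fun z hz => ⟨?_, fun h4 => ?_⟩
    · show 1 / 2 + γ - 2 * eta γ j < rho z
      linarith
    · have h6 : 1 / 2 + γ ≤ rho z := h4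
      linarith
  · refine h3 true (aa γ + eta γ j) (by linarith) fun z hz => ⟨?_, fun h4 => ?_⟩
    · show rho z < aa γ + 2 * eta γ j
      linarith
    · have h6 : rho z ≤ aa γ := h4
      linarith
  · have h4 := el_pos h (j + 2)
    have e1 : (⟨a.1 - eta γ j, a.2⟩ : ℂ) ∈ Wp γ j (.inr a) :=
      ⟨⟨by simp only; linarith, by simp only; linarith⟩, by simp only; linarith,
        by simp only; linarith⟩
    have e2 : (⟨a.1, a.2 - eta γ j⟩ : ℂ) ∈ Wp γ j (.inr a) :=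
      ⟨⟨by simp only; linarith, by simp only; linarith⟩, by simp only; linarith,
        by simp only; linarith⟩
    refine ⟨_, ⟨e1, (tre_not h j).2 a (tre_inr.1 ha) e1 fun e => ?_⟩, _,
      ⟨e2, (tre_not h j).2 a (tre_inr.1 ha) e2 fun e => ?_⟩, fun e => ?_⟩
    · have e3 : a.1 ≤ a.1 - eta γ j := e.1.1
      linarith
    · have e3 : a.2 ≤ a.2 - eta γ j := e.2.1
      linarith
    · have e3 := congrArg Complex.re e
      simp only at e3
      linarith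

theorem Wp_conn (h : Gam γ) (m : ℕ) {j n : ℕ} (hj : j ≤ n) {a : Bool ⊕ ℝ × ℝ} (ha : a ∈ Ap γ j) :
    IsPreconnected (Wp γ j a \ EE γ m (n + 2)) := by
  obtain ⟨h0, h1⟩ := tre_eta h j
  by_cases hb : a = .inl false
  · subst hb
    exact (isConnected_outer h (by omega) (η := 2 * eta γ j) (by linarith)
      (by linarith)).isPreconnected
  refine (isConnected_diff_EE h (by omega) (tre_open j a) ?_
    ((Wp_anc h j ha).nonempty.mono sdiff_subset)
    (disjoint_left.2 fun z hz hz' => hb (tre_uniq h j ha (tre_inl j _) hz (tre_Qs_Wp h j _ hz')))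
    fun i hi => ?_).isPreconnected
  · rcases a with (_ | _) | a
    · exact absurd rfl hb
    · exact convex_rho_lt _
    · exact ((convex_Ioo _ _).linear_preimage Complex.reLm).inter
        ((convex_Ioo _ _).linear_preimage Complex.imLm)
  · obtain ⟨a', ha', h2⟩ := Wp_cov' h m hj hi
    by_cases e : a = a'
    · exact Or.inl (e ▸ h2)
    · exact Or.inr (disjoint_left.2 fun z hz hz' => e (tre_uniq h j ha ha' hz (h2 hz')))

theorem Op_conn (h : Gam γ) (j : ℕ) : IsPreconnected (Op γ j) := by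
  obtain ⟨h0, h1⟩ := tre_eta h j
  have h2 := h.1
  have h3 := h.2
  have h4 := el_pos h (j + 2)
  have h5 : aa γ = 1 / 4 + γ / 16 := rfl
  let x : Option (ℝ × ℝ) → R4 := fun o => o.elim (1 / 2 - (aa γ + eta γ j),
    1 / 2 + (aa γ + eta γ j), 1 / 2 - (aa γ + eta γ j), 1 / 2 + (aa γ + eta γ j))
    fun a => treFat γ (j + 2) a (eta γ j)
  have hx : ∀ z, z ∈ box (x none) ↔ rho z ≤ aa γ + eta γ j := fun z => rho_le_iff.symm
  have h6 := isConnected_remove (W := {z | rho z < 1 / 2 + γ - eta γ j})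
    (isOpen_lt rho_lip.continuous continuous_const) (convex_rho_lt _)
    ⟨⟨1 / 2 + 0, 1 / 2⟩, by rw [mem_ofPred, tre_rho_h, abs_zero]; linarith⟩
    (Finset.insertNone (Act γ (j + 2))) x (by
      rintro (_ | a) ha
      · refine ⟨by simp only [x, Option.elim]; linarith, by simp only [x, Option.elim]; linarith,
          fun z hz => ?_⟩
        have h7 := (hx z).1 hz
        show rho z < _
        linarith
      · refine ⟨by simp only [x, Option.elim, treFat]; linarith,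
          by simp only [x, Option.elim, treFat]; linarith, fun z hz => ?_⟩
        have h7 := (tre_loc h (Finset.some_mem_insertNone.1 ha) h0.le hz).2
        show rho z < _
        linarith) (by
      rintro (_ | a) ha (_ | a') ha' hne <;> refine disjoint_left.2 fun z hz hz' => ?_
      · exact hne rfl
      · have h7 := (hx z).1 hz
        have h8 := (tre_loc h (Finset.some_mem_insertNone.1 ha') h0.le hz').1
        linarith
      · have h7 := (hx z).1 hz'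
        have h8 := (tre_loc h (Finset.some_mem_insertNone.1 ha) h0.le hz).1
        linarith
      · have h7 := tre_sep h (Finset.some_mem_insertNone.1 ha) (Finset.some_mem_insertNone.1 ha')
          (fun e => hne (by rw [e])) h0.le hz hz'
        rw [sub_self, norm_zero] at h7
        linarith)
  convert h6.isPreconnected using 1
  ext z
  simp only [Set.mem_sdiff, mem_iUnion, not_exists]
  constructor
  · rintro ⟨e1, e2, e3⟩
    refine ⟨e1, ?_⟩
    rintro (_ | a) ha hz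
    · exact absurd ((hx z).1 hz) (not_le.2 e2)
    · exact e3 a (Finset.some_mem_insertNone.1 ha) hz
  · rintro ⟨e1, e2⟩
    exact ⟨e1, not_le.1 fun e3 => e2 none Finset.none_mem_insertNone ((hx z).2 e3),
      fun a ha => e2 (some a) (Finset.some_mem_insertNone.2 ha)⟩

theorem Op_free (h : Gam γ) (j : ℕ) : closure (Op γ j) ⊆ (Einf γ)ᶜ := by
  intro z hz hz'
  obtain ⟨w, ⟨h1, h2, h3⟩, h4⟩ := Metric.mem_closure_iff.1 hz _ (tre_eta h j).1
  rw [dist_eq_norm] at h4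
  obtain ⟨h5, h6⟩ := tre_rho' z w
  rcases (mem_EE_zero h).1 (mem_iInter.1 hz' j) with h7 | h7 | ⟨a, ha, ⟨e1, e2⟩, e3, e4⟩
  · linarith
  · linarith
  · have h8 := abs_le.1 (Complex.abs_re_le_norm (z - w))
    have h9 := abs_le.1 (Complex.abs_im_le_norm (z - w))
    rw [Complex.sub_re] at h8
    rw [Complex.sub_im] at h9
    simp only [sq] at e1 e2 e3 e4
    exact h3 a ha ⟨⟨by simp only; linarith, by simp only; linarith⟩, by simp only; linarith,
      by simp only; linarith⟩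

theorem tre_Zp (h : Gam γ) {z : ℂ} (hz : z ∈ Zp γ) : rho z = 1 / 2 + γ / 2 := by
  obtain ⟨⟨h1, h2⟩, h3, h4⟩ := hz
  simp only at h1 h2 h3 h4
  have h0 := h.1
  have h5 : |z.im - 1 / 2| = 1 / 2 + γ / 2 := by
    rw [abs_of_nonpos (by linarith)]
    linarith
  unfold rho
  rw [h5]
  exact max_eq_right (abs_le.2 ⟨by linarith, by linarith⟩)

theorem tre_log {r : ℕ → ℝ} (h0 : ∀ j, 0 < r j) (hr : Tendsto r atTop (𝓝 0)) {R ε : ℝ} (hR : 0 < R)
    (hε : 0 < ε) (C : ℝ) :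
    ∀ᶠ j in atTop, 1 ≤ Real.log (R / r j) ∧ C / Real.log (R / r j) ≤ ε := by
  have h1 : Tendsto (fun j => Real.log (R / r j)) atTop atTop := by
    refine Real.tendsto_log_atTop.comp ?_
    simp only [div_eq_mul_inv]
    exact (tendsto_inv_nhdsGT_zero.comp (tendsto_nhdsWithin_iff.2
      ⟨hr, Eventually.of_forall h0⟩)).const_mul_atTop hR
  filter_upwards [h1.eventually_ge_atTop 1, h1.eventually_ge_atTop (C / ε)] with j h2 h3
  refine ⟨h2, ?_⟩
  rw [div_le_iff₀ hε] at h3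
  rw [div_le_iff₀ (by linarith)]
  linarith

theorem tre_el (h : Gam γ) {r : ℝ} (hr : 0 < r) : ∀ᶠ n in atTop, 400 * el γ (n + 2) ≤ r := by
  have h1 := ((tendsto_el h).comp (tendsto_add_atTop_nat 2)).const_mul 400
  rw [mul_zero] at h1
  exact h1.eventually_le_const hr

theorem tree_small (h : Gam γ) (m : ℕ) {ε : ℝ} (hε : 0 < ε) : ∀ᶠ j in atTop,
    ∀ a ∈ Act γ (j + 2), ∀ᶠ n in atTop, PT (EE γ m (n + 2)) (Qs γ) (Ix γ m (n + 2)) ∅
      (Wp γ j (.inr a)) (Zp γ) ε := by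
  have h0 := h.1
  have h00 := h.2
  have hr : ∀ j : ℕ, (0 : ℝ) < 4 * (1 / 2) ^ (j + 2) := fun j => by positivity
  have ht : Tendsto (fun j : ℕ => (4 : ℝ) * (1 / 2) ^ (j + 2)) atTop (𝓝 0) := by
    have h1 := ((tendsto_pow_atTop_nhds_zero_of_lt_one (r := (1 / 2 : ℝ)) (by norm_num)
      (by norm_num)).comp (tendsto_add_atTop_nat 2)).const_mul 4
    rwa [mul_zero] at h1
  filter_upwards [tre_log hr ht (R := γ / 16) (by linarith) hε (240 * 2 ^ m)] with j hj a ha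
  filter_upwards [tre_el h (hr j), eventually_ge_atTop j] with n hn hjn
  have ha' := Act_mono h (show j + 2 ≤ n + 2 by omega) ha
  obtain ⟨h1, h2, -⟩ := sq_loc h (by omega) ha (tre_corner h _ a)
  refine (log_test h (by omega) (mem_EE.2 (Or.inr (Or.inr ⟨a, ha', kids_nonempty h ha'⟩))) (hr j)
    hj.1 (by linarith) hn fun b _ => disjoint_left.2 fun z hz hz' => ?_).mono
    (fun z hz => ?_) (fun z hz hz' => ?_) hj.2
  · rw [mem_ball, dist_eq_norm] at hz'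
    obtain ⟨h3, h4⟩ := tre_rho' z ⟨a.1, a.2⟩
    cases b
    · have h5 : 1 / 2 + γ ≤ rho z := hz
      linarith
    · have h5 : rho z ≤ aa γ := hz
      linarith
  · obtain ⟨⟨e1, e2⟩, e3, e4⟩ := hz
    have h3 := el_le h (j + 2)
    have h4 := el_pos h (j + 2)
    have h5 : 2 * eta γ j ≤ (1 / 2) ^ (j + 2) := by
      have h6 : (1 / 4 : ℝ) ^ (j + 2) ≤ (1 / 2) ^ (j + 2) :=
        pow_le_pow_left₀ (by norm_num) (by norm_num) _
      have h7 : (0 : ℝ) < (1 / 4) ^ (j + 2) := by positivity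
      unfold eta
      nlinarith
    rw [mem_closedBall, dist_eq_norm]
    refine (Complex.norm_le_abs_re_add_abs_im _).trans ?_
    have h6 : |z.re - a.1| ≤ 2 * (1 / 2) ^ (j + 2) := abs_le.2 ⟨by linarith, by linarith⟩
    have h7 : |z.im - a.2| ≤ 2 * (1 / 2) ^ (j + 2) := abs_le.2 ⟨by linarith, by linarith⟩
    simp only [Complex.sub_re, Complex.sub_im]
    linarith
  · rw [mem_ball, dist_eq_norm] at hz'
    have h3 := (tre_rho' z ⟨a.1, a.2⟩).1
    have h4 := tre_Zp h hz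
    linarith

theorem tre_ray {y : ℂ} (hy : 0 < rho y) : ∃ g : ℝ → ℂ, Continuous g ∧ g (rho y) = y ∧
    (∀ t, 0 ≤ t → rho (g t) = t) ∧ ∀ s t, ‖g s - g t‖ ≤ 2 * |s - t| := by
  have h1 : |y.re - 1 / 2| ≤ rho y := le_max_left _ _
  have h2 : |y.im - 1 / 2| ≤ rho y := le_max_right _ _
  have h3 : ∀ s t u : ℝ, |u| ≤ rho y →
      |1 / 2 + s / rho y * u - (1 / 2 + t / rho y * u)| ≤ |s - t| := fun s t u hu => by
    rw [show 1 / 2 + s / rho y * u - (1 / 2 + t / rho y * u) = (s - t) * (u / rho y) by ring,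
      abs_mul, abs_div, abs_of_pos hy]
    exact mul_le_of_le_one_right (abs_nonneg _) ((div_le_one hy).2 hu)
  have h4 : ∀ s t : ℝ, ‖(⟨1 / 2 + s / rho y * (y.re - 1 / 2), 1 / 2 + s / rho y * (y.im - 1 / 2)⟩ -
      ⟨1 / 2 + t / rho y * (y.re - 1 / 2), 1 / 2 + t / rho y * (y.im - 1 / 2)⟩ : ℂ)‖ ≤
      2 * |s - t| := fun s t => by
    refine (Complex.norm_le_abs_re_add_abs_im _).trans ?_
    simp only [Complex.sub_re, Complex.sub_im]
    linarith [h3 s t _ h1, h3 s t _ h2]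
  refine ⟨fun t => ⟨1 / 2 + t / rho y * (y.re - 1 / 2), 1 / 2 + t / rho y * (y.im - 1 / 2)⟩,
    (LipschitzWith.of_dist_le_mul (K := 2) fun s t => ?_).continuous, ?_, fun t ht => ?_, h4⟩
  · rw [dist_eq_norm, Real.dist_eq]
    exact h4 s t
  · apply Complex.ext <;> simp only [div_self hy.ne'] <;> ring
  · have h5 : 0 ≤ t / rho y := div_nonneg ht hy.le
    show max |1 / 2 + t / rho y * (y.re - 1 / 2) - 1 / 2|
      |1 / 2 + t / rho y * (y.im - 1 / 2) - 1 / 2| = t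
    rw [add_sub_cancel_left, add_sub_cancel_left, abs_mul, abs_mul, abs_of_nonneg h5,
      ← mul_max_of_nonneg _ _ h5]
    exact div_mul_cancel₀ t hy.ne'

theorem tre_seg (h : Gam γ) (j : ℕ) (b : Bool) {y : ℂ} (hy : y ∈ Wp γ j (.inl b))
    (hy' : y ∉ Qs γ (.inl b)) : ∃ (α : Set ℂ) (p : ℂ), y ∈ α ∧ IsPreconnected α ∧
      α ⊆ Wp γ j (.inl b) \ Qs γ (.inl b) ∧ p ∈ closure α ∧ p ∈ Qs γ (.inl b) ∧
      α ⊆ closedBall p (4 * eta γ j) ∧ rho p = if b then aa γ else 1 / 2 + γ := by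
  obtain ⟨h0, h1⟩ := tre_eta h j
  have h2 := h.1
  have h5 : aa γ = 1 / 4 + γ / 16 := rfl
  cases b
  · have e1 : 1 / 2 + γ - 2 * eta γ j < rho y := hy
    have e2 : rho y < 1 / 2 + γ := not_le.1 hy'
    obtain ⟨g, g1, g2, g3, g4⟩ := tre_ray (y := y) (by linarith)
    refine ⟨g '' Ico (rho y) (1 / 2 + γ), g (1 / 2 + γ), ⟨_, ⟨le_rfl, e2⟩, g2⟩,
      isPreconnected_Ico.image _ g1.continuousOn, ?_, image_closure_subset_closure_image g1
        ⟨_, by rw [closure_Ico e2.ne]; exact ⟨e2.le, le_rfl⟩, rfl⟩,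
      (g3 _ (by linarith)).ge, ?_, g3 _ (by linarith)⟩
    · rintro _ ⟨t, ⟨t1, t2⟩, rfl⟩
      have e3 := g3 t (by linarith)
      exact ⟨show _ < rho (g t) by linarith, not_le.2 (show rho (g t) < _ by linarith)⟩
    · rintro _ ⟨t, ⟨t1, t2⟩, rfl⟩
      have e3 : |t - (1 / 2 + γ)| ≤ 2 * eta γ j := abs_le.2 ⟨by linarith, by linarith⟩
      rw [mem_closedBall, dist_eq_norm]
      linarith [g4 t (1 / 2 + γ)]
  · have e1 : rho y < aa γ + 2 * eta γ j := hy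
    have e2 : aa γ < rho y := not_le.1 hy'
    obtain ⟨g, g1, g2, g3, g4⟩ := tre_ray (y := y) (by linarith)
    refine ⟨g '' Ioc (aa γ) (rho y), g (aa γ), ⟨_, ⟨e2, le_rfl⟩, g2⟩,
      isPreconnected_Ioc.image _ g1.continuousOn, ?_, image_closure_subset_closure_image g1
        ⟨_, by rw [closure_Ioc e2.ne]; exact ⟨le_rfl, e2.le⟩, rfl⟩,
      (g3 _ (by linarith)).le, ?_, g3 _ (by linarith)⟩
    · rintro _ ⟨t, ⟨t1, t2⟩, rfl⟩
      have e3 := g3 t (by linarith)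
      exact ⟨show rho (g t) < _ by linarith, not_le.2 (show _ < rho (g t) by linarith)⟩
    · rintro _ ⟨t, ⟨t1, t2⟩, rfl⟩
      have e3 : |t - aa γ| ≤ 2 * eta γ j := abs_le.2 ⟨by linarith, by linarith⟩
      rw [mem_closedBall, dist_eq_norm]
      linarith [g4 t (aa γ)]

theorem tree_collar (h : Gam γ) (m : ℕ) {ε : ℝ} (hε : 0 < ε) : ∀ᶠ j in atTop, ∀ b,
    ∀ᶠ n in atTop, ∀ y ∈ Wp γ j (.inl b) \ EE γ m (n + 2), ∃ α : Set ℂ, y ∈ α ∧
      IsPreconnected α ∧ Disjoint α (EE γ m (n + 2)) ∧ (closure α ∩ Qs γ (.inl b)).Nonempty ∧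
      PT (EE γ m (n + 2)) (Qs γ) (Ix γ m (n + 2)) {.inl b} α (Zp γ) ε := by
  have h0 := h.1
  have h00 := h.2
  have h5 : aa γ = 1 / 4 + γ / 16 := rfl
  have hr : ∀ j : ℕ, 0 < 4 * eta γ j := fun j => by linarith [(tre_eta h j).1]
  have ht : Tendsto (fun j : ℕ => 4 * eta γ j) atTop (𝓝 0) := by
    have h1 := (((tendsto_pow_atTop_nhds_zero_of_lt_one (r := (1 / 4 : ℝ)) (by norm_num)
      (by norm_num)).comp (tendsto_add_atTop_nat 2)).const_mul (γ / 4)).const_mul 4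
    rwa [mul_zero, mul_zero] at h1
  filter_upwards [tre_log hr ht (R := γ / 16) (by linarith) hε (240 * 2 ^ m)] with j hj b
  filter_upwards [tre_el h (hr j), eventually_ge_atTop j] with n hn hjn y hy
  have hQ : Qs γ (.inl b) ⊆ EE γ m (n + 2) := fun z hz => by
    cases b
    · exact mem_EE.2 (Or.inr (Or.inl hz))
    · exact mem_EE.2 (Or.inl hz)
  obtain ⟨α, p, h1, h2, h3, h4, h6, h7, h8⟩ := tre_seg h j b hy.1 fun e => hy.2 (hQ e)
  refine ⟨α, h1, h2, disjoint_left.2 fun z hz hz' => (tre_not h j).1 b (h3 hz).1 (h3 hz).2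
    (EE_subset h (by omega) (by omega) hz'), ⟨p, h4, h6⟩,
    (log_test h (by omega) (hQ h6) (hr j) hj.1 (by linarith) hn
      fun b' hb' => disjoint_left.2 fun z hz hz' => ?_).mono h7 (fun z hz hz' => ?_) hj.2⟩
  · rw [mem_ball, dist_eq_norm] at hz'
    obtain ⟨e1, e2⟩ := tre_rho' z p
    cases b <;> cases b'
    · exact hb' rfl
    · have e3 : rho z ≤ aa γ := hz
      have e4 : rho p = 1 / 2 + γ := h8
      linarith
    · have e3 : 1 / 2 + γ ≤ rho z := hz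
      have e4 : rho p = aa γ := h8
      linarith
    · exact hb' rfl
  · rw [mem_ball, dist_eq_norm] at hz'
    obtain ⟨e1, e2⟩ := tre_rho' z p
    have e3 := tre_Zp h hz
    cases b
    · have e4 : rho p = 1 / 2 + γ := h8
      linarith
    · have e4 : rho p = aa γ := h8
      linarith

theorem tree (h : Gam γ) (m : ℕ) : Tree (fun n => EE γ m (n + 2)) (Einf γ) (Qs γ)
    (fun n => Ix γ m (n + 2)) Sum.inl (op γ) (Ap γ) (Wp γ) Sum.inl (Op γ) (Zp γ) := by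
  have h0 := h.1
  have h00 := h.2
  have h5 : aa γ = 1 / 4 + γ / 16 := rfl
  have hZ : ∀ t ∈ Icc (0 : ℝ) 1, (⟨t, -γ / 2⟩ : ℂ) ∈ Zp γ := fun t ht => ⟨ht, le_rfl, le_rfl⟩
  refine ⟨tre_inl, by simp, tre_Qs_Wp h, tre_open, fun j a ha => ?_, fun j a ha => ?_,
    fun j a ha => Wp_anc h j ha, fun j z => ?_, fun j => ?_, Op_conn h, fun j => ?_, Op_free h,
    ⟨(convex_box _).isPreconnected, fun n => disjoint_left.2 fun z hz => ?_⟩,
    ⟨_, hZ 0 (by simp), _, hZ 1 (by simp), by simp⟩,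
    fun j => ⟨36 * 2 ^ m / (4 * eta γ j) ^ 2, fun a ha a' ha' hne => ?_⟩, fun ε hε => ?_,
    fun ε hε => ?_⟩
  · exact (eventually_ge_atTop j).mono fun n hn => Wp_conn h m hn ha
  · refine (eventually_ge_atTop j).mono fun n hn => ?_
    rcases a with b | a
    · exact ⟨.inl b, mem_Ix.2 (Or.inl ⟨b, rfl⟩), tre_Qs_Wp h j b⟩
    · have ha' := Act_mono h (show j + 2 ≤ n + 2 by omega) (tre_inr.1 ha)
      obtain ⟨x, hx, h1⟩ := kids_nonempty (m := m) h ha'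
      obtain ⟨a', h2, h3⟩ := tre_kid h hn ha' hx
      refine ⟨.inr x, mem_Ix.2 (Or.inr ⟨a, ha', x, hx, rfl⟩), ?_⟩
      rw [tre_uniq h j ha (tre_inr.2 h2) (tre_sq_Wp h j a (tre_corner h _ a)) (h3 h1)]
      exact h3
  · have h1 := (tre_eta h j).1
    by_contra h2
    rw [not_or] at h2
    refine h2.1 ⟨not_le.1 fun e => h2.2 ⟨.inl false, tre_inl j _, ?_⟩,
      not_le.1 fun e => h2.2 ⟨.inl true, tre_inl j _, ?_⟩,
      fun a ha e => h2.2 ⟨.inr a, tre_inr.2 ha, tre_fat_Wp (t := eta γ j) (by linarith) e⟩⟩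
    · show 1 / 2 + γ - 2 * eta γ j < rho z
      linarith
    · show rho z < aa γ + 2 * eta γ j
      linarith
  · exact (eventually_ge_atTop j).mono fun n hn i hi => Wp_cov' h m hn hi
  · obtain ⟨h1, h2⟩ := tre_eta h j
    have h3 : rho (op γ) = 1 / 2 + γ / 2 := tre_Zp h (hZ _ ⟨by norm_num, by norm_num⟩)
    refine ⟨by linarith, by linarith, fun a ha e => ?_⟩
    have h4 := (tre_loc h ha h1.le e).2
    linarith
  · have h1 := tre_Zp h hz
    exact notMem_EE_out h (by omega) (by linarith) (by linarith)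
  · refine dist_test h m ((Wp_anc h j ha).nonempty.mono sdiff_subset)
      (by linarith [(tre_eta h j).1]) (fun z hz w hw => Wp_far h j ha ha' hne hz hw) fun b _ => ?_
    by_cases e : a = .inl b
    · exact Or.inl (e ▸ tre_Qs_Wp h j b)
    · exact Or.inr fun z hz w hw => Wp_far h j ha (tre_inl j b) e hz (tre_Qs_Wp h j b hw)
  · filter_upwards [tree_small h m hε] with j hj a ha hb
    rcases a with b | a
    · exact absurd rfl (hb b)
    · exact hj a (tre_inr.1 ha)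
  · filter_upwards [tree_collar h m hε] with j hj b
    filter_upwards [hj b, eventually_ge_atTop j] with n hn hjn
    refine ⟨fun i hi h1 => ?_, hn⟩
    obtain ⟨z, hz⟩ := (Qs_conn h hi).2.nonempty
    rcases mem_Ix.1 hi with ⟨b', rfl⟩ | ⟨a, ha, x, hx, rfl⟩
    · rw [Sum.inl_injective
        (tre_uniq h j (tre_inl j b') (tre_inl j b) (tre_Qs_Wp h j b' hz) (h1 hz))]
    · obtain ⟨a', h2, h3⟩ := tre_kid h hjn ha hx
      exact absurd (tre_uniq h j (tre_inr.2 h2) (tre_inl j b) (h3 hz) (h1 hz)) Sum.inr_ne_inl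

end Pool.Agent.Lib.MP_44acff_gt.EK
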